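import Pool.Agent.H9.JH.Pen

set_option autoImplicit false
set_option linter.unusedSectionVars false

/-!
# JH PenA: `dim D 2 = 2`: commuting multiplications, or a common factor (any class `c ≥ 2`)

`PS` is the common factor structure: `v² = l(v)(m1(v) s1 + m2(v) s2)` for `v ∈ V`, `s1, s2` a basis of `D 2`, `m1, m2` linearly independent on `V`
(dual vectors `v1, v2`), `l ≠ 0` on `V`, and a derivation `Δ` of degree 3 (`Δ = [L_s1, L_v2]`) with
`[L_s1, L_v] = m2(v) Δ`, `[L_s2, L_v] = -m1(v) Δ` for `v ∈ V`; `Δ V ≠ 0`.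

`pencil`. PROOF. `s1, s2, φ1, φ2` from `exists_coord2`. For `v ∈ V`, `h ∈ A` let `D1(v)h = s1(vh) - v(s1h)`, `D2(v)h = s2(vh) - v(s2h)`,
`b_i(v) = φ_i(v²)`. `gJ1 v h`: `b1(v)D1(v)h + b2(v)D2(v)h = 0`.
CASE A: `D1(v)h = D2(v)h = 0` for all `v ∈ V, h ∈ A`: first alternative. CASE B: `D1(v')h' ≠ 0` or `D2(v')h' ≠ 0` for some `v' ∈ V, h' ∈ A`: choose
a functional `τ : A → F` with `δ_i(v) := τ(D_i(v)h')`, `(δ1, δ2) ≠ (0,0)` on `V`, linear in `v`. `b1(v)δ1(v) + b2(v)δ2(v) = 0` for `v ∈ V`.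
* `δ1 ≠ 0` on `V`: otherwise `b2(v)δ2(v) = 0`, so (density: `x + tk`, `pvan`) `b2(v) = 0` for all `v`, but `D 2` is spanned by squares, so `D 2 ⊆ F s1`, contradiction. Same for `δ2`.
* `δ1, δ2` are linearly independent on `V`: if `δ2 = kδ1`, then `δ1(v)(b1 + kb2)(v) = 0`, `b1 + kb2 = 0` on squares, so `φ1 + kφ2 = 0` on `D 2`, contradiction.
* So there is `v2' ∈ V` with `δ2(v2') = 0, δ1(v2') ≠ 0`. For `v ∈ V ∩ ker δ2`: `b1(v)δ1(v) = 0`, so `b1(v) = 0` for all `v ∈ V ∩ ker δ2` (density along `v2'`). Choose `k0 ∈ V`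
 with `δ2(k0) = 1`, `δ1(k0) = 0` (possible by independence). `b1(v) = δ2(v) l(v)` for `v ∈ V`, with
 `l(v) := 2 b1(k0,v) - b1(k0,k0)δ2(v)`, `b1(x,y) = φ1(xy)` [write `v = δ2(v)k0 + k`, `k ∈ ker δ2`, `b1(k,k) = 0`]. Then `δ2(v)(l(v)δ1(v) + b2(v)) = 0`, so
 `b2(v) = -δ1(v)l(v)` (density). So with `m1 = δ2`, `m2 = -δ1`: `v² = l(v)(m1(v)s1 + m2(v)s2)`. `l ≠ 0` on `V` as `b1 ≠ 0`. Choose `v1, v2 ∈ V` with `m_i(v_j) = δ_ij`.
* `gJ1`: `l(v)(m1(v)D1(v) + m2(v)D2(v)) = 0`, so by density `m1(v)D1(v)h + m2(v)D2(v)h = 0` for all `v ∈ V`, `h ∈ A`. `Δ h := D1(v2)h = s1(v2h) - v2(s1h)`. For `m1(v) = 0`: `m2(v)D2(v) = 0`, so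
 `D2(v) = 0` if `m1(v) = 0` (density along `v2` in `ker m1`); so `D2(v) = m1(v)D2(v1)`. Same: `D1(v) = m2(v)D1(v2)`. At `v = v1 + v2`: `D1(v2) + D2(v1) = 0`. So `D1(v) = m2(v)Δ`, `D2(v) = -m1(v)Δ`.
* `der`: `gder`. `deg`: `mul_mem`.
* If `Δ v = 0` for all `v ∈ V` then `Δ = 0` on all `D i`, `i ≥ 1` (`D 2`: `Δ(vw) = 0`; `D n`, `n ≥ 3`, by `gen`, strong induction), so `L_s1, L_s2` commute with `L_v` on `D i`: first alternative. Otherwise second.
-/

namespace JD

universe u

variable {F : Type u} [Field F] {A : Type u} [NonUnitalNonAssocCommRing A] [Module F A]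
  [IsScalarTower F A A] [SMulCommClass F A A] {D : ℕ → Submodule F A} {c : ℕ}

/-- density for quadratic maps -/
private theorem PenA_dens [Infinite F] {W : Type u} [AddCommGroup W] [Module F W]
    (V : Submodule F A) (B : A →ₗ[F] A →ₗ[F] W) (α : A →ₗ[F] F) (k : A) (hk : k ∈ V)
    (hαk : α k ≠ 0) (h : ∀ v ∈ V, α v ≠ 0 → B v v = 0) (x : A) (hx : x ∈ V) : B x x = 0 := by
  let P : Polynomial F := Polynomial.C (α k) * Polynomial.X + Polynomial.C (α x)
  have hP : P ≠ 0 := by
    intro h0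
    have := congrArg (fun R => Polynomial.coeff R 1) h0
    simp [P] at this
    exact hαk this
  let cf : ℕ → W := fun i => if i = 0 then B x x else if i = 1 then B x k + B k x else B k k
  have := pvan P hP 3 cf (by
    intro t ht
    have e1 : α (x + t • k) = P.eval t := by
      simp [P]; ring
    have e2 := h (x + t • k) (V.add_mem hx (V.smul_mem t hk)) (by rw [e1]; exact ht)
    rw [Finset.sum_range_succ, Finset.sum_range_succ, Finset.sum_range_one]
    simp only [cf, pow_zero, one_smul, pow_one, if_true, one_ne_zero, if_false,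
      OfNat.ofNat_ne_zero, OfNat.ofNat_ne_one]
    rw [← e2]
    simp only [map_add, map_smul, LinearMap.add_apply, LinearMap.smul_apply, smul_add,
      smul_smul, pow_two]
    abel) 0 (by norm_num)
  simpa [cf] using this

/-- dual vectors of two independent functionals -/
private theorem PenA_dual (V : Submodule F A) (δ1 δ2 : A →ₗ[F] F)
    (hind : ∀ a b : F, (∀ v ∈ V, a * δ1 v + b * δ2 v = 0) → a = 0 ∧ b = 0) :
    ∃ k1 ∈ V, ∃ k2 ∈ V, δ1 k1 = 1 ∧ δ2 k1 = 0 ∧ δ1 k2 = 0 ∧ δ2 k2 = 1 := by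
  obtain ⟨x, hx, hx1⟩ : ∃ x ∈ V, δ1 x ≠ 0 := by
    by_contra hcon
    push Not at hcon
    have := (hind 1 0 (fun v hv => by rw [hcon v hv]; ring)).1
    exact one_ne_zero this
  obtain ⟨y, hy, hd⟩ : ∃ y ∈ V, δ1 x * δ2 y - δ1 y * δ2 x ≠ 0 := by
    by_contra hcon
    push Not at hcon
    exact hx1 (hind (-δ2 x) (δ1 x) (fun v hv => by linear_combination hcon v hv)).2
  set d := δ1 x * δ2 y - δ1 y * δ2 x with hdd
  refine ⟨d⁻¹ • (δ2 y • x - δ2 x • y), V.smul_mem _ (V.sub_mem (V.smul_mem _ hx) (V.smul_mem _ hy)),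
    d⁻¹ • (δ1 x • y - δ1 y • x), V.smul_mem _ (V.sub_mem (V.smul_mem _ hy) (V.smul_mem _ hx)),
    ?_, ?_, ?_, ?_⟩
  · rw [map_smul, map_sub, map_smul, map_smul, smul_eq_mul, smul_eq_mul, smul_eq_mul]
    rw [show δ2 y * δ1 x - δ2 x * δ1 y = d by rw [hdd]; ring]
    exact inv_mul_cancel₀ hd
  · rw [map_smul, map_sub, map_smul, map_smul, smul_eq_mul, smul_eq_mul, smul_eq_mul]
    ring
  · rw [map_smul, map_sub, map_smul, map_smul, smul_eq_mul, smul_eq_mul, smul_eq_mul]
    ring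
  · rw [map_smul, map_sub, map_smul, map_smul, smul_eq_mul, smul_eq_mul, smul_eq_mul]
    rw [show δ1 x * δ2 y - δ1 y * δ2 x = d by rw [hdd]]
    exact inv_mul_cancel₀ hd

/-- the commutator `[L_s, L_v]` applied to `h`, linear in `v` and `h` -/
private def PenA_com (s : A) : A →ₗ[F] A →ₗ[F] A :=
  LinearMap.mk₂ F (fun v h => s * (v * h) - v * (s * h))
    (fun v w h => by rw [add_mul, add_mul, mul_add]; abel)
    (fun a v h => by rw [smul_mul_assoc, smul_mul_assoc, mul_smul_comm, smul_sub])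
    (fun v h k => by rw [mul_add, mul_add, mul_add, mul_add]; abel)
    (fun a v h => by rw [mul_smul_comm, mul_smul_comm, mul_smul_comm, mul_smul_comm, smul_sub])

private theorem PenA_com_apply (s v h : A) :
    PenA_com (F := F) s v h = s * (v * h) - v * (s * h) := rfl

/-- squares determine the coordinates -/
private theorem PenA_fact (hG : GJ F A c D) {s1 s2 : A} {φ1 φ2 : A →ₗ[F] F} (hs1 : s1 ∈ D 2)
    (hs2 : s2 ∈ D 2) (h11 : φ1 s1 = 1) (h12 : φ1 s2 = 0) (h21 : φ2 s1 = 0) (h22 : φ2 s2 = 1)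
    (a b : F) (h : ∀ v ∈ D 1, a * φ1 (v * v) + b * φ2 (v * v) = 0) : a = 0 ∧ b = 0 := by
  have hT : D 2 ≤ LinearMap.ker (a • φ1 + b • φ2) := by
    refine hG.sq _ fun v hv => ?_
    rw [LinearMap.mem_ker]
    simpa using h v hv
  have e1 := hT hs1
  have e2 := hT hs2
  rw [LinearMap.mem_ker] at e1 e2
  simp [h11, h21] at e1
  simp [h12, h22] at e2
  exact ⟨e1, e2⟩

/-- the core: from one nonzero commutator to the common factor -/
private theorem PenA_core (hG : GJ F A c D) {s1 s2 : A} {φ1 φ2 : A →ₗ[F] F} (hs1 : s1 ∈ D 2)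
    (hs2 : s2 ∈ D 2) (h11 : φ1 s1 = 1) (h12 : φ1 s2 = 0) (h21 : φ2 s1 = 0) (h22 : φ2 s2 = 1)
    (hco : ∀ a ∈ D 2, a = φ1 a • s1 + φ2 a • s2)
    (hb : ∀ v ∈ D 1, ∀ h : A, φ1 (v * v) • PenA_com (F := F) s1 v h +
      φ2 (v * v) • PenA_com (F := F) s2 v h = 0)
    (δ1 δ2 : A →ₗ[F] F) (hδ : ∀ v ∈ D 1, φ1 (v * v) * δ1 v + φ2 (v * v) * δ2 v = 0)
    (hne : ∃ v ∈ D 1, δ1 v ≠ 0 ∨ δ2 v ≠ 0) :
    ∃ l m1 m2 : A →ₗ[F] F, (∀ v ∈ D 1, v * v = l v • (m1 v • s1 + m2 v • s2)) ∧
      (∃ v1 ∈ D 1, ∃ v2 ∈ D 1, m1 v1 = 1 ∧ m2 v1 = 0 ∧ m1 v2 = 0 ∧ m2 v2 = 1) ∧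
      (∃ v ∈ D 1, l v ≠ 0) ∧
      (∀ v ∈ D 1, ∀ h : A, m1 v • PenA_com (F := F) s1 v h +
        m2 v • PenA_com (F := F) s2 v h = 0) := by
  have := hG.inf
  have hfact := PenA_fact hG hs1 hs2 h11 h12 h21 h22
  -- bilinear forms
  let B1 : A →ₗ[F] A →ₗ[F] F := (LinearMap.mul F A).compr₂ φ1
  let B2 : A →ₗ[F] A →ₗ[F] F := (LinearMap.mul F A).compr₂ φ2
  have hB1 : ∀ x y, B1 x y = φ1 (x * y) := fun x y => rfl
  have hB2 : ∀ x y, B2 x y = φ2 (x * y) := fun x y => rfl
  -- independence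
  have hind : ∀ a b : F, (∀ v ∈ D 1, a * δ1 v + b * δ2 v = 0) → a = 0 ∧ b = 0 := by
    intro a b hab
    have key : ∀ v ∈ D 1, (δ1 v ≠ 0 ∨ δ2 v ≠ 0) → (a • B2 - b • B1) v v = 0 := by
      intro v hv hor
      have e1 := hδ v hv
      have e2 := hab v hv
      have e3 : (a • B2 - b • B1) v v = a * φ2 (v * v) - b * φ1 (v * v) := by
        simp [hB1, hB2]
      rw [e3]
      rcases hor with h | h
      · apply mul_left_cancel₀ h
        linear_combination φ2 (v * v) * e2 - b * e1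
      · apply mul_left_cancel₀ h
        linear_combination (-φ1 (v * v)) * e2 + a * e1
    have hall : ∀ v ∈ D 1, (a • B2 - b • B1) v v = 0 := by
      obtain ⟨v', hv', hor⟩ := hne
      rcases hor with h | h
      · exact PenA_dens (D 1) _ δ1 v' hv' h (fun v hv hvn => key v hv (Or.inl hvn))
      · exact PenA_dens (D 1) _ δ2 v' hv' h (fun v hv hvn => key v hv (Or.inr hvn))
    have := hfact (-b) a (fun v hv => by
      have e := hall v hv
      have e3 : (a • B2 - b • B1) v v = a * φ2 (v * v) - b * φ1 (v * v) := by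
        simp [hB1, hB2]
      rw [e3] at e
      linear_combination e)
    exact ⟨this.2, neg_eq_zero.mp this.1⟩
  obtain ⟨k1, hk1, k2, hk2, d11, d21, d12, d22⟩ := PenA_dual (D 1) δ1 δ2 hind
  -- b1 vanishes on ker δ2
  have hb1 : ∀ v ∈ D 1, δ2 v = 0 → φ1 (v * v) = 0 := by
    intro v hv hv0
    have := PenA_dens (D 1 ⊓ LinearMap.ker δ2) B1 δ1 k1 ⟨hk1, d21⟩ (by rw [d11]; exact one_ne_zero)
      (fun w hw hwn => by
        have e1 := hδ w hw.1
        have e2 : δ2 w = 0 := hw.2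
        rw [e2, mul_zero, add_zero] at e1
        exact (mul_eq_zero.mp e1).resolve_right hwn) v ⟨hv, hv0⟩
    exact this
  let l : A →ₗ[F] F := (2 : F) • B1 k2 - φ1 (k2 * k2) • δ2
  have hl : ∀ v, l v = 2 * φ1 (k2 * v) - φ1 (k2 * k2) * δ2 v := fun v => by
    simp [l, hB1]
  have hb1l : ∀ v ∈ D 1, φ1 (v * v) = δ2 v * l v := by
    intro v hv
    have e := hb1 (v - δ2 v • k2) ((D 1).sub_mem hv ((D 1).smul_mem _ hk2)) (by
      rw [map_sub, map_smul, d22, smul_eq_mul, mul_one, sub_self])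
    rw [sub_mul, mul_sub, mul_sub, smul_mul_smul_comm, mul_smul_comm, smul_mul_assoc,
      mul_comm v k2] at e
    simp only [map_sub, map_smul, smul_eq_mul] at e
    rw [hl]
    linear_combination e
  have hb2l : ∀ v ∈ D 1, φ2 (v * v) = -(δ1 v * l v) := by
    intro v hv
    have hall := PenA_dens (D 1) (LinearMap.mk₂ F (fun x y => l x * δ1 y)
        (fun x x' y => by rw [map_add]; ring) (fun a x y => by simp [mul_assoc])
        (fun x y y' => by rw [map_add]; ring) (fun a x y => by simp; ring) + B2) δ2 k2 hk2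
        (by rw [d22]; exact one_ne_zero)
        (fun w hw hwn => by
          have e1 := hδ w hw
          rw [hb1l w hw] at e1
          apply mul_left_cancel₀ hwn
          simp only [LinearMap.add_apply, LinearMap.mk₂_apply, hB2]
          linear_combination e1) v hv
    simp only [LinearMap.add_apply, LinearMap.mk₂_apply, hB2] at hall
    linear_combination hall
  refine ⟨l, δ2, -δ1, ?_, ?_, ?_, ?_⟩
  · intro v hv
    conv_lhs => rw [hco (v * v) (hG.mul_mem 1 1 le_rfl le_rfl v hv v hv)]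
    rw [hb1l v hv, hb2l v hv, smul_add, smul_smul, smul_smul, LinearMap.neg_apply]
    congr 2
    · ring
    · ring
  · refine ⟨k2, hk2, -k1, (D 1).neg_mem hk1, d22, by simp [d12], by simp [d21], by simp [d11]⟩
  · by_contra hcon
    push Not at hcon
    have := (hfact 1 0 (fun v hv => by rw [hb1l v hv, hcon v hv]; ring)).1
    exact one_ne_zero this
  · obtain ⟨vl, hvl, hvl0⟩ : ∃ v ∈ D 1, l v ≠ 0 := by
      by_contra hcon
      push Not at hcon
      have := (hfact 1 0 (fun v hv => by rw [hb1l v hv, hcon v hv]; ring)).1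
      exact one_ne_zero this
    intro v hv h
    have hall := PenA_dens (D 1) (LinearMap.mk₂ F (fun x y => δ2 x • PenA_com (F := F) s1 y h -
          δ1 x • PenA_com (F := F) s2 y h)
        (fun x x' y => by rw [map_add, map_add, add_smul, add_smul]; abel)
        (fun a x y => by rw [map_smul, map_smul, smul_eq_mul, smul_eq_mul, mul_smul, mul_smul,
          smul_sub])
        (fun x y y' => by
          rw [map_add, map_add, LinearMap.add_apply, LinearMap.add_apply, smul_add, smul_add]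
          abel)
        (fun a x y => by
          rw [map_smul, map_smul, LinearMap.smul_apply, LinearMap.smul_apply, smul_comm _ a,
            smul_comm _ a, smul_sub])) l vl hvl hvl0
        (fun w hw hwn => by
          have e1 := hb w hw h
          rw [hb1l w hw, hb2l w hw] at e1
          rw [LinearMap.mk₂_apply]
          have e2 : l w • (δ2 w • PenA_com (F := F) s1 w h - δ1 w • PenA_com (F := F) s2 w h) = 0 := by
            rw [← e1, smul_sub, smul_smul, smul_smul, neg_smul, mul_comm (l w) (δ2 w),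
              mul_comm (l w) (δ1 w)]
            abel
          exact (smul_eq_zero.mp e2).resolve_left hwn) v hv
    rw [LinearMap.mk₂_apply] at hall
    rw [LinearMap.neg_apply, neg_smul, ← sub_eq_add_neg]
    exact hall

theorem pencil (hG : GJ F A c D) (h2 : Module.finrank F (D 2) = 2) :
    (∀ v ∈ D 1, ∀ q ∈ D 2, ∀ i, 1 ≤ i → ∀ h ∈ D i, v * (q * h) = q * (v * h)) ∨
    ∃ (s1 s2 : A) (l m1 m2 : A →ₗ[F] F) (Δ : A →ₗ[F] A), PS D s1 s2 l m1 m2 Δ := by
  have := hG.inf
  have := hG.fin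
  obtain ⟨s1, hs1, s2, hs2, φ1, φ2, h11, h12, h21, h22, hco⟩ := exists_coord2 h2
  have hb : ∀ v ∈ D 1, ∀ h : A, φ1 (v * v) • PenA_com (F := F) s1 v h +
      φ2 (v * v) • PenA_com (F := F) s2 v h = 0 := by
    intro v hv h
    have e := gJ1 hG.jordan v h
    have e2 := hco (v * v) (hG.mul_mem 1 1 le_rfl le_rfl v hv v hv)
    generalize φ1 (v * v) = b1 at e2 ⊢
    generalize φ2 (v * v) = b2 at e2 ⊢
    rw [e2] at e
    simp only [add_mul, smul_mul_assoc, mul_add, mul_smul_comm] at e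
    rw [PenA_com_apply, PenA_com_apply, smul_sub, smul_sub]
    linear_combination (norm := abel) e
  -- the commutator with an element of `D 2`
  have hq : ∀ (v h : A) (a b : F), v * ((a • s1 + b • s2) * h) =
      (a • s1 + b • s2) * (v * h) -
        (a • PenA_com (F := F) s1 v h + b • PenA_com (F := F) s2 v h) := by
    intro v h a b
    rw [PenA_com_apply, PenA_com_apply]
    simp only [add_mul, smul_mul_assoc, mul_add, mul_smul_comm, smul_sub]
    abel
  by_cases hA : ∀ v ∈ D 1, ∀ h : A, PenA_com (F := F) s1 v h = 0 ∧ PenA_com (F := F) s2 v h = 0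
  · left
    intro v hv q hqq i _ h _
    rw [hco q hqq, hq, (hA v hv h).1, (hA v hv h).2]
    simp
  -- a functional
  obtain ⟨v', hv', h', hne⟩ : ∃ v ∈ D 1, ∃ h : A, PenA_com (F := F) s1 v h ≠ 0 ∨
      PenA_com (F := F) s2 v h ≠ 0 := by
    by_contra hcon
    push Not at hcon
    exact hA hcon
  obtain ⟨τ, hτ⟩ : ∃ τ : A →ₗ[F] F, τ (PenA_com (F := F) s1 v' h') ≠ 0 ∨
      τ (PenA_com (F := F) s2 v' h') ≠ 0 := by
    by_contra hcon
    push Not at hcon
    rcases hne with h | h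
    · exact h ((Module.forall_dual_apply_eq_zero_iff F _).mp fun τ => (hcon τ).1)
    · exact h ((Module.forall_dual_apply_eq_zero_iff F _).mp fun τ => (hcon τ).2)
  obtain ⟨l, m1, m2, hsq, ⟨v1, hv1, v2, hv2, m11, m21, m12, m22⟩, hlne, hm⟩ :=
    PenA_core hG hs1 hs2 h11 h12 h21 h22 hco hb
      (τ ∘ₗ (PenA_com (F := F) s1).flip h') (τ ∘ₗ (PenA_com (F := F) s2).flip h')
      (fun v hv => by
        have := congrArg τ (hb v hv h')
        simpa using this) ⟨v', hv', by simpa using hτ⟩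
  -- polarisation
  have hpol : ∀ v ∈ D 1, ∀ w ∈ D 1, ∀ h : A, m1 v • PenA_com (F := F) s1 w h +
      m1 w • PenA_com (F := F) s1 v h + m2 v • PenA_com (F := F) s2 w h +
      m2 w • PenA_com (F := F) s2 v h = 0 := by
    intro v hv w hw h
    have e1 := hm (v + w) ((D 1).add_mem hv hw) h
    have e2 := hm v hv h
    have e3 := hm w hw h
    simp only [map_add, LinearMap.add_apply, add_smul, smul_add] at e1
    linear_combination (norm := abel) e1 - e2 - e3
  have hz1 : ∀ h : A, PenA_com (F := F) s1 v1 h = 0 := by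
    intro h
    have := hm v1 hv1 h
    rwa [m11, m21, one_smul, zero_smul, add_zero] at this
  have hz2 : ∀ h : A, PenA_com (F := F) s2 v2 h = 0 := by
    intro h
    have := hm v2 hv2 h
    rwa [m12, m22, one_smul, zero_smul, zero_add] at this
  let Δ : A →ₗ[F] A := PenA_com (F := F) s1 v2
  have hD2 : ∀ v ∈ D 1, ∀ h : A, PenA_com (F := F) s2 v h = -(m1 v • Δ h) := by
    intro v hv h
    have := hpol v hv v2 hv2 h
    rw [m12, m22, hz2, zero_smul, one_smul, smul_zero, add_zero, add_zero] at this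
    exact (neg_eq_of_add_eq_zero_right this).symm
  have hD1 : ∀ v ∈ D 1, ∀ h : A, PenA_com (F := F) s1 v h = m2 v • Δ h := by
    intro v hv h
    have := hpol v hv v1 hv1 h
    rw [m11, m21, hz1, zero_smul, one_smul, smul_zero, add_zero, zero_add, hD2 v1 hv1, m11,
      one_smul, smul_neg] at this
    exact sub_eq_zero.mp (by rw [sub_eq_add_neg]; exact this)
  have hder : ∀ p q : A, Δ (p * q) = Δ p * q + p * Δ q :=
    fun p q => gder F hG.two hG.jordan s1 v2 p q
  by_cases hΔ : ∀ v ∈ D 1, Δ v = 0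
  · left
    have hall : ∀ i, 1 ≤ i → ∀ h ∈ D i, Δ h = 0 := by
      intro i
      induction i using Nat.strong_induction_on with
      | _ n ih =>
        intro hn
        rcases Nat.lt_or_ge n 3 with hlt | hge
        · interval_cases n
          · exact hΔ
          · have : D 2 ≤ LinearMap.ker Δ := hG.gen2 _ fun v hv w hw => by
              rw [LinearMap.mem_ker, hder, hΔ v hv, hΔ w hw, zero_mul, mul_zero, add_zero]
            exact fun h hh => this hh
        · have : D n ≤ LinearMap.ker Δ := hG.gen n hge _ (fun v hv h hh => by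
              rw [LinearMap.mem_ker, hder, hΔ v hv, ih (n - 1) (by omega) (by omega) h hh,
                zero_mul, mul_zero, add_zero]) (fun q hqq h hh => by
              rw [LinearMap.mem_ker, hder, ih 2 (by omega) (by omega) q hqq,
                ih (n - 2) (by omega) (by omega) h hh, zero_mul, mul_zero, add_zero])
          exact fun h hh => this hh
    intro v hv q hqq i hi h hh
    rw [hco q hqq, hq, hD1 v hv h, hD2 v hv h, hall i hi h hh]
    simp
  · right
    push Not at hΔ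
    refine ⟨s1, s2, l, m1, m2, Δ, ⟨hs1, hs2, fun q hqq => ⟨_, _, hco q hqq⟩, ?_, hsq,
      ⟨v1, hv1, v2, hv2, m11, m21, m12, m22⟩, hlne, fun v hv h => hD1 v hv h,
      fun v hv h => hD2 v hv h, hder, ?_, hΔ⟩⟩
    · intro a b hab
      have e1 := congrArg φ1 hab
      have e2 := congrArg φ2 hab
      simp only [map_add, map_smul, map_zero, h11, h12, h21, h22, smul_eq_mul, mul_one, mul_zero,
        add_zero, zero_add] at e1 e2
      exact ⟨e1, e2⟩
    · intro i hi h hh
      have a1 : s1 * (v2 * h) ∈ D (i + 3) := by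
        have := hG.mul_mem 2 (1 + i) (by omega) (by omega) s1 hs1 _
          (hG.mul_mem 1 i le_rfl hi v2 hv2 h hh)
        rwa [show 2 + (1 + i) = i + 3 by omega] at this
      have a2 : v2 * (s1 * h) ∈ D (i + 3) := by
        have := hG.mul_mem 1 (2 + i) (by omega) (by omega) v2 hv2 _
          (hG.mul_mem 2 i (by omega) hi s1 hs1 h hh)
        rwa [show 1 + (2 + i) = i + 3 by omega] at this
      exact (D (i + 3)).sub_mem a1 a2

end JD
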