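import Pool.Agent.H9.JH.Defs

set_option autoImplicit false

/-!
# JH H3C: `dim D 3 = 1`, `v a = η(v) g`, `g ≠ 0`: reduction to `c = η η η` (class 6)

`D 3 = F a`, `κ` the coordinate (`h = κ h • a`), `χ(v,q) = κ(v q)`, `c(h;x,y) = κ(h (x y))`, `v a = η(v) g`, `η ≠ 0`.
`π(q) := q a ∈ D 5`, `ψ(v) := v g ∈ D 5`. `W = V ∩ ker η`. `e ∈ V`, `η(e) = 1`.

CONCLUSION: `c(h;x,y) = c0 η(h) η(x) η(y)` for a constant `c0 ≠ 0`.

PROOF. (S) `L(w;x,y,z) := c(w;x,y) η(z) + c(w;y,z) η(x) + c(w;z,x) η(y)` is symmetric in all four arguments: `gJ3 x y z` on `w`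
says `L(w;x,y,z) g = (xy)(zw) + (yz)(xw) + (zx)(yw)`, and `g ≠ 0`.
(k1) `c(w;w',w'') = L(w;w',w'',e) = L(e;w',w'',w) = 0` for `w,w',w'' ∈ W`.
(k2) `L(w;e,e,w') = 2c(w;e,w')`, `L(e;e,w,w') = c(e;w,w')`: `c(e;w,w') = 2c(w;e,w') = 2c(w';e,w)` for `w, w' ∈ W`.
(k3) `L(w;e,e,e) = 3c(w;e,e)`, `L(e;e,e,w) = 2c(e;e,w)`: `3c(w;e,e) = 2c(e;e,w)`.
Define the symmetric bilinear `K` on `V = F e + W`: `K(w,w') = 2c(e;w,w')`, `K(e,w) = K(w,e) = 2c(w;e,e)`, `K(e,e) = c(e;e,e)`. Then for all `h,x,y`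
  (K) `c(h;x,y) = 1/2 η(h)K(x,y) + 1/4 η(x)K(y,h) + 1/4 η(y)K(x,h)`.
(5a) `gJ3 x y q` on `h`: `(xy)(qh) + (yq)(xh) + (qx)(yh) = q((xy)h) + x((yq)h) + y((qx)h)`, i.e.
  `c(h;x,y)π(q) + η(h)[χ(y,q)ψ(x) + χ(x,q)ψ(y)] = χ(h,q)π(xy) + χ(y,q)π(xh) + χ(x,q)π(yh)`; the right side is symmetric in `h,x,y`. Compare
`(h,x,y) = (e,w,y)` and `(w,e,y)`, `w ∈ W`, `y ∈ V`, using (K):
  (E1) `1/4 K(y,w)π(q) + χ(y,q)ψ(w) + χ(w,q)ψ(y) = 0`.
FACT P: `π = 0` and `ψ = 0` is impossible: `gJ1 x a`: `x(x²a) = x²(xa) = η(x) x² g`, so `x² g = 0` if `η(x) ≠ 0`, hence for all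
`x ∈ V` (consider `x + t e`, `pvan'`), so `D 2 g = 0`, `V g = 0`, so `g = 0`, contradiction.
CASE (i) `K(w,w) ≠ 0` for some `w ∈ W`. (E1) `y = w`: `1/4 K(w,w)π(q) + 2χ(w,q)ψ(w) = 0`; `q = ww`: `χ(w,ww) = 0` by (k1), so
`π(ww) = 0`; (E1) with `q = ww`, `y = e`: `c(e;w,w)ψ(w) = 1/2 K(w,w)ψ(w) = 0`; so `ψ(w) = 0`, so `π = 0`; (E1) with `q = ew`:
`c(w;e,w)ψ(y) = 1/4 K(w,w)ψ(y) = 0` for all `y`. So `ψ = 0`: FACT P.
CASE (ii) `K(W,W) = 0` but `K(e,w) ≠ 0` for some `w ∈ W`. Put `m(w) = K(e,w)` for `w ∈ W`, `m(e) = 1/2 K(e,e)`, so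
`K(y,z) = η(y)m(z) + η(z)m(y)`. Replace `e` by `e + w'` with `w' ∈ W` suitable: `m(e) = 0` (`η(e) = 1` still). Choose `f ∈ W` with
`m(f) = 1`. By (K): `c(h;p,r) = 3/4 η(h)η(p)m(r) + 3/4 η(h)η(r)m(p) + 1/2 η(p)η(r)m(h)`. (E1) with `y = w' ∈ W`, `q = ee`
(`χ(w,ee) = 1/2 m(w)`): `m(w')ψ(w) + m(w)ψ(w') = 0`; `w = w' = f`: `ψ(f) = 0`; `w' = f`: `ψ(w) = 0` for all `w ∈ W`. So
`ψ(v) = η(v) t`, `t = e g`. (E1) with `y = e`, `w = f`: `1/4 π(q) + χ(f,q) t = 0`, and `χ(f,xy) = 1/2 η(x)η(y)`, so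
`π(xy) = -2 η(x)η(y) t`. Now `e(ef) = 3/4 a`, `f(ee) = 1/2 a`. `gJ1 e f`: `(ee)(ef) = e((ee)f) = 1/2 e a = 1/2 g`. `gJ1 e (ef)`:
`(ee)(e(ef)) = e((ee)(ef))`: left `3/4 π(ee) = -3/2 t`, right `1/2 t`. So `2t = 0`, `t = 0`, `ψ = 0`, `π = 0`: FACT P.
CASE (iii) `K(W,V) = 0`: `c(h;x,y) = K(e,e) η(h)η(x)η(y)`; `K(e,e) ≠ 0` since otherwise `κ(V (V V)) = 0`, `D 3 = 0`.
-/

namespace JD

universe u

variable {F : Type u} [Field F] {A : Type u} [NonUnitalNonAssocCommRing A] [Module F A]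
  [IsScalarTower F A A] [SMulCommClass F A A] {c : ℕ} {D : ℕ → Submodule F A}

/-- FACT P -/
private theorem H3C_factP (hG : GJ F A c D) (h5c : 5 ≤ c) (a : A)
    (g : A) (hg : g ∈ D 4) (hg0 : g ≠ 0) (η : A →ₗ[F] F)
    (hη : ∀ v ∈ D 1, v * a = η v • g) (e : A) (he : e ∈ D 1) (hηe : η e = 1)
    (hπ : ∀ q ∈ D 2, q * a = 0) (hψ : ∀ v ∈ D 1, v * g = 0) : False := by
  apply hg0
  have h1 : ∀ x ∈ D 1, η x ≠ 0 → (x * x) * g = 0 := by
    intro x hx hx0
    have h := gJ1 hG.jordan x a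
    rw [hπ _ (hG.mul_mem 1 1 le_rfl le_rfl x hx x hx), mul_zero, hη x hx, mul_smul_comm] at h
    exact (smul_eq_zero.1 h).resolve_left hx0
  have h2 : ∀ x ∈ D 1, (x * x) * g = 0 := by
    intro x hx
    by_cases hx0 : η x = 0
    · have k1 := h1 (x + e) ((D 1).add_mem hx he) (by rw [map_add, hx0, hηe, zero_add]; exact one_ne_zero)
      have k2 := h1 (x - e) ((D 1).sub_mem hx he) (by
        rw [map_sub, hx0, hηe, zero_sub]
        exact neg_ne_zero.2 one_ne_zero)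
      have k3 := h1 e he (by rw [hηe]; exact one_ne_zero)
      have k4 : (2 : F) • ((x * x) * g) = 0 := by
        have e1 : (2 : F) • ((x * x) * g) = ((x + e) * (x + e)) * g + ((x - e) * (x - e)) * g
            - (2 : F) • ((e * e) * g) := by
          simp only [two_smul, add_mul, mul_add, sub_mul, mul_sub]
          abel
        rw [e1, k1, k2, k3, smul_zero, add_zero, sub_zero]
      exact (smul_eq_zero.1 k4).resolve_left hG.two
    · exact h1 x hx hx0
  refine hG.nd 4 (by norm_num) (by omega) g hg hψ ?_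
  have h3 : D 2 ≤ LinearMap.ker (LinearMap.mulRight F g) := by
    refine hG.sq _ fun v hv => ?_
    rw [LinearMap.mem_ker, LinearMap.mulRight_apply]
    exact h2 v hv
  intro q hq
  exact h3 hq

theorem H3C (hG : GJ F A c D) (h5c : 5 ≤ c) (a : A) (κ : A →ₗ[F] F) (ha : a ∈ D 3) (hκ : κ a = 1)
    (h3 : ∀ h ∈ D 3, h = κ h • a) (g : A) (hg : g ∈ D 4) (hg0 : g ≠ 0) (η : A →ₗ[F] F)
    (hη : ∀ v ∈ D 1, v * a = η v • g) (e : A) (he : e ∈ D 1) (hηe : η e = 1) :
    ∃ c0 : F, c0 ≠ 0 ∧ ∀ h ∈ D 1, ∀ x ∈ D 1, ∀ y ∈ D 1,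
      κ (h * (x * y)) = c0 * η h * η x * η y := by
  have h2 := hG.two
  have m11 : ∀ v ∈ D 1, ∀ w ∈ D 1, v * w ∈ D 2 := fun v hv w hw =>
    hG.mul_mem 1 1 le_rfl le_rfl v hv w hw
  have m12 : ∀ v ∈ D 1, ∀ q ∈ D 2, v * q ∈ D 3 := fun v hv w hw =>
    hG.mul_mem 1 2 (by norm_num) (by norm_num) v hv w hw
  have hχ : ∀ v ∈ D 1, ∀ q ∈ D 2, v * q = κ (v * q) • a := fun v hv q hq => h3 _ (m12 v hv q hq)
  obtain ⟨C, hC⟩ : ∃ C : A → A → A → F, ∀ h x y, C h x y = κ (h * (x * y)) :=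
    ⟨fun h x y => κ (h * (x * y)), fun _ _ _ => rfl⟩
  have hCa : ∀ h ∈ D 1, ∀ x ∈ D 1, ∀ y ∈ D 1, h * (x * y) = C h x y • a := by
    intro h hh x hx y hy
    rw [hC]
    exact hχ h hh _ (m11 x hx y hy)
  have hCs : ∀ h x y, C h x y = C h y x := by
    intro h x y
    rw [hC, hC, mul_comm x y]
  have hCa' : ∀ h ∈ D 1, ∀ x ∈ D 1, ∀ y ∈ D 1, (x * y) * h = C h x y • a := by
    intro h hh x hx y hy
    rw [mul_comm]
    exact hCa h hh x hx y hy
  -- (S)
  have k1 : ∀ x ∈ D 1, ∀ y ∈ D 1, ∀ z ∈ D 1, ∀ w ∈ D 1,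
      (x * y) * (z * w) + (y * z) * (x * w) + (z * x) * (y * w) =
        (C w x y * η z + C w y z * η x + C w z x * η y) • g := by
    intro x hx y hy z hz w hw
    rw [gJ3 F hG.two hG.jordan x y z w, hCa' w hw x hx y hy, hCa' w hw y hy z hz,
      hCa' w hw z hz x hx, mul_smul_comm, mul_smul_comm, mul_smul_comm, hη z hz, hη x hx, hη y hy,
      smul_smul, smul_smul, smul_smul, ← add_smul, ← add_smul]
  have hL : ∀ x ∈ D 1, ∀ y ∈ D 1, ∀ z ∈ D 1, ∀ w ∈ D 1,
      C w x y * η z + C w y z * η x + C w z x * η y =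
        C z x y * η w + C z y w * η x + C z w x * η y := by
    intro x hx y hy z hz w hw
    have e1 := k1 x hx y hy z hz w hw
    have e2 := k1 x hx y hy w hw z hz
    have e3 : (x * y) * (z * w) + (y * z) * (x * w) + (z * x) * (y * w) =
        (x * y) * (w * z) + (y * w) * (x * z) + (w * x) * (y * z) := by
      rw [mul_comm z w, mul_comm z x, mul_comm w x, mul_comm (y * z) (x * w),
        mul_comm (x * z) (y * w)]
      abel
    rw [e1, e2] at e3
    exact smul_left_injective F hg0 e3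
  obtain ⟨M, hM⟩ : ∃ M : A → A → F, ∀ x y, M x y = C e x y - C x e y :=
    ⟨fun x y => C e x y - C x e y, fun _ _ => rfl⟩
  have hA : ∀ h ∈ D 1, ∀ x ∈ D 1, ∀ y ∈ D 1,
      C h x y = η h * C e x y + η x * M h y + η y * M h x := by
    intro h hh x hx y hy
    have e1 := hL x hx y hy e he h hh
    rw [hηe, hCs h y e, hCs e y h] at e1
    rw [hM, hM]
    linear_combination e1
  have hW1 : ∀ w ∈ D 1, η w = 0 → ∀ x ∈ D 1, ∀ y ∈ D 1,
      C w x y = η x * M w y + η y * M w x := by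
    intro w hw hw0 x hx y hy
    rw [hA w hw x hx y hy, hw0]
    ring
  have hW2 : ∀ w ∈ D 1, η w = 0 → ∀ y ∈ D 1, C e w y = 2 * M w y + η y * M w e := by
    intro w hw hw0 y hy
    have e1 := hW1 w hw hw0 e he y hy
    have e2 := hM w y
    rw [hηe] at e1
    linear_combination e1 - e2
  -- (5a)
  have h5 : ∀ x ∈ D 1, ∀ y ∈ D 1, ∀ h ∈ D 1, ∀ q ∈ D 2,
      C h x y • (q * a) + (η h * κ (y * q)) • (x * g) + (η h * κ (x * q)) • (y * g) =
        κ (h * q) • ((x * y) * a) + κ (y * q) • ((x * h) * a) + κ (x * q) • ((y * h) * a) := by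
    intro x hx y hy h hh q hq
    have e1 := gJ3 F hG.two hG.jordan x y q h
    have c1 : (x * y) * (q * h) = κ (h * q) • ((x * y) * a) := by
      rw [mul_comm q h, hχ h hh q hq, mul_smul_comm, map_smul, hκ, smul_eq_mul, mul_one]
    have c2 : (y * q) * (x * h) = κ (y * q) • ((x * h) * a) := by
      rw [mul_comm (y * q), hχ y hy q hq, mul_smul_comm, map_smul, hκ, smul_eq_mul, mul_one]
    have c3 : (q * x) * (y * h) = κ (x * q) • ((y * h) * a) := by
      rw [mul_comm (q * x), mul_comm q x, hχ x hx q hq, mul_smul_comm, map_smul, hκ, smul_eq_mul,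
        mul_one]
    have c4 : q * ((x * y) * h) = C h x y • (q * a) := by
      rw [hCa' h hh x hx y hy, mul_smul_comm]
    have c5 : x * ((y * q) * h) = (η h * κ (y * q)) • (x * g) := by
      rw [mul_comm (y * q) h, hχ y hy q hq, mul_smul_comm, hη h hh, map_smul, hκ, smul_eq_mul,
        mul_one, smul_smul, mul_smul_comm, mul_comm]
    have c6 : y * ((q * x) * h) = (η h * κ (x * q)) • (y * g) := by
      rw [mul_comm (q * x) h, mul_comm q x, hχ x hx q hq, mul_smul_comm, hη h hh, map_smul, hκ,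
        smul_eq_mul, mul_one, smul_smul, mul_smul_comm, mul_comm]
    rw [c1, c2, c3, c4, c5, c6] at e1
    exact e1.symm
  -- (E1)
  have hE : ∀ w ∈ D 1, η w = 0 → ∀ y ∈ D 1, ∀ q ∈ D 2,
      M w y • (q * a) + κ (y * q) • (w * g) + κ (w * q) • (y * g) = 0 := by
    intro w hw hw0 y hy q hq
    have e1 := h5 w hw y hy e he q hq
    have e2 := h5 e he y hy w hw q hq
    rw [hηe, one_mul, one_mul] at e1
    rw [hw0, zero_mul, zero_mul, zero_smul, zero_smul, add_zero, add_zero] at e2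
    rw [hM, sub_smul]
    rw [mul_comm e y, mul_comm e w, mul_comm y w] at e2
    have e3 : C e w y • (q * a) + κ (y * q) • (w * g) + κ (w * q) • (y * g) = C w e y • (q * a) := by
      rw [e1, e2]
      abel
    have e4 : C e w y • (q * a) - C w e y • (q * a) + κ (y * q) • (w * g) + κ (w * q) • (y * g) =
        (C e w y • (q * a) + κ (y * q) • (w * g) + κ (w * q) • (y * g)) - C w e y • (q * a) := by
      abel
    rw [e4, e3, sub_self]
  have hfact := H3C_factP hG h5c a g hg hg0 η hη e he hηe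
  have hfact' : ∀ (h : (∀ q ∈ D 2, q * a = 0) ∧ (∀ v ∈ D 1, v * g = 0)), False :=
    fun h => hfact h.1 h.2
  by_cases hi : ∃ w ∈ D 1, η w = 0 ∧ M w w ≠ 0
  · -- case (i)
    exfalso
    obtain ⟨w, hw, hw0, hMw⟩ := hi
    have hww := m11 w hw w hw
    have c0 : κ (w * (w * w)) = 0 := by
      rw [← hC, hW1 w hw hw0 w hw w hw, hw0]
      ring
    have p1 : (w * w) * a = 0 := by
      have := hE w hw hw0 w hw _ hww
      rw [c0, zero_smul, add_zero, add_zero] at this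
      exact (smul_eq_zero.1 this).resolve_left hMw
    have p2 : w * g = 0 := by
      have := hE w hw hw0 e he _ hww
      rw [c0, zero_smul, add_zero, p1, smul_zero, zero_add, ← hC, hW2 w hw hw0 w hw, hw0, zero_mul,
        add_zero] at this
      exact (smul_eq_zero.1 this).resolve_left (mul_ne_zero h2 hMw)
    have p3 : ∀ q ∈ D 2, q * a = 0 := by
      intro q hq
      have := hE w hw hw0 w hw q hq
      rw [p2, smul_zero, add_zero, add_zero] at this
      exact (smul_eq_zero.1 this).resolve_left hMw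
    have p4 : ∀ y ∈ D 1, y * g = 0 := by
      intro y hy
      have hew := m11 e he w hw
      have := hE w hw hw0 y hy _ hew
      rw [p3 _ hew, smul_zero, p2, smul_zero, zero_add, zero_add, ← hC, hW1 w hw hw0 e he w hw, hηe,
        hw0, zero_mul, add_zero, one_mul] at this
      exact (smul_eq_zero.1 this).resolve_left hMw
    exact hfact p3 p4
  push Not at hi
  have hMC : ∀ x y z, M (x + y) z = M x z + M y z := by
    intro x y z
    rw [hM, hM, hM, hC, hC, hC, hC, hC, hC]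
    simp only [add_mul, mul_add, map_add]
    ring
  have hMC2 : ∀ x y z, M x (y + z) = M x y + M x z := by
    intro x y z
    rw [hM, hM, hM, hC, hC, hC, hC, hC, hC]
    simp only [mul_add, map_add]
    ring
  have hMS2 : ∀ (r : F) x y, M x (r • y) = r * M x y := by
    intro r x y
    rw [hM, hM, hC, hC, hC, hC]
    simp only [mul_smul_comm, map_smul, smul_eq_mul]
    ring
  have hMS1 : ∀ (r : F) x y, M (r • x) y = r * M x y := by
    intro r x y
    rw [hM, hM, hC, hC, hC, hC]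
    simp only [mul_smul_comm, smul_mul_assoc, map_smul, smul_eq_mul]
    ring
  have hMW : ∀ w ∈ D 1, η w = 0 → ∀ w' ∈ D 1, η w' = 0 → M w w' = 0 := by
    intro w hw hw0 w' hw' hw0'
    have e1 := hi (w + w') ((D 1).add_mem hw hw') (by rw [map_add, hw0, hw0', add_zero])
    rw [hMC, hMC2, hMC2, hi w hw hw0, hi w' hw' hw0', zero_add, add_zero] at e1
    have e2 : (2 : F) * M w w' = 2 * M w' w := by
      have a1 := hW2 w hw hw0 w' hw'
      have a2 := hW2 w' hw' hw0' w hw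
      rw [hw0'] at a1
      rw [hw0, hCs e w' w] at a2
      linear_combination a2 - a1
    have e3 : M w w' = M w' w := mul_left_cancel₀ h2 e2
    rw [← e3, ← two_mul] at e1
    exact (mul_eq_zero.1 e1).resolve_left h2
  have hMy : ∀ w ∈ D 1, η w = 0 → ∀ y ∈ D 1, M w y = η y * M w e := by
    intro w hw hw0 y hy
    have hy' : y - η y • e ∈ D 1 := (D 1).sub_mem hy ((D 1).smul_mem _ he)
    have hy0 : η (y - η y • e) = 0 := by
      rw [map_sub, map_smul, hηe, smul_eq_mul, mul_one, sub_self]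
    have e1 := hMW w hw hw0 _ hy' hy0
    have e2 : M w y = M w (y - η y • e) + M w (η y • e) := by
      rw [← hMC2, sub_add_cancel]
    rw [e2, e1, zero_add, hMS2]
  by_cases hii : ∃ w ∈ D 1, η w = 0 ∧ M w e ≠ 0
  · -- case (ii)
    exfalso
    obtain ⟨f', hf', hf0', hMf'⟩ := hii
    obtain ⟨f, hf, hf0, hMf⟩ : ∃ f ∈ D 1, η f = 0 ∧ M f e = 1 := by
      refine ⟨(M f' e)⁻¹ • f', (D 1).smul_mem _ hf', by rw [map_smul, hf0', smul_zero], ?_⟩
      rw [hMS1, inv_mul_cancel₀ hMf']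
    have hee := m11 e he e he
    have cw : ∀ w ∈ D 1, η w = 0 → ∀ x ∈ D 1, ∀ y ∈ D 1, κ (w * (x * y)) = 2 * η x * η y * M w e := by
      intro w hw hw0 x hx y hy
      rw [← hC, hW1 w hw hw0 x hx y hy, hMy w hw hw0 x hx, hMy w hw hw0 y hy]
      ring
    have p1 : ∀ w ∈ D 1, η w = 0 → w * g = 0 := by
      have q1 : ∀ w ∈ D 1, η w = 0 → ∀ w' ∈ D 1, η w' = 0 →
          (2 * M w' e) • (w * g) + (2 * M w e) • (w' * g) = 0 := by
        intro w hw hw0 w' hw' hw0'
        have := hE w hw hw0 w' hw' _ hee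
        rw [hMW w hw hw0 w' hw' hw0', zero_smul, zero_add, cw w hw hw0 e he e he,
          cw w' hw' hw0' e he e he, hηe, mul_one, mul_one] at this
        exact this
      have q2 : f * g = 0 := by
        have := q1 f hf hf0 f hf hf0
        rw [hMf, mul_one, ← add_smul] at this
        refine (smul_eq_zero.1 this).resolve_left ?_
        have e4 : (2 : F) + 2 = 2 * 2 := by ring
        rw [e4]
        exact mul_ne_zero h2 h2
      intro w hw hw0
      have := q1 w hw hw0 f hf hf0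
      rw [q2, smul_zero, add_zero, hMf, mul_one] at this
      exact (smul_eq_zero.1 this).resolve_left h2
    have p2 : ∀ q ∈ D 2, q * a = -(κ (f * q) • (e * g)) := by
      intro q hq
      have := hE f hf hf0 e he q hq
      rw [hMf, one_smul, p1 f hf hf0, smul_zero, add_zero] at this
      exact eq_neg_of_add_eq_zero_left this
    have p3 : (e * e) * a = -((2 : F) • (e * g)) := by
      rw [p2 _ hee, cw f hf hf0 e he e he, hηe, hMf, mul_one, mul_one, mul_one]
    have p4 : e * (e * f) = (3 : F) • a := by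
      rw [hCa e he e he f hf, hCs e e f, hW2 f hf hf0 e he, hηe, hMf]
      congr 1
      ring
    have p5 : (e * e) * f = (2 : F) • a := by
      rw [hCa' f hf e he e he, hC, cw f hf hf0 e he e he, hηe, hMf, mul_one, mul_one, mul_one]
    have p6 : (e * e) * (e * f) = (2 : F) • g := by
      rw [gJ1 hG.jordan e f, p5, mul_smul_comm, hη e he, hηe, one_smul]
    have p7 : e * g = 0 := by
      have h7 := gJ1 hG.jordan e (e * f)
      rw [p6, p4, mul_smul_comm, mul_smul_comm, p3] at h7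
      have h8 : ((2 : F) * 2 * 2) • (e * g) = 0 := by
        have h9 : ((2 : F) * 2 * 2) • (e * g) =
            (2 : F) • (e * g) - (3 : F) • (-((2 : F) • (e * g))) := by
          rw [smul_neg, sub_neg_eq_add, smul_smul, ← add_smul]
          congr 1
          norm_num
        rw [h9, h7, sub_self]
      exact (smul_eq_zero.1 h8).resolve_left (mul_ne_zero (mul_ne_zero h2 h2) h2)
    have p8 : ∀ q ∈ D 2, q * a = 0 := by
      intro q hq
      rw [p2 q hq, p7, smul_zero, neg_zero]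
    have p9 : ∀ v ∈ D 1, v * g = 0 := by
      intro v hv
      have hv' : v - η v • e ∈ D 1 := (D 1).sub_mem hv ((D 1).smul_mem _ he)
      have hv0 : η (v - η v • e) = 0 := by
        rw [map_sub, map_smul, hηe, smul_eq_mul, mul_one, sub_self]
      have e1 := p1 _ hv' hv0
      rw [sub_mul, smul_mul_assoc, p7, smul_zero, sub_zero] at e1
      exact e1
    exact hfact p8 p9
  push Not at hii
  -- case (iii)
  have z1 : ∀ w ∈ D 1, η w = 0 → ∀ x ∈ D 1, ∀ y ∈ D 1, C w x y = 0 := by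
    intro w hw hw0 x hx y hy
    rw [hW1 w hw hw0 x hx y hy, hMy w hw hw0 x hx, hMy w hw hw0 y hy, hii w hw hw0]
    ring
  have z2 : ∀ w ∈ D 1, η w = 0 → ∀ y ∈ D 1, C e w y = 0 := by
    intro w hw hw0 y hy
    rw [hW2 w hw hw0 y hy, hMy w hw hw0 y hy, hii w hw hw0]
    ring
  have hdec : ∀ v ∈ D 1, ∃ w ∈ D 1, η w = 0 ∧ v = w + η v • e := by
    intro v hv
    refine ⟨v - η v • e, (D 1).sub_mem hv ((D 1).smul_mem _ he), ?_, ?_⟩
    · rw [map_sub, map_smul, hηe, smul_eq_mul, mul_one, sub_self]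
    · rw [sub_add_cancel]
  have z3 : ∀ h ∈ D 1, ∀ x ∈ D 1, ∀ y ∈ D 1, κ (h * (x * y)) = C e e e * η h * η x * η y := by
    intro h hh x hx y hy
    have s1 : C h x y = η h * C e x y := by
      obtain ⟨w, hw, hw0, hw1⟩ := hdec h hh
      have : C h x y = C w x y + η h * C e x y := by
        rw [hC, hC, hC]
        conv_lhs => rw [hw1]
        rw [add_mul, smul_mul_assoc, map_add, map_smul, smul_eq_mul]
      rw [this, z1 w hw hw0 x hx y hy, zero_add]
    have s2 : C e x y = η x * C e e y := by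
      obtain ⟨w, hw, hw0, hw1⟩ := hdec x hx
      have : C e x y = C e w y + η x * C e e y := by
        rw [hC, hC, hC]
        conv_lhs => rw [hw1]
        rw [add_mul, smul_mul_assoc, mul_add, mul_smul_comm, map_add, map_smul, smul_eq_mul]
      rw [this, z2 w hw hw0 y hy, zero_add]
    have s3 : C e e y = η y * C e e e := by
      obtain ⟨w, hw, hw0, hw1⟩ := hdec y hy
      have : C e e y = C e w e + η y * C e e e := by
        rw [hC, hC, hC]
        conv_lhs => rw [hw1]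
        rw [mul_add, mul_smul_comm, mul_add, mul_smul_comm, map_add, map_smul, smul_eq_mul,
          mul_comm e w]
      rw [this, z2 w hw hw0 e he, zero_add]
    rw [← hC, s1, s2, s3]
    ring
  refine ⟨C e e e, ?_, z3⟩
  intro h0
  have t1 : ∀ v ∈ D 1, ∀ q ∈ D 2, κ (v * q) = 0 := by
    intro v hv q hq
    have : D 2 ≤ LinearMap.ker (κ ∘ₗ LinearMap.mulLeft F v) := by
      refine hG.gen2 _ ?_
      intro x hx y hy
      rw [LinearMap.mem_ker, LinearMap.comp_apply, LinearMap.mulLeft_apply, z3 v hv x hx y hy, h0]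
      ring
    exact this hq
  have t2 : D 3 ≤ LinearMap.ker κ := by
    refine hG.gen 3 le_rfl _ ?_ ?_
    · intro v hv q hq
      exact t1 v hv q hq
    · intro q hq v hv
      rw [mul_comm]
      exact t1 v hv q hq
  have t3 : κ a = 0 := t2 ha
  rw [hκ] at t3
  exact one_ne_zero t3

end JD
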