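import Pool.Agent.H8.JD.Pow

set_option autoImplicit false
set_option linter.unusedSectionVars false

/-!
# JD, Lemma H (helper9): graded cocyclic Jordan algebras, basic tools

Notation used in all the headers: `V = D 1`; letters `x y z v w e` are in `V`, letters `p q h`
in `D 2`, `a` in `D 3`, `g` in `D 4`, `f` in `D 5`, `u` in `D 6`; juxtaposition is the product
of `A`; `L_a` is the multiplication by `a`.
-/

namespace JD

universe u

/-- `A = D 1 + D 2 + ... + D c`: graded Jordan algebra, generated by `D 1`, with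
one-dimensional top layer `D c` that lies in every nonzero graded ideal. -/
structure GJ (F : Type u) [Field F] (A : Type u) [NonUnitalNonAssocCommRing A] [Module F A]
    [IsScalarTower F A A] [SMulCommClass F A A] (c : ℕ) (D : ℕ → Submodule F A) : Prop where
  two : (2 : F) ≠ 0
  inf : Infinite F
  jordan : IsJordan A
  fin : Module.Finite F A
  mul_mem : ∀ i j : ℕ, 1 ≤ i → 1 ≤ j → ∀ a ∈ D i, ∀ b ∈ D j, a * b ∈ D (i + j)
  above : ∀ i, c < i → ∀ a ∈ D i, a = 0
  gen2 : ∀ T : Submodule F A, (∀ v ∈ D 1, ∀ w ∈ D 1, v * w ∈ T) → D 2 ≤ T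
  gen : ∀ n, 3 ≤ n → ∀ T : Submodule F A, (∀ v ∈ D 1, ∀ h ∈ D (n - 1), v * h ∈ T) →
    (∀ q ∈ D 2, ∀ h ∈ D (n - 2), q * h ∈ T) → D n ≤ T
  nd : ∀ i, 1 ≤ i → i < c → ∀ h ∈ D i, (∀ v ∈ D 1, v * h = 0) → (∀ q ∈ D 2, q * h = 0) → h = 0
  top : Module.finrank F (D c) = 1

section identities

variable (F : Type u) [Field F] {A : Type u} [NonUnitalNonAssocCommRing A] [Module F A]
  [IsScalarTower F A A] [SMulCommClass F A A]

/-- (J1) -/
theorem gJ1 (hJ : IsJordan A) (x h : A) : (x * x) * (x * h) = x * ((x * x) * h) := by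
  have := hJ x h
  rw [mul_comm x ((x * x) * h), this, mul_comm h x]

/-- (J2) -/
theorem gJ2 (h2 : (2 : F) ≠ 0) (hJ : IsJordan A) (x y h : A) :
    (x * x) * (y * h) + (2 : F) • ((x * y) * (x * h)) =
      y * ((x * x) * h) + (2 : F) • (x * ((x * y) * h)) := by
  have := lin2 F h2 hJ x y h
  simp only [two_smul] at this ⊢
  rw [mul_comm ((x * x) * h) y, mul_comm ((x * y) * h) x, mul_comm h y, mul_comm h x] at this
  exact this.symm

/-- (J3): `[L_(ab), L_c] + [L_(bc), L_a] + [L_(ca), L_b] = 0` applied to `d` -/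
theorem gJ3 (h2 : (2 : F) ≠ 0) (hJ : IsJordan A) (a b c d : A) :
    (a * b) * (c * d) + (b * c) * (a * d) + (c * a) * (b * d) =
      c * ((a * b) * d) + a * ((b * c) * d) + b * ((c * a) * d) := by
  have := lin3 F h2 hJ a b c d
  rw [mul_comm ((a * b) * d) c, mul_comm ((b * c) * d) a, mul_comm ((c * a) * d) b] at this
  exact this.symm

/-- (J4): `L_((ab)d) = L_(ab) L_d + L_(ad) L_b + L_(bd) L_a - L_a L_d L_b - L_b L_d L_a` -/
theorem gJ4 (h2 : (2 : F) ≠ 0) (hJ : IsJordan A) (a b d h : A) :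
    ((a * b) * d) * h = (a * b) * (d * h) + (a * d) * (b * h) + (b * d) * (a * h)
      - a * (d * (b * h)) - b * (d * (a * h)) := by
  have := lin3 F h2 hJ a b h d
  rw [mul_comm h a, mul_comm ((b * h) * d) a, mul_comm ((a * h) * d) b,
    mul_comm (b * h) d, mul_comm (a * h) d, mul_comm h d, mul_comm (b * h) (a * d),
    mul_comm (a * h) (b * d)] at this
  linear_combination (norm := abel) this

/-- `[L_a, L_b]` is a derivation -/
theorem gder (h2 : (2 : F) ≠ 0) (hJ : IsJordan A) (a b p q : A) :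
    a * (b * (p * q)) - b * (a * (p * q)) =
      (a * (b * p) - b * (a * p)) * q + p * (a * (b * q) - b * (a * q)) := by
  have h1 := gJ4 F h2 hJ b p a q
  have h3 := gJ4 F h2 hJ a p b q
  rw [mul_comm b a, mul_comm p a, mul_comm (b * p) a] at h1
  rw [mul_comm p b, mul_comm (a * p) b] at h3
  rw [sub_mul, mul_sub]
  linear_combination (norm := abel) h3 - h1

end identities

section tools

variable {F : Type u} [Field F]

/-- a polynomial with vector coefficients that vanishes at all `t` with `P t ≠ 0`, `P ≠ 0`, has zero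
coefficients -/
theorem pvan [Infinite F] {W : Type u} [AddCommGroup W] [Module F W] (P : Polynomial F)
    (hP : P ≠ 0) (n : ℕ) (c : ℕ → W)
    (h : ∀ t : F, P.eval t ≠ 0 → ∑ i ∈ Finset.range n, t ^ i • c i = 0) :
    ∀ i < n, c i = 0 := by
  intro i hi
  by_contra hne
  obtain ⟨φ, hφ⟩ : ∃ φ : W →ₗ[F] F, φ (c i) ≠ 0 := by
    by_contra hcon
    push Not at hcon
    exact hne ((Module.forall_dual_apply_eq_zero_iff F (c i)).mp hcon)
  let Q : Polynomial F := ∑ i ∈ Finset.range n, Polynomial.monomial i (φ (c i))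
  have hQ : ∀ t, P.eval t ≠ 0 → Q.eval t = 0 := by
    intro t ht
    have := congrArg φ (h t ht)
    rw [map_sum, map_zero] at this
    rw [Polynomial.eval_finsetSum]
    rw [← this]
    refine Finset.sum_congr rfl fun j _ => ?_
    rw [Polynomial.eval_monomial, map_smul, smul_eq_mul, mul_comm]
  have hPQ : P * Q = 0 := by
    apply Polynomial.funext
    intro t
    rw [Polynomial.eval_mul, Polynomial.eval_zero]
    by_cases ht : P.eval t = 0
    · rw [ht, zero_mul]
    · rw [hQ t ht, mul_zero]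
  have hQ0 : Q = 0 := (mul_eq_zero.mp hPQ).resolve_left hP
  apply hφ
  have h3 := congrArg (fun R => Polynomial.coeff R i) hQ0
  simp only [Q, Polynomial.finsetSum_coeff, Polynomial.coeff_monomial, Polynomial.coeff_zero] at h3
  rw [Finset.sum_ite_eq' (Finset.range n) i (fun j => φ (c j))] at h3
  simpa [hi] using h3

/-- the same with finitely many exceptions -/
theorem pvan' [Infinite F] {W : Type u} [AddCommGroup W] [Module F W] (S : Finset F)
    (n : ℕ) (c : ℕ → W)
    (h : ∀ t : F, t ∉ S → ∑ i ∈ Finset.range n, t ^ i • c i = 0) :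
    ∀ i < n, c i = 0 := by
  refine pvan (∏ s ∈ S, (Polynomial.X - Polynomial.C s)) ?_ n c ?_
  · exact Finset.prod_ne_zero_iff.mpr fun s _ => Polynomial.X_sub_C_ne_zero s
  · intro t ht
    apply h
    intro hts
    apply ht
    rw [Polynomial.eval_prod]
    exact Finset.prod_eq_zero hts (by simp)

variable {A : Type u} [AddCommGroup A] [Module F A]

/-- coordinates on a one-dimensional layer -/
theorem exists_coord [Module.Finite F A] {T : Submodule F A} (h : Module.finrank F T = 1) :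
    ∃ g ∈ T, g ≠ 0 ∧ ∃ φ : A →ₗ[F] F, φ g = 1 ∧ ∀ a ∈ T, a = φ a • g := by
  obtain ⟨⟨g, hg⟩, hg0, hs⟩ := finrank_eq_one_iff'.mp h
  have hg1 : g ≠ 0 := fun h => hg0 (by ext; exact h)
  obtain ⟨φ, hφ⟩ : ∃ φ : A →ₗ[F] F, φ g ≠ 0 := by
    by_contra hcon
    push Not at hcon
    exact hg1 ((Module.forall_dual_apply_eq_zero_iff F g).mp hcon)
  refine ⟨g, hg, hg1, (φ g)⁻¹ • φ, by simp [hφ], ?_⟩
  intro a ha
  obtain ⟨r, hr⟩ := hs ⟨a, ha⟩
  have hr' : r • g = a := congrArg Subtype.val hr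
  rw [← hr']
  simp [hφ]

/-- coordinates on a two-dimensional layer -/
theorem exists_coord2 [Module.Finite F A] {T : Submodule F A} (h : Module.finrank F T = 2) :
    ∃ s₁ ∈ T, ∃ s₂ ∈ T, ∃ φ₁ φ₂ : A →ₗ[F] F, φ₁ s₁ = 1 ∧ φ₁ s₂ = 0 ∧ φ₂ s₁ = 0 ∧ φ₂ s₂ = 1 ∧
      ∀ a ∈ T, a = φ₁ a • s₁ + φ₂ a • s₂ := by
  let b : Module.Basis (Fin 2) F T := Module.finBasisOfFinrankEq F T h
  obtain ⟨ψ, hψ⟩ : ∃ ψ : A →ₗ[F] (Fin 2 → F), ψ ∘ₗ T.subtype = b.equivFun.toLinearMap :=
    LinearMap.exists_extend b.equivFun.toLinearMap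
  have hψ' : ∀ a (ha : a ∈ T), ψ a = b.equivFun ⟨a, ha⟩ := by
    intro a ha
    have := LinearMap.congr_fun hψ ⟨a, ha⟩
    simpa using this
  have e : ∀ i j : Fin 2, ψ (b i) j = if j = i then 1 else 0 := by
    intro i j
    rw [hψ' _ (b i).2]
    simp [eq_comm]
  refine ⟨b 0, (b 0).2, b 1, (b 1).2, LinearMap.proj 0 ∘ₗ ψ, LinearMap.proj 1 ∘ₗ ψ, ?_, ?_, ?_, ?_, ?_⟩
  · simp [e]
  · simp [e]
  · simp [e]
  · simp [e]
  · intro a ha
    have := b.sum_equivFun ⟨a, ha⟩
    rw [Fin.sum_univ_two] at this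
    have h3 := congrArg Subtype.val this
    simp only [LinearMap.comp_apply, LinearMap.proj_apply, hψ' a ha]
    simpa using h3.symm

/-- an infinite field: a nonzero polynomial has a non-root -/
theorem exists_eval_ne [Infinite F] (P : Polynomial F) (hP : P ≠ 0) : ∃ t : F, P.eval t ≠ 0 := by
  by_contra h
  push Not at h
  exact hP (Polynomial.funext fun t => by rw [h t, Polynomial.eval_zero])

/-- density for submodules: if `w + t v0 ∈ T` for all but finitely many `t` and `v0 ∈ T` then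
`w ∈ T` -/
theorem mem_of_dense [Infinite F] (T : Submodule F A) (v0 w : A) (h0 : v0 ∈ T)
    (P : Polynomial F) (hP : P ≠ 0) (h : ∀ t : F, P.eval t ≠ 0 → w + t • v0 ∈ T) : w ∈ T := by
  obtain ⟨t, ht⟩ := exists_eval_ne P hP
  have := T.sub_mem (h t ht) (T.smul_mem t h0)
  simpa using this

end tools

section GJ

variable {F : Type u} [Field F] {A : Type u} [NonUnitalNonAssocCommRing A] [Module F A]
  [IsScalarTower F A A] [SMulCommClass F A A] {c : ℕ} {D : ℕ → Submodule F A}

/-- `D 2` is spanned by squares -/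
theorem GJ.sq (hG : GJ F A c D) (T : Submodule F A) (h : ∀ v ∈ D 1, v * v ∈ T) : D 2 ≤ T := by
  refine hG.gen2 T fun v hv w hw => ?_
  have h1 := h _ ((D 1).add_mem hv hw)
  have h2 : v * w = (2 : F)⁻¹ • ((v + w) * (v + w) - v * v - w * w) := by
    have : (v + w) * (v + w) - v * v - w * w = (2 : F) • (v * w) := by
      rw [add_mul, mul_add, mul_add, mul_comm w v, two_smul]
      abel
    rw [this, smul_smul, inv_mul_cancel₀ hG.two, one_smul]
  rw [h2]
  exact T.smul_mem _ (T.sub_mem (T.sub_mem h1 (h v hv)) (h w hw))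

/-- if a functional is nonzero on some square `v0²`, then a submodule containing all `v` with
`φ (v²) ≠ 0` contains `D 1` -/
theorem GJ.dense (hG : GJ F A c D) (φ : A →ₗ[F] F) (v0 : A) (hv0 : v0 ∈ D 1)
    (hφ : φ (v0 * v0) ≠ 0) (T : Submodule F A)
    (h : ∀ v ∈ D 1, φ (v * v) ≠ 0 → v ∈ T) : D 1 ≤ T := by
  have := hG.inf
  intro w hw
  let P : Polynomial F := Polynomial.C (φ (v0 * v0)) * Polynomial.X ^ 2 +
    Polynomial.C (2 * φ (w * v0)) * Polynomial.X + Polynomial.C (φ (w * w))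
  have hP : P ≠ 0 := by
    intro h0
    have := congrArg (fun R => Polynomial.coeff R 2) h0
    simp [P] at this
    exact hφ this
  refine mem_of_dense T v0 w (h v0 hv0 hφ) P hP fun t ht => ?_
  refine h _ ((D 1).add_mem hw ((D 1).smul_mem t hv0)) ?_
  have : φ ((w + t • v0) * (w + t • v0)) = P.eval t := by
    rw [add_mul, mul_add, mul_add, smul_mul_smul_comm, mul_smul_comm, smul_mul_assoc,
      mul_comm v0 w]
    simp [P]
    ring
  rw [this]
  exact ht

/-- a nonzero layer `D 2` contains a nonzero square -/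
theorem GJ.exists_sq_ne (hG : GJ F A c D) (h : D 2 ≠ ⊥) : ∃ v ∈ D 1, v * v ≠ 0 := by
  by_contra hcon
  push Not at hcon
  apply h
  rw [eq_bot_iff]
  exact hG.sq ⊥ fun v hv => by rw [hcon v hv]; exact Submodule.zero_mem _

end GJ

end JD
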