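import Pool.Agent.H9.JH.Defs

set_option autoImplicit false

/-!
# JH H3B: `dim D 3 = 1` implies `V D 3 ≠ 0` (class 6)

`D 3 = F a`, `a ≠ 0`, `κ : A → F` linear with `h = κ h • a` on `D 3` (`exists_coord`). Put `χ(v,q) = κ (v q)`,
`c(h;x,y) = κ (h (x y))` (`v, h, x, y ∈ V`, `q ∈ D 2`; `c` is symmetric in the last two arguments).

`H3A_ne`: `V a = 0` IS IMPOSSIBLE. PROOF. `V a = 0`, `a ∈ D 3`. Let `θ : A → F` be a coordinate of `D 6` (`exists_coord`, `hG.top`)
and for `w ∈ V` put `p_w(q) = θ (w (q a))`, `q ∈ D 2`; bilinear in `(w, q)`.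
(1) If all `p_w = 0` then `w(q a) = 0` for all `w`, so `q a ∈ D 5` is killed by `V` and by `D 2` (degree 7, `above`): `q a = 0`; with
`V a = 0`: `a = 0`, contradiction.
(2) `gJ1 x a`: `x (x² a) = x² (x a) = 0`: `p_x(x²) = 0`.
(3) `gJ3 x y q` on `h ∈ V`: `(xy)(qh) + (yq)(xh) + (qx)(yh) = q((xy)h) + x((yq)h) + y((qx)h)`, where `(yq)h ∈ F a h = 0`. So
`c(h;x,y) q a = χ(h,q) (xy) a + χ(y,q) (xh) a + χ(x,q) (yh) a`. Hence, for `p = p_w` and all linear combinations `p` of the `p_w`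
(in fact `p = p_w`, `w ∈ V`, is all of them):
  (P) `c(h;x,y) p(q) = χ(h,q) p(xy) + χ(y,q) p(xh) + χ(x,q) p(yh)`.
(4) CLAIM: if `p = p_w ≠ 0` then `p(vv) ≠ 0` and `p(v h0) = 0` imply `p(h0 h0) = 0`. (P) with `x = y = h = v`, `q = vv`:
`c(v;v,v) p(vv) = 3 c(v;v,v) p(vv)`, so `c(v;v,v) = 0`. (P) with `x = y = h0`, `h = v`: `c(v;h0,h0) p(q) = χ(v,q) p(h0h0)`;
`q = vv`: `c(v;h0,h0) = 0`; so `χ(v,q) p(h0h0) = 0` for all `q`. If `p(h0h0) ≠ 0`: `χ(v,·) = 0`; (P) with `x = y = v`: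
`c(h;v,v) p(q) = χ(h,q) p(vv)`, so `χ(h,q) = l(h) p(q)` with `l(h) = c(h;v,v)/p(vv)`, for all `h ∈ V`, `q ∈ D 2`.
(P) becomes (cancel `p(q) ≠ 0`) `l(y) p(xh) + l(x) p(yh) = 0`. `x = y = h = v`: `l(v) = 0`; `y = h = v`: `l(x) p(vv) = 0`. So
`l = 0`, `χ = 0`, `D 3 = 0`, contradiction.
(5) So (R): `p(xx) p(yy) = p(xy)²` for all `x, y ∈ V`, `p = p_w`: if `p(xx) ≠ 0` take `v = x`,
`h0 = y - (p(xy)/p(xx)) x`; if `p(xx) = 0 = p(yy)` and `p(xy) ≠ 0` take `v = x + y`, `h0 = x - y`: `p(vv) = 2p(xy)`, `p(v h0) = 0`,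
`p(h0h0) = -2p(xy)`, contradiction to (4).
(6) Suppose `p_(w0) ≠ 0`. Then `p_(w0)(vv) ≠ 0` for some `v ∈ V` (`GJ.sq`). Let `v` be any such. (R) for `p_(w0 + t v)` and `x = v`, with
`p_v(vv) = 0` (2), `α = p_(w0)(vv)`: `α (p_(w0)(yy) + t p_v(yy)) = (p_(w0)(vy) + t p_v(vy))²` for all `t ∈ F`. Coefficient of `t²`
(`pvan'`): `p_v(vy) = 0`; coefficient of `t`: `p_v(yy) = 0` for all `y`. So `p_v = 0`. The `v` with `p_(w0)(vv) ≠ 0` span `V`
(`GJ.dense` with `φ = θ ∘ L_(w0) ∘ R_a`), so all `p_w = 0`, contradiction.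
-/

namespace JD

universe u

variable {F : Type u} [Field F] {A : Type u} [NonUnitalNonAssocCommRing A] [Module F A]
  [IsScalarTower F A A] [SMulCommClass F A A] {D : ℕ → Submodule F A}

/-- the identity (P) -/
private theorem H3B_P (hG : GJ F A 6 D) (a : A) (κ : A →ₗ[F] F)
    (h3 : ∀ h ∈ D 3, h = κ h • a) (h : ∀ v ∈ D 1, v * a = 0) (θ : A →ₗ[F] F)
    (w : A) {x y k q : A} (hx : x ∈ D 1) (hy : y ∈ D 1) (hk : k ∈ D 1) (hq : q ∈ D 2) :
    κ (k * (x * y)) * θ (w * (q * a)) = κ (k * q) * θ (w * ((x * y) * a)) +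
      κ (y * q) * θ (w * ((x * k) * a)) + κ (x * q) * θ (w * ((y * k) * a)) := by
  have hJ := gJ3 F hG.two hG.jordan x y q k
  have e1 : q * k = κ (k * q) • a := by
    rw [mul_comm q k]
    exact h3 _ (hG.mul_mem 1 2 (by norm_num) (by norm_num) _ hk _ hq)
  have e2 : y * q = κ (y * q) • a := h3 _ (hG.mul_mem 1 2 (by norm_num) (by norm_num) _ hy _ hq)
  have e3 : q * x = κ (x * q) • a := by
    rw [mul_comm q x]
    exact h3 _ (hG.mul_mem 1 2 (by norm_num) (by norm_num) _ hx _ hq)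
  have e4 : (x * y) * k = κ (k * (x * y)) • a := by
    rw [mul_comm (x * y) k]
    exact h3 _ (hG.mul_mem 1 2 (by norm_num) (by norm_num) _ hk _
      (hG.mul_mem 1 1 (by norm_num) (by norm_num) _ hx _ hy))
  have ak : a * k = 0 := by rw [mul_comm]; exact h k hk
  rw [e1, e4, e3] at hJ
  rw [show (y * q) * (x * k) = (κ (y * q) • a) * (x * k) by rw [← e2],
    show (y * q) * k = (κ (y * q) • a) * k by rw [← e2]] at hJ
  simp only [smul_mul_assoc, mul_smul_comm, ak, smul_zero, mul_zero, add_zero] at hJ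
  have h4 := congrArg (fun r => θ (w * r)) hJ
  simp only [mul_add, map_add, mul_smul_comm, map_smul, smul_eq_mul] at h4
  rw [mul_comm a (x * k), mul_comm a (y * k)] at h4
  exact h4.symm

/-- the claim (4) -/
private theorem H3B_claim (hG : GJ F A 6 D) (a : A) (κ : A →ₗ[F] F) (ha : a ∈ D 3)
    (hκ : κ a = 1)
    (h3 : ∀ h ∈ D 3, h = κ h • a) (h : ∀ v ∈ D 1, v * a = 0) (θ : A →ₗ[F] F)
    (w : A) {v g : A} (hv : v ∈ D 1) (hg : g ∈ D 1)
    (h1 : θ (w * ((v * v) * a)) ≠ 0) (h0 : θ (w * ((v * g) * a)) = 0) :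
    θ (w * ((g * g) * a)) = 0 := by
  have hP := fun {x y k q : A} (hx : x ∈ D 1) (hy : y ∈ D 1) (hk : k ∈ D 1) (hq : q ∈ D 2) =>
    H3B_P hG a κ h3 h θ w hx hy hk hq
  have hvv : v * v ∈ D 2 := hG.mul_mem 1 1 (by norm_num) (by norm_num) _ hv _ hv
  have h2 := hG.two
  have hvvv : κ (v * (v * v)) = 0 := by
    have e := hP hv hv hv hvv
    have e' : κ (v * (v * v)) * (2 * θ (w * ((v * v) * a))) = 0 := by linear_combination -e
    exact (mul_eq_zero.mp e').resolve_right (mul_ne_zero h2 h1)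
  have hgv : θ (w * ((g * v) * a)) = 0 := by rw [mul_comm g v]; exact h0
  have hvgg : κ (v * (g * g)) = 0 := by
    have e := hP hg hg hv hvv
    rw [hgv, hvvv] at e
    have e' : κ (v * (g * g)) * θ (w * ((v * v) * a)) = 0 := by linear_combination e
    exact (mul_eq_zero.mp e').resolve_right h1
  by_contra hne
  have hvq : ∀ q ∈ D 2, κ (v * q) = 0 := by
    intro q hq
    have e := hP hg hg hv hq
    rw [hgv, hvgg] at e
    have e' : κ (v * q) * θ (w * ((g * g) * a)) = 0 := by linear_combination -e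
    exact (mul_eq_zero.mp e').resolve_right hne
  -- `χ h q = l h * p q`
  have hl : ∀ k ∈ D 1, ∀ q ∈ D 2, κ (k * q) * θ (w * ((v * v) * a)) =
      κ (k * (v * v)) * θ (w * (q * a)) := by
    intro k hk q hq
    have e := hP hv hv hk hq
    rw [hvq q hq] at e
    linear_combination -e
  have hl0 : ∀ x ∈ D 1, κ (x * (v * v)) = 0 := by
    intro x hx
    have e := hP hx hv hv hvv
    have e1 := hl v hv (x * v) (hG.mul_mem 1 1 (by norm_num) (by norm_num) _ hx _ hv)
    rw [hvvv, zero_mul] at e1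
    have e2 : κ (v * (x * v)) = 0 := (mul_eq_zero.mp e1).resolve_right h1
    rw [e2, hvvv] at e
    have e' : κ (x * (v * v)) * θ (w * ((v * v) * a)) = 0 := by linear_combination -e
    exact (mul_eq_zero.mp e').resolve_right h1
  have hall : ∀ k ∈ D 1, ∀ q ∈ D 2, κ (k * q) = 0 := by
    intro k hk q hq
    have e := hl k hk q hq
    rw [hl0 k hk, zero_mul] at e
    exact (mul_eq_zero.mp e).resolve_right h1
  have h5 : D 3 ≤ LinearMap.ker κ := by
    refine hG.gen 3 le_rfl _ ?_ ?_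
    · intro k hk q hq
      exact LinearMap.mem_ker.mpr (hall k hk q hq)
    · intro q hq k hk
      rw [LinearMap.mem_ker, mul_comm]
      exact hall k hk q hq
  have h6 := LinearMap.mem_ker.mp (h5 ha)
  rw [hκ] at h6
  exact one_ne_zero h6

/-- the identity (R) -/
private theorem H3B_R (hG : GJ F A 6 D) (a : A) (κ : A →ₗ[F] F) (ha : a ∈ D 3)
    (hκ : κ a = 1)
    (h3 : ∀ h ∈ D 3, h = κ h • a) (h : ∀ v ∈ D 1, v * a = 0) (θ : A →ₗ[F] F)
    (w : A) {x y : A} (hx : x ∈ D 1) (hy : y ∈ D 1) :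
    θ (w * ((x * x) * a)) * θ (w * ((y * y) * a)) = θ (w * ((x * y) * a)) ^ 2 := by
  have key : ∀ x ∈ D 1, ∀ y ∈ D 1, θ (w * ((x * x) * a)) ≠ 0 →
      θ (w * ((x * x) * a)) * θ (w * ((y * y) * a)) = θ (w * ((x * y) * a)) ^ 2 := by
    intro x hx y hy hne
    obtain ⟨r, hrr⟩ : ∃ r : F, r * θ (w * ((x * x) * a)) = θ (w * ((x * y) * a)) :=
      ⟨_, div_mul_cancel₀ _ hne⟩
    have hg : y - r • x ∈ D 1 := (D 1).sub_mem hy ((D 1).smul_mem r hx)
    have e1 : θ (w * ((x * (y - r • x)) * a)) = 0 := by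
      simp only [mul_sub, sub_mul, map_sub, mul_smul_comm, smul_mul_assoc, map_smul, smul_eq_mul]
      rw [hrr, sub_self]
    have e2 := H3B_claim hG a κ ha hκ h3 h θ w hx hg hne e1
    simp only [mul_sub, sub_mul, map_sub, mul_smul_comm, smul_mul_assoc, map_smul,
      smul_eq_mul] at e2
    rw [mul_comm y x] at e2
    linear_combination θ (w * ((x * x) * a)) * e2 - (r * θ (w * ((x * x) * a)) -
      θ (w * ((x * y) * a))) * hrr
  by_cases h1 : θ (w * ((x * x) * a)) = 0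
  · by_cases h4 : θ (w * ((y * y) * a)) = 0
    · by_contra hne
      rw [h1, h4, zero_mul] at hne
      have hxy : θ (w * ((x * y) * a)) ≠ 0 := by
        intro h5
        apply hne
        rw [h5]
        ring
      have e1 : θ (w * (((x + y) * (x + y)) * a)) = 2 * θ (w * ((x * y) * a)) := by
        simp only [mul_add, add_mul, map_add]
        rw [h1, h4, mul_comm y x]
        ring
      have e2 : θ (w * (((x + y) * (x - y)) * a)) = 0 := by
        simp only [mul_add, add_mul, map_add, mul_sub, sub_mul, map_sub]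
        rw [h1, h4, mul_comm y x]
        ring
      have e3 : θ (w * (((x - y) * (x - y)) * a)) = -2 * θ (w * ((x * y) * a)) := by
        simp only [mul_sub, sub_mul, map_sub]
        rw [h1, h4, mul_comm y x]
        ring
      have e4 := H3B_claim hG a κ ha hκ h3 h θ w ((D 1).add_mem hx hy) ((D 1).sub_mem hx hy)
        (by rw [e1]; exact mul_ne_zero hG.two hxy) e2
      rw [e3] at e4
      exact (mul_ne_zero (neg_ne_zero.mpr hG.two) hxy) e4
    · have := key y hy x hx h4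
      rw [mul_comm y x] at this
      linear_combination this
  · exact key x hx y hy h1

theorem H3A_ne (hG : GJ F A 6 D) (a : A) (κ : A →ₗ[F] F) (ha : a ∈ D 3) (hκ : κ a = 1)
    (h3 : ∀ h ∈ D 3, h = κ h • a) (h : ∀ v ∈ D 1, v * a = 0) : False := by
  have := hG.fin
  have := hG.inf
  obtain ⟨g6, -, -, θ, -, hθ⟩ := exists_coord hG.top
  -- (1)
  have hne : ¬ ∀ w ∈ D 1, ∀ q ∈ D 2, θ (w * (q * a)) = 0 := by
    intro hall
    have hqa : ∀ q ∈ D 2, q * a = 0 := by
      intro q hq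
      have h5 : q * a ∈ D 5 := hG.mul_mem 2 3 (by norm_num) (by norm_num) _ hq _ ha
      refine hG.nd 5 (by norm_num) (by norm_num) _ h5 ?_ ?_
      · intro w hw
        rw [hθ _ (hG.mul_mem 1 5 (by norm_num) (by norm_num) _ hw _ h5), hall w hw q hq, zero_smul]
      · intro q' hq'
        exact hG.above 7 (by norm_num) _ (hG.mul_mem 2 5 (by norm_num) (by norm_num) _ hq' _ h5)
    have ha0 := hG.nd 3 (by norm_num) (by norm_num) a ha h hqa
    rw [ha0, map_zero] at hκ
    exact zero_ne_one hκ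
  apply hne
  -- (2)
  have hxx : ∀ x ∈ D 1, θ (x * ((x * x) * a)) = 0 := by
    intro x hx
    rw [← gJ1 hG.jordan x a, h x hx, mul_zero, map_zero]
  -- (6)
  by_contra hcon
  push Not at hcon
  obtain ⟨w0, hw0, q0, hq0, hwq⟩ := hcon
  let φ : A →ₗ[F] F := θ ∘ₗ LinearMap.mulLeft F w0 ∘ₗ LinearMap.mulRight F a
  have hφ : ∀ q, φ q = θ (w0 * (q * a)) := fun q => rfl
  obtain ⟨v0, hv0, hv0'⟩ : ∃ v0 ∈ D 1, φ (v0 * v0) ≠ 0 := by
    by_contra hc
    push Not at hc
    have h1 := hG.sq (LinearMap.ker φ) (fun v hv => LinearMap.mem_ker.mpr (hc v hv))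
    exact hwq (LinearMap.mem_ker.mp (h1 hq0))
  let T : Submodule F A :=
    { carrier := {v | ∀ q ∈ D 2, θ (v * (q * a)) = 0}
      add_mem' := by
        intro v v' hv hv' q hq
        rw [add_mul, map_add, hv q hq, hv' q hq, add_zero]
      zero_mem' := by
        intro q hq
        rw [zero_mul, map_zero]
      smul_mem' := by
        intro r v hv q hq
        rw [smul_mul_assoc, map_smul, hv q hq, smul_zero] }
  have hT : D 1 ≤ T := by
    refine hG.dense φ v0 hv0 hv0' T ?_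
    intro v hv hvα
    rw [hφ] at hvα
    have hyy : ∀ y ∈ D 1, θ (v * ((y * y) * a)) = 0 := by
      intro y hy
      have hR := fun t : F => H3B_R hG a κ ha hκ h3 h θ (w0 + t • v) hv hy
      have hpv := pvan' (W := F) ∅ 3 (fun i => if i = 0 then
          θ (w0 * ((v * v) * a)) * θ (w0 * ((y * y) * a)) - θ (w0 * ((v * y) * a)) ^ 2
        else if i = 1 then
          θ (w0 * ((v * v) * a)) * θ (v * ((y * y) * a)) -
            2 * (θ (w0 * ((v * y) * a)) * θ (v * ((v * y) * a)))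
        else - θ (v * ((v * y) * a)) ^ 2) (by
          intro t _
          have e := hR t
          simp only [add_mul, map_add, smul_mul_assoc, map_smul, smul_eq_mul] at e
          rw [hxx v hv] at e
          rw [Finset.sum_range_succ, Finset.sum_range_succ, Finset.sum_range_one]
          simp only [smul_eq_mul, if_true, one_ne_zero, if_false, OfNat.ofNat_ne_zero,
            OfNat.ofNat_ne_one]
          linear_combination e)
      have e2 := hpv 2 (by norm_num)
      have e1 := hpv 1 (by norm_num)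
      simp only [if_true, one_ne_zero, if_false, OfNat.ofNat_ne_zero,
            OfNat.ofNat_ne_one] at e2 e1
      have e2' : θ (v * ((v * y) * a)) = 0 := by
        have : θ (v * ((v * y) * a)) ^ 2 = 0 := by linear_combination -e2
        exact pow_eq_zero_iff (two_ne_zero) |>.mp this
      rw [e2'] at e1
      have e1' : θ (w0 * ((v * v) * a)) * θ (v * ((y * y) * a)) = 0 := by linear_combination e1
      exact (mul_eq_zero.mp e1').resolve_left hvα
    let ψ : A →ₗ[F] F := θ ∘ₗ LinearMap.mulLeft F v ∘ₗ LinearMap.mulRight F a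
    have h1 := hG.sq (LinearMap.ker ψ) (fun y hy => LinearMap.mem_ker.mpr (hyy y hy))
    intro q hq
    exact LinearMap.mem_ker.mp (h1 hq)
  exact hwq (hT hw0 q0 hq0)

end JD
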