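import Pool.Agent.H9.JH.Defs

set_option autoImplicit false

/-!
# JH H3E: the determinant lemma (class 6)

`H3det`. `Γ` is a bilinear map with values in `D 4` on `D 2`. PROOF. `δ(h,q,q') := θ(h Γ(q,q'))` (`θ` the coordinate of `D 6`).
By `hsym` and `hcomm`, `δ` is totally symmetric trilinear on `D 2`. `δ(vy, v², q) = (vy)Γ(v²,q) = y (v Γ(v²,q)) = 0` (`hV`, `hv`;
note `(yv)Γ = y(vΓ)`). Linearise in `v` (coefficient of `t` in `v + t w`): `2 δ(vw, vy, q) + δ(v², wy, q) = 0`.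
(*) IF `δ = 0` THEN `Γ = 0` on `D 2`: `h Γ(q,q') = 0`, `v (w Γ(q,q')) = (vw)Γ(q,q') = 0`, so `w Γ(q,q') ∈ D 5` is killed by
`V` and by `D 2` (degree 7), so it is `0`, so `Γ(q,q') = 0`.
LET `finrank (D 1) = 2`, basis `1, 2` of `V` (write `ij` for the product). `δ(11,11,·) = δ(11,12,·) = δ(22,12,·) = δ(22,22,·) = 0` and
`2δ(12,12,q) + δ(11,22,q) = 0` (`v = 1, w = y = 2`). So `δ(12,12,11) = δ(12,12,22) = 0`, `2δ(12,12,12) = -δ(11,22,12) = 0`,
`δ(11,22,q) = -2δ(12,12,q) = 0`. So `δ = 0` (`D 2` is spanned by `11, 12, 22`).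
LET `finrank (D 1) = 3`, basis `1, 2, 3`. For `{i,j,k} = {1,2,3}`: `δ(ii,ii,·) = δ(ii,ij,·) = 0`, `δ(ii,jj,q) = -2δ(ij,ij,q)`,
`δ(ii,jk,q) = -2δ(ij,ik,q)`. Let `t = δ(12,13,23)`. Then `δ(ii,jk,jk) = -2 t`, `δ(11,22,33) = 4t`, and all other values on triples
of products of basis vectors vanish: every triple of products whose total weight is not `(2,2,2)` gives `0` [weights `(≥4,·,·)`: contains `ii` and
(`ii` or `ij`); `(3,3,0)`: `11,22,12` or `12,12,12`; `(3,2,1)`: `11,12,23`; `11,22,13`; `12,12,13`; reduce with the rules], and weight `(2,2,2)`: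
`(11,22,33)`, `(ii,jk,jk)`, `(12,13,23)`. If `t = 0`: `δ = 0`, `Γ = 0`. If `t ≠ 0`: a relation `∑_{i≤j} c_ij (ij) = 0` in `D 2`
gives `c_ij = 0`: `δ(∑, 22, 33) = 4t c_11`, `δ(∑,13,23) = t c_12` etc. So the six products are a basis of `D 2`, `finrank (D 2) = 6`, and
`D 2 → Hom(D 4, D 6)`, `q ↦ (h ↦ q h)`, is injective (same computation: if `q D 4 = 0` then `δ(q,·,·) = 0`), so
`finrank (D 4) ≥ 6`.
-/

namespace JD

universe u

/-- values of a symmetric trilinear form with the rules of the determinant lemma -/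
theorem H3E_val {F : Type u} [Field F] (two : (2 : F) ≠ 0) (f : Fin 6 → Fin 6 → Fin 6 → F)
    (h1 : ∀ i j k, f i j k = f j i k) (h2 : ∀ i j k, f i j k = f i k j)
    (z00 : ∀ k, f 0 0 k = 0)
    (z04 : ∀ k, f 0 4 k = 0)
    (z05 : ∀ k, f 0 5 k = 0)
    (z11 : ∀ k, f 1 1 k = 0)
    (z13 : ∀ k, f 1 3 k = 0)
    (z15 : ∀ k, f 1 5 k = 0)
    (z22 : ∀ k, f 2 2 k = 0)
    (z23 : ∀ k, f 2 3 k = 0)
    (z24 : ∀ k, f 2 4 k = 0)
    (r55 : ∀ k, 2 * f 5 5 k + f 0 1 k = 0)
    (r45 : ∀ k, 2 * f 4 5 k + f 0 3 k = 0)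
    (r44 : ∀ k, 2 * f 4 4 k + f 0 2 k = 0)
    (r35 : ∀ k, 2 * f 3 5 k + f 1 4 k = 0)
    (r33 : ∀ k, 2 * f 3 3 k + f 1 2 k = 0)
    (r34 : ∀ k, 2 * f 3 4 k + f 2 5 k = 0) :
    (f 0 1 2 = 4 * f 3 4 5 ∧ f 0 3 3 = -2 * f 3 4 5 ∧ f 1 4 4 = -2 * f 3 4 5 ∧ f 2 5 5 = -2 * f 3 4 5) ∧
    (f 3 4 5 = 0 → ∀ i j k, f i j k = 0) ∧
    (∀ i, f i 1 2 = if i = 0 then 4 * f 3 4 5 else 0) ∧
    (∀ i, f i 0 2 = if i = 1 then 4 * f 3 4 5 else 0) ∧
    (∀ i, f i 0 1 = if i = 2 then 4 * f 3 4 5 else 0) ∧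
    (∀ i, f i 4 5 = if i = 3 then f 3 4 5 else 0) ∧
    (∀ i, f i 3 5 = if i = 4 then f 3 4 5 else 0) ∧
    (∀ i, f i 3 4 = if i = 5 then f 3 4 5 else 0) := by
  have e333 : f 3 3 3 = 0 := by
    have q1 : f 1 2 3 = 0 := ((h2 1 2 3).trans (z13 2))
    have q2 : f 3 3 3 = 0 := mul_left_cancel₀ two (by linear_combination r33 3 - q1)
    exact (q2)
  have e334 : f 3 3 4 = 0 := by
    have q1 : f 1 2 4 = 0 := ((h1 1 2 4).trans ((h2 2 1 4).trans (z24 1)))
    have q2 : f 3 3 4 = 0 := mul_left_cancel₀ two (by linear_combination r33 4 - q1)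
    exact (q2)
  have e335 : f 3 3 5 = 0 := by
    have q1 : f 1 2 5 = 0 := ((h2 1 2 5).trans (z15 2))
    have q2 : f 3 3 5 = 0 := mul_left_cancel₀ two (by linear_combination r33 5 - q1)
    exact (q2)
  have e344 : f 3 4 4 = 0 := by
    have q1 : f 2 5 4 = 0 := ((h2 2 5 4).trans (z24 5))
    have q2 : f 3 4 4 = 0 := mul_left_cancel₀ two (by linear_combination r34 4 - q1)
    exact (q2)
  have e355 : f 3 5 5 = 0 := by
    have q1 : f 1 4 5 = 0 := ((h2 1 4 5).trans (z15 4))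
    have q2 : f 3 5 5 = 0 := mul_left_cancel₀ two (by linear_combination r35 5 - q1)
    exact (q2)
  have e444 : f 4 4 4 = 0 := by
    have q1 : f 0 2 4 = 0 := ((h2 0 2 4).trans (z04 2))
    have q2 : f 4 4 4 = 0 := mul_left_cancel₀ two (by linear_combination r44 4 - q1)
    exact (q2)
  have e445 : f 4 4 5 = 0 := by
    have q1 : f 0 2 5 = 0 := ((h2 0 2 5).trans (z05 2))
    have q2 : f 4 4 5 = 0 := mul_left_cancel₀ two (by linear_combination r44 5 - q1)
    exact (q2)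
  have e455 : f 4 5 5 = 0 := by
    have q1 : f 0 3 5 = 0 := ((h2 0 3 5).trans (z05 3))
    have q2 : f 4 5 5 = 0 := mul_left_cancel₀ two (by linear_combination r45 5 - q1)
    exact (q2)
  have e555 : f 5 5 5 = 0 := by
    have q1 : f 0 1 5 = 0 := ((h2 0 1 5).trans (z05 1))
    have q2 : f 5 5 5 = 0 := mul_left_cancel₀ two (by linear_combination r55 5 - q1)
    exact (q2)
  have e033 : f 0 3 3 = -2 * f 3 4 5 := by
    have q1 : f 4 5 3 = f 3 4 5 := ((h2 4 5 3).trans (h1 4 3 5))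
    linear_combination r45 3 - 2 * q1
  have e144 : f 1 4 4 = -2 * f 3 4 5 := by
    have q1 : f 3 5 4 = f 3 4 5 := (h2 3 5 4)
    linear_combination r35 4 - 2 * q1
  have e255 : f 2 5 5 = -2 * f 3 4 5 := by
    linear_combination r34 5
  have e012 : f 0 1 2 = 4 * f 3 4 5 := by
    have q1 : f 3 3 0 = f 0 3 3 := ((h2 3 3 0).trans (h1 3 0 3))
    have q2 : f 1 2 0 = f 0 1 2 := ((h2 1 2 0).trans (h1 1 0 2))
    linear_combination r33 0 - 2 * q1 - q2 - 2 * e033
  refine ⟨⟨e012, e033, e144, e255⟩, ?_, ?_, ?_, ?_, ?_, ?_, ?_⟩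
  · intro ht
    have a012 : f 0 1 2 = 0 := by rw [e012, ht, mul_zero]
    have a033 : f 0 3 3 = 0 := by rw [e033, ht, mul_zero]
    have a144 : f 1 4 4 = 0 := by rw [e144, ht, mul_zero]
    have a255 : f 2 5 5 = 0 := by rw [e255, ht, mul_zero]
    have srt : ∀ i j k : Fin 6, i ≤ j → j ≤ k → f i j k = 0 := by
      intro i j k hij hjk
      fin_cases i <;> fin_cases j <;> fin_cases k <;> first | exact absurd hij (by decide) | exact absurd hjk (by decide) | skip
      · exact (z00 0)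
      · exact (z00 1)
      · exact (z00 2)
      · exact (z00 3)
      · exact (z00 4)
      · exact (z00 5)
      · exact ((h1 0 1 1).trans ((h2 1 0 1).trans (z11 0)))
      · exact a012
      · exact ((h1 0 1 3).trans ((h2 1 0 3).trans (z13 0)))
      · exact ((h2 0 1 4).trans (z04 1))
      · exact ((h2 0 1 5).trans (z05 1))
      · exact ((h1 0 2 2).trans ((h2 2 0 2).trans (z22 0)))
      · exact ((h1 0 2 3).trans ((h2 2 0 3).trans (z23 0)))
      · exact ((h2 0 2 4).trans (z04 2))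
      · exact ((h2 0 2 5).trans (z05 2))
      · exact a033
      · exact ((h2 0 3 4).trans (z04 3))
      · exact ((h2 0 3 5).trans (z05 3))
      · exact (z04 4)
      · exact (z04 5)
      · exact (z05 5)
      · exact (z11 1)
      · exact (z11 2)
      · exact (z11 3)
      · exact (z11 4)
      · exact (z11 5)
      · exact ((h1 1 2 2).trans ((h2 2 1 2).trans (z22 1)))
      · exact ((h2 1 2 3).trans (z13 2))
      · exact ((h1 1 2 4).trans ((h2 2 1 4).trans (z24 1)))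
      · exact ((h2 1 2 5).trans (z15 2))
      · exact (z13 3)
      · exact (z13 4)
      · exact (z13 5)
      · exact a144
      · exact ((h2 1 4 5).trans (z15 4))
      · exact (z15 5)
      · exact (z22 2)
      · exact (z22 3)
      · exact (z22 4)
      · exact (z22 5)
      · exact (z23 3)
      · exact (z23 4)
      · exact (z23 5)
      · exact (z24 4)
      · exact (z24 5)
      · exact a255
      · exact e333
      · exact e334
      · exact e335
      · exact e344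
      · exact ht
      · exact e355
      · exact e444
      · exact e445
      · exact e455
      · exact e555
    intro i j k
    rcases le_total i j with ha | ha <;> rcases le_total j k with hb | hb <;> rcases le_total i k with hc | hc
    · exact srt i j k ha hb
    · exact srt i j k ha hb
    · exact (h2 i j k).trans (srt i k j hc hb)
    · exact (h2 i j k).trans ((h1 i k j).trans (srt k i j hc ha))
    · exact (h1 i j k).trans (srt j i k ha hc)
    · exact (h1 i j k).trans ((h2 j i k).trans (srt j k i hb hc))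
    · exact (h1 i j k).trans ((h2 j i k).trans ((h1 j k i).trans (srt k j i hb ha)))
    · exact (h1 i j k).trans ((h2 j i k).trans ((h1 j k i).trans (srt k j i hb ha)))
  · intro i
    fin_cases i
    · exact (show f 0 1 2 = 4 * f 3 4 5 from (e012)).trans (by simp)
    · exact (show f 1 1 2 = 0 from (z11 2)).trans (by simp)
    · exact (show f 2 1 2 = 0 from ((h2 2 1 2).trans (z22 1))).trans (by simp)
    · exact (show f 3 1 2 = 0 from ((h1 3 1 2).trans (z13 2))).trans (by simp)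
    · exact (show f 4 1 2 = 0 from ((h2 4 1 2).trans ((h1 4 2 1).trans (z24 1)))).trans (by simp)
    · exact (show f 5 1 2 = 0 from ((h1 5 1 2).trans (z15 2))).trans (by simp)
  · intro i
    fin_cases i
    · exact (show f 0 0 2 = 0 from (z00 2)).trans (by simp)
    · exact (show f 1 0 2 = 4 * f 3 4 5 from ((h1 1 0 2).trans (e012))).trans (by simp)
    · exact (show f 2 0 2 = 0 from ((h2 2 0 2).trans (z22 0))).trans (by simp)
    · exact (show f 3 0 2 = 0 from ((h2 3 0 2).trans ((h1 3 2 0).trans (z23 0)))).trans (by simp)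
    · exact (show f 4 0 2 = 0 from ((h1 4 0 2).trans (z04 2))).trans (by simp)
    · exact (show f 5 0 2 = 0 from ((h1 5 0 2).trans (z05 2))).trans (by simp)
  · intro i
    fin_cases i
    · exact (show f 0 0 1 = 0 from (z00 1)).trans (by simp)
    · exact (show f 1 0 1 = 0 from ((h2 1 0 1).trans (z11 0))).trans (by simp)
    · exact (show f 2 0 1 = 4 * f 3 4 5 from ((h1 2 0 1).trans ((h2 0 2 1).trans (e012)))).trans (by simp)
    · exact (show f 3 0 1 = 0 from ((h2 3 0 1).trans ((h1 3 1 0).trans (z13 0)))).trans (by simp)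
    · exact (show f 4 0 1 = 0 from ((h1 4 0 1).trans (z04 1))).trans (by simp)
    · exact (show f 5 0 1 = 0 from ((h1 5 0 1).trans (z05 1))).trans (by simp)
  · intro i
    fin_cases i
    · exact (show f 0 4 5 = 0 from (z04 5)).trans (by simp)
    · exact (show f 1 4 5 = 0 from ((h2 1 4 5).trans (z15 4))).trans (by simp)
    · exact (show f 2 4 5 = 0 from (z24 5)).trans (by simp)
    · exact (show f 3 4 5 = f 3 4 5 from rfl).trans (by simp)
    · exact (show f 4 4 5 = 0 from (e445)).trans (by simp)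
    · exact (show f 5 4 5 = 0 from ((h1 5 4 5).trans (e455))).trans (by simp)
  · intro i
    fin_cases i
    · exact (show f 0 3 5 = 0 from ((h2 0 3 5).trans (z05 3))).trans (by simp)
    · exact (show f 1 3 5 = 0 from (z13 5)).trans (by simp)
    · exact (show f 2 3 5 = 0 from (z23 5)).trans (by simp)
    · exact (show f 3 3 5 = 0 from (e335)).trans (by simp)
    · exact (show f 4 3 5 = f 3 4 5 from (h1 4 3 5)).trans (by simp)
    · exact (show f 5 3 5 = 0 from ((h1 5 3 5).trans (e355))).trans (by simp)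
  · intro i
    fin_cases i
    · exact (show f 0 3 4 = 0 from ((h2 0 3 4).trans (z04 3))).trans (by simp)
    · exact (show f 1 3 4 = 0 from (z13 4)).trans (by simp)
    · exact (show f 2 3 4 = 0 from (z23 4)).trans (by simp)
    · exact (show f 3 3 4 = 0 from (e334)).trans (by simp)
    · exact (show f 4 3 4 = 0 from ((h1 4 3 4).trans (e344))).trans (by simp)
    · exact (show f 5 3 4 = f 3 4 5 from ((h1 5 3 4).trans (h2 3 5 4))).trans (by simp)


/-- a family with a dual family of functionals is linearly independent -/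
theorem H3E_li {F : Type u} [Field F] {A : Type u} [AddCommGroup A] [Module F A] {T : Submodule F A}
    (s : Fin 6 → A) (hs : ∀ i, s i ∈ T) (L : Fin 6 → (A →ₗ[F] F)) (c : Fin 6 → F)
    (hc : ∀ j, c j ≠ 0) (h : ∀ j i, L j (s i) = if i = j then c j else 0) :
    LinearIndependent F (fun i => (⟨s i, hs i⟩ : T)) := by
  rw [Fintype.linearIndependent_iff]
  intro g hg j
  have h1 : ∑ i, g i • s i = 0 := by
    have := congrArg (Submodule.subtype T) hg
    simpa using this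
  have h2 := congrArg (L j) h1
  rw [map_sum, map_zero] at h2
  simp only [map_smul, h, smul_eq_mul, mul_ite, mul_zero] at h2
  rw [Finset.sum_ite_eq' Finset.univ j] at h2
  simpa [hc j] using h2

variable {F : Type u} [Field F] {A : Type u} [NonUnitalNonAssocCommRing A] [Module F A]
  [IsScalarTower F A A] [SMulCommClass F A A] {D : ℕ → Submodule F A}

theorem H3E_core (hG : GJ F A 6 D) (Γ : A →ₗ[F] A →ₗ[F] A)
    (hΓ : ∀ q ∈ D 2, ∀ q' ∈ D 2, Γ q q' ∈ D 4)
    (hcomm : ∀ q ∈ D 2, ∀ q' ∈ D 2, Γ q q' = Γ q' q)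
    (hsym : ∀ p ∈ D 2, ∀ q ∈ D 2, ∀ q' ∈ D 2, p * Γ q q' = q * Γ p q')
    (hV : ∀ v ∈ D 1, ∀ w ∈ D 1, ∀ q ∈ D 2, ∀ q' ∈ D 2, v * (w * Γ q q') = (v * w) * Γ q q')
    (hv : ∀ v ∈ D 1, ∀ q ∈ D 2, v * Γ (v * v) q = 0)
    (e1 e2 e3 : A) (m1 : e1 ∈ D 1) (m2 : e2 ∈ D 1) (m3 : e3 ∈ D 1)
    (hsp : ∀ v ∈ D 1, ∃ x y z : F, v = x • e1 + y • e2 + z • e3) :
    ((e2 * e3) * Γ (e1 * e3) (e1 * e2) = 0 → ∀ q ∈ D 2, ∀ q' ∈ D 2, Γ q q' = 0) ∧
    ((e2 * e3) * Γ (e1 * e3) (e1 * e2) ≠ 0 →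
      Module.finrank F (D 2) = 6 ∧ 6 ≤ Module.finrank F (D 4)) := by
  have := hG.fin
  have two := hG.two
  have mm : ∀ v ∈ D 1, ∀ w ∈ D 1, v * w ∈ D 2 := fun v hv' w hw =>
    hG.mul_mem 1 1 le_rfl le_rfl v hv' w hw
  obtain ⟨u, -, -, φ, -, hφ⟩ := exists_coord hG.top
  have m6 : ∀ p ∈ D 2, ∀ q ∈ D 2, ∀ r ∈ D 2, p * Γ q r ∈ D 6 := fun p hp q hq r hr =>
    hG.mul_mem 2 4 (by norm_num) (by norm_num) p hp _ (hΓ q hq r hr)
  have z6 : ∀ p ∈ D 2, ∀ q ∈ D 2, ∀ r ∈ D 2, φ (p * Γ q r) = 0 → p * Γ q r = 0 := by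
    intro p hp q hq r hr h
    rw [hφ _ (m6 p hp q hq r hr), h, zero_smul]
  -- the rules
  have R1 : ∀ v ∈ D 1, ∀ y ∈ D 1, ∀ q ∈ D 2, (v * y) * Γ (v * v) q = 0 := by
    intro v hv' y hy q hq
    rw [mul_comm v y, ← hV y hy v hv' _ (mm v hv' v hv') q hq, hv v hv' q hq, mul_zero]
  have R2 : ∀ v ∈ D 1, ∀ w ∈ D 1, ∀ y ∈ D 1, ∀ q ∈ D 2,
      2 * φ ((v * w) * Γ (v * y) q) + φ ((v * v) * Γ (w * y) q) = 0 := by
    intro v hv' w hw y hy q hq
    have a1 := congrArg φ (R1 _ ((D 1).add_mem hv' hw) y hy q hq)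
    have a2 := congrArg φ (R1 _ ((D 1).sub_mem hv' hw) y hy q hq)
    have b1 := congrArg φ (R1 v hv' y hy q hq)
    have b2 := congrArg φ (R1 w hw y hy q hq)
    simp only [add_mul, mul_add, sub_mul, mul_sub, map_add, map_sub, LinearMap.add_apply,
      LinearMap.sub_apply, map_zero, mul_comm w v] at a1 a2 b1 b2
    have c1 : φ (v * y * Γ (v * w) q) = φ ((v * w) * Γ (v * y) q) := by
      rw [hsym _ (mm v hv' y hy) _ (mm v hv' w hw) q hq]
    have c2 : φ (w * y * Γ (v * v) q) = φ ((v * v) * Γ (w * y) q) := by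
      rw [hsym _ (mm w hw y hy) _ (mm v hv' v hv') q hq]
    rw [← c1, ← c2]
    apply mul_left_cancel₀ two
    linear_combination a1 - a2 - 2 * b2
  -- if all the values vanish then `Γ` vanishes
  have hstar : (∀ p ∈ D 2, ∀ q ∈ D 2, ∀ r ∈ D 2, φ (p * Γ q r) = 0) →
      ∀ q ∈ D 2, ∀ q' ∈ D 2, Γ q q' = 0 := by
    intro h q hq r hr
    refine hG.nd 4 (by norm_num) (by norm_num) _ (hΓ q hq r hr) ?_ ?_
    · intro v hv'
      refine hG.nd 5 (by norm_num) (by norm_num) _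
        (hG.mul_mem 1 4 (by norm_num) (by norm_num) v hv' _ (hΓ q hq r hr)) ?_ ?_
      · intro w hw
        rw [hV w hw v hv' q hq r hr]
        exact z6 _ (mm w hw v hv') q hq r hr (h _ (mm w hw v hv') q hq r hr)
      · intro p hp
        exact hG.above 7 (by norm_num) _ (hG.mul_mem 2 5 (by norm_num) (by norm_num) p hp _
          (hG.mul_mem 1 4 (by norm_num) (by norm_num) v hv' _ (hΓ q hq r hr)))
    · intro p hp
      exact z6 p hp q hq r hr (h p hp q hq r hr)
  -- the six products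
  let s : Fin 6 → A := ![e1 * e1, e2 * e2, e3 * e3, e2 * e3, e1 * e3, e1 * e2]
  have hs : ∀ i, s i ∈ D 2 := by
    intro i
    fin_cases i
    · exact mm _ m1 _ m1
    · exact mm _ m2 _ m2
    · exact mm _ m3 _ m3
    · exact mm _ m2 _ m3
    · exact mm _ m1 _ m3
    · exact mm _ m1 _ m2
  have hspan : D 2 ≤ Submodule.span F (Set.range s) := by
    apply hG.gen2
    intro v hv' w hw
    obtain ⟨x, y, z, rfl⟩ := hsp v hv'
    obtain ⟨x', y', z', rfl⟩ := hsp w hw
    have e : (x • e1 + y • e2 + z • e3) * (x' • e1 + y' • e2 + z' • e3) =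
        (x * x') • s 0 + (y * y') • s 1 + (z * z') • s 2 + (y * z' + z * y') • s 3 +
          (x * z' + z * x') • s 4 + (x * y' + y * x') • s 5 := by
      simp only [s, Matrix.cons_val, add_mul, mul_add, smul_mul_smul_comm, mul_comm e2 e1,
        mul_comm e3 e1, mul_comm e3 e2, add_smul]
      abel
    rw [e]
    have hi : ∀ i, s i ∈ Submodule.span F (Set.range s) := fun i =>
      Submodule.subset_span ⟨i, rfl⟩
    exact Submodule.add_mem _ (Submodule.add_mem _ (Submodule.add_mem _ (Submodule.add_mem _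
      (Submodule.add_mem _ (Submodule.smul_mem _ _ (hi 0)) (Submodule.smul_mem _ _ (hi 1)))
      (Submodule.smul_mem _ _ (hi 2))) (Submodule.smul_mem _ _ (hi 3)))
      (Submodule.smul_mem _ _ (hi 4))) (Submodule.smul_mem _ _ (hi 5))
  let f : Fin 6 → Fin 6 → Fin 6 → F := fun i j k => φ (s i * Γ (s j) (s k))
  have key := H3E_val two f
    (fun i j k => by
      change φ (s i * Γ (s j) (s k)) = φ (s j * Γ (s i) (s k))
      rw [hsym _ (hs i) _ (hs j) _ (hs k)])
    (fun i j k => by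
      change φ (s i * Γ (s j) (s k)) = φ (s i * Γ (s k) (s j))
      rw [hcomm _ (hs j) _ (hs k)])
    (fun k => by
      change φ ((e1 * e1) * Γ (e1 * e1) (s k)) = 0
      rw [R1 e1 m1 e1 m1 _ (hs k), map_zero])
    (fun k => by
      change φ ((e1 * e1) * Γ (e1 * e3) (s k)) = 0
      rw [hsym _ (mm _ m1 _ m1) _ (mm _ m1 _ m3) _ (hs k), R1 e1 m1 e3 m3 _ (hs k), map_zero])
    (fun k => by
      change φ ((e1 * e1) * Γ (e1 * e2) (s k)) = 0
      rw [hsym _ (mm _ m1 _ m1) _ (mm _ m1 _ m2) _ (hs k), R1 e1 m1 e2 m2 _ (hs k), map_zero])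
    (fun k => by
      change φ ((e2 * e2) * Γ (e2 * e2) (s k)) = 0
      rw [R1 e2 m2 e2 m2 _ (hs k), map_zero])
    (fun k => by
      change φ ((e2 * e2) * Γ (e2 * e3) (s k)) = 0
      rw [hsym _ (mm _ m2 _ m2) _ (mm _ m2 _ m3) _ (hs k), R1 e2 m2 e3 m3 _ (hs k), map_zero])
    (fun k => by
      change φ ((e2 * e2) * Γ (e1 * e2) (s k)) = 0
      rw [hsym _ (mm _ m2 _ m2) _ (mm _ m1 _ m2) _ (hs k), mul_comm e1 e2,
        R1 e2 m2 e1 m1 _ (hs k), map_zero])
    (fun k => by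
      change φ ((e3 * e3) * Γ (e3 * e3) (s k)) = 0
      rw [R1 e3 m3 e3 m3 _ (hs k), map_zero])
    (fun k => by
      change φ ((e3 * e3) * Γ (e2 * e3) (s k)) = 0
      rw [hsym _ (mm _ m3 _ m3) _ (mm _ m2 _ m3) _ (hs k), mul_comm e2 e3,
        R1 e3 m3 e2 m2 _ (hs k), map_zero])
    (fun k => by
      change φ ((e3 * e3) * Γ (e1 * e3) (s k)) = 0
      rw [hsym _ (mm _ m3 _ m3) _ (mm _ m1 _ m3) _ (hs k), mul_comm e1 e3,
        R1 e3 m3 e1 m1 _ (hs k), map_zero])
    (fun k => by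
      have := R2 e1 m1 e2 m2 e2 m2 _ (hs k)
      exact this)
    (fun k => by
      have := R2 e1 m1 e3 m3 e2 m2 _ (hs k)
      rw [mul_comm e3 e2] at this
      exact this)
    (fun k => by
      have := R2 e1 m1 e3 m3 e3 m3 _ (hs k)
      exact this)
    (fun k => by
      have := R2 e2 m2 e3 m3 e1 m1 _ (hs k)
      rw [mul_comm e3 e1, mul_comm e2 e1] at this
      exact this)
    (fun k => by
      have := R2 e2 m2 e3 m3 e3 m3 _ (hs k)
      exact this)
    (fun k => by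
      have := R2 e3 m3 e2 m2 e1 m1 _ (hs k)
      rw [mul_comm e3 e2, mul_comm e3 e1, mul_comm e2 e1] at this
      exact this)
  obtain ⟨-, k0, k1, k2, k3, k4, k5, k6⟩ := key
  have hrange : ∀ p ∈ D 2, ∃ c : Fin 6 → F, ∑ i, c i • s i = p := fun p hp =>
    (Submodule.mem_span_range_iff_exists_fun F).mp (hspan hp)
  constructor
  · intro ht
    apply hstar
    have h0 : ∀ i j k, φ (s i * Γ (s j) (s k)) = 0 := k0 (by
      change φ ((e2 * e3) * Γ (e1 * e3) (e1 * e2)) = 0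
      rw [ht, map_zero])
    intro p hp q hq r hr
    obtain ⟨a, rfl⟩ := hrange p hp
    obtain ⟨b, rfl⟩ := hrange q hq
    obtain ⟨c, rfl⟩ := hrange r hr
    simp only [map_sum, map_smul, LinearMap.sum_apply, LinearMap.smul_apply, Finset.sum_mul,
      Finset.mul_sum, mul_smul_comm, smul_mul_assoc, h0, smul_zero, Finset.sum_const_zero]
  · intro ht
    have ht' : f 3 4 5 ≠ 0 := fun h => ht (z6 _ (hs 3) _ (hs 4) _ (hs 5) h)
    have h4 : (4 : F) * f 3 4 5 ≠ 0 := by
      apply mul_ne_zero _ ht'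
      have : (4 : F) = 2 * 2 := by norm_num
      rw [this]
      exact mul_ne_zero two two
    let r : Fin 6 → A := ![Γ (s 1) (s 2), Γ (s 0) (s 2), Γ (s 0) (s 1), Γ (s 4) (s 5),
      Γ (s 3) (s 5), Γ (s 3) (s 4)]
    let c : Fin 6 → F := ![4 * f 3 4 5, 4 * f 3 4 5, 4 * f 3 4 5, f 3 4 5, f 3 4 5, f 3 4 5]
    have hr : ∀ i, r i ∈ D 4 := by
      intro i
      fin_cases i
      · exact hΓ _ (hs 1) _ (hs 2)
      · exact hΓ _ (hs 0) _ (hs 2)
      · exact hΓ _ (hs 0) _ (hs 1)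
      · exact hΓ _ (hs 4) _ (hs 5)
      · exact hΓ _ (hs 3) _ (hs 5)
      · exact hΓ _ (hs 3) _ (hs 4)
    have hc : ∀ j, c j ≠ 0 := by
      intro j
      fin_cases j
      · exact h4
      · exact h4
      · exact h4
      · exact ht'
      · exact ht'
      · exact ht'
    have hsr : ∀ i j, φ (s i * r j) = if i = j then c j else 0 := by
      intro i j
      fin_cases j
      · exact k1 i
      · exact k2 i
      · exact k3 i
      · exact k4 i
      · exact k5 i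
      · exact k6 i
    have l2 := H3E_li s hs (fun j => φ ∘ₗ LinearMap.mulRight F (r j)) c hc
      (fun j i => by simpa using hsr i j)
    have l4 := H3E_li r hr (fun j => φ ∘ₗ LinearMap.mulLeft F (s j)) c hc
      (fun j i => by
        have := hsr j i
        simp only [LinearMap.comp_apply, LinearMap.mulLeft_apply]
        rw [this]
        by_cases hij : i = j
        · subst hij; simp
        · rw [if_neg (fun h => hij h.symm), if_neg hij])
    have f2 := l2.fintype_card_le_finrank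
    have f4 := l4.fintype_card_le_finrank
    rw [Fintype.card_fin] at f2 f4
    refine ⟨le_antisymm ?_ f2, f4⟩
    have h5 := Submodule.finrank_mono hspan
    have h6 := finrank_range_le_card (R := F) s
    rw [Fintype.card_fin] at h6
    exact h5.trans h6

theorem H3det (hG : GJ F A 6 D) (Γ : A →ₗ[F] A →ₗ[F] A)
    (hΓ : ∀ q ∈ D 2, ∀ q' ∈ D 2, Γ q q' ∈ D 4)
    (hcomm : ∀ q ∈ D 2, ∀ q' ∈ D 2, Γ q q' = Γ q' q)
    (hsym : ∀ p ∈ D 2, ∀ q ∈ D 2, ∀ q' ∈ D 2, p * Γ q q' = q * Γ p q')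
    (hV : ∀ v ∈ D 1, ∀ w ∈ D 1, ∀ q ∈ D 2, ∀ q' ∈ D 2, v * (w * Γ q q') = (v * w) * Γ q q')
    (hv : ∀ v ∈ D 1, ∀ q ∈ D 2, v * Γ (v * v) q = 0) :
    (Module.finrank F (D 1) = 2 → ∀ q ∈ D 2, ∀ q' ∈ D 2, Γ q q' = 0) ∧
    (Module.finrank F (D 1) = 3 → (∀ q ∈ D 2, ∀ q' ∈ D 2, Γ q q' = 0) ∨
      (Module.finrank F (D 2) = 6 ∧ 6 ≤ Module.finrank F (D 4))) := by
  have := hG.fin
  constructor
  · intro h
    let b : Module.Basis (Fin 2) F (D 1) := Module.finBasisOfFinrankEq F (D 1) h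
    refine (H3E_core hG Γ hΓ hcomm hsym hV hv (b 0) (b 1) 0 (b 0).2 (b 1).2
      (Submodule.zero_mem _) ?_).1 ?_
    · intro v hv'
      have := b.sum_equivFun ⟨v, hv'⟩
      rw [Fin.sum_univ_two] at this
      have h3 := congrArg Subtype.val this
      exact ⟨b.equivFun ⟨v, hv'⟩ 0, b.equivFun ⟨v, hv'⟩ 1, 0, by
        rw [smul_zero, add_zero]
        exact h3.symm⟩
    · rw [mul_zero, zero_mul]
  · intro h
    let b : Module.Basis (Fin 3) F (D 1) := Module.finBasisOfFinrankEq F (D 1) h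
    have key := H3E_core hG Γ hΓ hcomm hsym hV hv (b 0) (b 1) (b 2) (b 0).2 (b 1).2 (b 2).2 (by
      intro v hv'
      have := b.sum_equivFun ⟨v, hv'⟩
      rw [Fin.sum_univ_three] at this
      have h3 := congrArg Subtype.val this
      exact ⟨b.equivFun ⟨v, hv'⟩ 0, b.equivFun ⟨v, hv'⟩ 1, b.equivFun ⟨v, hv'⟩ 2, h3.symm⟩)
    by_cases ht : ((b 1 : A) * (b 2 : A)) * Γ ((b 0 : A) * (b 2 : A)) ((b 0 : A) * (b 1 : A)) = 0
    · exact Or.inl (key.1 ht)
    · exact Or.inr (key.2 ht)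

end JD
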