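import Pool.Agent.H9.JH.H3A
import Pool.Agent.H9.JH.H3B
import Pool.Agent.H9.JH.H3C
import Pool.Agent.H9.JH.H3E

set_option autoImplicit false

/-!
# JH H3D: the theorem on `dim D 3 ≤ 1` (class 6)

(5a) is `gJ3 x y q` on `h` (see H3C): `c(h;x,y)π(q) + η(h)[χ(y,q)ψ(x) + χ(x,q)ψ(y)] = χ(h,q)π(xy) + χ(y,q)π(xh) + χ(x,q)π(yh)`,
with `π(q) = q a`, `ψ(v) = v g`, `χ(v,q) = κ(v q)`, `c(h;x,y) = κ(h(xy))`.

`H3`. Let `finrank (D 3) ≤ 1`, `finrank (D 1) ∈ {2, 3}`. PROOF. If `D 3 = 0` take `Γ(q,q') = q q'`: `hV`: `gJ3 v q q'` on `w`: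
`(vq)(q'w) + (qq')(vw) + (q'v)(qw) = q'((vq)w) + v((qq')w) + q((q'v)w)`, all products in `D 3` vanish, so `(vw)(qq') = v(w(qq'))`.
`hsym`: `gJ3 v w q` on `q'`: `(vw)(qq') = q((vw)q')`, so `p(qq') = q(pq')` for `p = vw`, so for all `p ∈ D 2`. `hv`: `gJ1 v q`:
`v(v²q) = v²(vq) = 0`. If `finrank (D 1) = 2` or the first alternative: `D 2 D 2 = 0`, so `D 4 = V D 3 + D 2 D 2 = 0`,
`D 5 = V D 4 + D 2 D 3 = 0`, `D 6 = 0`: contradiction. Otherwise done.
If `D 3 = F a`: by `H3A_rank`, `H3A_ne`, `H3C` we have `g, η, e, c0`. Replace `a` by `a' = c0 a`: so assume `c0 = 1` (then `κ` is replaced by `c0⁻¹ κ`, `g` by `c0 g`):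
`κ(h(xy)) = η(h)η(x)η(y)`. Put `ε(q) := κ(e q)` (linear): `ε(xy) = η(x)η(y)`, `v q = η(v)ε(q) a`, `v a = η(v) g`, `W D 2 = 0`
(`W = ker η`). `x5 := e g`. (5a) [see H3C] with `h = x = y = e`: `π(q) + 2ε(q) x5 = 3 ε(q) π(ee)`, `q = ee`: `π(ee) = x5`, so `π(q) = q a = ε(q) x5`.
(5a) with `x = w ∈ W`, `y = h = e`, `q = ee`: `c = 0`, `χ(w,·) = 0`: `ψ(w) χ(e,ee) = χ(e,ee)π(we) + χ(e,ee)π(we) + 0 = 0` (`π(we) = ε(we)x5 = 0`; `ε(we) = 0`),
so `w g = 0`: `v g = η(v) x5`. Degree 6: `gJ1 v a`: `v²(va) = v(v²a)`: `η(v) v²g = η(v)² v x5`, so `v² g = η(v) v x5` (for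
`η(v) ≠ 0`, then for all `v` by `v + te`, `pvan'`), so `(vw)g = 1/2(η(v) w x5 + η(w) v x5)`. `gJ4 x y z` on `a`: `((xy)z)a = η(x)η(y)η(z) a²` and the right side is
`(xy)(za) + (xz)(ya) + (yz)(xa) - x(z(ya)) - y(z(xa)) = η(x)η(y) z x5`. With `x = y = e`: `z x5 = η(z) a²` for all `z ∈ V`. So
`q g = ε(q) a²` for all `q ∈ D 2`.
Now `Γ(q,q') := q q' - ε(q)ε(q') g`. `hv`: `gJ1 v q`: `v(v²q) = v²(vq) = η(v)ε(q) v² a = η(v)ε(q)η(v)² x5`, and `v(ε(v²)ε(q) g) = η(v)²ε(q)η(v) x5`. So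
`v Γ(v²,q) = 0`. `hsym`: `gJ3 v w q` on `q'`: `(vw)(qq') + (wq)(vq') + (qv)(wq') = q((vw)q') + v((wq)q') + w((qv)q')`; here `(wq)(vq') = η(w)ε(q)η(v)ε(q') a²
= v((wq)q')` (`(wq)q' = η(w)ε(q) ε(q') x5`), same for the third; so `(vw)(qq') = q((vw)q')`, and `(vw)(ε(q)ε(q')g) = ε(vw)ε(q)ε(q')a² = q (ε(vw)ε(q') g)`. So
`p Γ(q,q') = q Γ(p,q')`. `hV`: `gJ3 v q q'` on `w`: `(vq)(q'w) + (qq')(vw) + (q'v)(qw) = q'((vq)w) + v((qq')w) + q((q'v)w)`, where
`(vq)(q'w) = η(v)ε(q)η(w)ε(q') a² = q'((vq)w)`, same for the third: `(vw)(qq') = v(w(qq'))`, and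
`(vw)g = v(wg)` (`= η(v)η(w)a²`). So `(vw)Γ = v(wΓ)`.
By `H3det`: either done, or `Γ = 0`. If `Γ = 0`: `q q' = ε(q)ε(q') g`. Let `w ∈ W`, `v ∈ V`, `q0 = w v`: `ε(q0) = 0`; `z q0 = η(z)ε(q0)a = 0`, `q q0 = 0`: so
`q0 = 0`. So `w V = 0`, `w D 2 = 0` (`w q = η(w)ε(q)a`), so `w = 0`. So `W = 0` and `finrank (D 1) ≤ 1`, contradiction.
-/

namespace JD

universe u

variable {F : Type u} [Field F] {A : Type u} [NonUnitalNonAssocCommRing A] [Module F A]
  [IsScalarTower F A A] [SMulCommClass F A A] {D : ℕ → Submodule F A}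

/-- end of the proof -/
private theorem H3D_fin (hG : GJ F A 6 D)
    (h1 : Module.finrank F (D 1) = 2 ∨ Module.finrank F (D 1) = 3) (Γ : A →ₗ[F] A →ₗ[F] A)
    (hΓ : ∀ q ∈ D 2, ∀ q' ∈ D 2, Γ q q' ∈ D 4)
    (hcomm : ∀ q ∈ D 2, ∀ q' ∈ D 2, Γ q q' = Γ q' q)
    (hsym : ∀ p ∈ D 2, ∀ q ∈ D 2, ∀ q' ∈ D 2, p * Γ q q' = q * Γ p q')
    (hV : ∀ v ∈ D 1, ∀ w ∈ D 1, ∀ q ∈ D 2, ∀ q' ∈ D 2, v * (w * Γ q q') = (v * w) * Γ q q')
    (hv : ∀ v ∈ D 1, ∀ q ∈ D 2, v * Γ (v * v) q = 0)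
    (hne : ¬ ∀ q ∈ D 2, ∀ q' ∈ D 2, Γ q q' = 0) :
    Module.finrank F (D 1) = 3 ∧ Module.finrank F (D 2) = 6 ∧ 6 ≤ Module.finrank F (D 4) := by
  obtain ⟨k1, k2⟩ := H3det hG Γ hΓ hcomm hsym hV hv
  rcases h1 with h1 | h1
  · exact absurd (k1 h1) hne
  · rcases k2 h1 with h | h
    · exact absurd h hne
    · exact ⟨h1, h⟩

private theorem H3D_zero (hG : GJ F A 6 D)
    (h1 : Module.finrank F (D 1) = 2 ∨ Module.finrank F (D 1) = 3)
    (h3 : ∀ a ∈ D 3, a = 0) :
    Module.finrank F (D 1) = 3 ∧ Module.finrank F (D 2) = 6 ∧ 6 ≤ Module.finrank F (D 4) := by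
  have hvq : ∀ v ∈ D 1, ∀ q ∈ D 2, v * q = 0 := fun v hv q hq =>
    h3 _ (hG.mul_mem 1 2 le_rfl (by norm_num) v hv q hq)
  have hqv : ∀ v ∈ D 1, ∀ q ∈ D 2, q * v = 0 := fun v hv q hq => by
    rw [mul_comm]; exact hvq v hv q hq
  refine H3D_fin hG h1 (LinearMap.mul F A) ?_ ?_ ?_ ?_ ?_ ?_
  · intro q hq q' hq'
    exact hG.mul_mem 2 2 (by norm_num) (by norm_num) q hq q' hq'
  · intro q _ q' _
    exact mul_comm q q'
  · intro p hp q hq q' hq'
    show p * (q * q') = q * (p * q')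
    have hT : D 2 ≤ LinearMap.ker ((LinearMap.mul F A).flip (q * q') -
        (LinearMap.mul F A q) ∘ₗ ((LinearMap.mul F A).flip q')) := by
      apply hG.gen2
      intro v hv w hw
      rw [LinearMap.mem_ker]
      show (v * w) * (q * q') - q * ((v * w) * q') = 0
      have h := gJ3 F hG.two hG.jordan v w q q'
      rw [hvq w hw q hq, hqv v hv q hq] at h
      simp only [zero_mul, mul_zero, add_zero] at h
      rw [h, sub_self]
    have h := hT hp
    rw [LinearMap.mem_ker] at h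
    exact sub_eq_zero.mp h
  · intro v hv w hw q hq q' hq'
    show v * (w * (q * q')) = (v * w) * (q * q')
    have h := gJ3 F hG.two hG.jordan v q q' w
    rw [hvq v hv q hq, hqv v hv q' hq'] at h
    simp only [zero_mul, mul_zero, add_zero, zero_add] at h
    rw [mul_comm w (q * q'), ← h, mul_comm (v * w)]
  · intro v hv q hq
    show v * ((v * v) * q) = 0
    rw [← gJ1 hG.jordan v q, hvq v hv q hq, mul_zero]
  · intro h
    have h4 : D 4 ≤ ⊥ := by
      refine hG.gen 4 (by norm_num) ⊥ ?_ ?_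
      · intro v _ a ha
        rw [h3 a ha, mul_zero]
        exact Submodule.zero_mem _
      · intro q hq q' hq'
        have : q * q' = 0 := h q hq q' hq'
        rw [this]
        exact Submodule.zero_mem _
    have h5 : D 5 ≤ ⊥ := by
      refine hG.gen 5 (by norm_num) ⊥ ?_ ?_
      · intro v _ a ha
        have : a = 0 := (Submodule.mem_bot F).mp (h4 ha)
        rw [this, mul_zero]
        exact Submodule.zero_mem _
      · intro q hq a ha
        rw [h3 a ha, mul_zero]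
        exact Submodule.zero_mem _
    have h6 : D 6 ≤ ⊥ := by
      refine hG.gen 6 (by norm_num) ⊥ ?_ ?_
      · intro v _ a ha
        have : a = 0 := (Submodule.mem_bot F).mp (h5 ha)
        rw [this, mul_zero]
        exact Submodule.zero_mem _
      · intro q hq a ha
        have : a = 0 := (Submodule.mem_bot F).mp (h4 ha)
        rw [this, mul_zero]
        exact Submodule.zero_mem _
    have ht := hG.top
    rw [le_bot_iff.mp h6, finrank_bot] at ht
    exact zero_ne_one ht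

omit [IsScalarTower F A A] [SMulCommClass F A A] in
private theorem H3D_two {x y : A} (h2 : (2 : F) ≠ 0) (h : (2 : F) • x = (2 : F) • y) : x = y := by
  have := congrArg (fun t => (2 : F)⁻¹ • t) h
  simpa [smul_smul, inv_mul_cancel₀ h2] using this

private theorem H3D_main (hG : GJ F A 6 D)
    (h1 : Module.finrank F (D 1) = 2 ∨ Module.finrank F (D 1) = 3)
    (a : A) (κ : A →ₗ[F] F)
    (h3 : ∀ h ∈ D 3, h = κ h • a) (g : A) (hg : g ∈ D 4) (η : A →ₗ[F] F)
    (hη : ∀ v ∈ D 1, v * a = η v • g) (e : A) (he : e ∈ D 1) (hηe : η e = 1)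
    (hc : ∀ h ∈ D 1, ∀ x ∈ D 1, ∀ y ∈ D 1, κ (h * (x * y)) = η h * η x * η y) :
    Module.finrank F (D 1) = 3 ∧ Module.finrank F (D 2) = 6 ∧ 6 ≤ Module.finrank F (D 4) := by
  have := hG.fin
  have h2 := hG.two
  have hJ := hG.jordan
  obtain ⟨ε, hε⟩ : ∃ ε : A →ₗ[F] F, ∀ q, ε q = κ (e * q) :=
    ⟨κ ∘ₗ (LinearMap.mul F A e), fun q => rfl⟩
  -- (f1)
  have f1 : ∀ x ∈ D 1, ∀ y ∈ D 1, ε (x * y) = η x * η y := by
    intro x hx y hy
    rw [hε, hc e he x hx y hy, hηe, one_mul]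
  -- (f2)
  have f2 : ∀ v ∈ D 1, ∀ q ∈ D 2, v * q = (η v * ε q) • a := by
    intro v hv q hq
    have h := h3 (v * q) (hG.mul_mem 1 2 le_rfl (by norm_num) v hv q hq)
    have hT : D 2 ≤ LinearMap.ker (κ ∘ₗ (LinearMap.mul F A v) - η v • ε) := by
      apply hG.gen2
      intro x hx y hy
      rw [LinearMap.mem_ker]
      show κ (v * (x * y)) - η v * ε (x * y) = 0
      rw [hc v hv x hx y hy, f1 x hx y hy]
      ring
    have h4 := hT hq
    rw [LinearMap.mem_ker] at h4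
    have h5 : κ (v * q) = η v * ε q := sub_eq_zero.mp h4
    rw [h5] at h
    exact h
  have f2' : ∀ v ∈ D 1, ∀ q ∈ D 2, q * v = (η v * ε q) • a := by
    intro v hv q hq
    rw [mul_comm]; exact f2 v hv q hq
  have hη' : ∀ v ∈ D 1, a * v = η v • g := by
    intro v hv
    rw [mul_comm]; exact hη v hv
  have hee : e * e ∈ D 2 := hG.mul_mem 1 1 le_rfl le_rfl e he e he
  have hεee : ε (e * e) = 1 := by rw [f1 e he e he, hηe, one_mul]
  -- (5a)
  have f5a : ∀ x ∈ D 1, ∀ y ∈ D 1, ∀ h ∈ D 1, ∀ q ∈ D 2,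
      (η h * ε q) • ((x * y) * a) + (η y * ε q) • ((x * h) * a) + (η x * ε q) • ((y * h) * a) =
      (η h * η x * η y) • (q * a) + (η y * ε q * η h) • (x * g) + (η x * ε q * η h) • (y * g) := by
    intro x hx y hy h hh q hq
    have k := gJ3 F h2 hJ x y q h
    have hxy : x * y ∈ D 2 := hG.mul_mem 1 1 le_rfl le_rfl x hx y hy
    rw [f2' h hh q hq, f2 y hy q hq, f2' x hx q hq, f2' h hh (x * y) hxy, f1 x hx y hy] at k
    simp only [smul_mul_assoc, mul_smul_comm] at k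
    rw [hη' h hh, mul_comm a (x * h), mul_comm a (y * h)] at k
    simp only [mul_smul_comm, smul_smul] at k
    linear_combination (norm := module) k
  -- (f4)
  have f40 : (e * e) * a = e * g := by
    have k := f5a e he e he e he (e * e) hee
    rw [hηe, hεee] at k
    apply H3D_two h2
    linear_combination (norm := module) k
  have f4 : ∀ q ∈ D 2, q * a = ε q • (e * g) := by
    intro q hq
    have k := f5a e he e he e he q hq
    rw [hηe, f40] at k
    linear_combination (norm := module) -k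
  -- (f5)
  have f5 : ∀ v ∈ D 1, v * g = η v • (e * g) := by
    intro v hv
    have k := f5a v hv e he e he (e * e) hee
    rw [f4 _ (hG.mul_mem 1 1 le_rfl le_rfl v hv e he), f1 v hv e he, f40, hηe, hεee] at k
    linear_combination (norm := module) -k
  -- degree 6
  have f6 : (e * e) * g = e * (e * g) := by
    have k := gJ1 hJ e a
    rw [hη e he, f40, hηe, one_smul] at k
    exact k
  have f7a : ∀ x ∈ D 1, ∀ y ∈ D 1, ∀ z ∈ D 1,
      (η x * η y * η z) • (a * a) = η z • ((x * y) * g) + η y • ((x * z) * g) + η x • ((y * z) * g)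
        - (η y * η z) • (x * (e * g)) - (η x * η z) • (y * (e * g)) := by
    intro x hx y hy z hz
    have k := gJ4 F h2 hJ x y z a
    have hxy : x * y ∈ D 2 := hG.mul_mem 1 1 le_rfl le_rfl x hx y hy
    rw [f2' z hz (x * y) hxy, f1 x hx y hy, hη z hz, hη y hy, hη x hx] at k
    simp only [smul_mul_assoc, mul_smul_comm] at k
    rw [f5 z hz] at k
    simp only [mul_smul_comm, smul_smul] at k
    linear_combination (norm := module) k
  have f70 : e * (e * g) = a * a := by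
    have k := f7a e he e he e he
    rw [hηe, f6] at k
    linear_combination (norm := module) -k
  have f71 : ∀ z ∈ D 1, (e * z) * g = η z • (a * a) := by
    intro z hz
    have k := f7a e he e he z hz
    rw [hηe, f6, f70] at k
    apply H3D_two h2
    linear_combination (norm := module) -k
  have f72 : ∀ x ∈ D 1, ∀ z ∈ D 1, (x * z) * g = η z • (x * (e * g)) := by
    intro x hx z hz
    have k := f7a x hx e he z hz
    rw [hηe, mul_comm x e, f71 x hx, f71 z hz, f70] at k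
    linear_combination (norm := module) -k
  have f7 : ∀ z ∈ D 1, z * (e * g) = η z • (a * a) := by
    intro z hz
    have k := f72 z hz e he
    rw [hηe, one_smul, mul_comm z e, f71 z hz] at k
    exact k.symm
  have f8 : ∀ q ∈ D 2, q * g = ε q • (a * a) := by
    intro q hq
    have hT : D 2 ≤ LinearMap.ker ((LinearMap.mul F A).flip g - ε.smulRight (a * a)) := by
      apply hG.gen2
      intro x hx y hy
      rw [LinearMap.mem_ker]
      show (x * y) * g - ε (x * y) • (a * a) = 0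
      rw [f72 x hx y hy, f7 x hx, f1 x hx y hy, smul_smul, mul_comm (η y), sub_self]
    have h := hT hq
    rw [LinearMap.mem_ker] at h
    exact sub_eq_zero.mp h
  have f4' : ∀ q ∈ D 2, a * q = ε q • (e * g) := by
    intro q hq
    rw [mul_comm]; exact f4 q hq
  -- products of `D 2` and `D 4`
  have f9 : ∀ p ∈ D 2, ∀ q ∈ D 2, ∀ q' ∈ D 2, p * (q * q') = q * (p * q') := by
    intro p hp q hq q' hq'
    have hT : D 2 ≤ LinearMap.ker ((LinearMap.mul F A).flip (q * q') -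
        (LinearMap.mul F A q) ∘ₗ ((LinearMap.mul F A).flip q')) := by
      apply hG.gen2
      intro v hv w hw
      rw [LinearMap.mem_ker]
      show (v * w) * (q * q') - q * ((v * w) * q') = 0
      have k := gJ3 F h2 hJ v w q q'
      rw [f2 w hw q hq, f2 v hv q' hq', f2' v hv q hq, f2 w hw q' hq'] at k
      simp only [smul_mul_assoc, mul_smul_comm] at k
      rw [f4' q' hq'] at k
      simp only [mul_smul_comm] at k
      rw [f7 v hv, f7 w hw] at k
      simp only [smul_smul] at k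
      linear_combination (norm := module) k
    have h := hT hp
    rw [LinearMap.mem_ker] at h
    exact sub_eq_zero.mp h
  have f10 : ∀ v ∈ D 1, ∀ w ∈ D 1, ∀ q ∈ D 2, ∀ q' ∈ D 2,
      v * (w * (q * q')) = (v * w) * (q * q') := by
    intro v hv w hw q hq q' hq'
    have k := gJ3 F h2 hJ v q q' w
    rw [f2 v hv q hq, f2' w hw q' hq', f2' v hv q' hq', f2' w hw q hq] at k
    simp only [smul_mul_assoc, mul_smul_comm] at k
    rw [hη' w hw] at k
    simp only [mul_smul_comm] at k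
    rw [f8 q hq, f8 q' hq', mul_comm (q * q') w, mul_comm (q * q') (v * w)] at k
    simp only [smul_smul] at k
    linear_combination (norm := module) -k
  let Γ : A →ₗ[F] A →ₗ[F] A := LinearMap.mk₂ F (fun q q' => q * q' - (ε q * ε q') • g)
    (by intro x y z; rw [add_mul, map_add]; module)
    (by intro r x y; rw [smul_mul_assoc, map_smul, smul_eq_mul]; module)
    (by intro x y z; rw [mul_add, map_add]; module)
    (by intro r x y; rw [mul_smul_comm, map_smul, smul_eq_mul]; module)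
  have hΓ : ∀ q q', Γ q q' = q * q' - (ε q * ε q') • g := fun _ _ => rfl
  refine H3D_fin hG h1 Γ ?_ ?_ ?_ ?_ ?_ ?_
  · intro q hq q' hq'
    rw [hΓ]
    exact Submodule.sub_mem _ (hG.mul_mem 2 2 (by norm_num) (by norm_num) q hq q' hq')
      (Submodule.smul_mem _ _ hg)
  · intro q _ q' _
    rw [hΓ, hΓ, mul_comm q q', mul_comm (ε q)]
  · intro p hp q hq q' hq'
    rw [hΓ, hΓ, mul_sub, mul_sub, mul_smul_comm, mul_smul_comm, f8 p hp, f8 q hq,
      f9 p hp q hq q' hq']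
    module
  · intro v hv w hw q hq q' hq'
    have hvw : v * w ∈ D 2 := hG.mul_mem 1 1 le_rfl le_rfl v hv w hw
    rw [hΓ, mul_sub, mul_sub, mul_sub, mul_smul_comm, mul_smul_comm, mul_smul_comm, f8 _ hvw,
      f10 v hv w hw q hq q' hq', f5 w hw, mul_smul_comm, f7 v hv, f1 v hv w hw]
    module
  · intro v hv q hq
    have hvv : v * v ∈ D 2 := hG.mul_mem 1 1 le_rfl le_rfl v hv v hv
    rw [hΓ, mul_sub, ← gJ1 hJ v q, f2 v hv q hq, mul_smul_comm, mul_smul_comm, f4 _ hvv, f5 v hv,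
      f1 v hv v hv]
    module
  · intro h0
    obtain ⟨w, hw, hw0, hηw⟩ : ∃ w ∈ D 1, w ≠ 0 ∧ η w = 0 := by
      have hr := LinearMap.finrank_range_add_finrank_ker (η.domRestrict (D 1))
      have hr1 : Module.finrank F (LinearMap.range (η.domRestrict (D 1))) ≤ 1 := by
        have := Submodule.finrank_le (LinearMap.range (η.domRestrict (D 1)))
        rwa [Module.finrank_self] at this
      have hr2 : 0 < Module.finrank F (LinearMap.ker (η.domRestrict (D 1))) := by omega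
      rw [Module.finrank_pos_iff] at hr2
      obtain ⟨⟨⟨w, hw⟩, hwk⟩, hne⟩ := exists_ne (0 : LinearMap.ker (η.domRestrict (D 1)))
      refine ⟨w, hw, ?_, ?_⟩
      · rintro rfl
        apply hne
        rfl
      · rw [LinearMap.mem_ker] at hwk
        exact hwk
    apply hw0
    apply hG.nd 1 le_rfl (by norm_num) w hw
    · intro v hv
      have hwv : w * v ∈ D 2 := hG.mul_mem 1 1 le_rfl le_rfl w hw v hv
      have hε0 : ε (w * v) = 0 := by rw [f1 w hw v hv, hηw, zero_mul]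
      rw [mul_comm]
      apply hG.nd 2 (by norm_num) (by norm_num) _ hwv
      · intro z hz
        rw [f2 z hz _ hwv, hε0, mul_zero, zero_smul]
      · intro q hq
        have h := h0 q hq _ hwv
        rw [hΓ, hε0, mul_zero, zero_smul, sub_zero] at h
        exact h
    · intro q hq
      rw [f2' w hw q hq, hηw, zero_mul, zero_smul]

theorem H3 (hG : GJ F A 6 D) (h1 : Module.finrank F (D 1) = 2 ∨ Module.finrank F (D 1) = 3)
    (h3 : Module.finrank F (D 3) ≤ 1) :
    Module.finrank F (D 1) = 3 ∧ Module.finrank F (D 2) = 6 ∧ 6 ≤ Module.finrank F (D 4) := by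
  have := hG.fin
  rcases Nat.lt_or_ge (Module.finrank F (D 3)) 1 with h | h
  · apply H3D_zero hG h1
    have h0 : Module.finrank F (D 3) = 0 := by omega
    rw [Submodule.finrank_eq_zero] at h0
    intro a ha
    rw [h0, Submodule.mem_bot] at ha
    exact ha
  · have h0 : Module.finrank F (D 3) = 1 := by omega
    obtain ⟨a, ha, ha0, κ, hκ, hκ'⟩ := exists_coord h0
    rcases H3A_rank hG a κ ha hκ hκ' with h4 | ⟨g, hg, hg0, η, hη, e, he, hηe⟩
    · exact (H3A_ne hG a κ ha hκ hκ' h4).elim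
    · obtain ⟨c0, hc0, hc⟩ := H3C hG (by norm_num) a κ ha hκ hκ' g hg hg0 η hη e he hηe
      refine H3D_main hG h1 (c0 • a) (c0⁻¹ • κ) ?_ (c0 • g)
        (Submodule.smul_mem _ _ hg) η ?_ e he hηe ?_
      · intro h5 hh
        rw [LinearMap.smul_apply, smul_eq_mul, smul_smul, mul_comm (c0⁻¹), mul_assoc,
          inv_mul_cancel₀ hc0, mul_one]
        exact hκ' h5 hh
      · intro v hv
        rw [mul_smul_comm, hη v hv, smul_smul, smul_smul, mul_comm]
      · intro h5 hh x hx y hy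
        rw [LinearMap.smul_apply, smul_eq_mul, hc h5 hh x hx y hy]
        field_simp

end JD
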