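import Pool.Agent.H9.JH.PenN

set_option autoImplicit false

/-!
# JH N2: common factor, three generators: `dim D 3 = 2` implies `dim D 4 ≤ 1` (any class `c ≥ 5`)

`N2`. `m1 = l`: `PS D s1 s2 l l m Δ`, `finrank (D 1) = 3`. Choose the basis `x, y, e` of `V` with `l(x) = 1, m(x) = 0`; `l(y) = 0, m(y) = 1`; `l(e) = m(e) = 0`, `e ≠ 0` (`dual`). `x² = s1`, `xy = 1/2 s2`, `y² = 0`,
`e V = 0`. `PS.comp1/2` (`e1 = m`, `e2 = -l`):
 `x(xs1) = s1²`, `x(xs2) = s1s2 + Δx`, `x(ys1) = 1/2 s1s2`, `x(ys2) = 1/2 s2² + Δy`, `x(es1) = 0`, `x(es2) = Δe`,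
 `y(xs1) = 1/2 s1s2 - Δx`, `y(xs2) = 1/2 s2²`, `y(ys1) = -Δy`, `y(ys2) = 0`, `y(es1) = -Δe`, `y(es2) = 0`, `e(vs_i) = 0`.
Suppose `finrank (D 3) = 2`, `finrank (D 4) ≥ 2`. `D 2 D 2 ⊆ V D 3` (`s1² = x(xs1)`, `s1s2 = 2x(ys1)`, `s2² = 2y(xs2)`), so `D 4 = V D 3`.
(i) `es1, es2` independent: `D 3 = <es1, es2>`, `D 4 = V D 3 = F Δe`. Contradiction.
(ii) `c1es1 + c2es2 = 0`, `(c1,c2) ≠ 0`, `(es1, es2) ≠ (0,0)`: `x`: `c2Δe = 0`, `y`: `c1Δe = 0`: `Δe = 0`. Let `b ≠ 0` be one of `es1, es2`: `V b = 0`. `D 3 = <b, a>`; `D 4 = <xa, ya>`, so `xa, ya` are independent. For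
`h ∈ D 3` let `h_a` be the `a`-coordinate: `xh = h_a xa`, `yh = h_a ya`. Let `p_i = (xs_i)_a`, `r_i = (ys_i)_a`. `0 = y(ys2) = r2 ya`: `r2 = 0`; so `1/2 s2² + Δy = x(ys2) = 0`, and `1/2 s2² = p2 ya`, `Δy = -r1 ya`: `p2 = r1`.
`s1s2 = 2r1 xa`, `Δx = p2 xa - s1s2 = -r1 xa` and `Δx = 1/2 s1s2 - p1 ya = r1 xa - p1 ya`: so `2r1 xa = p1 ya`: `r1 = p1 = 0 = p2`. So all generators of `D 3` (`xs_i, ys_i, es_i`; `es_i ∈ F b`) are in `F b`: contradiction.
(iii) `es1 = es2 = 0`: `e V = 0`, `e D 2 = 0`: `e = 0` by `nd` (`1 < c`). Contradiction.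
-/

namespace JD

universe u

variable {F : Type u} [Field F] {A : Type u} [NonUnitalNonAssocCommRing A] [Module F A]
  [IsScalarTower F A A] [SMulCommClass F A A] {c : ℕ}
  {D : ℕ → Submodule F A} {s1 s2 : A} {l m1 m2 : A →ₗ[F] F} {Δ : A →ₗ[F] A}

private theorem N2_mm (hG : GJ F A c D) (i j k : ℕ) (hi : 1 ≤ i) (hj : 1 ≤ j)
    (hk : i + j = k) {a b : A} (ha : a ∈ D i) (hb : b ∈ D j) : a * b ∈ D k := by
  rw [← hk]
  exact hG.mul_mem i j hi hj a ha b hb

private theorem N2_le_one [Module.Finite F A] (T : Submodule F A) (g : A)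
    (h : T ≤ Submodule.span F {g}) : Module.finrank F T ≤ 1 := by
  refine le_trans (Submodule.finrank_mono h) ?_
  refine le_trans (finrank_span_le_card ({g} : Set A)) ?_
  simp

private theorem N2_two [Module.Finite F A] (T : Submodule F A) (h : Module.finrank F T = 2)
    (u v : A) (hu : u ∈ T) (hv : v ∈ T) (hi : ∀ a b : F, a • u + b • v = 0 → a = 0 ∧ b = 0) :
    ∀ w ∈ T, ∃ a b : F, a • u + b • v = w := by
  have hli : LinearIndependent F ![u, v] := LinearIndependent.pair_iff.mpr hi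
  have hle : Submodule.span F {u, v} ≤ T := by
    rw [Submodule.span_le]
    intro w hw
    rcases hw with rfl | hw
    · exact hu
    · rw [Set.mem_singleton_iff] at hw
      rw [hw]
      exact hv
  have hfr : Module.finrank F (Submodule.span F {u, v}) = Module.finrank F T := by
    rw [h]
    have h1 := finrank_span_eq_card hli
    rw [Matrix.range_cons, Matrix.range_cons, Matrix.range_empty, Set.union_empty,
      Set.singleton_union, Fintype.card_fin] at h1
    exact h1
  have heq := Submodule.eq_of_le_of_finrank_eq hle hfr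
  intro w hw
  rw [← heq] at hw
  exact Submodule.mem_span_pair.mp hw

private theorem N2_ext [Module.Finite F A] (T : Submodule F A) (h : Module.finrank F T = 2)
    (b : A) (hb : b ∈ T) (hb0 : b ≠ 0) :
    ∃ a ∈ T, ∀ w ∈ T, ∃ β α : F, β • b + α • a = w := by
  have h1 : ∃ a ∈ T, a ∉ Submodule.span F {b} := by
    by_contra hcon
    push Not at hcon
    have := N2_le_one T b hcon
    omega
  obtain ⟨a, ha, hab⟩ := h1
  refine ⟨a, ha, N2_two T h b a hb ha ?_⟩
  intro β α hαβ
  have hα : α = 0 := by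
    by_contra hα
    apply hab
    rw [Submodule.mem_span_singleton]
    refine ⟨-(α⁻¹ * β), ?_⟩
    have h2 : α • a = -(β • b) := by
      rw [eq_neg_iff_add_eq_zero, add_comm]
      exact hαβ
    have h3 : a = α⁻¹ • (α • a) := by
      rw [smul_smul, inv_mul_cancel₀ hα, one_smul]
    rw [h3, h2, smul_neg, smul_smul, neg_smul]
  rw [hα, zero_smul, add_zero] at hαβ
  exact ⟨(smul_eq_zero.mp hαβ).resolve_right hb0, hα⟩

private theorem N2_dep (X Y : A) (h : ¬ ∀ α β : F, α • X + β • Y = 0 → α = 0 ∧ β = 0) :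
    ∃ g : A, X ∈ Submodule.span F {g} ∧ Y ∈ Submodule.span F {g} := by
  push Not at h
  obtain ⟨α, β, h1, h2⟩ := h
  by_cases hα : α = 0
  · have hβ := h2 hα
    rw [hα, zero_smul, zero_add] at h1
    have hY := (smul_eq_zero.mp h1).resolve_left hβ
    refine ⟨X, Submodule.mem_span_singleton_self X, ?_⟩
    rw [hY]
    exact Submodule.zero_mem _
  · refine ⟨Y, ?_, Submodule.mem_span_singleton_self Y⟩
    rw [Submodule.mem_span_singleton]
    refine ⟨-(α⁻¹ * β), ?_⟩
    have h3 : α • X = -(β • Y) := by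
      rw [eq_neg_iff_add_eq_zero]
      exact h1
    have h4 : X = α⁻¹ • (α • X) := by
      rw [smul_smul, inv_mul_cancel₀ hα, one_smul]
    rw [h4, h3, smul_neg, smul_smul, neg_smul]

/-- the third basis vector -/
private theorem N2_basis [Module.Finite F A] (T : Submodule F A) (h : Module.finrank F T = 3)
    (l m : A →ₗ[F] F) (x y : A) (hx : x ∈ T) (hy : y ∈ T) (lx : l x = 1) (mx : m x = 0)
    (ly : l y = 0) (my : m y = 1) :
    ∃ e ∈ T, e ≠ 0 ∧ l e = 0 ∧ m e = 0 ∧ ∀ v ∈ T, ∃ γ : F, v = l v • x + m v • y + γ • e := by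
  have h1 : ∃ v ∈ T, v ∉ Submodule.span F {x, y} := by
    by_contra hcon
    push Not at hcon
    have h2 : T ≤ Submodule.span F {x, y} := hcon
    have h3 := Submodule.finrank_mono h2
    have h4 : Module.finrank F (Submodule.span F {x, y}) ≤ 2 := by
      classical
      refine le_trans (finrank_span_le_card ({x, y} : Set A)) ?_
      rw [Set.toFinset_insert, Set.toFinset_singleton]
      exact Finset.card_le_two
    omega
  obtain ⟨v, hv, hvs⟩ := h1
  have hne : v - l v • x - m v • y ≠ 0 := by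
    intro h0
    apply hvs
    rw [Submodule.mem_span_pair]
    refine ⟨l v, m v, ?_⟩
    rw [sub_sub, sub_eq_zero] at h0
    exact h0.symm
  have heT : v - l v • x - m v • y ∈ T :=
    T.sub_mem (T.sub_mem hv (T.smul_mem _ hx)) (T.smul_mem _ hy)
  have hle : l (v - l v • x - m v • y) = 0 := by
    rw [map_sub, map_sub, map_smul, map_smul, lx, ly]
    simp
  have hme : m (v - l v • x - m v • y) = 0 := by
    rw [map_sub, map_sub, map_smul, map_smul, mx, my]
    simp
  generalize v - l v • x - m v • y = e at hne heT hle hme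
  refine ⟨e, heT, hne, hle, hme, ?_⟩
  have hli : LinearIndependent F ![x, y, e] := by
    rw [Fintype.linearIndependent_iff]
    intro g hg
    rw [Fin.sum_univ_three] at hg
    change g 0 • x + g 1 • y + g 2 • e = 0 at hg
    have g0 : g 0 = 0 := by
      have := congrArg l hg
      rw [map_add, map_add, map_smul, map_smul, map_smul, lx, ly, hle, map_zero] at this
      simpa using this
    have g1 : g 1 = 0 := by
      have := congrArg m hg
      rw [map_add, map_add, map_smul, map_smul, map_smul, mx, my, hme, map_zero] at this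
      simpa using this
    rw [g0, g1, zero_smul, zero_smul, zero_add, zero_add] at hg
    have g2 : g 2 = 0 := (smul_eq_zero.mp hg).resolve_right hne
    intro i
    fin_cases i
    · exact g0
    · exact g1
    · exact g2
  have hle2 : Submodule.span F (Set.range ![x, y, e]) ≤ T := by
    rw [Submodule.span_le]
    rintro w ⟨i, rfl⟩
    fin_cases i
    · exact hx
    · exact hy
    · exact heT
  have heq := Submodule.eq_of_le_of_finrank_eq hle2 (by
    rw [finrank_span_eq_card hli, h, Fintype.card_fin])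
  intro w hw
  have hw0 := hw
  rw [← heq, Submodule.mem_span_range_iff_exists_fun] at hw
  obtain ⟨g, hg⟩ := hw
  rw [Fin.sum_univ_three] at hg
  change g 0 • x + g 1 • y + g 2 • e = w at hg
  have g0 : l w = g 0 := by
    rw [← hg, map_add, map_add, map_smul, map_smul, map_smul, lx, ly, hle]
    simp
  have g1 : m w = g 1 := by
    rw [← hg, map_add, map_add, map_smul, map_smul, map_smul, mx, my, hme]
    simp
  exact ⟨g 2, by rw [g0, g1, hg]⟩

theorem N2 (hG : GJ F A c D) (hc : 5 ≤ c) (hP : PS D s1 s2 l l m2 Δ)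
    (h1 : Module.finrank F (D 1) = 3) (h3 : Module.finrank F (D 3) = 2) :
    Module.finrank F (D 4) ≤ 1 := by
  have hfin := hG.fin
  have h2 := hG.two
  obtain ⟨x, hx, y, hy, lx, mx, ly, my⟩ := hP.dual
  obtain ⟨e, he, he0, le, me, hbas⟩ := N2_basis (D 1) h1 l m2 x y hx hy lx mx ly my
  -- products of generators
  have xx : x * x = s1 := by
    rw [hP.sq x hx, lx, mx]
    simp
  have yy : y * y = 0 := by
    rw [hP.sq y hy, ly]
    simp
  have xy : (2 : F) • (x * y) = s2 := by
    rw [hP.polar h2 x hx y hy, lx, mx, ly, my]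
    simp
  have ve : ∀ v ∈ D 1, v * e = 0 := by
    intro v hv
    have h := hP.polar h2 v hv e he
    rw [le, me] at h
    simp only [mul_zero, zero_mul, add_zero, zero_smul] at h
    exact (smul_eq_zero.mp h).resolve_left h2
  -- the table
  have E1 : x * (x * s1) = s1 * s1 := by
    rw [hP.comp1 x hx, xx, mx, zero_smul, sub_zero]
  have E2 : x * (x * s2) = s1 * s2 + Δ x := by
    rw [hP.comp2 x hx, xx, lx, one_smul, mul_comm s2 s1]
  have E3 : (2 : F) • (x * (y * s1)) = s1 * s2 := by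
    rw [hP.comp1 x hx, mx, zero_smul, sub_zero, ← mul_smul_comm, mul_comm y x, xy]
  have E4 : (2 : F) • (x * (y * s2)) = s2 * s2 + (2 : F) • Δ y := by
    rw [hP.comp2 x hx, lx, one_smul, smul_add, ← mul_smul_comm, mul_comm y x, xy]
  have E5 : x * (e * s1) = 0 := by
    rw [hP.comp1 x hx, mx, zero_smul, sub_zero, mul_comm e x, ve x hx, mul_zero]
  have E6 : x * (e * s2) = Δ e := by
    rw [hP.comp2 x hx, lx, one_smul, mul_comm e x, ve x hx, mul_zero, zero_add]
  have E7 : (2 : F) • (y * (x * s1)) = s1 * s2 - (2 : F) • Δ x := by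
    rw [hP.comp1 y hy, my, one_smul, smul_sub, ← mul_smul_comm, xy]
  have E8 : (2 : F) • (y * (x * s2)) = s2 * s2 := by
    rw [hP.comp2 y hy, ly, zero_smul, add_zero, ← mul_smul_comm, xy]
  have E9 : y * (y * s1) = -Δ y := by
    rw [hP.comp1 y hy, my, one_smul, yy, mul_zero, zero_sub]
  have E10 : y * (y * s2) = 0 := by
    rw [hP.comp2 y hy, ly, zero_smul, add_zero, yy, mul_zero]
  have E11 : y * (e * s1) = -Δ e := by
    rw [hP.comp1 y hy, my, one_smul, mul_comm e y, ve y hy, mul_zero, zero_sub]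
  have E12 : y * (e * s2) = 0 := by
    rw [hP.comp2 y hy, ly, zero_smul, add_zero, mul_comm e y, ve y hy, mul_zero]
  -- generation of `D 3`
  have gen3 : ∀ T : Submodule F A, x * s1 ∈ T → x * s2 ∈ T → y * s1 ∈ T → y * s2 ∈ T →
      e * s1 ∈ T → e * s2 ∈ T → D 3 ≤ T := by
    intro T t1 t2 t3 t4 t5 t6
    have key : ∀ v ∈ D 1, ∀ h ∈ D 2, v * h ∈ T := by
      intro v hv h hh
      obtain ⟨a, b, hab⟩ := hP.span h hh
      obtain ⟨γ, hγ⟩ := hbas v hv
      rw [hγ, hab]
      simp only [add_mul, mul_add, smul_mul_assoc, mul_smul_comm]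
      exact T.add_mem (T.smul_mem _ (T.add_mem (T.add_mem (T.smul_mem _ t1) (T.smul_mem _ t3))
        (T.smul_mem _ t5))) (T.smul_mem _ (T.add_mem (T.add_mem (T.smul_mem _ t2)
        (T.smul_mem _ t4)) (T.smul_mem _ t6)))
    apply hG.gen 3 (le_refl 3) T
    · exact key
    · intro q hq h hh
      rw [mul_comm q h]
      exact key h hh q hq
  have eD3 : ∀ h ∈ D 3, e * h = 0 := by
    intro h hh
    have hle : D 3 ≤ LinearMap.ker (LinearMap.mulLeft F e) := by
      have k1 : ∀ v ∈ D 1, v * s1 ∈ LinearMap.ker (LinearMap.mulLeft F e) := by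
        intro v hv
        rw [LinearMap.mem_ker, LinearMap.mulLeft_apply, hP.comp1 e he, ve v hv, me, zero_smul,
          mul_zero, sub_zero]
      have k2 : ∀ v ∈ D 1, v * s2 ∈ LinearMap.ker (LinearMap.mulLeft F e) := by
        intro v hv
        rw [LinearMap.mem_ker, LinearMap.mulLeft_apply, hP.comp2 e he, ve v hv, le, zero_smul,
          mul_zero, add_zero]
      exact gen3 _ (k1 x hx) (k2 x hx) (k1 y hy) (k2 y hy) (k1 e he) (k2 e he)
    have := hle hh
    rw [LinearMap.mem_ker, LinearMap.mulLeft_apply] at this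
    exact this
  have m3 : ∀ {v s : A}, v ∈ D 1 → s ∈ D 2 → v * s ∈ D 3 := fun hv hs =>
    N2_mm hG 1 2 3 (by norm_num) (by norm_num) rfl hv hs
  -- generation of `D 4`
  have gen4 : ∀ T : Submodule F A, (∀ h ∈ D 3, x * h ∈ T) → (∀ h ∈ D 3, y * h ∈ T) →
      D 4 ≤ T := by
    intro T t1 t2
    apply hG.gen 4 (by norm_num) T
    · intro v hv h hh
      obtain ⟨γ, hγ⟩ := hbas v hv
      have hh' : h ∈ D 3 := hh
      rw [hγ, add_mul, add_mul, smul_mul_assoc, smul_mul_assoc, smul_mul_assoc, eD3 h hh',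
        smul_zero, add_zero]
      exact T.add_mem (T.smul_mem _ (t1 h hh')) (T.smul_mem _ (t2 h hh'))
    · intro q hq h hh
      have hh' : h ∈ D 2 := hh
      obtain ⟨a, b, hab⟩ := hP.span q hq
      obtain ⟨a', b', hab'⟩ := hP.span h hh'
      have k11 : s1 * s1 ∈ T := by
        rw [← E1]
        exact t1 _ (m3 hx hP.s1_mem)
      have k12 : s1 * s2 ∈ T := by
        rw [← E3]
        exact T.smul_mem _ (t1 _ (m3 hy hP.s1_mem))
      have k22 : s2 * s2 ∈ T := by
        rw [← E8]
        exact T.smul_mem _ (t2 _ (m3 hx hP.s2_mem))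
      rw [hab, hab']
      simp only [add_mul, mul_add, smul_mul_assoc, mul_smul_comm, mul_comm s2 s1]
      exact T.add_mem (T.smul_mem _ (T.add_mem (T.smul_mem _ k11) (T.smul_mem _ k12)))
        (T.smul_mem _ (T.add_mem (T.smul_mem _ k12) (T.smul_mem _ k22)))
  by_cases hind : ∀ a b : F, a • (e * s1) + b • (e * s2) = 0 → a = 0 ∧ b = 0
  · -- case (i)
    have hsp := N2_two (D 3) h3 (e * s1) (e * s2) (m3 he hP.s1_mem) (m3 he hP.s2_mem) hind
    apply N2_le_one (D 4) (Δ e)
    have hself : Δ e ∈ Submodule.span F {Δ e} := Submodule.mem_span_singleton_self _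
    apply gen4
    · intro h hh
      obtain ⟨a, b, hab⟩ := hsp h hh
      rw [← hab, mul_add, mul_smul_comm, mul_smul_comm, E5, E6, smul_zero, zero_add]
      exact Submodule.smul_mem _ _ hself
    · intro h hh
      obtain ⟨a, b, hab⟩ := hsp h hh
      rw [← hab, mul_add, mul_smul_comm, mul_smul_comm, E11, E12, smul_zero, add_zero]
      exact Submodule.smul_mem _ _ (Submodule.neg_mem _ hself)
  -- `es1, es2` dependent
  have hDe : Δ e = 0 := by
    push Not at hind
    obtain ⟨a, b, hab, hne⟩ := hind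
    have k1 := congrArg (fun w => x * w) hab
    have k2 := congrArg (fun w => y * w) hab
    simp only [mul_add, mul_smul_comm, mul_zero, E5, E6, E11, E12, smul_zero, zero_add,
      add_zero, smul_neg, neg_eq_zero] at k1 k2
    by_cases ha : a = 0
    · exact (smul_eq_zero.mp k1).resolve_left (hne ha)
    · exact (smul_eq_zero.mp k2).resolve_left ha
  have hb : ∃ b ∈ D 3, b ≠ 0 ∧ x * b = 0 ∧ y * b = 0 ∧ e * s1 ∈ Submodule.span F {b} ∧
      e * s2 ∈ Submodule.span F {b} := by
    obtain ⟨g, hg1, hg2⟩ := N2_dep (e * s1) (e * s2) hind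
    by_cases hz : e * s1 = 0
    · have hz2 : e * s2 ≠ 0 := by
        intro hz2
        apply he0
        refine hG.nd 1 (le_refl 1) (by omega) e he ve ?_
        intro q hq
        obtain ⟨a, b, hab⟩ := hP.span q hq
        rw [hab, add_mul, smul_mul_assoc, smul_mul_assoc, mul_comm s1 e, mul_comm s2 e, hz, hz2,
          smul_zero, smul_zero, add_zero]
      refine ⟨e * s2, m3 he hP.s2_mem, hz2, by rw [E6, hDe], E12, ?_,
        Submodule.mem_span_singleton_self _⟩
      rw [hz]
      exact Submodule.zero_mem _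
    · refine ⟨e * s1, m3 he hP.s1_mem, hz, E5, by rw [E11, hDe, neg_zero],
        Submodule.mem_span_singleton_self _, ?_⟩
      rw [Submodule.mem_span_singleton] at hg1 hg2 ⊢
      obtain ⟨r, hr⟩ := hg1
      obtain ⟨t, ht⟩ := hg2
      have hr0 : r ≠ 0 := by
        intro h0
        rw [h0, zero_smul] at hr
        exact hz hr.symm
      refine ⟨t * r⁻¹, ?_⟩
      rw [← hr, smul_smul, mul_assoc, inv_mul_cancel₀ hr0, mul_one]
      exact ht
  obtain ⟨b, hb3, hb0, xb, yb, hes1, hes2⟩ := hb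
  obtain ⟨a, ha3, hcoord⟩ := N2_ext (D 3) h3 b hb3 hb0
  by_cases hXY : ∀ α β : F, α • (x * a) + β • (y * a) = 0 → α = 0 ∧ β = 0
  · exfalso
    have cx : ∀ (h : A) (β α : F), β • b + α • a = h → x * h = α • (x * a) := by
      intro h β α hh
      rw [← hh, mul_add, mul_smul_comm, mul_smul_comm, xb, smul_zero, zero_add]
    have cy : ∀ (h : A) (β α : F), β • b + α • a = h → y * h = α • (y * a) := by
      intro h β α hh
      rw [← hh, mul_add, mul_smul_comm, mul_smul_comm, yb, smul_zero, zero_add]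
    obtain ⟨β1, p1, hp1⟩ := hcoord _ (m3 hx hP.s1_mem)
    obtain ⟨β2, p2, hp2⟩ := hcoord _ (m3 hx hP.s2_mem)
    obtain ⟨β3, r1, hr1⟩ := hcoord _ (m3 hy hP.s1_mem)
    obtain ⟨β4, r2, hr2⟩ := hcoord _ (m3 hy hP.s2_mem)
    have X2 := cx _ _ _ hp2
    have X3 := cx _ _ _ hr1
    have X4 := cx _ _ _ hr2
    have Y1 := cy _ _ _ hp1
    have Y2 := cy _ _ _ hp2
    have Y3 := cy _ _ _ hr1
    have Y4 := cy _ _ _ hr2
    rw [X2] at E2
    rw [X3] at E3
    rw [X4] at E4
    rw [Y1] at E7
    rw [Y2] at E8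
    rw [Y3] at E9
    rw [Y4] at E10
    generalize x * a = X at *
    generalize y * a = Y at *
    have r20 : r2 = 0 := (hXY 0 r2 (by rw [zero_smul, zero_add]; exact E10)).2
    rw [r20, zero_smul, smul_zero] at E4
    have hk1 : (0 : F) • X + (2 * (p2 - r1)) • Y = 0 := by
      have : (2 * (p2 - r1)) • Y = (2 : F) • (p2 • Y) - (2 : F) • (r1 • Y) := by
        rw [smul_smul, smul_smul, ← sub_smul]
        congr 1
        ring
      rw [zero_smul, zero_add, this, E8, E9, smul_neg, sub_neg_eq_add]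
      exact E4.symm
    have hpr : p2 = r1 := by
      have := (mul_eq_zero.mp (hXY _ _ hk1).2).resolve_left h2
      exact sub_eq_zero.mp this
    have hDx : Δ x = -(r1 • X) := by
      have h := E2
      rw [← E3, hpr] at h
      have : Δ x = r1 • X - (2 : F) • (r1 • X) := by
        rw [eq_sub_iff_add_eq, add_comm]
        exact h.symm
      rw [this, two_smul]
      abel
    have hk2 : (-(2 * (2 * r1))) • X + (2 * p1) • Y = 0 := by
      have e1 : (2 * p1) • Y = (2 : F) • (p1 • Y) := by rw [smul_smul]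
      have e2 : (-(2 * (2 * r1))) • X = -((2 : F) • ((2 : F) • (r1 • X))) := by
        rw [neg_smul, ← smul_smul, ← smul_smul]
      rw [e1, e2, E7, ← E3, hDx, smul_neg, two_smul F ((2 : F) • (r1 • X))]
      abel
    obtain ⟨k3, k4⟩ := hXY _ _ hk2
    have hr10 : r1 = 0 := by
      have := (mul_eq_zero.mp (neg_eq_zero.mp k3)).resolve_left h2
      exact (mul_eq_zero.mp this).resolve_left h2
    have hp10 : p1 = 0 := (mul_eq_zero.mp k4).resolve_left h2
    have hp20 : p2 = 0 := by rw [hpr, hr10]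
    have hle : D 3 ≤ Submodule.span F {b} := by
      have hs : ∀ β : F, β • b ∈ Submodule.span F {b} := fun β =>
        Submodule.smul_mem _ _ (Submodule.mem_span_singleton_self b)
      refine gen3 _ ?_ ?_ ?_ ?_ hes1 hes2
      · rw [← hp1, hp10, zero_smul, add_zero]
        exact hs _
      · rw [← hp2, hp20, zero_smul, add_zero]
        exact hs _
      · rw [← hr1, hr10, zero_smul, add_zero]
        exact hs _
      · rw [← hr2, r20, zero_smul, add_zero]
        exact hs _
    have := N2_le_one (D 3) b hle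
    omega
  · obtain ⟨g, hg1, hg2⟩ := N2_dep _ _ hXY
    apply N2_le_one (D 4) g
    apply gen4
    · intro h hh
      obtain ⟨β, α, hab⟩ := hcoord h hh
      rw [← hab, mul_add, mul_smul_comm, mul_smul_comm, xb, smul_zero, zero_add]
      exact Submodule.smul_mem _ _ hg1
    · intro h hh
      obtain ⟨β, α, hab⟩ := hcoord h hh
      rw [← hab, mul_add, mul_smul_comm, mul_smul_comm, yb, smul_zero, zero_add]
      exact Submodule.smul_mem _ _ hg2

end JD
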