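import Pool.Agent.H9.JH.N1
import Pool.Agent.H9.JH.N2

set_option autoImplicit false

namespace JD

universe u

variable {F : Type u} [Field F] {A : Type u} [NonUnitalNonAssocCommRing A] [Module F A]
  [IsScalarTower F A A] [SMulCommClass F A A] {c : ℕ}
  {D : ℕ → Submodule F A} {s1 s2 : A} {l m1 m2 : A →ₗ[F] F} {Δ : A →ₗ[F] A}

theorem N12 (hG : GJ F A c D) (hc : 5 ≤ c) (hP : PS D s1 s2 l m1 m2 Δ)
    (h1 : Module.finrank F (D 1) = 3) (h3 : Module.finrank F (D 3) = 2) :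
    Module.finrank F (D 4) ≤ 1 := by
  rcases pencil_normal hG hP with h | ⟨s1', s2', m, Δ', h⟩
  · exact N1 hG hc hP h1 h h3
  · exact N2 hG hc h h1 h3

end JD
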