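import Pool.Agent.H9.JH.T1B

set_option autoImplicit false

/-!
# JH T1C: `dim D 4 = dim D 5 = 1`, the case `ψ = c ε`

(`T1_vq` of T1B may be used.) Notation of `T0`: `α(v,a) = k4(v a)`, `γ(q,q') = k4(q q')`, `ψ(v) = k5(v g)`, `ζ(v) = k6(v f)`, `β(q) = k6(q g)`,
`ρ(a,a') = k6(a a')` (symmetric), and (T0) `γ(x²,xw) = α(x,x²w)`, (T2) `α(v,vq)ε(v) = γ(v²,q)ψ(v)`, (T3) the formula for `ρ(zx²,a)`,
(I) injectivity. `D 3` is spanned by the `z x²` (`gen 3`, `GJ.sq`), `D 2` by the squares. DENSITY: an identity in `x ∈ V` which is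
polynomial on lines and holds whenever some nonzero products of linear forms are nonzero at `x` holds for all `x` (consider `x + t k` with `k ∈ V`
where these forms do not vanish, `pvan`/`pvan'`; for two nonzero linear forms on `V` there is a common `k`).

`T1_c` (`ψ = c ε` on `V`, `c ≠ 0`, `ε ≠ 0`): CONCLUSION `finrank (D 3) ≤ 1`. PROOF. (T2): (2) `α(v,vq) = c γ(v²,q)` for `ε(v) ≠ 0`, so always. Polarise: (3) `α(v,wq) + α(w,vq) = 2c γ(vw,q)`.
(T0): `α(v,v²w) = γ(v²,vw)`. So `(c-1)γ(v²,v²) = 0`.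
CASE `c ≠ 1`: `γ(v²,v²) = 0`; polarise: `γ(v²,vw) = 0`; (T0): `α(x,wx²) = 0`; (3) with `v = x`, `q = x²`: `α(w,xx²) = 2cγ(xw,x²) - α(x,wx²) = 0`, so
`xx² = 0` by (I). (T3) with `z = x`: `0 = ρ(xx²,a) = (3 - 2c)ζ(x)ε(x)α(x,a)`. If `3 - 2c ≠ 0`: `α(x,a) = 0` always, `D 3 = 0`. If
`2c = 3`: `x² x² = x(xx²) = 0` (`gJ1 x x`), `gJ4 x x x²` on `y²`: `0 = ((xx)x²)y² = x²(x²y²) + 2(xx²)(xy²) - 2x(x²(xy²))`, and `x²(xy²) = x(x²y²)` (`gJ1`). So
`x²(x²y²) = 2x(x(x²y²))`: `γ(x²,y²)β(x²) = 2γ(x²,y²)ψ(x)ζ(x)`: `γ(x²,y²)ζ(x)ε(x)(1 - 2c) = 0`, `1 - 2c = -2`. So `γ = 0` on `D 2`, (2): `α(v,vq) = 0`, and `α(x,wx²) = 0`: `T1_vq`.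
CASE `c = 1` (`ψ = ε`): (4) `α(w,xx²) = γ(x²,xw)` ((3) with `v = x, q = x²`, and (T0)). (T3): (5) `ρ(zx²,a) = ζ(x)ε(x)α(z,a) + (ζ(z)ε(x) - ζ(x)ε(z))α(x,a)`.
`ρ(xx²,wx²) = ζ(x)ε(x)α(x,wx²) = ζ(x)ε(x)γ(x²,xw)` and `ρ(wx²,xx²) = ζ(x)ε(x)γ(x²,xw) + (ζ(w)ε(x) - ζ(x)ε(w))γ(x²,x²)`. So
`(ζ(w)ε(x) - ζ(x)ε(w))γ(x²,x²) = 0`.
 (c1) `ζ(w)ε(x) ≠ ζ(x)ε(w)` for some `w,x ∈ V`: density: `γ(x²,x²) = 0` for all `x`; polarise: `γ(x²,xw) = 0`; (4): `xx² = 0` by (I); `0 = ρ(xx²,a) = ζ(x)ε(x)α(x,a)`: `α = 0`: `D 3 = 0`.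
 (c2) `ζ(w)ε(x) = ζ(x)ε(w)` for all `w,x`: then `ε = kζ` on `V`, `k ≠ 0`, and (5): `ρ(zx²,a) = β(x²)α(z,a)` (`β(x²) = kζ(x)²`), so (`GJ.sq`) `ρ(zq,a) = β(q)α(z,a)` for all `q ∈ D 2`.
 Choose `q0 ∈ D 2` with `β(q0) = 1`. Symmetry of `ρ`: `β(q)α(z,z'q') = β(q')α(z',zq)`. `q = q0`: `α(z,z'q') = β(q')α(z',zq0)`; with `m(z,z') := α(z,z'q0)`: `m(z,z') = m(z',z)` and
 `α(z,z'q') = β(q')m(z,z')`, so `z'q' = β(q')z'q0` by (I). (2): `γ(v²,q) = α(v,vq) = β(q)m(v,v)`; symmetry of `γ`: `β(w²)m(v,v) = β(v²)m(w,w)`: fix `w = k0`, `ζ(k0) = 1`: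
 `m(v,v) = μζ(v)²` (`μ = m(k0,k0)`; divide by `k`), polarise `m(v,w) = μζ(v)ζ(w)`. So for `a = z'q'`: `α(z,a) = ζ(z)·α(k0,a)`; so for all `a ∈ D 3`: `α(z,a) = ζ(z)α(k0,a)`: by (I) the map
 `a ↦ α(k0,a)`, `D 3 → F` is injective: `finrank (D 3) ≤ 1`.
-/

namespace JD

universe u

section T1C_tools

variable {F : Type u} [Field F]

/-- polynomial functions of one variable -/
private def T1C_P {W : Type u} [AddCommGroup W] [Module F W] (h : F → W) : Prop :=
  ∃ (n : ℕ) (c : ℕ → W), ∀ t, h t = ∑ i ∈ Finset.range n, t ^ i • c i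

private theorem T1C_P_mono {W : Type u} [AddCommGroup W] [Module F W] (k : ℕ) (w : W) :
    T1C_P (fun t : F => t ^ k • w) := by
  refine ⟨k + 1, fun i => if i = k then w else 0, fun t => ?_⟩
  simp

private theorem T1C_P_add {W : Type u} [AddCommGroup W] [Module F W] {h1 h2 : F → W}
    (a1 : T1C_P h1) (a2 : T1C_P h2) : T1C_P (fun t => h1 t + h2 t) := by
  obtain ⟨n, c, hc⟩ := a1
  obtain ⟨m, d, hd⟩ := a2
  refine ⟨max n m, fun i => (if i < n then c i else 0) + (if i < m then d i else 0), fun t => ?_⟩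
  simp only [smul_add, Finset.sum_add_distrib, smul_ite, smul_zero]
  rw [hc, hd, ← Finset.sum_filter, ← Finset.sum_filter]
  congr 2
  · ext i; simp; tauto
  · ext i; simp; tauto

private theorem T1C_P_zero {W : Type u} [AddCommGroup W] [Module F W] :
    T1C_P (fun _ : F => (0 : W)) := ⟨0, fun _ => 0, fun t => by simp⟩

private theorem T1C_P_sum {W : Type u} [AddCommGroup W] [Module F W] {ι : Type} (s : Finset ι)
    (h : ι → F → W) (a : ∀ i, T1C_P (h i)) : T1C_P (fun t => ∑ i ∈ s, h i t) := by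
  classical
  induction s using Finset.induction_on with
  | empty => simpa using T1C_P_zero
  | insert i s hi ih =>
    simp only [Finset.sum_insert hi]
    exact T1C_P_add (a i) ih

private theorem T1C_P_map {W W' : Type u} [AddCommGroup W] [Module F W] [AddCommGroup W']
    [Module F W'] (φ : W →ₗ[F] W') {h : F → W} (a : T1C_P h) : T1C_P (fun t => φ (h t)) := by
  obtain ⟨n, c, hc⟩ := a
  refine ⟨n, fun i => φ (c i), fun t => ?_⟩
  simp only [hc, map_sum, map_smul]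

private theorem T1C_P_bil {W W' W'' : Type u} [AddCommGroup W] [Module F W] [AddCommGroup W']
    [Module F W'] [AddCommGroup W''] [Module F W''] (B : W →ₗ[F] W' →ₗ[F] W'') {h : F → W}
    {h' : F → W'} (a : T1C_P h) (a' : T1C_P h') : T1C_P (fun t => B (h t) (h' t)) := by
  obtain ⟨n, c, hc⟩ := a
  obtain ⟨m, d, hd⟩ := a'
  have : (fun t => B (h t) (h' t)) =
      fun t => ∑ i ∈ Finset.range n, ∑ j ∈ Finset.range m, t ^ (i + j) • B (c i) (d j) := by
    funext t
    rw [hc, hd, map_sum B, LinearMap.sum_apply]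
    refine Finset.sum_congr rfl fun i _ => ?_
    rw [map_smul, LinearMap.smul_apply, map_sum, Finset.smul_sum]
    refine Finset.sum_congr rfl fun j _ => ?_
    rw [map_smul, smul_smul, ← pow_add]
  rw [this]
  exact T1C_P_sum _ _ fun i => T1C_P_sum _ _ fun j => T1C_P_mono _ _

variable {A : Type u} [NonUnitalNonAssocCommRing A] [Module F A]

/-- functions on `A` which are polynomial on lines -/
private def T1C_PL (F : Type u) [Field F] {A : Type u} [NonUnitalNonAssocCommRing A] [Module F A]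
    {W : Type u} [AddCommGroup W] [Module F W] (G : A → W) : Prop :=
  ∀ x k : A, T1C_P (fun t : F => G (x + t • k))

private theorem T1C_id : T1C_PL F (fun x : A => x) := fun x k => by
  have := T1C_P_add (T1C_P_mono (F := F) 0 x) (T1C_P_mono 1 k)
  simpa using this

private theorem T1C_const {W : Type u} [AddCommGroup W] [Module F W] (w : W) :
    T1C_PL F (fun _ : A => w) := fun x k => by
  simpa using T1C_P_mono (F := F) 0 w

private theorem T1C_add {W : Type u} [AddCommGroup W] [Module F W] {G H : A → W}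
    (a : T1C_PL F G) (b : T1C_PL F H) : T1C_PL F (fun x => G x + H x) :=
  fun x k => T1C_P_add (a x k) (b x k)

private theorem T1C_map {W W' : Type u} [AddCommGroup W] [Module F W] [AddCommGroup W']
    [Module F W'] (φ : W →ₗ[F] W') {G : A → W} (a : T1C_PL F G) : T1C_PL F (fun x => φ (G x)) :=
  fun x k => T1C_P_map φ (a x k)

private theorem T1C_mul [IsScalarTower F A A] [SMulCommClass F A A] {G H : A → A}
    (a : T1C_PL F G) (b : T1C_PL F H) : T1C_PL F (fun x => G x * H x) :=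
  fun x k => T1C_P_bil (LinearMap.mul F A) (a x k) (b x k)

private theorem T1C_mulF {G H : A → F}
    (a : T1C_PL F G) (b : T1C_PL F H) : T1C_PL F (fun x => G x * H x) :=
  fun x k => T1C_P_bil (LinearMap.mul F F) (a x k) (b x k)

private theorem T1C_sub {G H : A → F} (a : T1C_PL F G) (b : T1C_PL F H) :
    T1C_PL F (fun x => G x - H x) := by
  have h := T1C_add a (T1C_map (-LinearMap.id) b)
  refine cast ?_ h
  congr 1
  funext x
  simp [sub_eq_add_neg]

private theorem T1C_common (hV : Submodule F A) (l1 l2 : A →ₗ[F] F)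
    (h1 : ∃ x ∈ hV, l1 x ≠ 0) (h2 : ∃ x ∈ hV, l2 x ≠ 0) :
    ∃ k ∈ hV, l1 k ≠ 0 ∧ l2 k ≠ 0 := by
  obtain ⟨x, hx, hx1⟩ := h1
  obtain ⟨y, hy, hy1⟩ := h2
  by_cases h3 : l2 x = 0
  · by_cases h4 : l1 y = 0
    · refine ⟨x + y, hV.add_mem hx hy, ?_, ?_⟩
      · rw [map_add, h4, add_zero]; exact hx1
      · rw [map_add, h3, zero_add]; exact hy1
    · exact ⟨y, hy, h4, hy1⟩
  · exact ⟨x, hx, hx1, h3⟩

private theorem T1C_dense [Infinite F] (V : Submodule F A) (l1 l2 : A →ₗ[F] F)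
    (h1 : ∃ x ∈ V, l1 x ≠ 0) (h2 : ∃ x ∈ V, l2 x ≠ 0) (G : A → F) (hP : T1C_PL F G)
    (h : ∀ y ∈ V, l1 y ≠ 0 → l2 y ≠ 0 → G y = 0) : ∀ x ∈ V, G x = 0 := by
  obtain ⟨k, hk, hk1, hk2⟩ := T1C_common V l1 l2 h1 h2
  intro x hx
  obtain ⟨n, c, hc⟩ := hP x k
  let P1 : Polynomial F := Polynomial.C (l1 x) + Polynomial.C (l1 k) * Polynomial.X
  let P2 : Polynomial F := Polynomial.C (l2 x) + Polynomial.C (l2 k) * Polynomial.X
  have hP1 : P1 ≠ 0 := by
    intro h0
    have := congrArg (fun R => Polynomial.coeff R 1) h0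
    simp [P1] at this
    exact hk1 this
  have hP2 : P2 ≠ 0 := by
    intro h0
    have := congrArg (fun R => Polynomial.coeff R 1) h0
    simp [P2] at this
    exact hk2 this
  have key := pvan (P1 * P2) (mul_ne_zero hP1 hP2) n c (by
    intro t ht
    rw [← hc]
    have h3 : l1 (x + t • k) = P1.eval t := by simp [P1]; ring
    have h4 : l2 (x + t • k) = P2.eval t := by simp [P2]; ring
    rw [Polynomial.eval_mul] at ht
    refine h _ (V.add_mem hx (V.smul_mem t hk)) ?_ ?_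
    · rw [h3]; exact left_ne_zero_of_mul ht
    · rw [h4]; exact right_ne_zero_of_mul ht)
  have h5 := hc 0
  simp only [zero_smul, add_zero] at h5
  rw [h5]
  apply Finset.sum_eq_zero
  intro i hi
  rw [key i (Finset.mem_range.mp hi), smul_zero]

/-- polarisation of `φ(v² v²) = 0` -/
private theorem T1C_pol4 [IsScalarTower F A A] [SMulCommClass F A A] [Infinite F] (h2 : (2 : F) ≠ 0) (V : Submodule F A) (φ : A →ₗ[F] F)
    (h : ∀ v ∈ V, φ ((v * v) * (v * v)) = 0) :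
    ∀ v ∈ V, ∀ w ∈ V, φ ((v * v) * (v * w)) = 0 := by
  intro v hv w hw
  have key := pvan' (F := F) (W := F) ∅ 5 (fun i => match i with
    | 0 => φ ((v * v) * (v * v))
    | 1 => 4 * φ ((v * v) * (v * w))
    | 2 => 2 * φ ((v * v) * (w * w)) + 4 * φ ((v * w) * (v * w))
    | 3 => 4 * φ ((v * w) * (w * w))
    | 4 => φ ((w * w) * (w * w))
    | _ => 0) (by
    intro t _
    have h3 := h _ (V.add_mem hv (V.smul_mem t hw))
    rw [← h3]
    have e : (v + t • w) * (v + t • w) = v * v + ((2 * t) • (v * w) + (t * t) • (w * w)) := by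
      rw [add_mul, mul_add, mul_add, smul_mul_smul_comm, mul_smul_comm, smul_mul_assoc,
        mul_comm w v, two_mul, add_smul]
      abel
    rw [e]
    simp only [Finset.sum_range_succ, Finset.sum_range_zero, add_mul, mul_add, mul_smul_comm, smul_mul_assoc, map_add, map_smul, smul_eq_mul]
    rw [mul_comm (v * w) (v * v), mul_comm (w * w) (v * v), mul_comm (w * w) (v * w)]
    ring) 1 (by norm_num)
  have h4 : (4 : F) ≠ 0 := by
    have : (4 : F) = 2 * 2 := by norm_num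
    rw [this]; exact mul_ne_zero h2 h2
  exact (mul_eq_zero.mp key).resolve_left h4

end T1C_tools

variable {F : Type u} [Field F] {A : Type u} [NonUnitalNonAssocCommRing A] [Module F A]
  [IsScalarTower F A A] [SMulCommClass F A A] {D : ℕ → Submodule F A}
  {g f u : A} {k4 k5 k6 ε : A →ₗ[F] F}

private theorem T1C_m11 (hT : TS D g f u k4 k5 k6 ε) {x y : A} (hx : x ∈ D 1) (hy : y ∈ D 1) :
    x * y ∈ D 2 := hT.gj.mul_mem 1 1 le_rfl le_rfl x hx y hy

private theorem T1C_m12 (hT : TS D g f u k4 k5 k6 ε) {x q : A} (hx : x ∈ D 1) (hq : q ∈ D 2) :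
    x * q ∈ D 3 := hT.gj.mul_mem 1 2 le_rfl (by norm_num) x hx q hq

/-- `D 3` is zero if all `α(v, a)` vanish -/
private theorem T1C_zero (hT : TS D g f u k4 k5 k6 ε)
    (h : ∀ v ∈ D 1, ∀ a ∈ D 3, k4 (v * a) = 0) : Module.finrank F (D 3) ≤ 1 := by
  have : D 3 = ⊥ := by
    rw [eq_bot_iff]
    intro a ha
    rw [Submodule.mem_bot]
    exact hT.inj a ha fun v hv => h v hv a ha
  rw [this, finrank_bot]
  exact Nat.zero_le _

/-- (2) -/
private theorem T1C_e2 (hT : TS D g f u k4 k5 k6 ε) (hε : ∃ x ∈ D 1, ε x ≠ 0) (c : F)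
    (hψ : ∀ x ∈ D 1, k5 (x * g) = c * ε x) (v : A) (hv : v ∈ D 1) (q : A) (hq : q ∈ D 2) :
    k4 (v * (v * q)) = c * k4 ((v * v) * q) := by
  have := hT.gj.inf
  have key := T1C_dense (D 1) ε ε hε hε (fun v => k4 (v * (v * q)) - (c • k4) ((v * v) * q))
    (T1C_sub (T1C_map k4 (T1C_mul T1C_id (T1C_mul T1C_id (T1C_const q))))
      (T1C_map (c • k4) (T1C_mul (T1C_mul T1C_id T1C_id) (T1C_const q))))
    (fun y hy h1 _ => by
      have h3 := hT.t2 y hy q hq
      rw [hψ y hy] at h3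
      have h4 : (k4 (y * (y * q)) - c * k4 ((y * y) * q)) * ε y = 0 := by
        linear_combination h3
      exact (mul_eq_zero.mp h4).resolve_right h1) v hv
  have e : k4 (v * (v * q)) - c * k4 ((v * v) * q) = 0 := key
  linear_combination e

/-- (3) -/
private theorem T1C_e3 (hT : TS D g f u k4 k5 k6 ε) (hε : ∃ x ∈ D 1, ε x ≠ 0) (c : F)
    (hψ : ∀ x ∈ D 1, k5 (x * g) = c * ε x) (v : A) (hv : v ∈ D 1) (w : A) (hw : w ∈ D 1) (q : A)
    (hq : q ∈ D 2) :
    k4 (v * (w * q)) + k4 (w * (v * q)) = 2 * c * k4 ((v * w) * q) := by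
  have h1 := T1C_e2 hT hε c hψ (v + w) ((D 1).add_mem hv hw) q hq
  have h2 := T1C_e2 hT hε c hψ v hv q hq
  have h3 := T1C_e2 hT hε c hψ w hw q hq
  simp only [add_mul, mul_add, map_add] at h1
  rw [mul_comm w v] at h1
  linear_combination h1 - h2 - h3

/-- the case `3 - 2 c ≠ 0` and `x x² = 0`, or (c1): `ζ(x) ε(x) α(x, a) = 0` -/
private theorem T1C_fin (hT : TS D g f u k4 k5 k6 ε) (hε : ∃ x ∈ D 1, ε x ≠ 0)
    (h : ∀ x ∈ D 1, ∀ a ∈ D 3, k6 (x * f) * ε x * k4 (x * a) = 0) :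
    Module.finrank F (D 3) ≤ 1 := by
  have := hT.gj.inf
  refine T1C_zero hT fun v hv a ha => ?_
  refine T1C_dense (D 1) (k6 ∘ₗ LinearMap.mulRight F f) ε (by simpa using hT.hζ) hε
    (fun v => k4 (v * a)) (T1C_map k4 (T1C_mul T1C_id (T1C_const a))) ?_ v hv
  intro y hy h1 h2
  have h1' : k6 (y * f) ≠ 0 := by simpa using h1
  exact (mul_eq_zero.mp (h y hy a ha)).resolve_left (mul_ne_zero h1' h2)

/-- the case `c ≠ 1` -/
private theorem T1C_ne (hT : TS D g f u k4 k5 k6 ε) (hε : ∃ x ∈ D 1, ε x ≠ 0) (c : F)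
    (hψ : ∀ x ∈ D 1, k5 (x * g) = c * ε x) (hc1 : c ≠ 1) : Module.finrank F (D 3) ≤ 1 := by
  have := hT.gj.inf
  have h2 := hT.gj.two
  have hJ := hT.gj.jordan
  have hγ : ∀ v ∈ D 1, k4 ((v * v) * (v * v)) = 0 := by
    intro v hv
    have h3 := hT.t0 v v
    have h4 := T1C_e2 hT hε c hψ v hv (v * v) (T1C_m11 hT hv hv)
    rw [mul_comm (v * v) v] at h3
    rw [← h3] at h4
    have h5 : (1 - c) * k4 ((v * v) * (v * v)) = 0 := by linear_combination h4
    exact (mul_eq_zero.mp h5).resolve_left (sub_ne_zero.mpr hc1.symm)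
  have hγ1 := T1C_pol4 h2 (D 1) k4 hγ
  have hα : ∀ x ∈ D 1, ∀ w ∈ D 1, k4 (x * (w * (x * x))) = 0 := by
    intro x hx w hw
    rw [mul_comm w (x * x), ← hT.t0 x w]
    exact hγ1 x hx w hw
  have hx3 : ∀ x ∈ D 1, x * (x * x) = 0 := by
    intro x hx
    refine hT.inj _ (T1C_m12 hT hx (T1C_m11 hT hx hx)) fun w hw => ?_
    have h3 := T1C_e3 hT hε c hψ x hx w hw (x * x) (T1C_m11 hT hx hx)
    rw [hα x hx w hw, mul_comm (x * w) (x * x), hγ1 x hx w hw] at h3
    linear_combination h3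
  have hmain : ∀ x ∈ D 1, ∀ a ∈ D 3, (3 - 2 * c) * (k6 (x * f) * ε x * k4 (x * a)) = 0 := by
    intro x hx a ha
    have h3 := hT.t3 x hx x hx a ha
    rw [hx3 x hx, zero_mul, map_zero, hψ x hx] at h3
    linear_combination -h3
  by_cases h32 : 3 - 2 * c = 0
  · have hbot : D 3 = ⊥ := by
      have hz : ∀ q ∈ D 2, ∀ v ∈ D 1, k4 ((v * v) * q) = 0 := by
        intro q hq
        refine T1C_dense (D 1) (k6 ∘ₗ LinearMap.mulRight F f) ε (by simpa using hT.hζ) hε
          (fun v => k4 ((v * v) * q))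
          (T1C_map k4 (T1C_mul (T1C_mul T1C_id T1C_id) (T1C_const q))) ?_
        intro x hx hζ1 hε1
        have hζ' : k6 (x * f) ≠ 0 := by simpa using hζ1
        have hxx := T1C_m11 hT hx hx
        have e0 : (x * x) * (x * x) = 0 := by
          rw [gJ1 hJ x x, mul_comm (x * x) x, hx3 x hx, mul_zero]
        have e1 := gJ4 F h2 hJ x x (x * x) q
        rw [e0, hx3 x hx, zero_mul, zero_mul, gJ1 hJ x q] at e1
        have hg4 : (x * x) * q ∈ D 4 :=
          hT.gj.mul_mem 2 2 (by norm_num) (by norm_num) _ hxx q hq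
        have hg5 : x * g ∈ D 5 := hT.gj.mul_mem 1 4 le_rfl (by norm_num) x hx g hT.g_mem
        have e2 := hT.g_all _ hg4
        have e3 := hT.f_all _ hg5
        rw [e2, mul_smul_comm, mul_smul_comm, mul_smul_comm, e3, hψ x hx] at e1
        have e4 := congrArg k6 e1
        simp only [map_zero, map_add, map_sub, map_smul, smul_eq_mul, mul_smul_comm,
          hT.B x hx] at e4
        have e5 : (2 : F) * (k6 (x * f) * ε x) * k4 ((x * x) * q) = 0 := by
          have hc3 : 2 * c = 3 := by linear_combination -h32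
          linear_combination e4 - (k6 (x * f) * ε x) * k4 ((x * x) * q) * hc3
        exact (mul_eq_zero.mp e5).resolve_left (mul_ne_zero h2 (mul_ne_zero hζ' hε1))
      refine T1_vq hT hε ?_ hα
      intro v hv q hq
      rw [T1C_e2 hT hε c hψ v hv q hq, hz q hq v hv, mul_zero]
    rw [hbot, finrank_bot]
    exact Nat.zero_le _
  · exact T1C_fin hT hε fun x hx a ha => (mul_eq_zero.mp (hmain x hx a ha)).resolve_left h32

/-- the case `c = 1` -/
private theorem T1C_one (hT : TS D g f u k4 k5 k6 ε) (hε : ∃ x ∈ D 1, ε x ≠ 0)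
    (hψ : ∀ x ∈ D 1, k5 (x * g) = ε x) : Module.finrank F (D 3) ≤ 1 := by
  have := hT.gj.inf
  have h2 := hT.gj.two
  have hψ' : ∀ x ∈ D 1, k5 (x * g) = 1 * ε x := fun x hx => by rw [hψ x hx, one_mul]
  have e4 : ∀ x ∈ D 1, ∀ w ∈ D 1, k4 (w * (x * (x * x))) = k4 ((x * x) * (x * w)) := by
    intro x hx w hw
    have h3 := T1C_e3 hT hε 1 hψ' x hx w hw (x * x) (T1C_m11 hT hx hx)
    have h4 := hT.t0 x w
    rw [mul_comm w (x * x), ← h4, mul_comm (x * w) (x * x)] at h3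
    linear_combination h3
  have e5 : ∀ x ∈ D 1, ∀ z ∈ D 1, ∀ a ∈ D 3, k6 ((z * (x * x)) * a) =
      k6 (x * f) * ε x * k4 (z * a) + (k6 (z * f) * ε x - k6 (x * f) * ε z) * k4 (x * a) := by
    intro x hx z hz a ha
    have h3 := hT.t3 x hx z hz a ha
    rw [hψ z hz] at h3
    linear_combination h3
  have e6 : ∀ x ∈ D 1, ∀ w ∈ D 1,
      (k6 (w * f) * ε x - k6 (x * f) * ε w) * k4 ((x * x) * (x * x)) = 0 := by
    intro x hx w hw
    have hxx := T1C_m11 hT hx hx
    have h3 := e5 x hx x hx _ (T1C_m12 hT hw hxx)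
    have h4 := e5 x hx w hw _ (T1C_m12 hT hx hxx)
    rw [mul_comm, h3, e4 x hx w hw, e4 x hx x hx, mul_comm w (x * x), ← hT.t0 x w] at h4
    linear_combination -h4
  by_cases hcase : ∃ w ∈ D 1, ∃ x ∈ D 1, k6 (w * f) * ε x - k6 (x * f) * ε w ≠ 0
  · obtain ⟨w, hw, x0, hx0, hne⟩ := hcase
    have hγ : ∀ v ∈ D 1, k4 ((v * v) * (v * v)) = 0 := by
      refine T1C_dense (D 1) (k6 (w * f) • ε - ε w • (k6 ∘ₗ LinearMap.mulRight F f))
        (k6 (w * f) • ε - ε w • (k6 ∘ₗ LinearMap.mulRight F f)) ⟨x0, hx0, ?_⟩ ⟨x0, hx0, ?_⟩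
        (fun v => k4 ((v * v) * (v * v)))
        (T1C_map k4 (T1C_mul (T1C_mul T1C_id T1C_id) (T1C_mul T1C_id T1C_id))) ?_
      · simpa [mul_comm] using hne
      · simpa [mul_comm] using hne
      · intro y hy h1 _
        refine (mul_eq_zero.mp (e6 y hy w hw)).resolve_left ?_
        simpa [mul_comm] using h1
    have hγ1 := T1C_pol4 h2 (D 1) k4 hγ
    have hx3 : ∀ x ∈ D 1, x * (x * x) = 0 := by
      intro x hx
      refine hT.inj _ (T1C_m12 hT hx (T1C_m11 hT hx hx)) fun w hw => ?_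
      rw [e4 x hx w hw, hγ1 x hx w hw]
    refine T1C_fin hT hε fun x hx a ha => ?_
    have h3 := e5 x hx x hx a ha
    rw [hx3 x hx, zero_mul, map_zero] at h3
    linear_combination -h3
  · push Not at hcase
    -- (c2)
    have e7 : ∀ z ∈ D 1, ∀ a ∈ D 3, ∀ q ∈ D 2,
        k6 ((z * q) * a) = k6 (q * g) * k4 (z * a) := by
      intro z hz a ha
      have hle := hT.gj.sq (LinearMap.ker (k6 ∘ₗ LinearMap.mulRight F a ∘ₗ LinearMap.mulLeft F z
        - k4 (z * a) • (k6 ∘ₗ LinearMap.mulRight F g))) (by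
          intro v hv
          rw [LinearMap.mem_ker]
          have h3 := e5 v hv z hz a ha
          rw [hcase z hz v hv, zero_mul, add_zero] at h3
          simp only [LinearMap.sub_apply, LinearMap.comp_apply, LinearMap.mulRight_apply,
            LinearMap.mulLeft_apply, LinearMap.smul_apply, smul_eq_mul, hT.B v hv, h3]
          ring)
      intro q hq
      have h3 := hle hq
      rw [LinearMap.mem_ker] at h3
      simp only [LinearMap.sub_apply, LinearMap.comp_apply, LinearMap.mulRight_apply,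
            LinearMap.mulLeft_apply, LinearMap.smul_apply, smul_eq_mul] at h3
      linear_combination h3
    obtain ⟨k0, hk0, hζ0, hε0⟩ := T1C_common (D 1) (k6 ∘ₗ LinearMap.mulRight F f) ε
      (by simpa using hT.hζ) hε
    have hζ0' : k6 (k0 * f) ≠ 0 := by simpa using hζ0
    have hq0 := T1C_m11 hT hk0 hk0
    have hβ : k6 ((k0 * k0) * g) ≠ 0 := by rw [hT.B k0 hk0]; exact mul_ne_zero hζ0' hε0
    -- symmetry of `ρ`
    have e8 : ∀ z ∈ D 1, ∀ z' ∈ D 1, ∀ q ∈ D 2, ∀ q' ∈ D 2,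
        k6 (q * g) * k4 (z * (z' * q')) = k6 (q' * g) * k4 (z' * (z * q)) := by
      intro z hz z' hz' q hq q' hq'
      rw [← e7 z hz _ (T1C_m12 hT hz' hq') q hq, ← e7 z' hz' _ (T1C_m12 hT hz hq) q' hq',
        mul_comm (z * q)]
    have m_symm : ∀ z ∈ D 1, ∀ z' ∈ D 1,
        k4 (z * (z' * (k0 * k0))) = k4 (z' * (z * (k0 * k0))) := by
      intro z hz z' hz'
      exact mul_left_cancel₀ hβ (e8 z hz z' hz' _ hq0 _ hq0)
    have e9 : ∀ z ∈ D 1, ∀ z' ∈ D 1, ∀ q' ∈ D 2,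
        k6 ((k0 * k0) * g) * k4 (z * (z' * q')) = k6 (q' * g) * k4 (z * (z' * (k0 * k0))) := by
      intro z hz z' hz' q' hq'
      rw [e8 z hz z' hz' _ hq0 q' hq', m_symm z' hz' z hz]
    -- `m(v, v)`
    have e10 : ∀ v ∈ D 1, ∀ w ∈ D 1,
        k6 ((w * w) * g) * k4 (v * (v * (k0 * k0))) =
          k6 ((v * v) * g) * k4 (w * (w * (k0 * k0))) := by
      intro v hv w hw
      have h3 := T1C_e2 hT hε 1 hψ' v hv (w * w) (T1C_m11 hT hw hw)
      have h4 := T1C_e2 hT hε 1 hψ' w hw (v * v) (T1C_m11 hT hv hv)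
      have h5 := e9 v hv v hv (w * w) (T1C_m11 hT hw hw)
      have h6 := e9 w hw w hw (v * v) (T1C_m11 hT hv hv)
      rw [mul_comm (w * w) (v * v), ← h3.trans (one_mul _).symm.symm] at h4
      rw [← h5, ← h6, h4]
      ring
    have eκ : ∀ v ∈ D 1, k6 (k0 * f) * ε v = k6 (v * f) * ε k0 := by
      intro v hv
      linear_combination hcase k0 hk0 v hv
    -- `ζ(k0)^2 m(v,v) = m(k0,k0) ζ(v)^2`
    have e11 : ∀ v ∈ D 1, k6 (k0 * f) ^ 2 * k4 (v * (v * (k0 * k0))) =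
        k4 (k0 * (k0 * (k0 * k0))) * k6 (v * f) ^ 2 := by
      intro v hv
      have h3 := e10 v hv k0 hk0
      rw [hT.B v hv, hT.B k0 hk0] at h3
      have h4 := eκ v hv
      apply mul_left_cancel₀ hε0
      linear_combination k6 (k0 * f) * h3 + k6 (v * f) * k4 (k0 * (k0 * (k0 * k0))) * h4
    have e12 : ∀ v ∈ D 1, ∀ w ∈ D 1, k6 (k0 * f) ^ 2 * k4 (v * (w * (k0 * k0))) =
        k4 (k0 * (k0 * (k0 * k0))) * (k6 (v * f) * k6 (w * f)) := by
      intro v hv w hw
      have h3 := e11 (v + w) ((D 1).add_mem hv hw)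
      have h4 := e11 v hv
      have h5 := e11 w hw
      have h6 := m_symm v hv w hw
      simp only [add_mul, mul_add, map_add] at h3
      apply mul_left_cancel₀ h2
      linear_combination h3 - h4 - h5 + k6 (k0 * f) ^ 2 * h6
    have e13 : ∀ z ∈ D 1, ∀ a ∈ D 3, k6 (k0 * f) * k4 (z * a) = k6 (z * f) * k4 (k0 * a) := by
      intro z hz
      have hgen : ∀ v ∈ D 1, ∀ q ∈ D 2,
          k6 (k0 * f) * k4 (z * (v * q)) = k6 (z * f) * k4 (k0 * (v * q)) := by
        intro v hv q hq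
        have h3 := e9 z hz v hv q hq
        have h4 := e9 k0 hk0 v hv q hq
        have h5 := e12 z hz v hv
        have h6 := e12 k0 hk0 v hv
        apply mul_left_cancel₀ (mul_ne_zero hβ (pow_ne_zero 2 hζ0'))
        linear_combination k6 (k0 * f) ^ 3 * h3 - k6 (z * f) * k6 (k0 * f) ^ 2 * h4 +
          k6 (q * g) * k6 (k0 * f) * h5 - k6 (q * g) * k6 (z * f) * h6
      have hle := hT.gj.gen 3 le_rfl (LinearMap.ker (k6 (k0 * f) • (k4 ∘ₗ LinearMap.mulLeft F z)
        - k6 (z * f) • (k4 ∘ₗ LinearMap.mulLeft F k0))) (by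
          intro v hv q hq
          rw [LinearMap.mem_ker]
          have h3 := hgen v hv q hq
          simp only [LinearMap.sub_apply, LinearMap.comp_apply, LinearMap.mulLeft_apply,
            LinearMap.smul_apply, smul_eq_mul, h3]
          ring) (by
          intro q hq v hv
          rw [LinearMap.mem_ker]
          have h3 := hgen v hv q hq
          rw [mul_comm q v]
          simp only [LinearMap.sub_apply, LinearMap.comp_apply, LinearMap.mulLeft_apply,
            LinearMap.smul_apply, smul_eq_mul, h3]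
          ring)
      intro a ha
      have h3 := hle ha
      rw [LinearMap.mem_ker] at h3
      simp only [LinearMap.sub_apply, LinearMap.comp_apply, LinearMap.mulLeft_apply,
            LinearMap.smul_apply, smul_eq_mul] at h3
      linear_combination h3
    have := hT.gj.fin
    have hinj : Function.Injective ((k4 ∘ₗ LinearMap.mulLeft F k0) ∘ₗ (D 3).subtype) := by
      rw [← LinearMap.ker_eq_bot, LinearMap.ker_eq_bot']
      rintro ⟨a, ha⟩ h0
      have h0' : k4 (k0 * a) = 0 := by simpa using h0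
      have : a = 0 := hT.inj a ha fun z hz => by
        have h3 := e13 z hz a ha
        rw [h0', mul_zero] at h3
        exact (mul_eq_zero.mp h3).resolve_left hζ0'
      exact Subtype.ext this
    have := LinearMap.finrank_le_finrank_of_injective hinj
    rwa [Module.finrank_self] at this

theorem T1_c (hT : TS D g f u k4 k5 k6 ε) (hε : ∃ x ∈ D 1, ε x ≠ 0) (c : F) (hc : c ≠ 0)
    (hψ : ∀ x ∈ D 1, k5 (x * g) = c * ε x) : Module.finrank F (D 3) ≤ 1 := by
  by_cases h1 : c = 1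
  · subst h1
    exact T1C_one hT hε fun x hx => by rw [hψ x hx, one_mul]
  · exact T1C_ne hT hε c hψ h1

end JD
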