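import Pool.Agent.H9.JH.T1A
import Pool.Agent.H9.JH.T1C

set_option autoImplicit false

/-!
# JH T1: `dim D 4 = dim D 5 = 1` implies `dim D 3 ≤ 1` (class 6)
-/

namespace JD

universe u

variable {F : Type u} [Field F] {A : Type u} [NonUnitalNonAssocCommRing A] [Module F A]
  [IsScalarTower F A A] [SMulCommClass F A A] {D : ℕ → Submodule F A}

theorem LT (hG : GJ F A 6 D) (h4 : Module.finrank F (D 4) = 1)
    (h5 : Module.finrank F (D 5) = 1) : Module.finrank F (D 3) ≤ 1 := by
  rcases TS_exists hG h4 h5 with h | ⟨g, f, u, k4, k5, k6, ε, hT⟩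
  · exact h
  have hbot : D 3 = ⊥ → Module.finrank F (D 3) ≤ 1 := by
    intro h
    rw [h, finrank_bot]
    exact zero_le_one
  by_cases hε : ∃ x ∈ D 1, ε x ≠ 0
  · by_cases hψ : ∃ x ∈ D 1, k5 (x * g) ≠ 0
    · by_cases h1 : ∃ x ∈ D 1, k5 (x * g) ≠ 0 ∧ ε x = 0
      · by_cases h2 : ∃ x ∈ D 1, k5 (x * g) = 0 ∧ ε x ≠ 0
        · exact hbot (T1_indep hT h1 h2)
        · -- `ker ψ ≤ ker ε`
          exfalso
          push Not at h2
          obtain ⟨x, hx, hx1, hx2⟩ := h1
          obtain ⟨y, hy, hy1⟩ := hε
          -- `z = y - (ψ y / ψ x) x` has `ψ z = 0`, `ε z = ε y ≠ 0`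
          have hz : y - (k5 (y * g) / k5 (x * g)) • x ∈ D 1 :=
            (D 1).sub_mem hy ((D 1).smul_mem _ hx)
          have hz1 : k5 ((y - (k5 (y * g) / k5 (x * g)) • x) * g) = 0 := by
            rw [sub_mul, smul_mul_assoc, map_sub, map_smul, smul_eq_mul]
            field_simp
            ring
          have hz2 := h2 _ hz hz1
          rw [map_sub, map_smul, hx2, smul_zero, sub_zero] at hz2
          exact hy1 hz2
      · push Not at h1
        obtain ⟨k, hk, hk1⟩ := hε
        -- `ψ x ≠ 0 → ε x ≠ 0`; so `ψ = c ε`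
        have key : ∀ x ∈ D 1, k5 (x * g) = (k5 (k * g) / ε k) * ε x := by
          intro x hx
          have hz : x - (ε x / ε k) • k ∈ D 1 := (D 1).sub_mem hx ((D 1).smul_mem _ hk)
          have hz2 : ε (x - (ε x / ε k) • k) = 0 := by
            rw [map_sub, map_smul, smul_eq_mul]
            field_simp
            ring
          by_contra hne
          apply h1 _ hz ?_ hz2
          intro h0
          apply hne
          rw [sub_mul, smul_mul_assoc, map_sub, map_smul, smul_eq_mul] at h0
          rw [sub_eq_zero.mp h0]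
          ring
        refine T1_c hT ⟨k, hk, hk1⟩ _ ?_ key
        intro h0
        obtain ⟨x, hx, hx1⟩ := hψ
        apply hx1
        rw [key x hx, h0, zero_mul]
    · push Not at hψ
      exact hbot (T1_psi hT hε hψ)
  · push Not at hε
    refine hbot (T1_eps hT hε ?_)
    by_contra hψ
    push Not at hψ
    have hg0 : g = 0 := by
      refine hT.gj.nd 4 (by norm_num) (by norm_num) g hT.g_mem ?_ ?_
      · intro v hv
        have h5 : v * g ∈ D 5 := hT.gj.mul_mem 1 4 le_rfl (by norm_num) v hv g hT.g_mem
        rw [hT.f_all _ h5, hψ v hv, zero_smul]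
      · intro q hq
        have hle : D 2 ≤ LinearMap.ker (LinearMap.mulRight F g) := by
          refine hT.gj.sq _ ?_
          intro v hv
          rw [LinearMap.mem_ker, LinearMap.mulRight_apply]
          have h6 : (v * v) * g ∈ D 6 := hT.gj.mul_mem 2 4 (by norm_num) (by norm_num) _
            (hT.gj.mul_mem 1 1 le_rfl le_rfl v hv v hv) g hT.g_mem
          rw [hT.u_all _ h6, hT.B v hv, hε v hv, mul_zero, zero_smul]
        have := hle hq
        rwa [LinearMap.mem_ker, LinearMap.mulRight_apply] at this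
    have := hT.g_one
    rw [hg0, map_zero] at this
    exact zero_ne_one this

end JD
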