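import Pool.Agent.H9.JH.PenN

set_option autoImplicit false

/-!
# JH T2: common factor, `dim D 4 = 1`, `dim D 5 = 2` is impossible (class 6)

Notation: `PS`, `e1 = m2`, `e2 = -m1`, `D 4 = F g`, `D 6 = F u`, `θ` a coordinate of `D 6`, `κ` the coordinate of `D 4`; `Δ v = ∂(v) g` (`v ∈ V`), `∂ = κ ∘ Δ`;
`γ_ij = κ(s_i s_j)` (symmetric), `ψ(v) = v g ∈ D 5`.
`T2`. PROOF. `∂ ≠ 0` on `V` (`PS.ne`). `Δ(v²) = 2 v Δ v` (`der`) gives, with `N(v) := m1(v)Δ s1 + m2(v)Δ s2 ∈ D 5`: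
  (1) `l(v) N(v) = 2 ∂(v) ψ(v)` for `v ∈ V`.
`D 5` is spanned by `V D 4 = {ψ(v)}` and `D 2 D 3`, and `s_i(v s_j) = v(s_i s_j) + e_i(v)Δ s_j` (`d1, d2`), so `D 5` is spanned by the `ψ(v)` and `Δ s1, Δ s2`.
(a) `∂` AND `l` NOT PROPORTIONAL ON `V`. For `v ∈ V ∩ ker l`: `∂(v)ψ(v) = 0`, and `∂ ≠ 0` on `V ∩ ker l`; density in `V ∩ ker l`: `ψ(v) = 0` for `v ∈ V ∩ ker l`. So `ψ(v) = l(v) f0`, `f0 = ψ(k)` with
`l(k) = 1`. (1): `l(v)(N(v) - 2∂(v)f0) = 0`, so (density) `N(v) = 2∂(v)f0` for all `v`; with `v1, v2` of `dual`: `Δ s1, Δ s2 ∈ F f0`. So `D 5 ⊆ F f0`, `finrank ≤ 1`, contradiction.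
(b) `∂ = ∂0 l` ON `V`, `∂0 ≠ 0`. (1): `l(v)(N(v) - 2∂0ψ(v)) = 0`, so `v g = ψ(v) = m1(v)f1 + m2(v)f2` with `f_j := (2∂0)⁻¹ Δ s_j`, `Δ s_j = 2∂0 f_j`. `D 5 = F f1 + F f2`, so `f1, f2` is a basis of
`D 5`. Put `ζ_j(v) = θ(v f_j)`, `b_i = θ(s_i g)`. Let `w ∈ V`, `l(w) = 0`, `v ∈ V`. Then `Δ w = 0`;
 `v w = 1/2 l(v)(m1(w)s1 + m2(w)s2)` (`PS.polar`); `v(w s_j) = s_j(vw) - e_j(v)Δ w = s_j(vw) = 1/2 l(v) μ_j(w) g`, `μ_j(w) := γ_j1 m1(w) + γ_j2 m2(w)` (`PS.comp1/2`);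
 `s_i(w s_j) = w(s_i s_j) + e_i(w)Δ s_j = γ_ij(m1(w)f1 + m2(w)f2) + 2∂0 e_i(w) f_j`;
 `Δ(w s_j) = (Δ w)s_j + w Δ s_j = 2∂0 w f_j`. Now `s_i(v(w s_j)) - v(s_i(w s_j)) = e_i(v)Δ(w s_j)` (`d1, d2`); apply `θ`:
  (Eq) `1/2 μ_j(w) l(v) b_i - γ_ij(m1(w)ζ_1(v) + m2(w)ζ_2(v)) - 2∂0 e_i(w)ζ_j(v) = 2∂0 e_i(v)ζ_j(w)`   (`i, j ∈ {1,2}`, `v ∈ V`, `w ∈ V ∩ ker l`).
 CLAIM: `ζ_1(w) = ζ_2(w) = 0` for `w ∈ V ∩ ker l`. If `m1(w) = m2(w) = 0`: (Eq): `0 = 2∂0 e_i(v)ζ_j(w)`, choose `v` with `e_i(v) ≠ 0`. Otherwise `v = w` in (Eq), `Z = m1(w)ζ_1(w) + m2(w)ζ_2(w)`: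
 (Eq') `-γ_ij Z = 4∂0 e_i(w)ζ_j(w)`. Multiply by `m_i(w)` and sum over `i` (`m1(w)e1(w) + m2(w)e2(w) = 0`): `μ_j(w) Z = 0`. Multiply (Eq') by `m_j(w)` and sum over `j`: `-μ_i(w) Z = 4∂0 e_i(w) Z`; so
 `e_i(w) Z = 0` for `i = 1, 2`, so `Z = 0`, and (Eq') gives `e_i(w)ζ_j(w) = 0`, so `ζ_j(w) = 0`.
 So for `k ∈ V`, `l(k) = 1`: `ζ_j(v) = l(v)ζ_j(k)` for `v ∈ V`. Choose `(α,β) ≠ 0` with `αζ_1(k) + βζ_2(k) = 0`; `f = αf1 + βf2 ≠ 0` has `V f = 0` and `D 2 f = 0` (degree 7), so `f = 0`, contradiction.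
-/

namespace JD

universe u

variable {F : Type u} [Field F] {A : Type u} [NonUnitalNonAssocCommRing A] [Module F A]
  [IsScalarTower F A A] [SMulCommClass F A A]
  {D : ℕ → Submodule F A} {s1 s2 : A} {l m1 m2 : A →ₗ[F] F} {Δ : A →ₗ[F] A}

omit [IsScalarTower F A A] [SMulCommClass F A A] in
private theorem T2_rank [Module.Finite F A] {T : Submodule F A} (h : Module.finrank F T = 2)
    (f : A) (hf : T ≤ Submodule.span F {f}) : False := by
  have h1 := Submodule.finrank_mono hf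
  have h2 : Module.finrank F (Submodule.span F ({f} : Set A)) ≤ 1 := by
    by_cases h0 : f = 0
    · rw [h0, Submodule.span_zero_singleton, finrank_bot]
      omega
    · rw [finrank_span_singleton h0]
  omega

private theorem T2_span (hG : GJ F A 6 D) (hP : PS D s1 s2 l m1 m2 Δ) (g : A) (κ : A →ₗ[F] F)
    (hκ : ∀ a ∈ D 4, a = κ a • g) (T : Submodule F A) (hT : ∀ v ∈ D 1, v * g ∈ T)
    (hs1 : Δ s1 ∈ T) (hs2 : Δ s2 ∈ T) : D 5 ≤ T := by
  have hb : ∀ v ∈ D 1, ∀ a ∈ D 4, v * a ∈ T := by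
    intro v hv a ha
    rw [hκ a ha, mul_smul_comm]
    exact T.smul_mem _ (hT v hv)
  have hss : ∀ q ∈ D 2, ∀ q' ∈ D 2, q * q' ∈ D 4 := fun q hq q' hq' =>
    hG.mul_mem 2 2 (by norm_num) (by norm_num) q hq q' hq'
  have hΔ : ∀ q ∈ D 2, Δ q ∈ T := by
    intro q hq
    obtain ⟨a, b, rfl⟩ := hP.span q hq
    rw [map_add, map_smul, map_smul]
    exact T.add_mem (T.smul_mem _ hs1) (T.smul_mem _ hs2)
  have key : ∀ q ∈ D 2, ∀ v ∈ D 1, ∀ q' ∈ D 2, q * (v * q') ∈ T := by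
    intro q hq v hv q' hq'
    obtain ⟨a, b, rfl⟩ := hP.span q hq
    rw [add_mul, smul_mul_assoc, smul_mul_assoc]
    refine T.add_mem (T.smul_mem _ ?_) (T.smul_mem _ ?_)
    · have h := hP.d1 v hv q'
      have e : s1 * (v * q') = v * (s1 * q') + m2 v • Δ q' := by rw [← h]; abel
      rw [e]
      exact T.add_mem (hb v hv _ (hss _ hP.s1_mem _ hq')) (T.smul_mem _ (hΔ _ hq'))
    · have h := hP.d2 v hv q'
      have e : s2 * (v * q') = v * (s2 * q') + -(m1 v • Δ q') := by rw [← h]; abel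
      rw [e]
      exact T.add_mem (hb v hv _ (hss _ hP.s2_mem _ hq'))
        (T.neg_mem (T.smul_mem _ (hΔ _ hq')))
  refine hG.gen 5 (by norm_num) T (fun v hv h hh => hb v hv h hh) fun q hq h hh => ?_
  have h3 : D 3 ≤ T.comap (LinearMap.mulLeft F q) := by
    refine hG.gen 3 (by norm_num) _ (fun v hv h hh => ?_) fun q' hq' h hh => ?_
    · rw [Submodule.mem_comap, LinearMap.mulLeft_apply]
      exact key q hq v hv h hh
    · rw [Submodule.mem_comap, LinearMap.mulLeft_apply, mul_comm q' h]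
      exact key q hq h hh q' hq'
  exact h3 hh

private theorem T2_eq (hder : ∀ p q : A, Δ (p * q) = Δ p * q + p * Δ q) (v w : A) (hv : v ∈ D 1)
    (hw : w ∈ D 1) (si sj f1 f2 fj g : A) (e e' : A →ₗ[F] F)
    (lv m1w m2w γj1 γj2 γij d0 : F)
    (hdi : ∀ v ∈ D 1, ∀ h : A, si * (v * h) - v * (si * h) = e v • Δ h)
    (hdj : ∀ v ∈ D 1, ∀ h : A, sj * (v * h) - v * (sj * h) = e' v • Δ h)
    (hΔw : Δ w = 0) (hpol : (2 : F) • (v * w) = lv • (m1w • s1 + m2w • s2))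
    (hj1 : sj * s1 = γj1 • g) (hj2 : sj * s2 = γj2 • g) (hij : si * sj = γij • g)
    (hΔ : Δ sj = (2 * d0) • fj) (hwg : w * g = m1w • f1 + m2w • f2) :
    (lv * (γj1 * m1w + γj2 * m2w)) • (si * g) - (2 * γij) • (m1w • (v * f1) + m2w • (v * f2))
      - (4 * d0 * e w) • (v * fj) = (4 * d0 * e v) • (w * fj) := by
  have h1 : v * (w * sj) = sj * (v * w) := by
    have h := hdj v hv w
    rw [hΔw, smul_zero, sub_eq_zero] at h
    rw [h, mul_comm w sj]
  have h2 : (2 : F) • (v * (w * sj)) = (lv * (γj1 * m1w + γj2 * m2w)) • g := by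
    rw [h1, ← mul_smul_comm, hpol, mul_smul_comm, mul_add, mul_smul_comm, mul_smul_comm, hj1, hj2]
    module
  have h3 : si * (w * sj) = γij • (w * g) + e w • Δ sj := by
    have h := hdi w hw sj
    rw [← h, hij, mul_smul_comm]
    abel
  have h4 : Δ (w * sj) = (2 * d0) • (w * fj) := by
    rw [hder, hΔw, zero_mul, zero_add, hΔ, mul_smul_comm]
  have h5 := hdi v hv (w * sj)
  have h6 : si * ((2 : F) • (v * (w * sj))) - (2 : F) • (v * (si * (w * sj))) =
      (2 : F) • (e v • Δ (w * sj)) := by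
    rw [← h5, mul_smul_comm, smul_sub]
  have h7 : v * (si * (w * sj)) =
      γij • (m1w • (v * f1) + m2w • (v * f2)) + e w • (2 * d0) • (v * fj) := by
    rw [h3, hwg, hΔ, mul_add v, mul_smul_comm, mul_smul_comm, mul_smul_comm, mul_add v,
      mul_smul_comm, mul_smul_comm]
  rw [h2, h7, h4, mul_smul_comm] at h6
  rw [show (4 * d0 * e v) • (w * fj) = (2 : F) • e v • (2 * d0) • (w * fj) by module, ← h6]
  module

private theorem T2_alg (p q z1 z2 γ11 γ12 γ22 d Z : F) (h4 : (4 : F) ≠ 0) (hd : d ≠ 0)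
    (hm : p ≠ 0 ∨ q ≠ 0) (hZ : Z = p * z1 + q * z2) (E11 : -γ11 * Z = 4 * d * q * z1)
    (E12 : -γ12 * Z = 4 * d * q * z2) (E21 : -γ12 * Z = -(4 * d * p * z1))
    (E22 : -γ22 * Z = -(4 * d * p * z2)) : z1 = 0 ∧ z2 = 0 := by
  have h4d : 4 * d ≠ 0 := mul_ne_zero h4 hd
  have a1 : (4 * d) * (q * Z) = 0 := by
    linear_combination (-q * p) * E11 * 0 + (p * E11 + q * E21) - (p * E11 + q * E12)
      + 4 * d * q * hZ
  have a2 : (4 * d) * (p * Z) = 0 := by
    linear_combination (p * E21 + q * E22) - (p * E12 + q * E22) + 4 * d * p * hZ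
  have b1 := (mul_eq_zero.1 a1).resolve_left h4d
  have b2 := (mul_eq_zero.1 a2).resolve_left h4d
  have hZ0 : Z = 0 := by
    rcases hm with h | h
    · exact (mul_eq_zero.1 b2).resolve_left h
    · exact (mul_eq_zero.1 b1).resolve_left h
  rw [hZ0, mul_zero] at E11 E12 E21 E22
  rcases hm with h | h
  · have c1 : (4 * d) * (p * z1) = 0 := by linear_combination E21
    have c2 : (4 * d) * (p * z2) = 0 := by linear_combination E22
    exact ⟨(mul_eq_zero.1 ((mul_eq_zero.1 c1).resolve_left h4d)).resolve_left h,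
      (mul_eq_zero.1 ((mul_eq_zero.1 c2).resolve_left h4d)).resolve_left h⟩
  · have c1 : (4 * d) * (q * z1) = 0 := by linear_combination -E11
    have c2 : (4 * d) * (q * z2) = 0 := by linear_combination -E12
    exact ⟨(mul_eq_zero.1 ((mul_eq_zero.1 c1).resolve_left h4d)).resolve_left h,
      (mul_eq_zero.1 ((mul_eq_zero.1 c2).resolve_left h4d)).resolve_left h⟩

omit [IsScalarTower F A A] [SMulCommClass F A A] in
/-- linear in `v` and zero when `l v ≠ 0` -/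
private theorem T2_lin (hl : ∃ v ∈ D 1, l v ≠ 0) (Φ : A →ₗ[F] A)
    (h : ∀ v ∈ D 1, l v • Φ v = 0) : ∀ v ∈ D 1, Φ v = 0 := by
  obtain ⟨k, hk, hlk⟩ := hl
  have h1 : ∀ v ∈ D 1, l v ≠ 0 → Φ v = 0 := fun v hv hlv =>
    (smul_eq_zero.1 (h v hv)).resolve_left hlv
  intro v hv
  by_cases hlv : l v = 0
  · have h2 : Φ (v + k) = 0 := h1 _ ((D 1).add_mem hv hk) (by rw [map_add, hlv, zero_add]; exact hlk)
    rw [map_add, h1 k hk hlk, add_zero] at h2
    exact h2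
  · exact h1 v hv hlv

theorem T2 (hG : GJ F A 6 D) (hP : PS D s1 s2 l m1 m2 Δ) (h4 : Module.finrank F (D 4) = 1)
    (h5 : Module.finrank F (D 5) = 2) : False := by
  have hfin := hG.fin
  have h2 := hG.two
  have h4' : (4 : F) ≠ 0 := by
    have : (4 : F) = 2 * 2 := by norm_num
    rw [this]
    exact mul_ne_zero h2 h2
  obtain ⟨g, hg, hg0, κ, hκg, hκ⟩ := exists_coord h4
  obtain ⟨u, hu, hu0, θ, hθu, hθ⟩ := exists_coord hG.top
  obtain ⟨v1, hv1, v2, hv2, hm11, hm21, hm12, hm22⟩ := hP.dual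
  have hspan := T2_span hG hP g κ hκ
  have hΔ4 : ∀ v ∈ D 1, Δ v = κ (Δ v) • g := fun v hv => hκ _ (hP.deg 1 le_rfl v hv)
  have hΔ5 : ∀ q ∈ D 2, Δ q ∈ D 5 := fun q hq => hP.deg 2 (by norm_num) q hq
  -- (1)
  have e1 : ∀ v ∈ D 1, l v • (m1 v • Δ s1 + m2 v • Δ s2) = (2 * κ (Δ v)) • (v * g) := by
    intro v hv
    have h := hP.der v v
    rw [hP.sq v hv, map_smul, map_add, map_smul, map_smul, hΔ4 v hv, smul_mul_assoc,
      mul_smul_comm, mul_comm g v] at h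
    rw [h]
    rw [← add_smul, ← two_mul]
  obtain ⟨k0, hk0, hlk0⟩ := hP.l_ne
  obtain ⟨k, hk, hlk⟩ : ∃ k ∈ D 1, l k = 1 :=
    ⟨(l k0)⁻¹ • k0, (D 1).smul_mem _ hk0, by rw [map_smul, smul_eq_mul, inv_mul_cancel₀ hlk0]⟩
  let N : A →ₗ[F] A := m1.smulRight (Δ s1) + m2.smulRight (Δ s2)
  have hN : ∀ v, N v = m1 v • Δ s1 + m2 v • Δ s2 := fun v => rfl
  by_cases hprop : ∀ v ∈ D 1, κ (Δ v) = κ (Δ k) * l v
  · -- (b)
    obtain ⟨d0, hd0def⟩ : ∃ d0 : F, d0 = κ (Δ k) := ⟨_, rfl⟩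
    rw [← hd0def] at hprop
    have hd0 : d0 ≠ 0 := by
      intro h
      obtain ⟨v, hv, hne⟩ := hP.ne
      apply hne
      rw [hΔ4 v hv, hprop v hv, h, zero_mul, zero_smul]
    have h2d : 2 * d0 ≠ 0 := mul_ne_zero h2 hd0
    -- `N v = 2 d0 v g`
    have hψ : ∀ v ∈ D 1, (N - (2 * d0) • LinearMap.mulRight F g) v = 0 := by
      apply T2_lin hP.l_ne
      intro v hv
      rw [LinearMap.sub_apply, LinearMap.smul_apply, LinearMap.mulRight_apply, hN, smul_sub,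
        e1 v hv, hprop v hv]
      module
    obtain ⟨f1, hf1⟩ : ∃ f1 : A, f1 = (2 * d0)⁻¹ • Δ s1 := ⟨_, rfl⟩
    obtain ⟨f2, hf2⟩ : ∃ f2 : A, f2 = (2 * d0)⁻¹ • Δ s2 := ⟨_, rfl⟩
    have hΔ1 : Δ s1 = (2 * d0) • f1 := by rw [hf1, smul_smul, mul_inv_cancel₀ h2d, one_smul]
    have hΔ2 : Δ s2 = (2 * d0) • f2 := by rw [hf2, smul_smul, mul_inv_cancel₀ h2d, one_smul]
    have hf1m : f1 ∈ D 5 := by rw [hf1]; exact (D 5).smul_mem _ (hΔ5 _ hP.s1_mem)
    have hf2m : f2 ∈ D 5 := by rw [hf2]; exact (D 5).smul_mem _ (hΔ5 _ hP.s2_mem)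
    have hwg : ∀ v ∈ D 1, v * g = m1 v • f1 + m2 v • f2 := by
      intro v hv
      have h := hψ v hv
      rw [LinearMap.sub_apply, LinearMap.smul_apply, LinearMap.mulRight_apply, hN,
        sub_eq_zero] at h
      have h' : v * g = (2 * d0)⁻¹ • (m1 v • Δ s1 + m2 v • Δ s2) := by
        rw [h, smul_smul, inv_mul_cancel₀ h2d, one_smul]
      rw [h', hf1, hf2]
      module
    have hs5 : D 5 ≤ Submodule.span F {f1, f2} := by
      have m1' : f1 ∈ Submodule.span F ({f1, f2} : Set A) := Submodule.subset_span (by simp)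
      have m2' : f2 ∈ Submodule.span F ({f1, f2} : Set A) := Submodule.subset_span (by simp)
      apply hspan
      · intro v hv
        rw [hwg v hv]
        exact Submodule.add_mem _ (Submodule.smul_mem _ _ m1') (Submodule.smul_mem _ _ m2')
      · rw [hΔ1]; exact Submodule.smul_mem _ _ m1'
      · rw [hΔ2]; exact Submodule.smul_mem _ _ m2'
    -- independence
    have hli : ∀ a b : F, a • f1 + b • f2 = 0 → a = 0 ∧ b = 0 := by
      intro a b hab
      by_cases ha : a = 0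
      · refine ⟨ha, ?_⟩
        by_contra hb
        rw [ha, zero_smul, zero_add] at hab
        have h0 : f2 = 0 := (smul_eq_zero.1 hab).resolve_left hb
        refine T2_rank h5 f1 (hs5.trans ?_)
        rw [Submodule.span_le]
        rintro x (rfl | rfl)
        · exact Submodule.mem_span_singleton_self _
        · rw [h0]; exact Submodule.zero_mem _
      · exfalso
        have h0 : f1 = (-(a⁻¹ * b)) • f2 := by
          have : f1 = a⁻¹ • (a • f1) := by rw [smul_smul, inv_mul_cancel₀ ha, one_smul]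
          rw [this, eq_neg_of_add_eq_zero_left hab]
          module
        refine T2_rank h5 f2 (hs5.trans ?_)
        rw [Submodule.span_le]
        rintro x (rfl | rfl)
        · rw [h0]; exact Submodule.smul_mem _ _ (Submodule.mem_span_singleton_self _)
        · exact Submodule.mem_span_singleton_self _
    -- products in `D 4`
    have hss : ∀ q ∈ D 2, ∀ q' ∈ D 2, q * q' = κ (q * q') • g := fun q hq q' hq' =>
      hκ _ (hG.mul_mem 2 2 (by norm_num) (by norm_num) q hq q' hq')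
    have hd2 : ∀ v ∈ D 1, ∀ h : A, s2 * (v * h) - v * (s2 * h) = (-m1) v • Δ h := by
      intro v hv h
      rw [hP.d2 v hv h, LinearMap.neg_apply, neg_smul]
    have hpol : ∀ v ∈ D 1, ∀ w ∈ D 1, l w = 0 →
        (2 : F) • (v * w) = l v • (m1 w • s1 + m2 w • s2) := by
      intro v hv w hw hlw
      rw [hP.polar h2 v hv w hw, hlw]
      module
    have hΔw : ∀ w ∈ D 1, l w = 0 → Δ w = 0 := by
      intro w hw hlw
      rw [hΔ4 w hw, hprop w hw, hlw, mul_zero, zero_smul]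
    have h21 : s2 * s1 = κ (s1 * s2) • g := by
      rw [mul_comm s2 s1]; exact hss _ hP.s1_mem _ hP.s2_mem
    have q11 := hss _ hP.s1_mem _ hP.s1_mem
    have q12 := hss _ hP.s1_mem _ hP.s2_mem
    have q22 := hss _ hP.s2_mem _ hP.s2_mem
    -- the claim
    have claim : ∀ w ∈ D 1, l w = 0 → θ (w * f1) = 0 ∧ θ (w * f2) = 0 := by
      intro w hw hlw
      have E11 : ∀ v ∈ D 1, _ := fun v hv => T2_eq hP.der v w hv hw s1 s1 f1 f2 f1 g m2 m2 (l v)
        (m1 w) (m2 w) _ _ _ d0 hP.d1 hP.d1 (hΔw w hw hlw) (hpol v hv w hw hlw) q11 q12 q11 hΔ1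
        (hwg w hw)
      have E12 : ∀ v ∈ D 1, _ := fun v hv => T2_eq hP.der v w hv hw s1 s2 f1 f2 f2 g m2 (-m1) (l v)
        (m1 w) (m2 w) _ _ _ d0 hP.d1 hd2 (hΔw w hw hlw) (hpol v hv w hw hlw) h21 q22 q12 hΔ2
        (hwg w hw)
      have E21 : ∀ v ∈ D 1, _ := fun v hv => T2_eq hP.der v w hv hw s2 s1 f1 f2 f1 g (-m1) m2 (l v)
        (m1 w) (m2 w) _ _ _ d0 hd2 hP.d1 (hΔw w hw hlw) (hpol v hv w hw hlw) q11 q12 h21 hΔ1
        (hwg w hw)
      have E22 : ∀ v ∈ D 1, _ := fun v hv => T2_eq hP.der v w hv hw s2 s2 f1 f2 f2 g (-m1) (-m1)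
        (l v) (m1 w) (m2 w) _ _ _ d0 hd2 hd2 (hΔw w hw hlw) (hpol v hv w hw hlw) h21 q22 q22 hΔ2
        (hwg w hw)
      by_cases hm : m1 w ≠ 0 ∨ m2 w ≠ 0
      · have F11 := congrArg θ (E11 w hw)
        have F12 := congrArg θ (E12 w hw)
        have F21 := congrArg θ (E21 w hw)
        have F22 := congrArg θ (E22 w hw)
        simp only [map_sub, map_add, map_smul, smul_eq_mul, hlw, zero_mul,
          LinearMap.neg_apply] at F11 F12 F21 F22
        refine T2_alg (m1 w) (m2 w) _ _ (κ (s1 * s1)) (κ (s1 * s2)) (κ (s2 * s2)) d0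
          (m1 w * θ (w * f1) + m2 w * θ (w * f2)) h4' hd0 hm rfl ?_ ?_ ?_ ?_
        · apply mul_left_cancel₀ h2
          linear_combination F11
        · apply mul_left_cancel₀ h2
          linear_combination F12
        · apply mul_left_cancel₀ h2
          linear_combination F21
        · apply mul_left_cancel₀ h2
          linear_combination F22
      · push Not at hm
        have G1 := congrArg θ (E11 v2 hv2)
        have G2 := congrArg θ (E12 v2 hv2)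
        simp only [map_sub, map_add, map_smul, smul_eq_mul, hm.1, hm.2, hm22, mul_zero, zero_mul,
          add_zero, sub_zero, mul_one] at G1 G2
        have h4d : 4 * d0 ≠ 0 := mul_ne_zero h4' hd0
        exact ⟨(mul_eq_zero.1 G1.symm).resolve_left h4d, (mul_eq_zero.1 G2.symm).resolve_left h4d⟩
    have hζ : ∀ v ∈ D 1, θ (v * f1) = l v * θ (k * f1) ∧ θ (v * f2) = l v * θ (k * f2) := by
      intro v hv
      have h := claim (v - l v • k) ((D 1).sub_mem hv ((D 1).smul_mem _ hk))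
        (by rw [map_sub, map_smul, hlk, smul_eq_mul, mul_one, sub_self])
      rw [sub_mul, sub_mul, smul_mul_assoc, smul_mul_assoc, map_sub, map_sub, map_smul, map_smul,
        smul_eq_mul, smul_eq_mul, sub_eq_zero, sub_eq_zero] at h
      exact h
    obtain ⟨a, b, hab, hz⟩ : ∃ a b : F, ¬(a = 0 ∧ b = 0) ∧
        a * θ (k * f1) + b * θ (k * f2) = 0 := by
      by_cases h0 : θ (k * f1) = 0
      · exact ⟨1, 0, fun h => one_ne_zero h.1, by rw [h0]; ring⟩
      · exact ⟨θ (k * f2), -θ (k * f1), fun h => h0 (neg_eq_zero.1 h.2), by ring⟩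
    apply hab
    apply hli
    refine hG.nd 5 (by norm_num) (by norm_num) _
      ((D 5).add_mem ((D 5).smul_mem _ hf1m) ((D 5).smul_mem _ hf2m)) (fun v hv => ?_)
      fun q hq => ?_
    · rw [hθ _ (hG.mul_mem 1 5 le_rfl (by norm_num) v hv _
        ((D 5).add_mem ((D 5).smul_mem _ hf1m) ((D 5).smul_mem _ hf2m)))]
      have : θ (v * (a • f1 + b • f2)) = 0 := by
        rw [mul_add, mul_smul_comm, mul_smul_comm, map_add, map_smul, map_smul, (hζ v hv).1,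
          (hζ v hv).2, smul_eq_mul, smul_eq_mul]
        linear_combination l v * hz
      rw [this, zero_smul]
    · exact hG.above 7 (by norm_num) _ (hG.mul_mem 2 5 (by norm_num) (by norm_num) q hq _
        ((D 5).add_mem ((D 5).smul_mem _ hf1m) ((D 5).smul_mem _ hf2m)))
  · -- (a)
    push Not at hprop
    obtain ⟨v0, hv0, hne⟩ := hprop
    obtain ⟨w0, hw0def⟩ : ∃ w0 : A, w0 = v0 - l v0 • k := ⟨_, rfl⟩
    have hw0 : w0 ∈ D 1 := by
      rw [hw0def]; exact (D 1).sub_mem hv0 ((D 1).smul_mem _ hk)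
    have hlw0 : l w0 = 0 := by
      rw [hw0def, map_sub, map_smul, hlk, smul_eq_mul, mul_one, sub_self]
    have hdw0 : κ (Δ w0) ≠ 0 := by
      rw [hw0def, map_sub, map_sub, map_smul, map_smul, smul_eq_mul, sub_ne_zero, mul_comm]
      exact hne
    have hz1 : ∀ w ∈ D 1, l w = 0 → κ (Δ w) ≠ 0 → w * g = 0 := by
      intro w hw hlw hdw
      have h := e1 w hw
      rw [hlw, zero_smul] at h
      exact (smul_eq_zero.1 h.symm).resolve_left (mul_ne_zero h2 hdw)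
    have hz2 : ∀ w ∈ D 1, l w = 0 → w * g = 0 := by
      intro w hw hlw
      by_cases hdw : κ (Δ w) = 0
      · have h := hz1 (w + w0) ((D 1).add_mem hw hw0) (by rw [map_add, hlw, hlw0, add_zero])
          (by rw [map_add, map_add, hdw, zero_add]; exact hdw0)
        rw [add_mul, hz1 w0 hw0 hlw0 hdw0, add_zero] at h
        exact h
      · exact hz1 w hw hlw hdw
    have hψ : ∀ v ∈ D 1, v * g = l v • (k * g) := by
      intro v hv
      have h := hz2 (v - l v • k) ((D 1).sub_mem hv ((D 1).smul_mem _ hk))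
        (by rw [map_sub, map_smul, hlk, smul_eq_mul, mul_one, sub_self])
      rw [sub_mul, smul_mul_assoc, sub_eq_zero] at h
      exact h
    let R : A →ₗ[F] A := (2 : F) • (κ ∘ₗ Δ).smulRight (k * g)
    have hR : ∀ v, R v = (2 : F) • κ (Δ v) • (k * g) := fun v => rfl
    have hNR : ∀ v ∈ D 1, (N - R) v = 0 := by
      apply T2_lin hP.l_ne
      intro v hv
      rw [LinearMap.sub_apply, hN, hR, smul_sub, e1 v hv, hψ v hv]
      module
    have hm : k * g ∈ Submodule.span F ({k * g} : Set A) := Submodule.mem_span_singleton_self _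
    refine T2_rank h5 (k * g) (hspan _ (fun v hv => ?_) ?_ ?_)
    · rw [hψ v hv]
      exact Submodule.smul_mem _ _ hm
    · have h := hNR v1 hv1
      rw [LinearMap.sub_apply, hN, hR, hm11, hm21, one_smul, zero_smul, add_zero,
        sub_eq_zero] at h
      rw [h]
      exact Submodule.smul_mem _ _ (Submodule.smul_mem _ _ hm)
    · have h := hNR v2 hv2
      rw [LinearMap.sub_apply, hN, hR, hm12, hm22, one_smul, zero_smul, zero_add,
        sub_eq_zero] at h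
      rw [h]
      exact Submodule.smul_mem _ _ (Submodule.smul_mem _ _ hm)

end JD
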