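import Pool.Agent.H9.JH.H2B
import Pool.Agent.H9.JH.H3D
import Pool.Agent.H9.JH.T1
import Pool.Agent.H9.JH.T2
import Pool.Agent.H9.JH.PenA
import Pool.Agent.H9.JH.N12

set_option autoImplicit false

/-!
# JH H6: Lemma H for class 6
-/

namespace JD

universe u

variable {F : Type u} [Field F] {A : Type u} [NonUnitalNonAssocCommRing A] [Module F A]
  [IsScalarTower F A A] [SMulCommClass F A A] {D : ℕ → Submodule F A}

open Module

theorem H6_list (hG : GJ F A 6 D) (h1 : finrank F (D 1) = 2 ∨ finrank F (D 1) = 3)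
    (h2 : finrank F (D 2) ≠ 1)
    (hs : finrank F (D 2) + finrank F (D 3) + finrank F (D 4) + finrank F (D 5) ≤ 7) :
    finrank F (D 1) = 2 ∧ finrank F (D 2) = 2 ∧ finrank F (D 3) = 2 ∧ finrank F (D 4) = 2 ∧
    finrank F (D 5) = 1 ∧
    ∃ (s1 s2 : A) (l m1 m2 : A →ₗ[F] F) (Δ : A →ₗ[F] A), PS D s1 s2 l m1 m2 Δ := by
  have hfin := hG.fin
  have h4 : finrank F (D 4) ≠ 0 := by
    intro h
    exact D4_ne hG (Submodule.finrank_eq_zero.mp h)
  have h3 : 2 ≤ finrank F (D 3) := by
    by_contra hlt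
    obtain ⟨-, h5, h6⟩ := H3 hG h1 (by omega)
    omega
  have h5 : finrank F (D 5) ≠ 0 := by
    intro h
    obtain ⟨h6, h7⟩ := H2b hG (Submodule.finrank_eq_zero.mp h)
    omega
  have h2' : finrank F (D 2) ≠ 0 := by
    intro h
    have hb := Submodule.finrank_eq_zero.mp h
    have h6 : D 3 ≤ ⊥ := by
      refine hG.gen 3 le_rfl ⊥ ?_ ?_
      · intro v _ q hq
        have hq' : q ∈ D 2 := hq
        rw [hb, Submodule.mem_bot] at hq'
        rw [hq', mul_zero]
        exact Submodule.zero_mem _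
      · intro q hq v _
        rw [hb, Submodule.mem_bot] at hq
        rw [hq, zero_mul]
        exact Submodule.zero_mem _
    have h7 : finrank F (D 3) = 0 := by
      rw [le_bot_iff.mp h6]
      exact finrank_bot F A
    omega
  have h45 : ¬ (finrank F (D 4) = 1 ∧ finrank F (D 5) = 1) := by
    rintro ⟨h6, h7⟩
    have := LT hG h6 h7
    omega
  have h22 : finrank F (D 2) = 2 := by omega
  have h33 : finrank F (D 3) = 2 := by omega
  have hpen : ∃ (s1 s2 : A) (l m1 m2 : A →ₗ[F] F) (Δ : A →ₗ[F] A), PS D s1 s2 l m1 m2 Δ := by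
    rcases pencil hG h22 with h | h
    · obtain ⟨h6, h7⟩ := comm_dims hG h
      omega
    · exact h
  obtain ⟨s1, s2, l, m1, m2, Δ, hP⟩ := hpen
  have h6 : finrank F (D 4) = 2 := by
    by_contra hne
    have h41 : finrank F (D 4) = 1 := by omega
    have h52 : finrank F (D 5) = 2 := by omega
    exact T2 hG hP h41 h52
  have h7 : finrank F (D 1) = 2 := by
    rcases h1 with h1 | h1
    · exact h1
    · have := N12 hG (by norm_num) hP h1 h33
      omega
  exact ⟨h7, h22, h33, h6, by omega, s1, s2, l, m1, m2, Δ, hP⟩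

/-- LEMMA H, class 6, three essential letters: total dimension at least 12 -/
theorem H6_three (hG : GJ F A 6 D) (h1 : finrank F (D 1) = 3) :
    8 ≤ finrank F (D 2) + finrank F (D 3) + finrank F (D 4) + finrank F (D 5) := by
  by_contra hlt
  by_cases h2 : finrank F (D 2) = 1
  · obtain ⟨-, -, h3, h4, h5⟩ := H1 hG h2
    omega
  · obtain ⟨h6, -⟩ := H6_list hG (Or.inr h1) h2 (by omega)
    omega

/-- LEMMA H, class 6, two essential letters, total dimension at most 10 -/
theorem H6_two (hG : GJ F A 6 D) (h1 : finrank F (D 1) = 2)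
    (hs : finrank F (D 2) + finrank F (D 3) + finrank F (D 4) + finrank F (D 5) ≤ 7) :
    (finrank F (D 2) = 1 ∧ finrank F (D 3) = 2 ∧ finrank F (D 4) = 1 ∧ finrank F (D 5) = 2 ∧
      (∀ v ∈ D 1, ∀ q ∈ D 2, ∀ b : A, v * (q * b) = q * (v * b)) ∧
      (∀ v ∈ D 1, (∀ w ∈ D 1, v * w = 0) → v = 0)) ∨
    (finrank F (D 2) = 2 ∧ finrank F (D 3) = 2 ∧ finrank F (D 4) = 2 ∧ finrank F (D 5) = 1 ∧
      ∃ (s1 s2 : A) (l m : A →ₗ[F] F) (Δ : A →ₗ[F] A), PS D s1 s2 l l m Δ) := by
  have hfin := hG.fin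
  by_cases h2 : finrank F (D 2) = 1
  · obtain ⟨h6, h7, h3, h4, h5⟩ := H1 hG h2
    exact Or.inl ⟨h2, by omega, h4, by omega, h6, h7⟩
  · obtain ⟨-, h22, h33, h44, h55, s1, s2, l, m1, m2, Δ, hP⟩ := H6_list hG (Or.inl h1) h2 hs
    refine Or.inr ⟨h22, h33, h44, h55, ?_⟩
    rcases pencil_normal hG hP with h | ⟨s1', s2', m, Δ', h⟩
    · exfalso
      obtain ⟨x, hx, y, hy, z, hz, e1, e2, e3, e4, e5, e6, e7, e8, e9⟩ := h
      -- x, y, z are independent in `D 1`
      have hli : LinearIndependent F (![⟨x, hx⟩, ⟨y, hy⟩, ⟨z, hz⟩] : Fin 3 → D 1) := by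
        rw [Fintype.linearIndependent_iff]
        intro g hg
        rw [Fin.sum_univ_three] at hg
        have hg' : g 0 • x + g 1 • y + g 2 • z = 0 := by
          have := congrArg Subtype.val hg
          simpa using this
        have a1 := congrArg l hg'
        have a2 := congrArg m1 hg'
        have a3 := congrArg m2 hg'
        simp only [map_add, map_smul, e1, e2, e3, e4, e5, e6, e7, e8, e9, smul_eq_mul, mul_one,
          mul_zero, add_zero, zero_add, map_zero] at a1 a2 a3
        intro i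
        fin_cases i
        · exact a1
        · exact a2
        · exact a3
      have := hli.fintype_card_le_finrank
      simp at this
      omega
    · exact ⟨s1', s2', l, m, Δ', h⟩

end JD
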