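import Pool.Agent.H9.JH.Pen

set_option autoImplicit false

/-!
# JH PenN: common factor structure: multiplication rules and normal form

`pencil_normal` (for `PS`, `l` and `m1, m2`): either `l, m1, m2` are independent on `V`: dual vectors `x, y, z ∈ V`:
`l(x) = m1(y) = m2(z) = 1`, the other values 0; or there is a `PS` with `m1 = l`. PROOF. If `l, m1, m2` are independent on `V` (restricted to `D 1`): dual vectors. Otherwise
`l = a m1 + b m2` on `V` (`m1, m2` are independent), `(a,b) ≠ 0`. If `a ≠ 0`: `m1 = (l - b m2)/a`, `m1 s1 + m2 s2 = l (s1/a) + m2 (s2 - (b/a)s1)`: new `s1' = s1/a`,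
`s2' = s2 - (b/a)s1`, `m1' = l`, `m2' = m2`; `[L_s1', L_v] = m2(v) Δ/a`, `[L_s2', L_v] = -m1(v)Δ - (b/a)m2(v)Δ = -(1/a) l(v) Δ`: `Δ' = Δ/a`. If `a = 0`, `b ≠ 0`: `l = b m2`: exchange first: `s1'' = s2, s2'' = s1, m1'' = m2, m2'' = m1, Δ'' = -Δ`.
(`m1' = l` should hold as functionals on `A` or only on `V`; the structure `PS` only uses values on `V`, so replacing `m1'` by `l` is fine.)
`PS.comp`: for `w, v ∈ V`, `i = 1, 2`: `w (v s_i) = s_i (v w) - e_i(w) Δ v`, `e1 = m2`, `e2 = -m1`; PROOF: `[L_(s_i), L_w] v = e_i(w) Δ v`.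
-/

namespace JD

universe u

variable {F : Type u} [Field F] {A : Type u} [NonUnitalNonAssocCommRing A] [Module F A]
  [IsScalarTower F A A] [SMulCommClass F A A] {D : ℕ → Submodule F A} {c : ℕ}
  {s1 s2 : A} {l m1 m2 : A →ₗ[F] F} {Δ : A →ₗ[F] A}

theorem PS.comp1 (hP : PS D s1 s2 l m1 m2 Δ) (w : A) (hw : w ∈ D 1) (v : A) :
    w * (v * s1) = s1 * (v * w) - m2 w • Δ v := by
  have h := hP.d1 w hw v
  rw [mul_comm v s1, mul_comm v w, ← h]
  abel

theorem PS.comp2 (hP : PS D s1 s2 l m1 m2 Δ) (w : A) (hw : w ∈ D 1) (v : A) :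
    w * (v * s2) = s2 * (v * w) + m1 w • Δ v := by
  have h := hP.d2 w hw v
  have h' : m1 w • Δ v = -(s2 * (w * v) - w * (s2 * v)) := by rw [h, neg_neg]
  rw [mul_comm v s2, mul_comm v w, h']
  abel

theorem PS.polar (hP : PS D s1 s2 l m1 m2 Δ) (h2 : (2 : F) ≠ 0) (v : A) (hv : v ∈ D 1) (w : A)
    (hw : w ∈ D 1) :
    (2 : F) • (v * w) = (l v * m1 w + l w * m1 v) • s1 + (l v * m2 w + l w * m2 v) • s2 := by
  have h1 := hP.sq (v + w) ((D 1).add_mem hv hw)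
  have h3 := hP.sq v hv
  have h4 := hP.sq w hw
  have h5 : (2 : F) • (v * w) = (v + w) * (v + w) - v * v - w * w := by
    rw [add_mul, mul_add, mul_add, mul_comm w v, two_smul]
    abel
  rw [h5, h1, h3, h4]
  simp only [map_add]
  module

private theorem PenN_swap (hP : PS D s1 s2 l m1 m2 Δ) : PS D s2 s1 l m2 m1 (-Δ) := by
  refine ⟨hP.s2_mem, hP.s1_mem, ?_, ?_, ?_, ?_, hP.l_ne, ?_, ?_, ?_, ?_, ?_⟩
  · intro q hq
    obtain ⟨a, b, h⟩ := hP.span q hq
    exact ⟨b, a, by rw [h, add_comm]⟩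
  · intro a b h
    have := hP.li b a (by rw [← h, add_comm])
    exact ⟨this.2, this.1⟩
  · intro v hv
    rw [hP.sq v hv, add_comm]
  · obtain ⟨v1, h1, v2, h2, e1, e2, e3, e4⟩ := hP.dual
    exact ⟨v2, h2, v1, h1, e4, e3, e2, e1⟩
  · intro v hv h
    rw [hP.d2 v hv h, LinearMap.neg_apply, smul_neg]
  · intro v hv h
    rw [hP.d1 v hv h, LinearMap.neg_apply, smul_neg, neg_neg]
  · intro p q
    simp only [LinearMap.neg_apply, hP.der p q, neg_mul, mul_neg, neg_add]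
  · intro i hi h hh
    rw [LinearMap.neg_apply]
    exact (D (i + 3)).neg_mem (hP.deg i hi h hh)
  · obtain ⟨v, hv, h⟩ := hP.ne
    exact ⟨v, hv, by rw [LinearMap.neg_apply]; exact neg_ne_zero.2 h⟩

private theorem PenN_dep (hP : PS D s1 s2 l m1 m2 Δ) (a b : F) (ha : a ≠ 0)
    (hl : ∀ v ∈ D 1, l v = a * m1 v + b * m2 v) :
    PS D (a⁻¹ • s1) (s2 - (a⁻¹ * b) • s1) l l m2 (a⁻¹ • Δ) := by
  refine ⟨(D 2).smul_mem _ hP.s1_mem, (D 2).sub_mem hP.s2_mem ((D 2).smul_mem _ hP.s1_mem), ?_, ?_,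
    ?_, ?_, hP.l_ne, ?_, ?_, ?_, ?_, ?_⟩
  · intro q hq
    obtain ⟨c, d, h⟩ := hP.span q hq
    refine ⟨c * a + d * b, d, ?_⟩
    rw [h, smul_sub, smul_smul, smul_smul]
    have e1 : (c * a + d * b) * a⁻¹ = c + d * (a⁻¹ * b) := by
      field_simp
    rw [e1, add_smul]
    abel
  · intro c d h
    have h1 : (a⁻¹ * c - d * (a⁻¹ * b)) • s1 + d • s2 = 0 := by
      rw [← h, smul_sub, smul_smul, smul_smul, sub_smul, mul_comm a⁻¹ c]
      abel
    obtain ⟨h3, h4⟩ := hP.li _ _ h1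
    refine ⟨?_, h4⟩
    rw [h4, zero_mul, sub_zero] at h3
    rcases mul_eq_zero.1 h3 with h5 | h5
    · exact absurd h5 (inv_ne_zero ha)
    · exact h5
  · intro v hv
    rw [hP.sq v hv]
    congr 1
    rw [smul_sub, smul_smul, smul_smul]
    have e1 : l v * a⁻¹ = m1 v + m2 v * (a⁻¹ * b) := by
      rw [hl v hv]
      field_simp
    rw [e1, add_smul]
    abel
  · obtain ⟨v1, h1, v2, h2, e1, e2, e3, e4⟩ := hP.dual
    have l1 : l v1 = a := by rw [hl v1 h1, e1, e2]; ring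
    have l2 : l v2 = b := by rw [hl v2 h2, e3, e4]; ring
    refine ⟨a⁻¹ • v1, (D 1).smul_mem _ h1, v2 - (a⁻¹ * b) • v1,
      (D 1).sub_mem h2 ((D 1).smul_mem _ h1), ?_, ?_, ?_, ?_⟩
    · rw [map_smul, l1, smul_eq_mul, inv_mul_cancel₀ ha]
    · rw [map_smul, e2, smul_eq_mul, mul_zero]
    · rw [map_sub, map_smul, l1, l2, smul_eq_mul]
      field_simp
      ring
    · rw [map_sub, map_smul, e2, e4, smul_eq_mul]
      ring
  · intro v hv h
    rw [smul_mul_assoc, smul_mul_assoc, mul_smul_comm, ← smul_sub, hP.d1 v hv h,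
      LinearMap.smul_apply, smul_comm]
  · intro v hv h
    have h1 := hP.d1 v hv h
    have h3 := hP.d2 v hv h
    have e1 : (s2 - (a⁻¹ * b) • s1) * (v * h) - v * ((s2 - (a⁻¹ * b) • s1) * h) =
        (s2 * (v * h) - v * (s2 * h)) - (a⁻¹ * b) • (s1 * (v * h) - v * (s1 * h)) := by
      simp only [sub_mul, mul_sub, smul_mul_assoc, mul_smul_comm, smul_sub]
      abel
    rw [e1, h1, h3, LinearMap.smul_apply, smul_smul, smul_smul, ← neg_smul, ← sub_smul,
      ← neg_smul]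
    congr 1
    rw [hl v hv]
    field_simp
    ring
  · intro p q
    simp only [LinearMap.smul_apply, hP.der p q, smul_mul_assoc, mul_smul_comm, smul_add]
  · intro i hi h hh
    rw [LinearMap.smul_apply]
    exact (D (i + 3)).smul_mem _ (hP.deg i hi h hh)
  · obtain ⟨v, hv, h⟩ := hP.ne
    exact ⟨v, hv, by rw [LinearMap.smul_apply]; exact smul_ne_zero (inv_ne_zero ha) h⟩

theorem pencil_normal (hG : GJ F A c D) (hP : PS D s1 s2 l m1 m2 Δ) :
    (∃ x ∈ D 1, ∃ y ∈ D 1, ∃ z ∈ D 1, l x = 1 ∧ l y = 0 ∧ l z = 0 ∧ m1 x = 0 ∧ m1 y = 1 ∧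
      m1 z = 0 ∧ m2 x = 0 ∧ m2 y = 0 ∧ m2 z = 1) ∨
    ∃ (s1' s2' : A) (m : A →ₗ[F] F) (Δ' : A →ₗ[F] A), PS D s1' s2' l l m Δ' := by
  by_cases hdep : ∃ a b : F, ∀ v ∈ D 1, l v = a * m1 v + b * m2 v
  · right
    obtain ⟨a, b, hl⟩ := hdep
    by_cases ha : a = 0
    · have hb : b ≠ 0 := by
        rintro rfl
        obtain ⟨v, hv, h⟩ := hP.l_ne
        apply h
        rw [hl v hv, ha]
        ring
      have hP' := PenN_swap hP
      exact ⟨_, _, _, _, PenN_dep hP' b a hb (fun v hv => by rw [hl v hv]; ring)⟩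
    · exact ⟨_, _, _, _, PenN_dep hP a b ha hl⟩
  · left
    obtain ⟨v1, h1, v2, h2, e1, e2, e3, e4⟩ := hP.dual
    obtain ⟨v, hv, hne⟩ : ∃ v ∈ D 1, l v ≠ l v1 * m1 v + l v2 * m2 v := by
      by_contra hcon
      push Not at hcon
      exact hdep ⟨_, _, hcon⟩
    have hne' : l v - m1 v * l v1 - m2 v * l v2 ≠ 0 := by
      intro h
      apply hne
      linear_combination h
    set t : F := l v - m1 v * l v1 - m2 v * l v2 with ht
    set v' : A := v - m1 v • v1 - m2 v • v2 with hv'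
    have hv'm : v' ∈ D 1 :=
      (D 1).sub_mem ((D 1).sub_mem hv ((D 1).smul_mem _ h1)) ((D 1).smul_mem _ h2)
    have a1 : l v' = t := by
      rw [hv', map_sub, map_sub, map_smul, map_smul, smul_eq_mul, smul_eq_mul]
    have a2 : m1 v' = 0 := by
      rw [hv', map_sub, map_sub, map_smul, map_smul, smul_eq_mul, smul_eq_mul, e1, e3]
      ring
    have a3 : m2 v' = 0 := by
      rw [hv', map_sub, map_sub, map_smul, map_smul, smul_eq_mul, smul_eq_mul, e2, e4]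
      ring
    have b1 : l (t⁻¹ • v') = 1 := by rw [map_smul, a1, smul_eq_mul, inv_mul_cancel₀ hne']
    have b2 : m1 (t⁻¹ • v') = 0 := by rw [map_smul, a2, smul_zero]
    have b3 : m2 (t⁻¹ • v') = 0 := by rw [map_smul, a3, smul_zero]
    have hxm : t⁻¹ • v' ∈ D 1 := (D 1).smul_mem _ hv'm
    refine ⟨t⁻¹ • v', hxm, v1 - l v1 • (t⁻¹ • v'), (D 1).sub_mem h1 ((D 1).smul_mem _ hxm),
      v2 - l v2 • (t⁻¹ • v'), (D 1).sub_mem h2 ((D 1).smul_mem _ hxm), b1, ?_, ?_, b2, ?_, ?_, b3,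
      ?_, ?_⟩
    · rw [map_sub, map_smul, b1, smul_eq_mul, mul_one, sub_self]
    · rw [map_sub, map_smul, b1, smul_eq_mul, mul_one, sub_self]
    · rw [map_sub, map_smul, b2, smul_zero, sub_zero, e1]
    · rw [map_sub, map_smul, b2, smul_zero, sub_zero, e3]
    · rw [map_sub, map_smul, b3, smul_zero, sub_zero, e2]
    · rw [map_sub, map_smul, b3, smul_zero, sub_zero, e4]

end JD
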