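import Pool.Agent.H9.JH.Defs
import Pool.Agent.H8.JD.MinCrit

set_option autoImplicit false

/-!
# JH GrFilt: the graded cocyclic quotient for a multiplicative filtration

Let `Φ 1 = J`, `Φ` decreasing, `Φ i * Φ j ⊆ Φ (i + j)` for `i, j ≥ 1`, `Φ N = F e ≠ 0`, `Φ (N+1) = 0`. `rdf Φ N i` = the elements `a`
of `Φ i` such that every product `b_1 (b_2 (... (b_k a)))` with `b_j ∈ Φ (n_j)`, `n_j ≥ 1`, `∑ n_j = N - i` vanishes. We
construct the graded algebra `A = ⊕_{i=1}^N (Φ i) / (rdf i)`.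

PROOF. (0) `b a ∈ rdf (i + n)` for `a ∈ rdf i`, `b ∈ Φ n`, `i, n ≥ 1` (a word `l` applied to `b a` is the word `l ++ [(n, b)]` applied to `a`,
`List.foldr_append`). `Φ (i+1) ⊆ rdf i` for `i ≥ 1` (a word with sum `N - i` maps `Φ (i+1)` to `Φ (N+1) = 0`). `rdf N = 0` (empty word).
(1) REES ALGEBRA. `B` = the subspace of `ℕ → J` of all `f` with `f 0 = 0` and `f i ∈ Φ i` (`i ≥ 1`); so
`f i = 0` for `i > N`. Product `(f * g) n = ∑_{(i,j) ∈ antidiagonal n} f i * g j` (in `Φ n` by `hmul`; the terms with `i = 0` or `j = 0` vanish).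
It is a `NonUnitalNonAssocCommRing` with `Module F`, `IsScalarTower`, `SMulCommClass`. JORDAN IDENTITY: for `s ∈ F` put
`ev s f = ∑_{i ≤ N} s^i • f i ∈ J`; `ev s (f * g) = ev s f * ev s g` (the terms with `i + j > N` vanish). So for `f, g ∈ B` the element
`h = ((f f) g) f - (f f)(g f)` has `∑_{i ≤ N} s^i • h i = 0` for all `s`, hence `h = 0` (`pvan'` with `S = ∅`; `F` is infinite).
(2) QUOTIENT. `R = {f ∈ B | ∀ i ≥ 1, f i ∈ rdf i}` is an ideal of `B`. `A = B ⧸ R`, product as in `MinCrit_ring` (file `Pool/Agent/H8/JD/MinCrit.lean`: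
use `MinCrit_mul`, `MinCrit_mul_mk`, `MinCrit_ring`, cf. the proof of `MinCrit_quo`). `A` is Jordan.
(3) For `i ≥ 1` let `σ i : Φ i → B`, `σ i a` = the function with value `a` at `i` and `0` elsewhere; `π i : J → A` = any linear extension
(`LinearMap.exists_extend`) of `mkQ ∘ σ i` from `Φ i` to `J`; `D i = (Φ i).map (π i)` for `i ≥ 1` (and `D 0 = ⊥`). `σ (i+j) (a b) = σ i a * σ j b`. For
`a ∈ Φ i`, `i ≥ 1`: `π i a = 0 ↔ a ∈ rdf i`.
(4) All the claims follow. `GF.nd`: if `a ∈ Φ i`, `1 ≤ i < N` and `b a ∈ rdf (i + n)` for all `b ∈ Φ n`, `n ≥ 1`, then `a ∈ rdf i`: a word `l` with sum `N - i > 0` is `l' ++ [(n, b)]`, and `l` applied to `a` is `l'`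
applied to `b a`, so it vanishes. `fin`: `A` is a quotient of `B`, which embeds into `∏_{i ≤ N} J`. `indep`: the components: for `f ∈ B` whose class is `∑ π i (a i)`. Dimension: the kernel of `π i` on `Φ i` contains
`Φ (i+1)` (rank-nullity); the sum over `i` telescopes: `∑_{i=1}^N finrank (D i) ≤ finrank (Φ 1) - finrank (Φ (N+1)) = finrank J`.
-/

namespace JD

universe u

variable {F : Type u} [Field F] {J : Type u} [NonUnitalNonAssocCommRing J] [Module F J]
  [IsScalarTower F J J] [SMulCommClass F J J]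

/-- the radical of the top functional of a filtration -/
def rdf (Φ : ℕ → Submodule F J) (N i : ℕ) : Submodule F J where
  carrier := {a | a ∈ Φ i ∧ ∀ l : List (ℕ × J), (∀ p ∈ l, 1 ≤ p.1 ∧ p.2 ∈ Φ p.1) →
    (l.map Prod.fst).sum + i = N → l.foldr (fun p b => p.2 * b) a = 0}
  zero_mem' := by
    refine ⟨Submodule.zero_mem _, fun l _ _ => ?_⟩
    have h : ∀ l : List (ℕ × J), l.foldr (fun p b => p.2 * b) (0 : J) = 0 := by
      intro l
      induction l with
      | nil => rfl
      | cons p l ih => simp [ih]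
    exact h _
  add_mem' := by
    rintro a b ⟨ha, ha'⟩ ⟨hb, hb'⟩
    refine ⟨Submodule.add_mem _ ha hb, fun l h1 h2 => ?_⟩
    have h : ∀ l : List (ℕ × J), l.foldr (fun p b => p.2 * b) (a + b) =
        l.foldr (fun p b => p.2 * b) a + l.foldr (fun p b => p.2 * b) b := by
      intro l
      induction l with
      | nil => rfl
      | cons p l ih => simp only [List.foldr_cons, ih, mul_add]
    rw [h, ha' l h1 h2, hb' l h1 h2, add_zero]
  smul_mem' := by
    rintro r a ⟨ha, ha'⟩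
    refine ⟨Submodule.smul_mem _ r ha, fun l h1 h2 => ?_⟩
    have h : ∀ l : List (ℕ × J), l.foldr (fun p b => p.2 * b) (r • a) =
        r • l.foldr (fun p b => p.2 * b) a := by
      intro l
      induction l with
      | nil => rfl
      | cons p l ih => simp only [List.foldr_cons, ih, mul_smul_comm]
    rw [h, ha' l h1 h2, smul_zero]

/-- graded cocyclic Jordan algebras (no condition on generators) -/
structure GF (F : Type u) [Field F] (A : Type u) [NonUnitalNonAssocCommRing A] [Module F A]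
    [IsScalarTower F A A] [SMulCommClass F A A] (N : ℕ) (D : ℕ → Submodule F A) : Prop where
  two : (2 : F) ≠ 0
  inf : Infinite F
  jordan : IsJordan A
  fin : Module.Finite F A
  zero : D 0 = ⊥
  mul_mem : ∀ i j : ℕ, 1 ≤ i → 1 ≤ j → ∀ a ∈ D i, ∀ b ∈ D j, a * b ∈ D (i + j)
  above : ∀ i, N < i → ∀ a ∈ D i, a = 0
  indep : ∀ a : ℕ → A, (∀ i, a i ∈ D i) → (∑ i ∈ Finset.range (N + 1), a i = 0) → ∀ i, a i = 0
  all : ∀ b : A, ∃ a : ℕ → A, (∀ i, a i ∈ D i) ∧ b = ∑ i ∈ Finset.range (N + 1), a i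
  nd : ∀ i, 1 ≤ i → i < N → ∀ h ∈ D i, (∀ j, 1 ≤ j → ∀ k ∈ D j, k * h = 0) → h = 0
  top : Module.finrank F (D N) = 1

/-- quotients of Jordan algebras -/
private theorem GrFilt_quo {K : Type u} [Field K] {J : Type u} [NonUnitalNonAssocCommRing J]
    [Module K J] [IsScalarTower K J J] [SMulCommClass K J J] (hJ : IsJordan J)
    (I : Submodule K J) (hI : IsIdeal K J I) :
    ∃ (J' : Type u) (_ : NonUnitalNonAssocCommRing J') (_ : Module K J')
      (_ : IsScalarTower K J' J') (_ : SMulCommClass K J' J') (g : J →ₗ[K] J'),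
      IsJordan J' ∧ LinearMap.ker g = I ∧ Function.Surjective g ∧ ∀ a b, g (a * b) = g a * g b := by
  let _ : NonUnitalNonAssocCommRing (J ⧸ I) := MinCrit_ring I hI
  have t1 : IsScalarTower K (J ⧸ I) (J ⧸ I) := ⟨fun r a b => by
    change MinCrit_mul I hI (r • a) b = r • MinCrit_mul I hI a b
    rw [map_smul]; rfl⟩
  have t2 : SMulCommClass K (J ⧸ I) (J ⧸ I) := ⟨fun r a b => by
    change r • MinCrit_mul I hI a b = MinCrit_mul I hI a (r • b)
    rw [map_smul]⟩
  have hmul : ∀ a b : J, I.mkQ (a * b) = I.mkQ a * I.mkQ b := fun a b => rfl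
  refine ⟨J ⧸ I, MinCrit_ring I hI, inferInstance, t1, t2, I.mkQ, ?_,
    Submodule.ker_mkQ I, Submodule.mkQ_surjective I, hmul⟩
  intro x y
  induction x using Submodule.Quotient.induction_on with
  | _ x =>
  induction y using Submodule.Quotient.induction_on with
  | _ y =>
  exact congrArg I.mkQ (hJ x y)

/-- the subalgebra structure -/
private noncomputable abbrev GrFilt_ring {K : Type u} [Field K] {C : Type u}
    [NonUnitalNonAssocCommRing C] [Module K C] (B : Submodule K C)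
    (hB : ∀ a ∈ B, ∀ b ∈ B, a * b ∈ B) : NonUnitalNonAssocCommRing B :=
  { (inferInstance : AddCommGroup B) with
    mul := fun a b => ⟨a.1 * b.1, hB _ a.2 _ b.2⟩
    left_distrib := fun a b c => Subtype.ext (mul_add _ _ _)
    right_distrib := fun a b c => Subtype.ext (add_mul _ _ _)
    zero_mul := fun a => Subtype.ext (zero_mul _)
    mul_zero := fun a => Subtype.ext (mul_zero _)
    mul_comm := fun a b => Subtype.ext (mul_comm _ _) }

/-- the subquotient -/
private theorem GrFilt_sub {K : Type u} [Field K] {C : Type u} [NonUnitalNonAssocCommRing C]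
    [Module K C] [IsScalarTower K C C] [SMulCommClass K C C] (hC : IsJordan C)
    (B R : Submodule K C) (hB : ∀ a ∈ B, ∀ b ∈ B, a * b ∈ B)
    (hR : ∀ a ∈ B, ∀ b ∈ R, a * b ∈ R) :
    ∃ (A : Type u) (_ : NonUnitalNonAssocCommRing A) (_ : Module K A)
      (_ : IsScalarTower K A A) (_ : SMulCommClass K A A) (G : C →ₗ[K] A),
      IsJordan A ∧ (∀ f ∈ B, ∀ g ∈ B, G (f * g) = G f * G g) ∧ (∀ f ∈ B, (G f = 0 ↔ f ∈ R)) ∧
      (∀ x : A, ∃ f ∈ B, G f = x) := by
  let _ : NonUnitalNonAssocCommRing B := GrFilt_ring B hB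
  have t1 : IsScalarTower K B B := ⟨fun r a b => Subtype.ext (smul_mul_assoc r a.1 b.1)⟩
  have t2 : SMulCommClass K B B := ⟨fun r a b => Subtype.ext (mul_smul_comm r a.1 b.1).symm⟩
  have hJB : IsJordan B := fun x y => Subtype.ext (hC x.1 y.1)
  have hI : IsIdeal K B (R.comap B.subtype) := by
    intro a b hb
    exact hR a.1 a.2 b.1 hb
  obtain ⟨A, i1, i2, i3, i4, g, hA, hker, hsurj, hg⟩ := GrFilt_quo hJB (R.comap B.subtype) hI
  obtain ⟨κ, hκ⟩ := LinearMap.exists_leftInverse_of_injective B.subtype (Submodule.ker_subtype B)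
  have hκ' : ∀ f (hf : f ∈ B), κ f = ⟨f, hf⟩ := fun f hf => LinearMap.congr_fun hκ ⟨f, hf⟩
  refine ⟨A, i1, i2, i3, i4, g ∘ₗ κ, hA, ?_, ?_, ?_⟩
  · intro f hf f' hf'
    rw [LinearMap.comp_apply, LinearMap.comp_apply, LinearMap.comp_apply, hκ' _ hf, hκ' _ hf',
      hκ' _ (hB _ hf _ hf'), ← hg]
    rfl
  · intro f hf
    rw [LinearMap.comp_apply, hκ' _ hf, ← LinearMap.mem_ker, hker]
    rfl
  · intro x
    obtain ⟨f, hf⟩ := hsurj x
    refine ⟨f.1, f.2, ?_⟩
    rw [LinearMap.comp_apply, hκ' _ f.2]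
    exact hf

/-- functions with values in an algebra -/
private abbrev GrFilt_pi (F J : Type u) [NonUnitalNonAssocCommRing J] :
    NonUnitalNonAssocCommRing (F → J) :=
  { (inferInstance : NonUnitalNonAssocRing (F → J)) with
    mul_comm := fun a b => funext fun s => mul_comm (a s) (b s) }

/-- the function `s ↦ s^i • a` -/
private def GrFilt_mono (F : Type u) [Field F] (J : Type u) [NonUnitalNonAssocCommRing J]
    [Module F J] (i : ℕ) : J →ₗ[F] (F → J) where
  toFun a := fun s => s ^ i • a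
  map_add' a b := by
    funext s
    simp
  map_smul' r a := by
    funext s
    simp only [RingHom.id_apply, Pi.smul_apply]
    rw [smul_comm]

/-- the span of the `s^i • a`, `a ∈ Φ i` -/
private def GrFilt_B (Φ : ℕ → Submodule F J) : Submodule F (F → J) :=
  Submodule.span F {f | ∃ i, 1 ≤ i ∧ ∃ a ∈ Φ i, f = GrFilt_mono F J i a}

private theorem GrFilt_mem_B (Φ : ℕ → Submodule F J) (i : ℕ) (hi : 1 ≤ i) (a : J) (ha : a ∈ Φ i) :
    GrFilt_mono F J i a ∈ GrFilt_B Φ :=
  Submodule.subset_span ⟨i, hi, a, ha, rfl⟩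

private theorem GrFilt_mono_mul (i j : ℕ) (a b : J) :
    GrFilt_mono F J i a * GrFilt_mono F J j b = GrFilt_mono F J (i + j) (a * b) := by
  funext s
  change (s ^ i • a) * (s ^ j • b) = s ^ (i + j) • (a * b)
  rw [smul_mul_smul_comm, pow_add]

private theorem GrFilt_mul (Φ Ψ : ℕ → Submodule F J)
    (h : ∀ i j, 1 ≤ i → 1 ≤ j → ∀ a ∈ Φ i, ∀ b ∈ Ψ j, a * b ∈ Ψ (i + j)) :
    ∀ f ∈ GrFilt_B Φ, ∀ g ∈ GrFilt_B Ψ, f * g ∈ GrFilt_B Ψ := by
  intro f hf g hg
  unfold GrFilt_B at hf hg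
  induction hf using Submodule.span_induction with
  | mem f hf =>
    obtain ⟨i, hi, a, ha, rfl⟩ := hf
    induction hg using Submodule.span_induction with
    | mem g hg =>
      obtain ⟨j, hj, b, hb, rfl⟩ := hg
      rw [GrFilt_mono_mul]
      exact GrFilt_mem_B Ψ _ (by omega) _ (h i j hi hj a ha b hb)
    | zero => rw [mul_zero]; exact Submodule.zero_mem _
    | add x y _ _ hx hy => rw [mul_add]; exact Submodule.add_mem _ hx hy
    | smul r x _ hx => rw [mul_smul_comm]; exact Submodule.smul_mem _ r hx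
  | zero => rw [zero_mul]; exact Submodule.zero_mem _
  | add x y _ _ hx hy => rw [add_mul]; exact Submodule.add_mem _ hx hy
  | smul r x _ hx => rw [smul_mul_assoc]; exact Submodule.smul_mem _ r hx

/-- coefficients -/
private theorem GrFilt_coef (Ψ : ℕ → Submodule F J) (N : ℕ) (h : ∀ i, N < i → ∀ a ∈ Ψ i, a = 0)
    (f : F → J) (hf : f ∈ GrFilt_B Ψ) : ∃ c : ℕ → J, c 0 = 0 ∧ (∀ i, 1 ≤ i → c i ∈ Ψ i) ∧
      f = ∑ i ∈ Finset.range (N + 1), GrFilt_mono F J i (c i) := by
  unfold GrFilt_B at hf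
  induction hf using Submodule.span_induction with
  | mem f hf =>
    obtain ⟨i, hi, a, ha, rfl⟩ := hf
    refine ⟨Pi.single i a, ?_, ?_, ?_⟩
    · rw [Pi.single_eq_of_ne (by omega)]
    · intro j hj
      by_cases hji : j = i
      · subst hji
        rw [Pi.single_eq_same]
        exact ha
      · rw [Pi.single_eq_of_ne hji]
        exact Submodule.zero_mem _
    · by_cases hiN : i ≤ N
      · rw [Finset.sum_eq_single i]
        · rw [Pi.single_eq_same]
        · intro j _ hji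
          rw [Pi.single_eq_of_ne hji, map_zero]
        · intro hcon
          exact absurd (Finset.mem_range.2 (by omega)) hcon
      · rw [h i (by omega) a ha, map_zero]
        symm
        apply Finset.sum_eq_zero
        intro j _
        rw [Pi.single_zero, Pi.zero_apply, map_zero]
  | zero =>
    refine ⟨0, rfl, fun i _ => Submodule.zero_mem _, ?_⟩
    symm
    apply Finset.sum_eq_zero
    intro j _
    rw [Pi.zero_apply, map_zero]
  | add x y _ _ hx hy =>
    obtain ⟨c, h0, h1, h2⟩ := hx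
    obtain ⟨c', h0', h1', h2'⟩ := hy
    refine ⟨c + c', by rw [Pi.add_apply, h0, h0', add_zero],
      fun i hi => Submodule.add_mem _ (h1 i hi) (h1' i hi), ?_⟩
    rw [h2, h2', ← Finset.sum_add_distrib]
    exact Finset.sum_congr rfl fun i _ => by rw [Pi.add_apply, map_add]
  | smul r x _ hx =>
    obtain ⟨c, h0, h1, h2⟩ := hx
    refine ⟨r • c, by rw [Pi.smul_apply, h0, smul_zero],
      fun i hi => Submodule.smul_mem _ r (h1 i hi), ?_⟩
    rw [h2, Finset.smul_sum]
    exact Finset.sum_congr rfl fun i _ => by rw [Pi.smul_apply, map_smul]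

private theorem GrFilt_indep [Infinite F] (N : ℕ) (c c' : ℕ → J)
    (h : ∑ i ∈ Finset.range (N + 1), GrFilt_mono F J i (c i) =
      ∑ i ∈ Finset.range (N + 1), GrFilt_mono F J i (c' i)) : ∀ i, i ≤ N → c i = c' i := by
  intro i hi
  have h1 := pvan' (F := F) (W := J) ∅ (N + 1) (fun i => c i - c' i) (by
    intro t _
    have h2 := congrFun h t
    rw [Finset.sum_apply, Finset.sum_apply] at h2
    change ∑ i ∈ Finset.range (N + 1), t ^ i • c i = ∑ i ∈ Finset.range (N + 1), t ^ i • c' i at h2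
    simp only [smul_sub]
    rw [Finset.sum_sub_distrib, h2, sub_self]) i (by omega)
  exact sub_eq_zero.1 h1

private theorem GrFilt_foldr_mem (Φ : ℕ → Submodule F J)
    (hmul : ∀ i j, 1 ≤ i → 1 ≤ j → ∀ a ∈ Φ i, ∀ b ∈ Φ j, a * b ∈ Φ (i + j)) (k : ℕ) (hk : 1 ≤ k)
    (a : J) (ha : a ∈ Φ k) (l : List (ℕ × J)) (hl : ∀ p ∈ l, 1 ≤ p.1 ∧ p.2 ∈ Φ p.1) :
    l.foldr (fun p b => p.2 * b) a ∈ Φ ((l.map Prod.fst).sum + k) := by
  induction l with
  | nil => simpa using ha
  | cons p l ih =>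
    have h1 := ih fun q hq => hl q (List.mem_cons_of_mem _ hq)
    obtain ⟨h2, h3⟩ := hl p List.mem_cons_self
    have h4 := hmul p.1 _ h2 (by omega) p.2 h3 _ h1
    simpa [add_assoc] using h4

private theorem GrFilt_rdf_mul (Φ : ℕ → Submodule F J)
    (hmul : ∀ i j, 1 ≤ i → 1 ≤ j → ∀ a ∈ Φ i, ∀ b ∈ Φ j, a * b ∈ Φ (i + j)) (N : ℕ)
    (i j : ℕ) (hi : 1 ≤ i) (hj : 1 ≤ j) (a : J) (ha : a ∈ Φ i) (b : J) (hb : b ∈ rdf Φ N j) :
    a * b ∈ rdf Φ N (i + j) := by
  refine ⟨hmul i j hi hj a ha b hb.1, fun l h1 h2 => ?_⟩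
  have h3 := hb.2 (l ++ [(i, a)]) (by
    intro p hp
    rcases List.mem_append.1 hp with hp | hp
    · exact h1 p hp
    · rw [List.mem_singleton] at hp
      subst hp
      exact ⟨hi, ha⟩) (by
    rw [List.map_append, List.sum_append]
    simp only [List.map_cons, List.map_nil, List.sum_cons, List.sum_nil]
    omega)
  rw [List.foldr_append] at h3
  simpa using h3

private theorem GrFilt_rdf_nd (Φ : ℕ → Submodule F J) (N i : ℕ) (hiN : i < N)
    (a : J) (ha : a ∈ Φ i) (h : ∀ j, 1 ≤ j → ∀ b ∈ Φ j, b * a ∈ rdf Φ N (j + i)) :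
    a ∈ rdf Φ N i := by
  refine ⟨ha, fun l h1 h2 => ?_⟩
  rcases List.eq_nil_or_concat l with rfl | ⟨l', p, rfl⟩
  · simp only [List.map_nil, List.sum_nil] at h2
    omega
  · rw [List.concat_eq_append] at h1 h2 ⊢
    obtain ⟨h3, h4⟩ := h1 p (by simp)
    have h5 := (h p.1 h3 p.2 h4).2 l' (fun q hq => h1 q (by simp [hq])) (by
      rw [List.map_append, List.sum_append] at h2
      simp only [List.map_cons, List.map_nil, List.sum_cons, List.sum_nil] at h2
      omega)
    rw [List.foldr_append]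
    simpa using h5

theorem exists_GF (F : Type u) [Field F] (J : Type u) [NonUnitalNonAssocCommRing J] [Module F J]
    [IsScalarTower F J J] [SMulCommClass F J J] [Infinite F] [Module.Finite F J]
    (h2 : (2 : F) ≠ 0) (hJ : IsJordan J) (Φ : ℕ → Submodule F J) (N : ℕ) (hN : 1 ≤ N) (e : J)
    (he : e ≠ 0) (hone : Φ 1 = ⊤) (hanti : ∀ i, 1 ≤ i → Φ (i + 1) ≤ Φ i)
    (hmul : ∀ i j, 1 ≤ i → 1 ≤ j → ∀ a ∈ Φ i, ∀ b ∈ Φ j, a * b ∈ Φ (i + j))
    (htop : Φ N = Submodule.span F {e}) (hbot : Φ (N + 1) = ⊥) :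
    ∃ (A : Type u) (_ : NonUnitalNonAssocCommRing A) (_ : Module F A) (_ : IsScalarTower F A A)
      (_ : SMulCommClass F A A) (D : ℕ → Submodule F A) (π : ℕ → J →ₗ[F] A),
      GF F A N D ∧
      (∀ i, 1 ≤ i → (Φ i).map (π i) = D i) ∧
      (∀ i j, 1 ≤ i → 1 ≤ j → ∀ a ∈ Φ i, ∀ b ∈ Φ j, π (i + j) (a * b) = π i a * π j b) ∧
      (∀ i, 1 ≤ i → ∀ a ∈ Φ i, (π i a = 0 ↔ a ∈ rdf Φ N i)) ∧
      (∀ i, 1 ≤ i → ∀ a ∈ Φ (i + 1), π i a = 0) ∧
      (∀ a ∈ Φ N, π N a = 0 → a = 0) ∧
      (∀ i, 1 ≤ i → Module.finrank F (D i) + Module.finrank F (Φ (i + 1)) ≤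
        Module.finrank F (Φ i)) ∧
      ∑ i ∈ Finset.Icc 1 N, Module.finrank F (D i) ≤ Module.finrank F J := by
  have hΦ0 : ∀ i, N < i → Φ i = ⊥ := by
    intro i hi
    induction i, hi using Nat.le_induction with
    | base => exact hbot
    | succ i hi ih =>
      rw [eq_bot_iff, ← ih]
      exact hanti i (by omega)
  have hΦ0' : ∀ i, N < i → ∀ a ∈ Φ i, a = 0 := by
    intro i hi a ha
    rw [hΦ0 i hi] at ha
    simpa using ha
  have hr0' : ∀ i, N < i → ∀ a ∈ rdf Φ N i, a = 0 := fun i hi a ha => hΦ0' i hi a ha.1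
  let _ : NonUnitalNonAssocCommRing (F → J) := GrFilt_pi F J
  have hC : IsJordan (F → J) := fun x y => funext fun s => hJ (x s) (y s)
  obtain ⟨A, i1, i2, i3, i4, G, hA, hGmul, hGker, hGsurj⟩ := GrFilt_sub hC (GrFilt_B Φ)
    (GrFilt_B (rdf Φ N)) (GrFilt_mul Φ Φ hmul)
    (GrFilt_mul Φ (rdf Φ N) (fun i j hi hj a ha b hb =>
      GrFilt_rdf_mul Φ hmul N i j hi hj a ha b hb))
  obtain ⟨π, hπ⟩ : ∃ π : ℕ → J →ₗ[F] A, ∀ i, π i = G ∘ₗ GrFilt_mono F J i := ⟨_, fun _ => rfl⟩
  have hπmul : ∀ i j, 1 ≤ i → 1 ≤ j → ∀ a ∈ Φ i, ∀ b ∈ Φ j,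
      π (i + j) (a * b) = π i a * π j b := by
    intro i j hi hj a ha b hb
    rw [hπ, hπ, hπ, LinearMap.comp_apply, LinearMap.comp_apply, LinearMap.comp_apply,
      ← GrFilt_mono_mul, hGmul _ (GrFilt_mem_B Φ i hi a ha) _ (GrFilt_mem_B Φ j hj b hb)]
  have hπker : ∀ i, 1 ≤ i → ∀ a ∈ Φ i, (π i a = 0 ↔ a ∈ rdf Φ N i) := by
    intro i hi a ha
    rw [hπ, LinearMap.comp_apply, hGker _ (GrFilt_mem_B Φ i hi a ha)]
    constructor
    · intro h
      by_cases hiN : i ≤ N
      · obtain ⟨c, _, h1, h2⟩ := GrFilt_coef (rdf Φ N) N hr0' _ h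
        have h3 : GrFilt_mono F J i a =
            ∑ j ∈ Finset.range (N + 1), GrFilt_mono F J j ((Pi.single i a : ℕ → J) j) := by
          rw [Finset.sum_eq_single i]
          · rw [Pi.single_eq_same]
          · intro j _ hji
            rw [Pi.single_eq_of_ne hji, map_zero]
          · intro hcon
            exact absurd (Finset.mem_range.2 (by omega)) hcon
        rw [h3] at h2
        have h4 := GrFilt_indep N _ _ h2 i hiN
        rw [Pi.single_eq_same] at h4
        rw [h4]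
        exact h1 i hi
      · rw [hΦ0' i (by omega) a ha]
        exact Submodule.zero_mem _
    · intro h
      exact GrFilt_mem_B (rdf Φ N) i hi a h
  have hπsucc : ∀ i, 1 ≤ i → ∀ a ∈ Φ (i + 1), π i a = 0 := by
    intro i hi a ha
    rw [hπker i hi a (hanti i hi ha)]
    refine ⟨hanti i hi ha, fun l h1 h2 => ?_⟩
    have h3 := GrFilt_foldr_mem Φ hmul (i + 1) (by omega) a ha l h1
    apply hΦ0' _ _ _ h3
    omega
  have hπtop : ∀ a ∈ Φ N, π N a = 0 → a = 0 := by
    intro a ha h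
    rw [hπker N hN a ha] at h
    exact h.2 [] (by simp) (by simp)
  obtain ⟨D, hD0, hD⟩ : ∃ D : ℕ → Submodule F A, D 0 = ⊥ ∧
      ∀ i, 1 ≤ i → (Φ i).map (π i) = D i := by
    refine ⟨fun i => if i = 0 then ⊥ else (Φ i).map (π i), by simp, fun i hi => ?_⟩
    exact (if_neg (by omega)).symm
  have hDmem : ∀ i, 1 ≤ i → ∀ x ∈ D i, ∃ a ∈ Φ i, π i a = x := by
    intro i hi x hx
    rw [← hD i hi] at hx
    exact hx
  have hDabove : ∀ i, N < i → ∀ a ∈ D i, a = 0 := by
    intro i hi x hx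
    obtain ⟨a, ha, rfl⟩ := hDmem i (by omega) x hx
    rw [hΦ0' i hi a ha, map_zero]
  have hall : ∀ b : A, ∃ c : ℕ → J, c 0 = 0 ∧ (∀ i, 1 ≤ i → c i ∈ Φ i) ∧
      b = ∑ i ∈ Finset.range (N + 1), π i (c i) := by
    intro b
    obtain ⟨f, hf, rfl⟩ := hGsurj b
    obtain ⟨c, h0, h1, h2⟩ := GrFilt_coef Φ N hΦ0' f hf
    refine ⟨c, h0, h1, ?_⟩
    rw [h2, map_sum]
    exact Finset.sum_congr rfl fun i _ => by rw [hπ]; rfl
  have hfin : Module.Finite F A := by
    let T : (Fin (N + 1) → J) →ₗ[F] A := ∑ i : Fin (N + 1), π i ∘ₗ LinearMap.proj i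
    apply Module.Finite.of_surjective T
    intro b
    obtain ⟨c, -, -, rfl⟩ := hall b
    refine ⟨fun i => c i, ?_⟩
    simp only [T, LinearMap.sum_apply, LinearMap.comp_apply, LinearMap.proj_apply]
    rw [Finset.sum_range fun i => π i (c i)]
  have hrank : ∀ i, 1 ≤ i → Module.finrank F (D i) + Module.finrank F (Φ (i + 1)) ≤
      Module.finrank F (Φ i) := by
    intro i hi
    have h1 := LinearMap.finrank_range_add_finrank_ker ((π i).domRestrict (Φ i))
    rw [LinearMap.range_domRestrict, hD i hi] at h1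
    have h2 : (Φ (i + 1)).comap (Φ i).subtype ≤ LinearMap.ker ((π i).domRestrict (Φ i)) := by
      intro x hx
      rw [LinearMap.mem_ker, LinearMap.domRestrict_apply]
      exact hπsucc i hi _ hx
    have h3 := Submodule.finrank_mono h2
    rw [(Submodule.comapSubtypeEquivOfLe (hanti i hi)).finrank_eq] at h3
    omega
  refine ⟨A, i1, i2, i3, i4, D, π, ?_, hD, hπmul, hπker, hπsucc, hπtop, hrank, ?_⟩
  · refine
      { two := h2
        inf := inferInstance
        jordan := hA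
        fin := hfin
        zero := hD0
        mul_mem := ?_
        above := hDabove
        indep := ?_
        all := ?_
        nd := ?_
        top := ?_ }
    · intro i j hi hj x hx y hy
      obtain ⟨a, ha, rfl⟩ := hDmem i hi x hx
      obtain ⟨b, hb, rfl⟩ := hDmem j hj y hy
      rw [← hπmul i j hi hj a ha b hb, ← hD (i + j) (by omega)]
      exact Submodule.mem_map_of_mem (hmul i j hi hj a ha b hb)
    · intro x hx hsum i
      have h0 : x 0 = 0 := by
        have := hx 0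
        rw [hD0] at this
        simpa using this
      by_cases hi0 : i = 0
      · rw [hi0, h0]
      by_cases hiN : N < i
      · exact hDabove i hiN _ (hx i)
      have h1 : ∀ j, ∃ c : J, (1 ≤ j → c ∈ Φ j) ∧ (j = 0 → c = 0) ∧ π j c = x j := by
        intro j
        by_cases hj : j = 0
        · subst hj
          exact ⟨0, fun h => by omega, fun _ => rfl, by rw [map_zero, h0]⟩
        · obtain ⟨a, ha, h⟩ := hDmem j (by omega) _ (hx j)
          exact ⟨a, fun _ => ha, fun h => absurd h hj, h⟩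
      choose c hc hc0 hcx using h1
      have hmemB : ∑ j ∈ Finset.range (N + 1), GrFilt_mono F J j (c j) ∈ GrFilt_B Φ := by
        apply Submodule.sum_mem
        intro j _
        by_cases hj : j = 0
        · rw [hc0 j hj, map_zero]
          exact Submodule.zero_mem _
        · exact GrFilt_mem_B Φ j (by omega) _ (hc j (by omega))
      have h2 : G (∑ j ∈ Finset.range (N + 1), GrFilt_mono F J j (c j)) = 0 := by
        rw [map_sum, ← hsum]
        refine Finset.sum_congr rfl fun j _ => ?_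
        rw [← hcx j, hπ]
        rfl
      rw [hGker _ hmemB] at h2
      obtain ⟨c', _, h3, h4⟩ := GrFilt_coef (rdf Φ N) N hr0' _ h2
      have h5 := GrFilt_indep N _ _ h4 i (by omega)
      rw [← hcx i, hπker i (by omega) _ (hc i (by omega)), h5]
      exact h3 i (by omega)
    · intro b
      obtain ⟨c, h0, h1, h2⟩ := hall b
      refine ⟨fun i => π i (c i), fun i => ?_, h2⟩
      by_cases hi : i = 0
      · subst hi
        change π 0 (c 0) ∈ D 0
        rw [h0, map_zero]
        exact Submodule.zero_mem _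
      · change π i (c i) ∈ D i
        rw [← hD i (by omega)]
        exact Submodule.mem_map_of_mem (h1 i (by omega))
    · intro i hi hiN x hx h
      obtain ⟨a, ha, rfl⟩ := hDmem i hi x hx
      rw [hπker i hi a ha]
      refine GrFilt_rdf_nd Φ N i hiN a ha fun j hj b hb => ?_
      rw [← hπker (j + i) (by omega) _ (hmul j i hj hi b hb a ha), hπmul j i hj hi b hb a ha]
      apply h j hj
      rw [← hD j hj]
      exact Submodule.mem_map_of_mem hb
    · rw [← hD N hN, htop, Submodule.map_span, Set.image_singleton]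
      apply finrank_span_singleton
      intro h
      apply he
      apply hπtop e _ h
      rw [htop]
      exact Submodule.mem_span_singleton_self e
  · have h1 : ∀ n, ∑ i ∈ Finset.Icc 1 n, Module.finrank F (D i) + Module.finrank F (Φ (n + 1)) ≤
        Module.finrank F (Φ 1) := by
      intro n
      induction n with
      | zero => simp
      | succ n ih =>
        rw [Finset.sum_Icc_succ_top (by omega)]
        have := hrank (n + 1) (by omega)
        omega
    have h2 := h1 N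
    rw [hone, finrank_top] at h2
    omega

end JD
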