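import Pool.Agent.H9.JH.Rad
import Pool.Agent.H9.JH.GrFilt

set_option autoImplicit false

/-!
# JH GrQuot: the graded cocyclic quotient of a nilpotent Jordan algebra

Apply `exists_GF` to `Φ = jpow F J`, `N = c`. Note `rdf (jpow F J) c i = rad F J c i` (same definition). PROOF of `GJ F A c D`:
`two, inf, jordan, fin, mul_mem, above, top` from `GF`. `gen2`: let `T` contain all `v w`, `v, w ∈ D 1`; `D 2 = (J^2).map (π 2)`, and `J^2 ≤ T.comap (π 2)` by `jpow_le_of`
(`J^2` is spanned by the products `a b`, `π 2 (a b) = π 1 a * π 1 b`). `gen`: `D n = (J^n).map (π n)`, `J^n ≤ T.comap (π n)` by `jpow_gen` (`π n (x b) = π 1 x * π (n-1) b` for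
`b ∈ J^(n-1)`, etc.). `nd`: `h = π i a`, `a ∈ J^i`; for `x ∈ J`: `π (i+1) (x a) = π 1 x * π i a = 0` so `x a ∈ rad (i+1)`; for `q ∈ J^2`: `q a ∈ rad (i+2)`; `rad_nd` gives
`a ∈ rad i`, so `h = 0`.
-/

namespace JD

universe u

theorem exists_GJ (F : Type u) [Field F] (J : Type u) [NonUnitalNonAssocCommRing J] [Module F J]
    [IsScalarTower F J J] [SMulCommClass F J J] [Infinite F] [Module.Finite F J]
    (h2 : (2 : F) ≠ 0) (hJ : IsJordan J) (c : ℕ) (hc : 1 ≤ c) (e : J) (he : e ≠ 0)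
    (htop : jpow F J c = Submodule.span F {e}) (hbot : jpow F J (c + 1) = ⊥) :
    ∃ (A : Type u) (_ : NonUnitalNonAssocCommRing A) (_ : Module F A) (_ : IsScalarTower F A A)
      (_ : SMulCommClass F A A) (D : ℕ → Submodule F A) (π : ℕ → J →ₗ[F] A),
      GJ F A c D ∧ GF F A c D ∧
      (∀ i, 1 ≤ i → (jpow F J i).map (π i) = D i) ∧
      (∀ i j, 1 ≤ i → 1 ≤ j → ∀ a ∈ jpow F J i, ∀ b ∈ jpow F J j,
        π (i + j) (a * b) = π i a * π j b) ∧
      (∀ i, 1 ≤ i → ∀ a ∈ jpow F J i, (π i a = 0 ↔ a ∈ rad F J c i)) ∧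
      (∀ i, 1 ≤ i → ∀ a ∈ jpow F J (i + 1), π i a = 0) ∧
      (∀ a ∈ jpow F J c, π c a = 0 → a = 0) ∧
      (∀ i, 1 ≤ i → Module.finrank F (D i) + Module.finrank F (jpow F J (i + 1)) ≤
        Module.finrank F (jpow F J i)) ∧
      ∑ i ∈ Finset.Icc 1 c, Module.finrank F (D i) ≤ Module.finrank F J := by
  obtain ⟨A, i1, i2, i3, i4, D, π, hGF, hmap, hπ, hker, hkill, htk, hdim, hsum⟩ :=
    exists_GF F J h2 hJ (jpow F J) c hc e he jpow_one (fun i _ => jpow_succ_le i)
      (fun i j _ _ a ha b hb => mul_mem_jpow ha hb) htop hbot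
  have hrad : ∀ i, rdf (jpow F J) c i = rad F J c i := fun i => rfl
  have hmem : ∀ i, 1 ≤ i → ∀ a ∈ jpow F J i, π i a ∈ D i := by
    intro i hi a ha
    rw [← hmap i hi]
    exact Submodule.mem_map_of_mem ha
  have h1m : ∀ x : J, x ∈ jpow F J 1 := fun x => by rw [jpow_one]; exact Submodule.mem_top
  refine ⟨A, i1, i2, i3, i4, D, π, ?_, hGF, hmap, hπ, ?_, hkill, htk, hdim, hsum⟩
  · refine ⟨hGF.two, hGF.inf, hGF.jordan, hGF.fin, hGF.mul_mem, hGF.above, ?_, ?_, ?_, hGF.top⟩
    · intro T hT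
      rw [← hmap 2 (by norm_num), Submodule.map_le_iff_le_comap]
      refine jpow_le_of le_rfl _ fun i j hi hj hij a ha b hb => ?_
      obtain rfl : i = 1 := by omega
      obtain rfl : j = 1 := by omega
      rw [Submodule.mem_comap, show (2 : ℕ) = 1 + 1 from rfl, hπ 1 1 le_rfl le_rfl a ha b hb]
      exact hT _ (hmem 1 le_rfl a ha) _ (hmem 1 le_rfl b hb)
    · intro n hn T hT hT'
      rw [← hmap n (by omega), Submodule.map_le_iff_le_comap]
      refine jpow_gen h2 hJ hn _ (fun x b hb => ?_) (fun q hq b hb => ?_)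
      · have := hπ 1 (n - 1) le_rfl (by omega) x (h1m x) b hb
        rw [show 1 + (n - 1) = n by omega] at this
        rw [Submodule.mem_comap, this]
        exact hT _ (hmem 1 le_rfl x (h1m x)) _ (hmem (n - 1) (by omega) b hb)
      · have := hπ 2 (n - 2) (by norm_num) (by omega) q hq b hb
        rw [show 2 + (n - 2) = n by omega] at this
        rw [Submodule.mem_comap, this]
        exact hT' _ (hmem 2 (by norm_num) q hq) _ (hmem (n - 2) (by omega) b hb)
    · intro i hi hic h hh hv hq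
      rw [← hmap i hi] at hh
      obtain ⟨a, ha, rfl⟩ := Submodule.mem_map.mp hh
      rw [hker i hi a ha, hrad]
      refine rad_nd h2 hJ hic ha (fun x => ?_) (fun q hqm => ?_)
      · have e1 : x * a ∈ jpow F J (i + 1) := by
          rw [add_comm]
          exact mul_mem_jpow (h1m x) ha
        rw [← hrad, ← hker (i + 1) (by omega) _ e1]
        have := hπ 1 i le_rfl hi x (h1m x) a ha
        rw [add_comm 1 i] at this
        rw [this]
        exact hv _ (hmem 1 le_rfl x (h1m x))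
      · have e1 : q * a ∈ jpow F J (i + 2) := by
          rw [add_comm]
          exact mul_mem_jpow hqm ha
        rw [← hrad, ← hker (i + 2) (by omega) _ e1]
        have := hπ 2 i (by norm_num) hi q hqm a ha
        rw [add_comm 2 i] at this
        rw [this]
        exact hq _ (hmem 2 (by norm_num) q hqm)
  · intro i hi a ha
    rw [hker i hi a ha, hrad]

end JD
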