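import Pool.Agent.H9.JH.Defs

set_option autoImplicit false

/-!
# JH Comm: commuting multiplications, and `dim D 2 = 1`

`comm_dims`. HYPOTHESIS: `v (q h) = q (v h)` for `v ∈ V`, `q ∈ D 2`, `h ∈ D i`, `i ≥ 1`. Class 6.
PROOF. (a) `gJ3 v w q` on `s` (`q, s ∈ D 2`): `(vw)(qs) + (wq)(vs) + (qv)(ws) = q((vw)s) + v((wq)s) + w((qv)s)`.
By commutation `v((wq)s) = v(s(wq)) = s(v(wq)) = s(q(vw))`, also `w((qv)s) = s(q(vw))`. So
`q(s p) + 2 s(q p) = p(qs) + [(wq)(vs) + (vq)(ws)]`, `p = vw`. Exchange `q` and `s` and subtract: `s(qp) = q(sp)` for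
`p = vw`, so for all `p ∈ D 2`. Hence `p(qs)` is symmetric in all three variables `p, q, s ∈ D 2`.
(b) `v(wq) = q(vw)`, so `D 4` is spanned by the products `q s` (`gen 4`, `gen 3`).
(c) If `q0 ∈ D 2` and `q0 g = 0` for all `g ∈ D 4`, then `q0 = 0`: for `q ∈ D 2` let `g = q0 q`: `p g = q0 (p q) = 0`
(`p ∈ D 2`), `w (v g) = w (q0 (v q)) = q0 (w (v q)) = q0 (q (w v)) = 0`, so `v g ∈ D 5` is killed by `V` and by `D 2`
(degree 7), so `v g = 0` and `g = 0`. Let `a = v q0`: `w a = q0 (w v) = 0`, `q a = v (q q0) = 0`, so `a = 0`. So `q0 = 0`.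
Hence `D 2 → Hom (D 4, D 6)` is injective; `D 6` is one-dimensional, so `finrank (D 2) ≤ finrank (D 4)`.
(d) If `w ∈ V` and `w f = 0` for all `f ∈ D 5` then `w = 0`: let `q0 = w v` (`v ∈ V`). For `p, q ∈ D 2`:
`p (q q0) = p (w (q v)) = w (p (q v)) = 0`, and `q0 (p q) = p (q q0) = 0`, so `q0 D 4 = 0` by (b), `q0 = 0` by (c). So `w V = 0`.
For `q ∈ D 2`: `v (w q) = q (v w) = 0`; `p (w q) ∈ D 5`: `v (p (w q)) = p (q (v w)) = 0`, so `p (w q) = 0`; so `w q = 0`, and
`w = 0`. Hence `V → Hom (D 5, D 6)` is injective.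

`H1`. HYPOTHESIS `finrank (D 2) = 1`, class 6. PROOF. `D 2 = F s`, `v w = b(v,w) s`. (J1) `v²(v h) = v(v² h)`:
`b(v,v) (s(v h) - v(s h)) = 0` for all `h ∈ A`. So `L_v, L_s` commute if `v² ≠ 0`, so for all `v ∈ V` (`GJ.dense` with `φ`
a coordinate of `D 2`; `D 2 ≠ 0`). So `comm_dims` applies: `finrank (D 1) ≤ finrank (D 5)`. `D 3 = s V`, `D 4 = F s²` (by (b)),
`D 5 = s (s V)` (`v (s s) = s (v s)`, `D 5 = V D 4 + D 2 D 3`): so `finrank (D 5) ≤ finrank (D 3) ≤ finrank (D 1)`; so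
equalities. `finrank (D 4) ≤ 1` and `≥ finrank (D 2) = 1`. If `v w = 0` for all `w ∈ V` then `v = 0`:
`w (s (s v)) = s (s (w v)) = 0` so `s (s v) = 0` (degree 5, and `D 2 D 5 = 0`), `w (s v) = s (w v) = 0`, so `s v = 0`, so `v = 0`.
-/

namespace JD

universe u

variable {F : Type u} [Field F] {A : Type u} [NonUnitalNonAssocCommRing A] [Module F A]
  [IsScalarTower F A A] [SMulCommClass F A A] {D : ℕ → Submodule F A}

/-- dimension bound from a nondegenerate product into a one-dimensional space -/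
private theorem Comm_inj_dim [Module.Finite F A] (P Q R : Submodule F A)
    (hmul : ∀ p ∈ P, ∀ q ∈ Q, p * q ∈ R) (hR : Module.finrank F R = 1)
    (hinj : ∀ p ∈ P, (∀ q ∈ Q, p * q = 0) → p = 0) :
    Module.finrank F P ≤ Module.finrank F Q := by
  obtain ⟨g, -, -, φ, -, hφ⟩ := exists_coord hR
  let B : A →ₗ[F] A →ₗ[F] F := (LinearMap.mul F A).compr₂ φ
  let C : P →ₗ[F] Q →ₗ[F] F := B.domRestrict₁₂ P Q
  have hC : Function.Injective C := by
    rw [injective_iff_map_eq_zero]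
    intro p hp
    apply Subtype.ext
    refine hinj p.1 p.2 fun q hq => ?_
    have h1 := LinearMap.congr_fun hp ⟨q, hq⟩
    have h2 : φ (p.1 * q) = 0 := h1
    rw [hφ _ (hmul p.1 p.2 q hq), h2, zero_smul]
  have h3 := LinearMap.finrank_le_finrank_of_injective hC
  rwa [Module.finrank_linearMap_self] at h3

theorem comm_dims (hG : GJ F A 6 D)
    (hc : ∀ v ∈ D 1, ∀ q ∈ D 2, ∀ i, 1 ≤ i → ∀ h ∈ D i, v * (q * h) = q * (v * h)) :
    Module.finrank F (D 2) ≤ Module.finrank F (D 4) ∧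
      Module.finrank F (D 1) ≤ Module.finrank F (D 5) := by
  have hfin := hG.fin
  have m11 : ∀ v ∈ D 1, ∀ w ∈ D 1, v * w ∈ D 2 := fun v hv w hw =>
    hG.mul_mem 1 1 le_rfl le_rfl v hv w hw
  have m12 : ∀ v ∈ D 1, ∀ q ∈ D 2, v * q ∈ D 3 := fun v hv w hw =>
    hG.mul_mem 1 2 (by norm_num) (by norm_num) v hv w hw
  have m21 : ∀ q ∈ D 2, ∀ v ∈ D 1, q * v ∈ D 3 := fun q hq v hv =>
    hG.mul_mem 2 1 (by norm_num) (by norm_num) q hq v hv
  have m13 : ∀ v ∈ D 1, ∀ q ∈ D 3, v * q ∈ D 4 := fun v hv w hw =>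
    hG.mul_mem 1 3 (by norm_num) (by norm_num) v hv w hw
  have m14 : ∀ v ∈ D 1, ∀ q ∈ D 4, v * q ∈ D 5 := fun v hv w hw =>
    hG.mul_mem 1 4 (by norm_num) (by norm_num) v hv w hw
  have m22 : ∀ p ∈ D 2, ∀ q ∈ D 2, p * q ∈ D 4 := fun v hv w hw =>
    hG.mul_mem 2 2 (by norm_num) (by norm_num) v hv w hw
  have m23 : ∀ p ∈ D 2, ∀ q ∈ D 3, p * q ∈ D 5 := fun v hv w hw =>
    hG.mul_mem 2 3 (by norm_num) (by norm_num) v hv w hw
  have m24 : ∀ p ∈ D 2, ∀ q ∈ D 4, p * q ∈ D 6 := fun v hv w hw =>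
    hG.mul_mem 2 4 (by norm_num) (by norm_num) v hv w hw
  have m15 : ∀ p ∈ D 1, ∀ q ∈ D 5, p * q ∈ D 6 := fun v hv w hw =>
    hG.mul_mem 1 5 (by norm_num) (by norm_num) v hv w hw
  have m25 : ∀ p ∈ D 2, ∀ q ∈ D 5, p * q = 0 := fun v hv w hw =>
    hG.above 7 (by norm_num) _ (hG.mul_mem 2 5 (by norm_num) (by norm_num) v hv w hw)
  -- (a)
  have ha0 : ∀ q ∈ D 2, ∀ s ∈ D 2, ∀ v ∈ D 1, ∀ w ∈ D 1,
      s * (q * (v * w)) = q * (s * (v * w)) := by
    intro q hq s hs v hv w hw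
    have key : ∀ q ∈ D 2, ∀ s ∈ D 2,
        (v * w) * (q * s) + (w * q) * (v * s) + (q * v) * (w * s) =
          q * (s * (v * w)) + s * (q * (v * w)) + s * (q * (v * w)) := by
      intro q hq s hs
      have h1 := gJ3 F hG.two hG.jordan v w q s
      have e1 : v * ((w * q) * s) = s * (q * (v * w)) := by
        rw [mul_comm (w * q) s, hc v hv s hs 3 (by norm_num) _ (m12 w hw q hq), mul_comm w q,
          hc v hv q hq 1 le_rfl w hw]
      have e2 : w * ((q * v) * s) = s * (q * (v * w)) := by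
        rw [mul_comm (q * v) s, hc w hw s hs 3 (by norm_num) _ (m21 q hq v hv),
          hc w hw q hq 1 le_rfl v hv, mul_comm w v]
      rw [e1, e2, mul_comm (v * w) s] at h1
      exact h1
    have k1 := key q hq s hs
    have k2 := key s hs q hq
    have e : (v * w) * (q * s) + (w * q) * (v * s) + (q * v) * (w * s) =
        (v * w) * (s * q) + (w * s) * (v * q) + (s * v) * (w * q) := by
      rw [mul_comm q s, mul_comm q v, mul_comm s v, mul_comm (w * q) (v * s),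
        mul_comm (v * q) (w * s)]
      abel
    rw [k1, k2] at e
    have e' : q * (s * (v * w)) + s * (q * (v * w)) + s * (q * (v * w)) -
        (s * (q * (v * w)) + q * (s * (v * w)) + q * (s * (v * w))) = 0 := sub_eq_zero.2 e
    have e'' : s * (q * (v * w)) - q * (s * (v * w)) = 0 := by
      rw [← e']
      abel
    exact sub_eq_zero.1 e''
  have ha : ∀ q ∈ D 2, ∀ s ∈ D 2, ∀ p ∈ D 2, s * (q * p) = q * (s * p) := by
    intro q hq s hs p hp
    let T : Submodule F A := LinearMap.ker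
      ((LinearMap.mulLeft F s) ∘ₗ (LinearMap.mulLeft F q) -
        (LinearMap.mulLeft F q) ∘ₗ (LinearMap.mulLeft F s))
    have hT : ∀ x, x ∈ T ↔ s * (q * x) = q * (s * x) := by
      intro x
      simp only [T, LinearMap.mem_ker, LinearMap.sub_apply, LinearMap.comp_apply,
        LinearMap.mulLeft_apply, sub_eq_zero]
    exact (hT p).1 (hG.gen2 T (fun v hv w hw => (hT _).2 (ha0 q hq s hs v hv w hw)) hp)
  -- (b)
  have hb : ∀ T : Submodule F A, (∀ p ∈ D 2, ∀ q ∈ D 2, p * q ∈ T) → D 4 ≤ T := by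
    intro T hT
    refine hG.gen 4 (by norm_num) T ?_ ?_
    · intro v hv h hh
      have h3 : D 3 ≤ T.comap (LinearMap.mulLeft F v) := by
        refine hG.gen 3 le_rfl _ ?_ ?_
        · intro w hw q hq
          rw [Submodule.mem_comap, LinearMap.mulLeft_apply, mul_comm w q,
            hc v hv q hq 1 le_rfl w hw]
          exact hT q hq _ (m11 v hv w hw)
        · intro q hq w hw
          rw [Submodule.mem_comap, LinearMap.mulLeft_apply, hc v hv q hq 1 le_rfl w hw]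
          exact hT q hq _ (m11 v hv w hw)
      exact h3 hh
    · intro q hq h hh
      exact hT q hq h hh
  -- (c)
  have hcc : ∀ q0 ∈ D 2, (∀ g ∈ D 4, q0 * g = 0) → q0 = 0 := by
    intro q0 hq0 h0
    have hg : ∀ q ∈ D 2, q0 * q = 0 := by
      intro q hq
      refine hG.nd 4 (by norm_num) (by norm_num) _ (m22 q0 hq0 q hq) ?_ ?_
      · intro v hv
        refine hG.nd 5 (by norm_num) (by norm_num) _ (m14 v hv _ (m22 q0 hq0 q hq)) ?_ ?_
        · intro w hw
          rw [hc v hv q0 hq0 2 (by norm_num) q hq,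
            hc w hw q0 hq0 3 (by norm_num) _ (m12 v hv q hq)]
          exact h0 _ (m13 w hw _ (m12 v hv q hq))
        · intro p hp
          exact m25 p hp _ (m14 v hv _ (m22 q0 hq0 q hq))
      · intro p hp
        rw [ha q0 hq0 p hp q hq]
        exact h0 _ (m22 p hp q hq)
    have hvq : ∀ v ∈ D 1, v * q0 = 0 := by
      intro v hv
      refine hG.nd 3 (by norm_num) (by norm_num) _ (m12 v hv q0 hq0) ?_ ?_
      · intro w hw
        rw [mul_comm v q0, hc w hw q0 hq0 1 le_rfl v hv]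
        exact hg _ (m11 w hw v hv)
      · intro q hq
        rw [← hc v hv q hq 2 (by norm_num) q0 hq0, mul_comm q q0, hg q hq, mul_zero]
    refine hG.nd 2 (by norm_num) (by norm_num) _ hq0 hvq ?_
    intro q hq
    rw [mul_comm]
    exact hg q hq
  -- (d)
  have hd : ∀ w ∈ D 1, (∀ f ∈ D 5, w * f = 0) → w = 0 := by
    intro w hw h0
    have hwv : ∀ v ∈ D 1, w * v = 0 := by
      intro v hv
      refine hcc _ (m11 w hw v hv) ?_
      have h4 : D 4 ≤ LinearMap.ker (LinearMap.mulLeft F (w * v)) := by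
        refine hb _ ?_
        intro p hp q hq
        rw [LinearMap.mem_ker, LinearMap.mulLeft_apply, ha p hp _ (m11 w hw v hv) q hq,
          mul_comm (w * v) q, ← hc w hw q hq 1 le_rfl v hv,
          ← hc w hw p hp 3 (by norm_num) _ (m21 q hq v hv)]
        exact h0 _ (m23 p hp _ (m21 q hq v hv))
      intro g hg
      exact h4 hg
    have hwq : ∀ q ∈ D 2, w * q = 0 := by
      intro q hq
      have hv0 : ∀ v ∈ D 1, v * (w * q) = 0 := by
        intro v hv
        rw [mul_comm w q, hc v hv q hq 1 le_rfl w hw, mul_comm v w, hwv v hv, mul_zero]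
      refine hG.nd 3 (by norm_num) (by norm_num) _ (m12 w hw q hq) hv0 ?_
      intro p hp
      refine hG.nd 5 (by norm_num) (by norm_num) _ (m23 p hp _ (m12 w hw q hq)) ?_ ?_
      · intro v hv
        rw [hc v hv p hp 3 (by norm_num) _ (m12 w hw q hq), hv0 v hv, mul_zero]
      · intro s hs
        exact m25 s hs _ (m23 p hp _ (m12 w hw q hq))
    refine hG.nd 1 le_rfl (by norm_num) _ hw ?_ ?_
    · intro v hv
      rw [mul_comm]
      exact hwv v hv
    · intro q hq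
      rw [mul_comm]
      exact hwq q hq
  exact ⟨Comm_inj_dim (D 2) (D 4) (D 6) m24 hG.top hcc,
    Comm_inj_dim (D 1) (D 5) (D 6) m15 hG.top hd⟩

theorem H1 (hG : GJ F A 6 D) (h : Module.finrank F (D 2) = 1) :
    (∀ v ∈ D 1, ∀ q ∈ D 2, ∀ b : A, v * (q * b) = q * (v * b)) ∧
    (∀ v ∈ D 1, (∀ w ∈ D 1, v * w = 0) → v = 0) ∧
    Module.finrank F (D 3) = Module.finrank F (D 1) ∧ Module.finrank F (D 4) = 1 ∧
    Module.finrank F (D 5) = Module.finrank F (D 1) := by
  have hfin := hG.fin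
  obtain ⟨s, hs, hs0, φ, hφs, hφ⟩ := exists_coord h
  have hD2 : D 2 ≠ ⊥ := by
    intro h0
    rw [h0, Submodule.mem_bot] at hs
    exact hs0 hs
  obtain ⟨v0, hv0, hv0s⟩ := hG.exists_sq_ne hD2
  have hφv0 : φ (v0 * v0) ≠ 0 := by
    intro h0
    apply hv0s
    rw [hφ _ (hG.mul_mem 1 1 le_rfl le_rfl v0 hv0 v0 hv0), h0, zero_smul]
  let T : Submodule F A :=
    { carrier := {v | ∀ b : A, v * (s * b) = s * (v * b)}
      add_mem' := by
        intro v w hv hw b
        rw [add_mul, add_mul, mul_add, hv b, hw b]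
      zero_mem' := by
        intro b
        rw [zero_mul, zero_mul, mul_zero]
      smul_mem' := by
        intro r v hv b
        rw [smul_mul_assoc, smul_mul_assoc, mul_smul_comm, hv b] }
  have hT : D 1 ≤ T := by
    refine hG.dense φ v0 hv0 hφv0 T ?_
    intro v hv hv1 b
    have h1 := gJ1 hG.jordan v b
    rw [hφ _ (hG.mul_mem 1 1 le_rfl le_rfl v hv v hv), smul_mul_assoc, smul_mul_assoc,
      mul_smul_comm] at h1
    exact (smul_right_injective A hv1 h1).symm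
  have hvs : ∀ v ∈ D 1, ∀ b : A, v * (s * b) = s * (v * b) := fun v hv => hT hv
  have hcomm : ∀ v ∈ D 1, ∀ q ∈ D 2, ∀ b : A, v * (q * b) = q * (v * b) := by
    intro v hv q hq b
    rw [hφ q hq, smul_mul_assoc, smul_mul_assoc, mul_smul_comm, hvs v hv b]
  obtain ⟨c1, c2⟩ := comm_dims hG fun v hv q hq i _ b _ => hcomm v hv q hq b
  have m11 : ∀ v ∈ D 1, ∀ w ∈ D 1, v * w ∈ D 2 := fun v hv w hw =>
    hG.mul_mem 1 1 le_rfl le_rfl v hv w hw
  have m12 : ∀ v ∈ D 1, ∀ q ∈ D 2, v * q ∈ D 3 := fun v hv w hw =>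
    hG.mul_mem 1 2 (by norm_num) (by norm_num) v hv w hw
  have m21 : ∀ q ∈ D 2, ∀ v ∈ D 1, q * v ∈ D 3 := fun q hq v hv =>
    hG.mul_mem 2 1 (by norm_num) (by norm_num) q hq v hv
  have m23 : ∀ p ∈ D 2, ∀ q ∈ D 3, p * q ∈ D 5 := fun v hv w hw =>
    hG.mul_mem 2 3 (by norm_num) (by norm_num) v hv w hw
  have m25 : ∀ p ∈ D 2, ∀ q ∈ D 5, p * q = 0 := fun v hv w hw =>
    hG.above 7 (by norm_num) _ (hG.mul_mem 2 5 (by norm_num) (by norm_num) v hv w hw)
  have d3 : D 3 ≤ (D 1).map (LinearMap.mulLeft F s) := by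
    refine hG.gen 3 le_rfl _ ?_ ?_
    · intro v hv q hq
      rw [hφ q hq, mul_smul_comm]
      refine Submodule.smul_mem _ _ ⟨v, hv, ?_⟩
      rw [LinearMap.mulLeft_apply, mul_comm]
    · intro q hq v hv
      rw [hφ q hq, smul_mul_assoc]
      exact Submodule.smul_mem _ _ ⟨v, hv, rfl⟩
  have d4 : D 4 ≤ (D 2).map (LinearMap.mulLeft F s) := by
    refine hG.gen 4 (by norm_num) _ ?_ ?_
    · intro v hv a ha
      obtain ⟨w, hw, rfl⟩ := d3 ha
      rw [LinearMap.mulLeft_apply, hvs v hv w]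
      exact ⟨_, m11 v hv w hw, rfl⟩
    · intro q hq p hp
      rw [hφ q hq, smul_mul_assoc]
      exact Submodule.smul_mem _ _ ⟨p, hp, rfl⟩
  have d5 : D 5 ≤ (D 3).map (LinearMap.mulLeft F s) := by
    refine hG.gen 5 (by norm_num) _ ?_ ?_
    · intro v hv a ha
      obtain ⟨w, hw, rfl⟩ := d4 ha
      rw [LinearMap.mulLeft_apply, hvs v hv w]
      exact ⟨_, m12 v hv w hw, rfl⟩
    · intro q hq p hp
      rw [hφ q hq, smul_mul_assoc]
      exact Submodule.smul_mem _ _ ⟨p, hp, rfl⟩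
  have f3 : Module.finrank F (D 3) ≤ Module.finrank F (D 1) :=
    (Submodule.finrank_mono d3).trans (Submodule.finrank_map_le _ _)
  have f4 : Module.finrank F (D 4) ≤ Module.finrank F (D 2) :=
    (Submodule.finrank_mono d4).trans (Submodule.finrank_map_le _ _)
  have f5 : Module.finrank F (D 5) ≤ Module.finrank F (D 3) :=
    (Submodule.finrank_mono d5).trans (Submodule.finrank_map_le _ _)
  refine ⟨hcomm, ?_, by omega, by omega, by omega⟩
  intro v hv hvw
  have hwv : ∀ w ∈ D 1, w * v = 0 := fun w hw => by rw [mul_comm]; exact hvw w hw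
  have hss : s * (s * v) = 0 := by
    refine hG.nd 5 (by norm_num) (by norm_num) _ (m23 s hs _ (m21 s hs v hv)) ?_ ?_
    · intro w hw
      rw [hvs w hw, hvs w hw, hwv w hw, mul_zero, mul_zero]
    · intro q hq
      exact m25 q hq _ (m23 s hs _ (m21 s hs v hv))
  have hsv : s * v = 0 := by
    refine hG.nd 3 (by norm_num) (by norm_num) _ (m21 s hs v hv) ?_ ?_
    · intro w hw
      rw [hvs w hw, hwv w hw, mul_zero]
    · intro q hq
      rw [hφ q hq, smul_mul_assoc, hss, smul_zero]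
  refine hG.nd 1 le_rfl (by norm_num) _ hv hwv ?_
  intro q hq
  rw [hφ q hq, smul_mul_assoc, hsv, smul_zero]

end JD
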