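import Pool.Agent.H9.JH.LowC
import Pool.Agent.H8.JD.SSysEx

set_option autoImplicit false

/-!
# JH CritLow: critical algebras with three generators have class at least 5
-/

namespace JD

universe u

variable {K : Type u} [Field K] {J : Type u} [NonUnitalNonAssocCommRing J]
  [Module K J] [IsScalarTower K J J] [SMulCommClass K J J] {c : ℕ} {e : J}

/-- generators `x : Fin 3 → J`, an S-system and an associative picture of a critical algebra of
class at most 7 with three generators -/
theorem crit_picture (h : Crit K J c e) (hn : ngen K J = 3) (hc : c ≤ 7) :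
    ∃ (x : Fin 3 → J) (S : List (Fin 3) → J) (E : Type u) (_ : Ring E) (_ : Algebra K E),
      Gens K J x ∧ SSys K x S ∧
      (∀ (a : Fin 3 → ℕ) (Φ : ℕ → Submodule K J), Filt K x a Φ →
        ∀ w : List (Fin 3), w ≠ [] → S w ∈ Φ (wt a w)) ∧
      Submodule.span K (Set.range S) = ⊤ ∧ Nonempty (EPic K J x S e E) := by
  have := h.fin
  have hnil : IsNilpotentAlg K J := ⟨c + 1, by omega, h.bot⟩
  obtain ⟨y, hy⟩ := exists_gens hnil
  obtain ⟨x, hx⟩ : ∃ x : Fin 3 → J, Gens K J x := by
    rw [← hn]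
    exact ⟨y, hy⟩
  have h8 : jpow K J 8 = ⊥ := by
    rw [eq_bot_iff, ← h.bot]
    exact jpow_anti (by omega)
  obtain ⟨S, hS, hfilt, -, hspan⟩ := exists_SSys7 h.two h.jordan h8 x
  obtain ⟨E, i1, i2, P⟩ := crit_EPic h x S hS (hspan hx.gen)
  exact ⟨x, S, E, i1, i2, hx, hS, hfilt, hspan hx.gen, P⟩

theorem crit_n3_c_le_four (h : Crit K J c e) (hn : ngen K J = 3) (hc : c ≤ 4) : False := by
  obtain ⟨x, S, E, i1, i2, hx, hS, -, -, ⟨P⟩⟩ := crit_picture h hn (by omega)
  have h5 : e ∈ jpow K J 5 := P.u_mem_five h.two hS hx.indep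
  have h6 : e ∈ jpow K J (c + 1) := jpow_anti (by omega) h5
  rw [h.bot, Submodule.mem_bot] at h6
  exact h.ne h6

end JD
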