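import Pool.Agent.H9.JH.Defs

set_option autoImplicit false

/-!
# JH H2A: the case `D 5 = 0`, first part

Class 6, `D 5 = 0`: so `V D 4 = 0`, `D 2 D 3 = 0`. PROOF OF `H2a`.
(1) `gJ3 v w q` on `q'`: `(vw)(qq') + (wq)(vq') + (qv)(wq') = q((vw)q') + v((wq)q') + w((qv)q')`; here `(wq)q' = 0 = (qv)q'`
(`D 3 D 2 = 0`). So `q((vw)q') = (vw)(qq') + (wq)(vq') + (vq)(wq')`, and the right side is symmetric in `q, q'`:
`q(p q') = q'(p q)` for `p = vw`, so for all `p ∈ D 2`. So `C(p,q,h) = p(qh)` is totally symmetric on `D 2`.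
(2) `gJ3 x y z` on `a ∈ D 3`: `(xy)(za) + (yz)(xa) + (zx)(ya) = z((xy)a) + .. = 0`. `gJ4`:
`((xy)z)a = (xy)(za) + (xz)(ya) + (yz)(xa) - x(z(ya)) - y(z(xa)) = 0 - 0` (`z(ya) ∈ D 5 = 0`). As `D 3` is spanned by
the `(xy)z`: `D 3 D 3 = 0`.
(3) `gJ1`: `x²(xa) = x(x²a) = 0`.
(4) `gJ3 v q q'` on `w`: `(vq)(q'w) + (qq')(vw) + (q'v)(qw) = q'((vq)w) + v((qq')w) + q((q'v)w)`; the first and third terms on
the left are in `D 3 D 3 = 0`, `(qq')w ∈ D 5 = 0`. So `q'(w(vq)) + q(w(vq')) = (vw)(qq')`.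
(5) `g ∈ D 4`, `D 2 g = 0`: `V g = 0` too (`D 5 = 0`), so `g = 0`.
(6) `q ∈ D 2`, `q D 4 = 0`: then `q = 0`. For `v, w ∈ V`, `q' ∈ D 2`: by (4) `q'(w(vq)) = (vw)(qq') - q(w(vq')) = (vw)(qq')
= q((vw)q') = 0` (total symmetry). So `w(vq) = 0` by (5), so `vq ∈ D 3` is killed by `V` and by `D 2` (`D 2 D 3 = 0`): `vq = 0`.
`q'q ∈ D 4`: `q''(q'q) = q(q'q'') = 0`, so `q'q = 0` by (5). So `q = 0`.
-/

namespace JD

universe u

variable {F : Type u} [Field F] {A : Type u} [NonUnitalNonAssocCommRing A] [Module F A]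
  [IsScalarTower F A A] [SMulCommClass F A A] {D : ℕ → Submodule F A}

private theorem H2A_mm {c : ℕ} (hG : GJ F A c D) (i j k : ℕ) (hi : 1 ≤ i) (hj : 1 ≤ j)
    (hk : i + j = k) {a b : A} (ha : a ∈ D i) (hb : b ∈ D j) : a * b ∈ D k := by
  rw [← hk]
  exact hG.mul_mem i j hi hj a ha b hb

private theorem H2A_one (hG : GJ F A 6 D) (h5 : ∀ a ∈ D 5, a = 0) (p q h : A) (hp : p ∈ D 2)
    (hq : q ∈ D 2) (hh : h ∈ D 2) : q * (p * h) = h * (p * q) := by
  let L : A →ₗ[F] A := LinearMap.mulLeft F q ∘ₗ LinearMap.mulRight F h -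
    LinearMap.mulLeft F h ∘ₗ LinearMap.mulRight F q
  have hL : ∀ x, L x = q * (x * h) - h * (x * q) := fun x => rfl
  have h1 : D 2 ≤ LinearMap.ker L := by
    apply hG.gen2
    intro v hv w hw
    rw [LinearMap.mem_ker, hL, sub_eq_zero]
    have e1 := gJ3 F hG.two hG.jordan v w q h
    have e2 := gJ3 F hG.two hG.jordan v w h q
    have z1 : (w * q) * h = 0 :=
      h5 _ (H2A_mm hG 3 2 5 (by norm_num) (by norm_num) rfl
        (H2A_mm hG 1 2 3 (by norm_num) (by norm_num) rfl hw hq) hh)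
    have z2 : (q * v) * h = 0 :=
      h5 _ (H2A_mm hG 3 2 5 (by norm_num) (by norm_num) rfl
        (H2A_mm hG 2 1 3 (by norm_num) (by norm_num) rfl hq hv) hh)
    have z3 : (w * h) * q = 0 :=
      h5 _ (H2A_mm hG 3 2 5 (by norm_num) (by norm_num) rfl
        (H2A_mm hG 1 2 3 (by norm_num) (by norm_num) rfl hw hh) hq)
    have z4 : (h * v) * q = 0 :=
      h5 _ (H2A_mm hG 3 2 5 (by norm_num) (by norm_num) rfl
        (H2A_mm hG 2 1 3 (by norm_num) (by norm_num) rfl hh hv) hq)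
    rw [z1, z2, mul_zero, mul_zero, add_zero, add_zero] at e1
    rw [z3, z4, mul_zero, mul_zero, add_zero, add_zero] at e2
    rw [← e1, ← e2, mul_comm h q, mul_comm h v, mul_comm q v, mul_comm (w * h) (v * q),
      mul_comm (v * h) (w * q)]
    abel
  have h2 := h1 hp
  rw [LinearMap.mem_ker, hL, sub_eq_zero] at h2
  exact h2

private theorem H2A_two (hG : GJ F A 6 D) (h5 : ∀ a ∈ D 5, a = 0) (a b : A) (ha : a ∈ D 3)
    (hb : b ∈ D 3) : a * b = 0 := by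
  have base : ∀ x ∈ D 1, ∀ y ∈ D 1, ∀ z ∈ D 1, ((x * y) * z) * b = 0 := by
    intro x hx y hy z hz
    have e1 := gJ3 F hG.two hG.jordan x y z b
    have e2 := gJ4 F hG.two hG.jordan x y z b
    have m2 : ∀ {u v : A}, u ∈ D 1 → v ∈ D 1 → u * v ∈ D 2 := fun hu hv =>
      H2A_mm hG 1 1 2 (by norm_num) (by norm_num) rfl hu hv
    have z1 : ∀ {u : A}, u ∈ D 2 → u * b = 0 := fun hu =>
      h5 _ (H2A_mm hG 2 3 5 (by norm_num) (by norm_num) rfl hu hb)
    have z2 : ∀ {u v : A}, u ∈ D 1 → v ∈ D 1 → u * (v * b) = 0 := fun hu hv =>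
      h5 _ (H2A_mm hG 1 4 5 (by norm_num) (by norm_num) rfl hu
        (H2A_mm hG 1 3 4 (by norm_num) (by norm_num) rfl hv hb))
    rw [z1 (m2 hx hy), z1 (m2 hy hz), z1 (m2 hz hx), mul_zero, mul_zero, mul_zero, add_zero,
      add_zero] at e1
    rw [z2 hz hy, z2 hz hx, mul_zero, mul_zero, sub_zero, sub_zero] at e2
    rw [e2, ← e1, mul_comm z x]
    abel
  have base2 : ∀ h ∈ D 2, ∀ z ∈ D 1, (h * z) * b = 0 := by
    intro h hh z hz
    have h1 : D 2 ≤ LinearMap.ker (LinearMap.mulRight F b ∘ₗ LinearMap.mulRight F z) := by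
      apply hG.gen2
      intro v hv w hw
      rw [LinearMap.mem_ker]
      exact base v hv w hw z hz
    have h2 := h1 hh
    rw [LinearMap.mem_ker] at h2
    exact h2
  have h1 : D 3 ≤ LinearMap.ker (LinearMap.mulRight F b) := by
    apply hG.gen 3 (le_refl 3)
    · intro v hv h hh
      rw [LinearMap.mem_ker]
      change (v * h) * b = 0
      rw [mul_comm v h]
      exact base2 h hh v hv
    · intro q hq h hh
      rw [LinearMap.mem_ker]
      exact base2 q hq h hh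
  have h2 := h1 ha
  rw [LinearMap.mem_ker] at h2
  exact h2

theorem H2a (hG : GJ F A 6 D) (h5 : D 5 = ⊥) :
    (∀ p ∈ D 2, ∀ q ∈ D 2, ∀ h ∈ D 2, p * (q * h) = q * (p * h)) ∧
    (∀ a ∈ D 3, ∀ a' ∈ D 3, a * a' = 0) ∧
    (∀ x ∈ D 1, ∀ a ∈ D 3, (x * x) * (x * a) = 0) ∧
    (∀ v ∈ D 1, ∀ w ∈ D 1, ∀ q ∈ D 2, ∀ q' ∈ D 2,
      q' * (w * (v * q)) + q * (w * (v * q')) = (v * w) * (q * q')) ∧
    (∀ g ∈ D 4, (∀ q ∈ D 2, q * g = 0) → g = 0) ∧
    (∀ q ∈ D 2, (∀ g ∈ D 4, q * g = 0) → q = 0) := by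
  have h5' : ∀ a ∈ D 5, a = 0 := by
    intro a ha
    rw [h5] at ha
    exact (Submodule.mem_bot F).1 ha
  have c1 : ∀ p ∈ D 2, ∀ q ∈ D 2, ∀ h ∈ D 2, p * (q * h) = q * (p * h) := by
    intro p hp q hq h hh
    rw [H2A_one hG h5' q p h hq hp hh, H2A_one hG h5' p q h hp hq hh, mul_comm q p]
  have c2 : ∀ a ∈ D 3, ∀ a' ∈ D 3, a * a' = 0 := fun a ha a' ha' => H2A_two hG h5' a a' ha ha'
  have c3 : ∀ x ∈ D 1, ∀ a ∈ D 3, (x * x) * (x * a) = 0 := by
    intro x hx a ha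
    rw [gJ1 hG.jordan]
    have z : (x * x) * a = 0 :=
      h5' _ (H2A_mm hG 2 3 5 (by norm_num) (by norm_num) rfl
        (H2A_mm hG 1 1 2 (by norm_num) (by norm_num) rfl hx hx) ha)
    rw [z, mul_zero]
  have c4 : ∀ v ∈ D 1, ∀ w ∈ D 1, ∀ q ∈ D 2, ∀ q' ∈ D 2,
      q' * (w * (v * q)) + q * (w * (v * q')) = (v * w) * (q * q') := by
    intro v hv w hw q hq q' hq'
    have e1 := gJ3 F hG.two hG.jordan v q q' w
    have z1 : (v * q) * (q' * w) = 0 :=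
      c2 _ (H2A_mm hG 1 2 3 (by norm_num) (by norm_num) rfl hv hq) _
        (H2A_mm hG 2 1 3 (by norm_num) (by norm_num) rfl hq' hw)
    have z2 : (q' * v) * (q * w) = 0 :=
      c2 _ (H2A_mm hG 2 1 3 (by norm_num) (by norm_num) rfl hq' hv) _
        (H2A_mm hG 2 1 3 (by norm_num) (by norm_num) rfl hq hw)
    have z3 : (q * q') * w = 0 :=
      h5' _ (H2A_mm hG 4 1 5 (by norm_num) (by norm_num) rfl
        (H2A_mm hG 2 2 4 (by norm_num) (by norm_num) rfl hq hq') hw)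
    rw [z1, z2, z3, mul_zero, zero_add, add_zero, add_zero] at e1
    rw [mul_comm (v * w) (q * q'), e1, mul_comm w (v * q), mul_comm w (v * q'), mul_comm v q']
  have c5 : ∀ g ∈ D 4, (∀ q ∈ D 2, q * g = 0) → g = 0 := by
    intro g hg h
    refine hG.nd 4 (by norm_num) (by norm_num) g hg ?_ h
    intro v hv
    exact h5' _ (H2A_mm hG 1 4 5 (by norm_num) (by norm_num) rfl hv hg)
  refine ⟨c1, c2, c3, c4, c5, ?_⟩
  intro q hq hqg
  refine hG.nd 2 (by norm_num) (by norm_num) q hq ?_ ?_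
  · intro v hv
    have hvq := H2A_mm hG 1 2 3 (by norm_num) (by norm_num) rfl hv hq
    refine hG.nd 3 (by norm_num) (by norm_num) _ hvq ?_ ?_
    · intro w hw
      apply c5 _ (H2A_mm hG 1 3 4 (by norm_num) (by norm_num) rfl hw hvq)
      intro q' hq'
      have e1 := c4 v hv w hw q hq q' hq'
      have z1 : q * (w * (v * q')) = 0 :=
        hqg _ (H2A_mm hG 1 3 4 (by norm_num) (by norm_num) rfl hw
          (H2A_mm hG 1 2 3 (by norm_num) (by norm_num) rfl hv hq'))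
      have hvw := H2A_mm hG 1 1 2 (by norm_num) (by norm_num) rfl hv hw
      rw [z1, add_zero, c1 _ hvw q hq q' hq',
        hqg _ (H2A_mm hG 2 2 4 (by norm_num) (by norm_num) rfl hvw hq')] at e1
      exact e1
    · intro q' hq'
      exact h5' _ (H2A_mm hG 2 3 5 (by norm_num) (by norm_num) rfl hq' hvq)
  · intro q' hq'
    apply c5 _ (H2A_mm hG 2 2 4 (by norm_num) (by norm_num) rfl hq' hq)
    intro q'' hq''
    rw [mul_comm q' q, c1 q'' hq'' q hq q' hq']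
    exact hqg _ (H2A_mm hG 2 2 4 (by norm_num) (by norm_num) rfl hq'' hq')

end JD
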