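import Pool.Agent.H9.JH.H2A
import Pool.Agent.H9.JH.Comm

set_option autoImplicit false

/-!
# JH H2B: `D 5 = 0` implies `dim D 2 = dim D 4 ≥ 3` (class 6)

Use `H2a` (its parts are quoted as (1): total symmetry of `p(qh)`, (2) `D 3 D 3 = 0`, (3) `x²(xa) = 0`,
(4) `q'(w(vq)) + q(w(vq')) = (vw)(qq')`, (5), (6): nondegeneracy of `D 2 × D 4 → D 6`) and `H1` (file Comm).
PROOF OF `H2b`. By (5), (6) and `finrank (D 6) = 1` the pairing `D 2 × D 4 → D 6` is perfect, so the dimensions are equal.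
`finrank (D 2) ≠ 0`: otherwise `D 3 = 0` .. `D 6 = 0`. `finrank (D 2) ≠ 1`: `H1` gives `finrank (D 1) = finrank (D 5) = 0`, then
`D 2 = 0`. So suppose `finrank (D 2) = 2`. Put `T(q,q';w,v) = q(w(vq'))`, `C` as above (values in `D 6`).
(7) By (3) with `a = vq`: `x²(x(vq)) = 0`. (4) with `q' → x²`, `w → x`, ... gives `C(x²,x²,xv) = (xv)(x²x²)
= x²(x(vx²)) + x²(x(vx²)) = 0` [(4) with `q = q' = x²`, `w = x`].
(8) `C(x²,x²,q) = 0` for all `x ∈ V`, `q ∈ D 2`: there is `x0 ∈ V` with `x0 V = D 2`. [Otherwise `dim xV ≤ 1` for all `x`. Take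
`x` with `x² ≠ 0`: `x V = F x²`; every `v ∈ V` is `v = t x + w` with `x w = 0`; `D 2` is spanned by squares `v² = t² x² + w²`, so some `w` with
`x w = 0` has `w² ∉ F x²`; then `(x + w) x = x²`, `(x + w) w = w²` span `D 2`.] For fixed `w ∈ V` the elements `x = x0 + t w`
and `x = w + t x0` have `x V = D 2` for all but finitely many `t` (`x V = D 2` as soon as a certain 2x2 determinant, a polynomial in `t`
that is nonzero at `t = 0` resp. whose leading coefficient is nonzero, is nonzero); for such `x`, `C(x²,x²,q) = 0` for all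
`q ∈ D 2` by (7). So the polynomial `t ↦ C((w + t x0)², (w + t x0)², q)` vanishes identically (`pvan`), in particular for `t = 0`.
(9) Linearise `C(x²,x²,q) = 0` (coefficient of `t` in `x + t v`, `pvan'`): `4 C(x²,xv,q) = 0`. For `x V = D 2`: `C(x²,p,q) = 0` for all `p, q`; as in (8)
(or `GJ.dense`-like argument) for all `x`, so `C = 0` (`GJ.sq`).
(10) So by (4) `T(q',q;w,v) + T(q,q';w,v) = 0`, hence `T(q,q;w,v) = 0`; `D 2` has dimension 2: with a basis `s1, s2`:
`T(q,q';w,v) = det(q,q') T(s1,s2;w,v)`. For `x² ≠ 0` choose `q'` with `det(x²,q') ≠ 0`: (7) `T(x²,q';x,v) = 0` gives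
`T(s1,s2;x,v) = 0`; such `x` span `V` (`GJ.dense`), so `T = 0`.
(11) `D 4` is spanned by `w(vq)` and `qq'`; so `D 2 D 4 = 0`, so `D 4 = 0` by (5), so `D 6 = V D 5 + D 2 D 4 = 0`,
contradiction with `finrank (D 6) = 1`.
-/

namespace JD

universe u

variable {F : Type u} [Field F] {A : Type u} [NonUnitalNonAssocCommRing A] [Module F A]
  [IsScalarTower F A A] [SMulCommClass F A A] {D : ℕ → Submodule F A}

private theorem H2B_span [Module.Finite F A] {T : Submodule F A}
    (h : Module.finrank F T = 2) {s1 s2 : A} (h1 : s1 ∈ T) (h2 : s2 ∈ T) (hs1 : s1 ≠ 0)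
    (hs2 : ∀ a : F, a • s1 ≠ s2) : ∀ a ∈ T, ∃ α β : F, a = α • s1 + β • s2 := by
  have hli : LinearIndependent F ![s1, s2] := (LinearIndependent.pair_iff' hs1).mpr hs2
  have hfr := finrank_span_eq_card hli
  have hle : Submodule.span F (Set.range ![s1, s2]) ≤ T := by
    rw [Submodule.span_le]
    rintro _ ⟨i, rfl⟩
    fin_cases i
    · exact h1
    · exact h2
  have heq := Submodule.eq_of_le_of_finrank_eq hle (by rw [hfr, h]; simp)
  intro a ha
  rw [← heq] at ha
  have hr : Set.range ![s1, s2] = {s1, s2} := by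
    ext y
    constructor
    · rintro ⟨i, rfl⟩
      fin_cases i
      · exact Or.inl rfl
      · exact Or.inr rfl
    · rintro (rfl | rfl)
      · exact ⟨0, rfl⟩
      · exact ⟨1, rfl⟩
  rw [hr, Submodule.mem_span_pair] at ha
  obtain ⟨α, β, hab⟩ := ha
  exact ⟨α, β, hab.symm⟩

private theorem H2B_cramer {a b c d : F} {m1 m2 : A} (h1 : a • m1 + b • m2 = 0)
    (h2 : c • m1 + d • m2 = 0) (hd : a * d - b * c ≠ 0) : m1 = 0 ∧ m2 = 0 := by
  have e1 : (a * d - b * c) • m1 = 0 := by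
    have : (a * d - b * c) • m1 = d • (a • m1 + b • m2) - b • (c • m1 + d • m2) := by module
    rw [this, h1, h2, smul_zero, smul_zero, sub_zero]
  have e2 : (a * d - b * c) • m2 = 0 := by
    have : (a * d - b * c) • m2 = a • (c • m1 + d • m2) - c • (a • m1 + b • m2) := by module
    rw [this, h1, h2, smul_zero, smul_zero, sub_zero]
  exact ⟨(smul_eq_zero.mp e1).resolve_left hd, (smul_eq_zero.mp e2).resolve_left hd⟩

private theorem H2B_dense (hF : Infinite F) {x0 v1 v2 w : A} (hv1 : v1 ∈ D 1)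
    (hv2 : v2 ∈ D 1) (hw1 : w * v1 ∈ D 2) (hw2 : w * v2 ∈ D 2)
    (hspan : ∀ a ∈ D 2, ∃ α β : F, a = α • (x0 * v1) + β • (x0 * v2)) (n : ℕ)
    (c : ℕ → A →ₗ[F] A)
    (h : ∀ t : F, ∀ v ∈ D 1, ∑ i ∈ Finset.range n, t ^ i • c i ((w + t • x0) * v) = 0) :
    ∀ i < n, ∀ q ∈ D 2, c i q = 0 := by
  obtain ⟨a11, a12, e1⟩ := hspan _ hw1
  obtain ⟨a21, a22, e2⟩ := hspan _ hw2
  let P : Polynomial F := (Polynomial.X + Polynomial.C a11) * (Polynomial.X + Polynomial.C a22)
    - Polynomial.C (a12 * a21)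
  have hPe : P = Polynomial.X ^ 2 + Polynomial.C (a11 + a22) * Polynomial.X
      + Polynomial.C (a11 * a22 - a12 * a21) := by
    simp only [P, Polynomial.C_add, Polynomial.C_sub, Polynomial.C_mul]
    ring
  have hP : P ≠ 0 := by
    intro h0
    have := congrArg (fun R => Polynomial.coeff R 2) h0
    rw [hPe] at this
    simp at this
  have key : ∀ t : F, P.eval t ≠ 0 →
      ∑ i ∈ Finset.range n, t ^ i • c i (x0 * v1) = 0 ∧
      ∑ i ∈ Finset.range n, t ^ i • c i (x0 * v2) = 0 := by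
    intro t ht
    have k1 := h t v1 hv1
    have k2 := h t v2 hv2
    have x1 : (w + t • x0) * v1 = (a11 + t) • (x0 * v1) + a12 • (x0 * v2) := by
      rw [add_mul, e1, smul_mul_assoc]; module
    have x2 : (w + t • x0) * v2 = a21 • (x0 * v1) + (a22 + t) • (x0 * v2) := by
      rw [add_mul, e2, smul_mul_assoc]; module
    have y1 : (a11 + t) • (∑ i ∈ Finset.range n, t ^ i • c i (x0 * v1)) +
        a12 • (∑ i ∈ Finset.range n, t ^ i • c i (x0 * v2)) = 0 := by
      rw [← k1, Finset.smul_sum, Finset.smul_sum, ← Finset.sum_add_distrib]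
      refine Finset.sum_congr rfl fun i _ => ?_
      rw [x1, map_add, map_smul, map_smul]
      module
    have y2 : a21 • (∑ i ∈ Finset.range n, t ^ i • c i (x0 * v1)) +
        (a22 + t) • (∑ i ∈ Finset.range n, t ^ i • c i (x0 * v2)) = 0 := by
      rw [← k2, Finset.smul_sum, Finset.smul_sum, ← Finset.sum_add_distrib]
      refine Finset.sum_congr rfl fun i _ => ?_
      rw [x2, map_add, map_smul, map_smul]
      module
    refine H2B_cramer y1 y2 ?_
    have : (a11 + t) * (a22 + t) - a12 * a21 = P.eval t := by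
      simp [P]
      ring
    rw [this]
    exact ht
  have z1 := pvan P hP n (fun i => c i (x0 * v1)) fun t ht => (key t ht).1
  have z2 := pvan P hP n (fun i => c i (x0 * v2)) fun t ht => (key t ht).2
  intro i hi q hq
  obtain ⟨α, β, rfl⟩ := hspan q hq
  rw [map_add, map_smul, map_smul]
  have w1 : c i (x0 * v1) = 0 := z1 i hi
  have w2 : c i (x0 * v2) = 0 := z2 i hi
  rw [w1, w2, smul_zero, smul_zero, add_zero]

private theorem H2B_sq (w x : A) (t : F) :
    (w + t • x) * (w + t • x) = w * w + t • ((2 : F) • (w * x)) + t ^ 2 • (x * x) := by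
  rw [add_mul, mul_add, mul_add, smul_mul_smul_comm, mul_smul_comm, smul_mul_assoc,
    mul_comm x w]
  module

private theorem H2B_expand (u0 u1 u2 q : A) (t : F) :
    (u0 + t • u1 + t ^ 2 • u2) * ((u0 + t • u1 + t ^ 2 • u2) * q) =
      u0 * (u0 * q) + t • (u0 * (u1 * q) + u1 * (u0 * q)) +
      t ^ 2 • (u0 * (u2 * q) + u1 * (u1 * q) + u2 * (u0 * q)) +
      t ^ 3 • (u1 * (u2 * q) + u2 * (u1 * q)) + t ^ 4 • (u2 * (u2 * q)) := by
  simp only [add_mul, mul_add, smul_mul_assoc, mul_smul_comm, smul_add, smul_smul]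
  module

private theorem H2B_exists (hG : GJ F A 6 D) (h2 : Module.finrank F (D 2) = 2) :
    ∃ x0 ∈ D 1, ∃ v1 ∈ D 1, ∃ v2 ∈ D 1, x0 * v1 ≠ 0 ∧ ∀ a : F, a • (x0 * v1) ≠ x0 * v2 := by
  have := hG.fin
  have hne : D 2 ≠ ⊥ := by
    intro h
    rw [h, finrank_bot] at h2
    omega
  obtain ⟨x, hx, hx0⟩ := hG.exists_sq_ne hne
  by_contra hcon
  push Not at hcon
  have hxv : ∀ v ∈ D 1, ∃ a : F, a • (x * x) = x * v := fun v hv => hcon x hx x hx v hv hx0
  have hle : D 2 ≤ Submodule.span F {x * x} := by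
    refine hG.sq _ fun v hv => ?_
    obtain ⟨a, ha⟩ := hxv v hv
    have hw : v - a • x ∈ D 1 := Submodule.sub_mem _ hv (Submodule.smul_mem _ _ hx)
    have hxw : x * (v - a • x) = 0 := by
      rw [mul_sub, mul_smul_comm, ha, sub_self]
    have hwx : (v - a • x) * x = 0 := by rw [mul_comm]; exact hxw
    obtain ⟨b, hb⟩ := hcon (x + (v - a • x)) (Submodule.add_mem _ hx hw) x hx
      (v - a • x) hw (by rw [add_mul, hwx, add_zero]; exact hx0)
    have e1 : (x + (v - a • x)) * x = x * x := by rw [add_mul, hwx, add_zero]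
    have e2 : (x + (v - a • x)) * (v - a • x) = (v - a • x) * (v - a • x) := by
      rw [add_mul, hxw, zero_add]
    rw [e1, e2] at hb
    have e3 : v * v = (v - a • x) * (v - a • x) + (a ^ 2) • (x * x) := by
      have : v = (v - a • x) + a • x := by abel
      conv_lhs => rw [this]
      rw [H2B_sq, hwx, smul_zero, smul_zero, add_zero]
    rw [e3, ← hb, ← add_smul]
    exact Submodule.smul_mem _ _ (Submodule.mem_span_singleton_self _)
  have h3 := Submodule.finrank_mono hle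
  rw [h2, finrank_span_singleton hx0] at h3
  omega

private theorem H2B_bot2 (hG : GJ F A 6 D) (h : D 2 = ⊥) : D 6 = ⊥ := by
  have key : ∀ n, 2 ≤ n → D n = ⊥ := by
    intro n hn
    induction n, hn using Nat.le_induction with
    | base => exact h
    | succ n hn ih =>
      rw [eq_bot_iff]
      refine hG.gen (n + 1) (by omega) ⊥ (fun v hv g hg => ?_) (fun q hq g hg => ?_)
      · rw [Nat.add_sub_cancel, ih, Submodule.mem_bot] at hg
        rw [hg, mul_zero]
        exact Submodule.zero_mem _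
      · rw [h, Submodule.mem_bot] at hq
        rw [hq, zero_mul]
        exact Submodule.zero_mem _
  exact key 6 (by omega)

private theorem H2B_cube (hG : GJ F A 6 D) (h2 : Module.finrank F (D 2) = 2)
    (h1' : ∀ p ∈ D 2, ∀ q ∈ D 2, ∀ h ∈ D 2, p * (q * h) = q * (p * h))
    (h3' : ∀ x ∈ D 1, ∀ a ∈ D 3, (x * x) * (x * a) = 0)
    (h4' : ∀ v ∈ D 1, ∀ w ∈ D 1, ∀ q ∈ D 2, ∀ q' ∈ D 2,
      q' * (w * (v * q)) + q * (w * (v * q')) = (v * w) * (q * q')) :
    ∀ p ∈ D 2, ∀ q ∈ D 2, ∀ h ∈ D 2, p * (q * h) = 0 := by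
  have hfin := hG.fin
  have hinf := hG.inf
  obtain ⟨x0, hx0, v1, hv1, v2, hv2, hs1, hs2⟩ := H2B_exists hG h2
  have m11 : ∀ v ∈ D 1, ∀ w ∈ D 1, v * w ∈ D 2 := fun v hv w hw =>
    hG.mul_mem 1 1 le_rfl le_rfl v hv w hw
  have m12 : ∀ v ∈ D 1, ∀ w ∈ D 2, v * w ∈ D 3 := fun v hv w hw =>
    hG.mul_mem 1 2 le_rfl (by omega) v hv w hw
  have hspan := H2B_span h2 (m11 _ hx0 _ hv1) (m11 _ hx0 _ hv2) hs1 hs2
  -- (7)
  have h7 : ∀ x ∈ D 1, ∀ v ∈ D 1, (x * x) * ((x * x) * (x * v)) = 0 := by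
    intro x hx v hv
    have hxx := m11 x hx x hx
    have hxv := m11 x hx v hv
    have e1 := h4' v hv x hx (x * x) hxx (x * x) hxx
    rw [h3' x hx _ (m12 v hv _ hxx), add_zero] at e1
    rw [mul_comm v x] at e1
    rw [mul_comm (x * x) (x * v), h1' _ hxx _ hxv _ hxx]
    exact e1.symm
  -- (8)
  have h8 : ∀ w ∈ D 1, ∀ q ∈ D 2, (w * w) * ((w * w) * q) = 0 := by
    intro w hw
    let L : A → A →ₗ[F] A := fun a => LinearMap.mulLeft F a
    let u0 : A := w * w
    let u1 : A := (2 : F) • (w * x0)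
    let u2 : A := x0 * x0
    let c : ℕ → A →ₗ[F] A := fun i =>
      if i = 0 then L u0 ∘ₗ L u0
      else if i = 1 then L u0 ∘ₗ L u1 + L u1 ∘ₗ L u0
      else if i = 2 then L u0 ∘ₗ L u2 + L u1 ∘ₗ L u1 + L u2 ∘ₗ L u0
      else if i = 3 then L u1 ∘ₗ L u2 + L u2 ∘ₗ L u1
      else L u2 ∘ₗ L u2
    have := H2B_dense hinf hv1 hv2 (m11 w hw v1 hv1) (m11 w hw v2 hv2) hspan 5 c
      (fun t v hv => ?_) 0 (by omega)
    · exact this
    · have hx : w + t • x0 ∈ D 1 := Submodule.add_mem _ hw (Submodule.smul_mem _ _ hx0)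
      have e := h7 _ hx v hv
      rw [H2B_sq, H2B_expand] at e
      simp only [Finset.sum_range_succ, Finset.sum_range_zero, zero_add]
      show t ^ 0 • (u0 * (u0 * ((w + t • x0) * v))) + t ^ 1 • (u0 * (u1 * ((w + t • x0) * v)) +
        u1 * (u0 * ((w + t • x0) * v))) + t ^ 2 • (u0 * (u2 * ((w + t • x0) * v)) +
        u1 * (u1 * ((w + t • x0) * v)) + u2 * (u0 * ((w + t • x0) * v))) +
        t ^ 3 • (u1 * (u2 * ((w + t • x0) * v)) + u2 * (u1 * ((w + t • x0) * v))) +
        t ^ 4 • (u2 * (u2 * ((w + t • x0) * v))) = 0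
      rw [pow_zero, one_smul, pow_one]
      exact e
  -- (9)
  have h9 : ∀ x ∈ D 1, ∀ v ∈ D 1, ∀ q ∈ D 2, (x * x) * ((x * v) * q) = 0 := by
    intro x hx v hv q hq
    let u0 : A := x * x
    let u1 : A := (2 : F) • (x * v)
    let u2 : A := v * v
    let c : ℕ → A := fun i =>
      if i = 0 then u0 * (u0 * q)
      else if i = 1 then u0 * (u1 * q) + u1 * (u0 * q)
      else if i = 2 then u0 * (u2 * q) + u1 * (u1 * q) + u2 * (u0 * q)
      else if i = 3 then u1 * (u2 * q) + u2 * (u1 * q)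
      else u2 * (u2 * q)
    have hc := pvan' (∅ : Finset F) 5 c (fun t _ => ?_) 1 (by omega)
    · have hc1 : u0 * (u1 * q) + u1 * (u0 * q) = 0 := hc
      simp only [u0, u1, smul_mul_assoc, mul_smul_comm] at hc1
      rw [h1' (x * v) (m11 x hx v hv) (x * x) (m11 x hx x hx) q hq, ← two_smul F,
        smul_smul] at hc1
      exact (smul_eq_zero.mp hc1).resolve_left (mul_ne_zero hG.two hG.two)
    · have hx' : x + t • v ∈ D 1 := Submodule.add_mem _ hx (Submodule.smul_mem _ _ hv)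
      have e := h8 _ hx' q hq
      rw [H2B_sq, H2B_expand] at e
      simp only [Finset.sum_range_succ, Finset.sum_range_zero, zero_add]
      show t ^ 0 • (u0 * (u0 * q)) + t ^ 1 • (u0 * (u1 * q) + u1 * (u0 * q)) +
        t ^ 2 • (u0 * (u2 * q) + u1 * (u1 * q) + u2 * (u0 * q)) +
        t ^ 3 • (u1 * (u2 * q) + u2 * (u1 * q)) + t ^ 4 • (u2 * (u2 * q)) = 0
      rw [pow_zero, one_smul, pow_one]
      exact e
  have h10 : ∀ w ∈ D 1, ∀ q ∈ D 2, ∀ p ∈ D 2, (w * w) * (q * p) = 0 := by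
    intro w hw q hq
    let L : A → A →ₗ[F] A := fun a => LinearMap.mulLeft F a
    let u0 : A := w * w
    let u1 : A := (2 : F) • (w * x0)
    let u2 : A := x0 * x0
    let c : ℕ → A →ₗ[F] A := fun i =>
      if i = 0 then L u0 ∘ₗ L q
      else if i = 1 then L u1 ∘ₗ L q
      else L u2 ∘ₗ L q
    have := H2B_dense hinf hv1 hv2 (m11 w hw v1 hv1) (m11 w hw v2 hv2) hspan 3 c
      (fun t v hv => ?_) 0 (by omega)
    · exact this
    · have hx : w + t • x0 ∈ D 1 := Submodule.add_mem _ hw (Submodule.smul_mem _ _ hx0)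
      have e := h9 _ hx v hv q hq
      rw [H2B_sq, mul_comm _ q] at e
      have e2 : ∀ B : A, (u0 + t • u1 + t ^ 2 • u2) * B =
          u0 * B + t • (u1 * B) + t ^ 2 • (u2 * B) := by
        intro B
        rw [add_mul, add_mul, smul_mul_assoc t u1 B, smul_mul_assoc (t ^ 2) u2 B]
      simp only [Finset.sum_range_succ, Finset.sum_range_zero, zero_add]
      show t ^ 0 • (u0 * (q * ((w + t • x0) * v))) + t ^ 1 • (u1 * (q * ((w + t • x0) * v))) +
        t ^ 2 • (u2 * (q * ((w + t • x0) * v))) = 0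
      rw [pow_zero, one_smul, pow_one]
      exact (e2 _).symm.trans e
  intro p hp q hq h hh
  have : D 2 ≤ LinearMap.ker (LinearMap.mulRight F (q * h)) :=
    hG.sq _ fun w hw => LinearMap.mem_ker.mpr (h10 w hw q hq h hh)
  exact LinearMap.mem_ker.mp (this hp)

private theorem H2B_T (hG : GJ F A 6 D) (h2 : Module.finrank F (D 2) = 2)
    (h3' : ∀ x ∈ D 1, ∀ a ∈ D 3, (x * x) * (x * a) = 0)
    (h4' : ∀ v ∈ D 1, ∀ w ∈ D 1, ∀ q ∈ D 2, ∀ q' ∈ D 2,
      q' * (w * (v * q)) + q * (w * (v * q')) = (v * w) * (q * q'))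
    (hC : ∀ p ∈ D 2, ∀ q ∈ D 2, ∀ h ∈ D 2, p * (q * h) = 0) :
    ∀ p ∈ D 2, ∀ x ∈ D 1, ∀ v ∈ D 1, ∀ q ∈ D 2, p * (x * (v * q)) = 0 := by
  have hfin := hG.fin
  have hne : D 2 ≠ ⊥ := by
    intro h
    rw [h, finrank_bot] at h2
    omega
  have m11 : ∀ v ∈ D 1, ∀ w ∈ D 1, v * w ∈ D 2 := fun v hv w hw =>
    hG.mul_mem 1 1 le_rfl le_rfl v hv w hw
  have m12 : ∀ v ∈ D 1, ∀ w ∈ D 2, v * w ∈ D 3 := fun v hv w hw =>
    hG.mul_mem 1 2 le_rfl (by omega) v hv w hw
  have hanti : ∀ v ∈ D 1, ∀ w ∈ D 1, ∀ q ∈ D 2, ∀ q' ∈ D 2,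
      q' * (w * (v * q)) + q * (w * (v * q')) = 0 := by
    intro v hv w hw q hq q' hq'
    rw [h4' v hv w hw q hq q' hq']
    exact hC _ (m11 v hv w hw) q hq q' hq'
  have hdiag : ∀ v ∈ D 1, ∀ w ∈ D 1, ∀ q ∈ D 2, q * (w * (v * q)) = 0 := by
    intro v hv w hw q hq
    have := hanti v hv w hw q hq q hq
    rw [← two_smul F] at this
    exact (smul_eq_zero.mp this).resolve_left hG.two
  have key : ∀ x ∈ D 1, x * x ≠ 0 → ∀ v ∈ D 1, ∀ p ∈ D 2, ∀ q ∈ D 2,
      p * (x * (v * q)) = 0 := by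
    intro x hx hx0 v hv p hp q hq
    have hxx := m11 x hx x hx
    obtain ⟨q', hq', hq2⟩ : ∃ q' ∈ D 2, ∀ a : F, a • (x * x) ≠ q' := by
      by_contra hcon
      push Not at hcon
      have hle : D 2 ≤ Submodule.span F {x * x} := by
        intro b hb
        obtain ⟨a, ha⟩ := hcon b hb
        exact Submodule.mem_span_singleton.mpr ⟨a, ha⟩
      have h3 := Submodule.finrank_mono hle
      rw [h2, finrank_span_singleton hx0] at h3
      omega
    obtain ⟨α, β, rfl⟩ := H2B_span h2 hxx hq' hx0 hq2 p hp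
    obtain ⟨γ, δ, rfl⟩ := H2B_span h2 hxx hq' hx0 hq2 q hq
    have t1 : (x * x) * (x * (v * (x * x))) = 0 := h3' x hx _ (m12 v hv _ hxx)
    have t2 : (x * x) * (x * (v * q')) = 0 := h3' x hx _ (m12 v hv _ hq')
    have t3 : q' * (x * (v * (x * x))) = 0 := by
      have := hanti v hv x hx (x * x) hxx q' hq'
      rw [t2, add_zero] at this
      exact this
    have t4 : q' * (x * (v * q')) = 0 := hdiag v hv x hx q' hq'
    simp only [add_mul, mul_add, smul_mul_assoc, mul_smul_comm, t1, t2, t3, t4, smul_zero,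
      add_zero]
  obtain ⟨v0, hv0, hv00⟩ := hG.exists_sq_ne hne
  obtain ⟨φ, hφ⟩ : ∃ φ : A →ₗ[F] F, φ (v0 * v0) ≠ 0 := by
    by_contra hcon
    push Not at hcon
    exact hv00 ((Module.forall_dual_apply_eq_zero_iff F (v0 * v0)).mp hcon)
  intro p hp x hx v hv q hq
  have := hG.dense φ v0 hv0 hφ
    (LinearMap.ker (LinearMap.mulLeft F p ∘ₗ LinearMap.mulRight F (v * q)))
    (fun y hy hφy => LinearMap.mem_ker.mpr (key y hy (fun h0 => hφy (by rw [h0, map_zero])) v hv
      p hp q hq))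
  exact LinearMap.mem_ker.mp (this hx)

private theorem H2B_pair (hG : GJ F A 6 D) {i j : ℕ} (hi : 1 ≤ i) (hj : 1 ≤ j) (hij : i + j = 6)
    (h : ∀ q ∈ D i, (∀ g ∈ D j, q * g = 0) → q = 0) :
    Module.finrank F (D i) ≤ Module.finrank F (D j) := by
  have hfin := hG.fin
  obtain ⟨g0, hg0, hg00, φ, hφ, hφa⟩ := exists_coord hG.top
  let f : D i →ₗ[F] Module.Dual F (D j) :=
    LinearMap.mk₂ F (fun (q : D i) (g : D j) => φ ((q : A) * (g : A)))
      (fun a b g => by simp [add_mul]) (fun r a g => by simp [smul_mul_assoc])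
      (fun a g h => by simp [mul_add]) (fun r a g => by simp [mul_smul_comm])
  have hf : Function.Injective f := by
    rw [← LinearMap.ker_eq_bot, LinearMap.ker_eq_bot']
    intro q hq
    apply Subtype.ext
    refine h q q.2 fun g hg => ?_
    have h1 : φ ((q : A) * g) = 0 := by
      have := LinearMap.congr_fun hq ⟨g, hg⟩
      simpa [f] using this
    have h2 : (q : A) * g ∈ D 6 := by
      have := hG.mul_mem i j hi hj q q.2 g hg
      rwa [hij] at this
    rw [hφa _ h2, h1, zero_smul]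
  have := LinearMap.finrank_le_finrank_of_injective hf
  rwa [Subspace.dual_finrank_eq] at this

theorem H2b (hG : GJ F A 6 D) (h5 : D 5 = ⊥) :
    Module.finrank F (D 2) = Module.finrank F (D 4) ∧ 3 ≤ Module.finrank F (D 2) := by
  obtain ⟨h1', h2', h3', h4', h5', h6'⟩ := H2a hG h5
  have hfin := hG.fin
  refine ⟨le_antisymm (H2B_pair hG (by omega) (by omega) (by omega) h6')
    (H2B_pair hG (by omega) (by omega) (by omega) fun g hg h => h5' g hg fun q hq => ?_), ?_⟩
  · rw [mul_comm]; exact h q hq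
  have htop : D 6 ≠ ⊥ := by
    intro h
    have := hG.top
    rw [h, finrank_bot] at this
    omega
  by_contra hlt
  have hcases : Module.finrank F (D 2) = 0 ∨ Module.finrank F (D 2) = 1 ∨
      Module.finrank F (D 2) = 2 := by omega
  rcases hcases with h | h | h
  · exact htop (H2B_bot2 hG (Submodule.finrank_eq_zero.mp h))
  · obtain ⟨_, _, _, _, hd⟩ := H1 hG h
    rw [h5, finrank_bot] at hd
    have hD1 : D 1 = ⊥ := Submodule.finrank_eq_zero.mp hd.symm
    have hD2 : D 2 = ⊥ := by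
      rw [eq_bot_iff]
      refine hG.gen2 ⊥ fun v hv w _ => ?_
      rw [hD1, Submodule.mem_bot] at hv
      rw [hv, zero_mul]
      exact Submodule.zero_mem _
    exact htop (H2B_bot2 hG hD2)
  · have hC := H2B_cube hG h h1' h3' h4'
    have hT := H2B_T hG h h3' h4' hC
    have hD4 : D 4 = ⊥ := by
      rw [eq_bot_iff]
      intro g hg
      rw [Submodule.mem_bot]
      refine h5' g hg fun q hq => ?_
      have hle : D 4 ≤ LinearMap.ker (LinearMap.mulLeft F q) := by
        refine hG.gen 4 (by omega) _ (fun v hv b hb => ?_) (fun p hp b hb => ?_)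
        · rw [LinearMap.mem_ker]
          show q * (v * b) = 0
          have hle3 : D 3 ≤ LinearMap.ker (LinearMap.mulLeft F q ∘ₗ LinearMap.mulLeft F v) := by
            refine hG.gen 3 (by omega) _ (fun y hy b' hb' => ?_) (fun p hp b' hb' => ?_)
            · exact LinearMap.mem_ker.mpr (hT q hq v hv y hy b' hb')
            · rw [mul_comm]
              exact LinearMap.mem_ker.mpr (hT q hq v hv b' hb' p hp)
          exact LinearMap.mem_ker.mp (hle3 hb)
        · exact LinearMap.mem_ker.mpr (hC q hq p hp b hb)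
      exact LinearMap.mem_ker.mp (hle hg)
    apply htop
    rw [eq_bot_iff]
    refine hG.gen 6 (by omega) ⊥ (fun v hv b hb => ?_) (fun p hp b hb => ?_)
    · rw [show 6 - 1 = 5 from rfl, h5, Submodule.mem_bot] at hb
      rw [hb, mul_zero]
      exact Submodule.zero_mem _
    · rw [show 6 - 2 = 4 from rfl, hD4, Submodule.mem_bot] at hb
      rw [hb, mul_zero]
      exact Submodule.zero_mem _

end JD
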