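import Pool.Agent.H9.JH.Defs

set_option autoImplicit false

/-!
# JH H3A: `dim D 3 = 1` implies `dim V D 3 ≤ 1` (class 6)

`D 3 = F a`, `a ≠ 0`, `κ : A → F` linear with `h = κ h • a` on `D 3` (`exists_coord`). Put `χ(v,q) = κ (v q)`,
`c(h;x,y) = κ (h (x y))` (`v, h, x, y ∈ V`, `q ∈ D 2`; `c` is symmetric in the last two arguments).

`H3A_rank`: THERE ARE `g ∈ D 4`, `η : A → F` linear WITH `v a = η(v) g` for `v ∈ V`, and `g ≠ 0`, or `V a = 0`.
PROOF. (S) `gJ3 x y z` on `w` : `(xy)(zw) + (yz)(xw) + (zx)(yw) = z((xy)w) + x((yz)w) + y((zx)w)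
= c(w;x,y) z a + c(w;y,z) x a + c(w;z,x) y a`. The left side is symmetric in all of `x,y,z,w`. Exchange `w` and `z` and put
`x = y = w`: for `w, z ∈ V`
  `c(w;w,w) z a + 2 c(w;w,z) w a = 3 c(z;w,w) w a`.                                             (S')
[`L(w;x,y,z) = c(w;x,y) z a + c(w;y,z) x a + c(w;z,x) y a`; `L(w;w,w,z) = L(z;w,w,w)`.]
Suppose the map `v ↦ v a`, `V → D 4` has rank `≥ 2`. Let `w ∈ V`. Some functional `θ` on `D 4` has `θ(w a) = 0` and
`θ(z a) ≠ 0` for some `z ∈ V` (as `V a ⊄ F w a`; e.g. choose `z` with `z a ∉ F w a`, and `θ` vanishing on `w a`, not on `z a`). So by (S')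
`c(w;w,w) = 0`. For all `w ∈ V`. Linearise (`w + t z`, coefficient of `t`; `pvan'`): `2 c(w;w,z) + c(z;w,w) = 0`. And (S') is
`(2 c(w;w,z) - 3 c(z;w,w)) w a = 0`. So `4 c(z;w,w) = 0` if `w a ≠ 0`. If `w a = 0`: take `w0` with `w0 a ≠ 0`;
`c(z; w + t w0, w + t w0) = 0` for `t ≠ 0`, so (`pvan'`) `c(z;w,w) = 0`. So `c(z;w,w) = 0` for all `w, z`, so `κ(z q) = 0` for all
`z ∈ V`, `q ∈ D 2` (`GJ.sq`), so `D 3 = V D 2 = 0` (`gen 3`: `D 3` is spanned by `V D 2` and `D 2 V`). Contradiction.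
If the rank is `≤ 1`: if `V a = 0` take `g = 0, η = 0`; otherwise `g = v0 a ≠ 0`, all `v a ∈ F g`; `η(v)` = the coefficient
(`η = φ ∘ (· a)` where `φ : A → F` linear with `φ g = 1`).
-/

namespace JD

universe u

variable {F : Type u} [Field F] {A : Type u} [NonUnitalNonAssocCommRing A] [Module F A]
  [IsScalarTower F A A] [SMulCommClass F A A] {c : ℕ} {D : ℕ → Submodule F A}

private theorem H3A_mm (hG : GJ F A c D) (i j k : ℕ) (hi : 1 ≤ i) (hj : 1 ≤ j)
    (hk : i + j = k) {a b : A} (ha : a ∈ D i) (hb : b ∈ D j) : a * b ∈ D k := by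
  rw [← hk]
  exact hG.mul_mem i j hi hj a ha b hb

/-- the identity `(S')` -/
private theorem H3A_S (hG : GJ F A c D) (a : A) (κ : A →ₗ[F] F)
    (h3 : ∀ h ∈ D 3, h = κ h • a) (w z : A) (hw : w ∈ D 1) (hz : z ∈ D 1) :
    κ (w * (w * w)) • (z * a) + (2 * κ (w * (w * z))) • (w * a) =
      (3 * κ (z * (w * w))) • (w * a) := by
  have e1 := gJ3 F hG.two hG.jordan w w z w
  have e2 := gJ3 F hG.two hG.jordan w w w z
  have m : ∀ {x y u : A}, x ∈ D 1 → y ∈ D 1 → u ∈ D 1 → (x * y) * u = κ (u * (x * y)) • a := by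
    intro x y u hx hy hu
    rw [mul_comm (x * y) u]
    exact h3 _ (H3A_mm hG 1 2 3 (by norm_num) (by norm_num) rfl hu
      (H3A_mm hG 1 1 2 (by norm_num) (by norm_num) rfl hx hy))
  rw [mul_comm z w, m hw hw hw, m hw hz hw, mul_smul_comm, mul_smul_comm,
    mul_comm (w * z) (w * w)] at e1
  rw [m hw hw hz, mul_smul_comm] at e2
  rw [e2] at e1
  have e3 : (2 * κ (w * (w * z))) • (w * a) =
      κ (w * (w * z)) • (w * a) + κ (w * (w * z)) • (w * a) := by
    rw [two_mul, add_smul]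
  have e4 : (3 * κ (z * (w * w))) • (w * a) =
      κ (z * (w * w)) • (w * a) + κ (z * (w * w)) • (w * a) + κ (z * (w * w)) • (w * a) := by
    rw [show (3 : F) * κ (z * (w * w)) = κ (z * (w * w)) + κ (z * (w * w)) + κ (z * (w * w)) by
      ring, add_smul, add_smul]
  rw [e3, e4, e1, add_assoc]

theorem H3A_rank (hG : GJ F A c D) (a : A) (κ : A →ₗ[F] F) (ha : a ∈ D 3) (hκ : κ a = 1)
    (h3 : ∀ h ∈ D 3, h = κ h • a) :
    (∀ v ∈ D 1, v * a = 0) ∨
      ∃ g ∈ D 4, g ≠ 0 ∧ ∃ η : A →ₗ[F] F, (∀ v ∈ D 1, v * a = η v • g) ∧ ∃ e ∈ D 1, η e = 1 := by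
  by_cases hV : ∀ v ∈ D 1, v * a = 0
  · exact Or.inl hV
  right
  push Not at hV
  obtain ⟨v0, hv0, hv0a⟩ := hV
  by_cases hline : ∀ v ∈ D 1, ∃ r : F, v * a = r • (v0 * a)
  · obtain ⟨φ, hφ⟩ : ∃ φ : A →ₗ[F] F, φ (v0 * a) ≠ 0 := by
      by_contra hcon
      push Not at hcon
      exact hv0a ((Module.forall_dual_apply_eq_zero_iff F (v0 * a)).mp hcon)
    have hval : ∀ v : A, (((φ (v0 * a))⁻¹ • φ) ∘ₗ LinearMap.mulRight F a) v =
        (φ (v0 * a))⁻¹ * φ (v * a) := fun v => rfl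
    refine ⟨v0 * a, H3A_mm hG 1 3 4 (by norm_num) (by norm_num) rfl hv0 ha, hv0a,
      ((φ (v0 * a))⁻¹ • φ) ∘ₗ LinearMap.mulRight F a, ?_, v0, hv0, ?_⟩
    · intro v hv
      obtain ⟨r, hr⟩ := hline v hv
      rw [hval, hr, map_smul, smul_eq_mul]
      congr 1
      field_simp
    · rw [hval]
      exact inv_mul_cancel₀ hφ
  exfalso
  push Not at hline
  obtain ⟨z1, hz1, hz1a⟩ := hline
  -- for every `w` there is `z` with `z a` not a multiple of `w a`
  have hex : ∀ w ∈ D 1, ∃ z ∈ D 1, ∀ r : F, z * a ≠ r • (w * a) := by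
    intro w hw
    by_contra hcon
    push Not at hcon
    obtain ⟨r, hr⟩ := hcon v0 hv0
    obtain ⟨s, hs⟩ := hcon z1 hz1
    have hr0 : r ≠ 0 := by
      intro h0
      rw [h0, zero_smul] at hr
      exact hv0a hr
    apply hz1a (s * r⁻¹)
    rw [hr, smul_smul, mul_assoc, inv_mul_cancel₀ hr0, mul_one]
    exact hs
  have h2 := hG.two
  -- step A
  have hA : ∀ w ∈ D 1, κ (w * (w * w)) = 0 := by
    intro w hw
    obtain ⟨z, hz, hza⟩ := hex w hw
    by_contra hne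
    have hS := H3A_S hG a κ h3 w z hw hz
    apply hza ((κ (w * (w * w)))⁻¹ * (3 * κ (z * (w * w)) - 2 * κ (w * (w * z))))
    have e1 : κ (w * (w * w)) • (z * a) =
        (3 * κ (z * (w * w)) - 2 * κ (w * (w * z))) • (w * a) := by
      rw [sub_smul, ← hS]
      abel
    rw [mul_smul, ← e1, smul_smul, inv_mul_cancel₀ hne, one_smul]
  -- step B
  have hB : ∀ w ∈ D 1, ∀ z ∈ D 1, κ (z * (w * w)) + 2 * κ (w * (w * z)) = 0 := by
    intro w hw z hz
    have p1 := hA (w + z) ((D 1).add_mem hw hz)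
    have p2 := hA (w - z) ((D 1).sub_mem hw hz)
    have p3 := hA w hw
    have p4 := hA z hz
    simp only [add_mul, mul_add, sub_mul, mul_sub, map_add, map_sub, mul_comm z w] at p1 p2
    have e1 : (2 : F) * (κ (z * (w * w)) + 2 * κ (w * (w * z))) = 0 := by
      linear_combination p1 - p2 - 2 * p4
    exact (mul_eq_zero.mp e1).resolve_left h2
  -- step C
  have hC1 : ∀ w ∈ D 1, w * a ≠ 0 → ∀ z ∈ D 1, κ (z * (w * w)) = 0 := by
    intro w hw hwa z hz
    have hS := H3A_S hG a κ h3 w z hw hz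
    rw [hA w hw, zero_smul, zero_add, ← sub_eq_zero, ← sub_smul, smul_eq_zero] at hS
    have e1 := hS.resolve_right hwa
    have e2 := hB w hw z hz
    have e3 : (2 : F) * (2 * κ (z * (w * w))) = 0 := by
      linear_combination e2 - e1
    exact (mul_eq_zero.mp ((mul_eq_zero.mp e3).resolve_left h2)).resolve_left h2
  have hC : ∀ w ∈ D 1, ∀ z ∈ D 1, κ (z * (w * w)) = 0 := by
    intro w hw z hz
    by_cases hwa : w * a = 0
    · have p1 := hC1 (w + v0) ((D 1).add_mem hw hv0) (by rw [add_mul, hwa, zero_add]; exact hv0a)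
        z hz
      have p2 := hC1 (w - v0) ((D 1).sub_mem hw hv0)
        (by rw [sub_mul, hwa, zero_sub]; exact neg_ne_zero.mpr hv0a) z hz
      have p3 := hC1 v0 hv0 hv0a z hz
      simp only [add_mul, mul_add, sub_mul, mul_sub, map_add, map_sub, mul_comm v0 w] at p1 p2
      have e1 : (2 : F) * κ (z * (w * w)) = 0 := by
        linear_combination p1 + p2 - 2 * p3
      exact (mul_eq_zero.mp e1).resolve_left h2
    · exact hC1 w hw hwa z hz
  -- step D
  have hD2 : ∀ z ∈ D 1, ∀ q ∈ D 2, κ (z * q) = 0 := by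
    intro z hz q hq
    have hle : D 2 ≤ LinearMap.ker (κ ∘ₗ LinearMap.mulLeft F z) := by
      apply hG.sq
      intro v hv
      rw [LinearMap.mem_ker]
      exact hC v hv z hz
    have := hle hq
    rw [LinearMap.mem_ker] at this
    exact this
  have hD3 : D 3 ≤ LinearMap.ker κ := by
    apply hG.gen 3 (le_refl 3)
    · intro v hv h hh
      rw [LinearMap.mem_ker]
      exact hD2 v hv h hh
    · intro q hq h hh
      rw [LinearMap.mem_ker, mul_comm q h]
      exact hD2 h hh q hq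
  have hk := hD3 ha
  rw [LinearMap.mem_ker, hκ] at hk
  exact one_ne_zero hk

end JD
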