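import Pool.Agent.H74.JD.Weight
import Pool.Agent.H8.JD.Pow
import Pool.Agent.H8.JD.CritPic

set_option autoImplicit false

/-!
# JH LowC: the relation `r` has degree at least 2; critical algebras with three generators have
class at least 5
-/

namespace JD

universe u v w

section

variable {F : Type u} [Field F] {J : Type v} [NonUnitalNonAssocCommRing J] [Module F J]
  [IsScalarTower F J J] [SMulCommClass F J J]
  {x : Fin 3 → J} {S : List (Fin 3) → J} {u : J} {E : Type w} [Ring E] [Algebra F E]

/-- In the picture `E` the relation `r` has no terms of degree 0 and 1, if the letters are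
independent modulo `J^2`. -/
theorem EPic.r_mem_two (P : EPic F J x S u E) (h2 : (2 : F) ≠ 0) (hS : SSys F x S)
    (hx : LinearIndependent F (fun i => (jpow F J 2).mkQ (x i))) :
    P.r ∈ P.ge (fun _ => 1) 2 := by
  classical
  have hΦ := filt_jpow (F := F) x
  -- decomposition of an element of `E`
  have dec1 : ∀ b : E, ∃ c : F, b - c • (1 : E) ∈ P.ge (fun _ => 1) 1 := by
    intro b
    have hb : b ∈ Submodule.span F (Set.range (word P.X)) := by rw [P.span]; trivial
    induction hb using Submodule.span_induction with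
    | mem y hy =>
      obtain ⟨p, rfl⟩ := hy
      rcases p with _ | ⟨i, p⟩
      · exact ⟨1, by rw [word_nil, one_smul, sub_self]; exact Submodule.zero_mem _⟩
      · refine ⟨0, ?_⟩
        rw [zero_smul, sub_zero]
        exact P.word_mem_ge _ (by simp)
    | zero => exact ⟨0, by simp⟩
    | add y z _ _ hy hz =>
      obtain ⟨c, hc⟩ := hy
      obtain ⟨d, hd⟩ := hz
      refine ⟨c + d, ?_⟩
      have : y + z - (c + d) • (1 : E) = (y - c • (1 : E)) + (z - d • (1 : E)) := by
        rw [add_smul]; abel
      rw [this]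
      exact Submodule.add_mem _ hc hd
    | smul t y _ hy =>
      obtain ⟨c, hc⟩ := hy
      refine ⟨t * c, ?_⟩
      have : t • y - (t * c) • (1 : E) = t • (y - c • (1 : E)) := by
        rw [smul_sub, smul_smul]
      rw [this]
      exact Submodule.smul_mem _ _ hc
  have dec2 : ∀ b ∈ P.ge (fun _ => 1) 1, ∃ c : Fin 3 → F,
      b - ∑ i, c i • P.X i ∈ P.ge (fun _ => 1) 2 := by
    intro b hb
    unfold EPic.ge at hb
    induction hb using Submodule.span_induction with
    | mem y hy =>
      obtain ⟨p, hp, rfl⟩ := hy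
      rcases p with _ | ⟨i, _ | ⟨j, p⟩⟩
      · simp at hp
      · refine ⟨fun k => if k = i then 1 else 0, ?_⟩
        have : ∑ k, (if k = i then (1 : F) else 0) • P.X k = P.X i := by
          simp
        rw [this, word_cons, word_nil, mul_one, sub_self]
        exact Submodule.zero_mem _
      · refine ⟨fun _ => 0, ?_⟩
        simp only [zero_smul, Finset.sum_const_zero, sub_zero]
        exact P.word_mem_ge _ (by simp; omega)
    | zero => exact ⟨fun _ => 0, by simp⟩
    | add y z _ _ hy hz =>
      obtain ⟨c, hc⟩ := hy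
      obtain ⟨d, hd⟩ := hz
      refine ⟨fun i => c i + d i, ?_⟩
      have : y + z - ∑ i, (c i + d i) • P.X i =
          (y - ∑ i, c i • P.X i) + (z - ∑ i, d i • P.X i) := by
        simp only [add_smul, Finset.sum_add_distrib]
        abel
      rw [this]
      exact Submodule.add_mem _ hc hd
    | smul t y _ hy =>
      obtain ⟨c, hc⟩ := hy
      refine ⟨fun i => t * c i, ?_⟩
      have : t • y - ∑ i, (t * c i) • P.X i = t • (y - ∑ i, c i • P.X i) := by
        simp only [mul_smul, Finset.smul_sum, smul_sub]
      rw [this]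
      exact Submodule.smul_mem _ _ hc
  have hρX : ∀ i, P.ρ (P.X i) = x i := by
    intro i
    have := P.ρ_word [i]
    rwa [word_cons, word_nil, mul_one, hS.single] at this
  -- no linear combination of the letters lies in `J^2`
  have hind : ∀ c : Fin 3 → F, ∑ i, c i • x i ∈ jpow F J 2 → ∀ i, c i = 0 := by
    intro c hc
    have h := Fintype.linearIndependent_iff.mp hx c ?_
    · exact h
    · have h3 : (jpow F J 2).mkQ (∑ i, c i • x i) = 0 := by
        rw [Submodule.mkQ_apply, Submodule.Quotient.mk_eq_zero]
        exact hc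
      rw [map_sum] at h3
      simpa only [map_smul] using h3
  -- constant term
  obtain ⟨c0, hc0⟩ := dec1 P.r
  have hc00 : c0 = 0 := by
    have h1 : P.ρ (P.X 0 * P.r) = 0 := by
      have := P.ρ_r [0] []
      rw [word_cons, word_nil, mul_one, mul_one] at this
      rw [this]
      simp [det3]
    have h2' : P.X 0 * (P.r - c0 • (1 : E)) ∈ P.ge (fun _ => 1) 2 :=
      P.mul_mem_ge (fun _ => 1) (s := 1) (t := 1) (P.X_mem_ge (fun _ => 1) 0) hc0
    have h3 : P.ρ (P.X 0 * (P.r - c0 • (1 : E))) ∈ jpow F J 2 :=
      P.rho_ge (s := 2) h2 hS hΦ h2'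
    rw [mul_sub, mul_smul_comm, mul_one, map_sub, h1, map_smul, hρX, zero_sub] at h3
    have h4 : c0 • x 0 ∈ jpow F J 2 := by
      have := Submodule.neg_mem _ h3
      rwa [neg_neg] at this
    have h5 := hind (fun i => if i = 0 then c0 else 0) (by
      have : ∑ i, (if i = 0 then c0 else 0) • x i = c0 • x 0 := by simp
      rw [this]
      exact h4) 0
    simpa using h5
  rw [hc00, zero_smul, sub_zero] at hc0
  obtain ⟨c, hc⟩ := dec2 P.r hc0
  have h6 : ∑ i, c i • x i ∈ jpow F J 2 := by
    have h7 : P.ρ (P.r - ∑ i, c i • P.X i) ∈ jpow F J 2 := P.rho_ge (s := 2) h2 hS hΦ hc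
    rw [map_sub, P.rho_r, zero_sub, map_sum] at h7
    have := Submodule.neg_mem _ h7
    rw [neg_neg] at this
    simpa only [map_smul, hρX] using this
  have h8 := hind c h6
  have : ∑ i, c i • P.X i = 0 := Finset.sum_eq_zero fun i _ => by rw [h8 i, zero_smul]
  rwa [this, sub_zero] at hc

/-- `u ∈ J^5` -/
theorem EPic.u_mem_five (P : EPic F J x S u E) (h2 : (2 : F) ≠ 0) (hS : SSys F x S)
    (hx : LinearIndependent F (fun i => (jpow F J 2).mkQ (x i))) : u ∈ jpow F J 5 :=
  P.u_mem (s := 2) h2 hS (filt_jpow (F := F) x) (P.r_mem_two h2 hS hx)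

end

end JD
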