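import Pool.Agent.H8.JD.BaseChange
import Pool.Agent.H8.JD.MinCrit
import Pool.Agent.H8.JD.CritPic
import Pool.Agent.H8.JD.C5Main
import Pool.Agent.H78.Mac.CritTwo
import Pool.Agent.H9.JH.CritLow
import Pool.Agent.H74.JD.C6
import Pool.Agent.H78.L2.Main
import Pool.Agent.H33.JD.Main7
import Pool.Agent.H13.JN.Main

set_option autoImplicit false

/-!
# JD Main: the case list (assembly skeleton)

`dim_ge_twelve`: every nilpotent Jordan algebra of dimension at most 11 over a field of
characteristic not 2 is special. The cases (each row is one theorem, owner in brackets):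
* `crit_n_le_two` (helper78): at most two generators;
* `crit_n3_c_le_four`: three generators, class at most 4 (weight argument: `r` has degree ≥ 2);
* `crit_n3_c5` (helper98), `crit_n3_c6` (helper74, uses Lemma H of helper9);
* `crit_n3_c7`, `crit_n3_c8`, `crit_n3_c9` (helper33);
* `crit_n_ge_four` (helper13).
-/

namespace JD

universe u

section cases

variable {K : Type u} [Field K] [IsAlgClosed K] {J : Type u} [NonUnitalNonAssocCommRing J]
  [Module K J] [IsScalarTower K J J] [SMulCommClass K J J] {c : ℕ} {e : J}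

theorem Crit.nilp (h : Crit K J c e) : IsNilpotentAlg K J := ⟨c + 1, by omega, h.bot⟩

theorem crit_n3_c5 (h : Crit K J 5 e) (hn : ngen K J = 3) : False :=
  class5_three h hn

theorem crit_n3_c6 (h : Crit K J 6 e) (hn : ngen K J = 3) : False :=
  crit_n3_c6_H h hn

theorem crit_n3_c7 (h : Crit K J 7 e) (hn : ngen K J = 3) : False :=
  crit_n3_c7_main h hn

theorem crit_n3_c8 (h : Crit K J 8 e) (hn : ngen K J = 3) : False :=
  crit_n3_c8_main h hn

theorem crit_n3_c9 (h : Crit K J c e) (hn : ngen K J = 3) (hc : 9 ≤ c) : False :=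
  crit_c9 h hn hc (crit_dlay_two h hn (by omega))

theorem crit_n_ge_four (h : Crit K J c e) (hn : 4 ≤ ngen K J) : False :=
  crit_n_ge_four_main h hn

theorem crit_false (h : Crit K J c e) : False := by
  by_cases h2 : ngen K J ≤ 2
  · exact crit_n_le_two h h2
  by_cases h4 : 4 ≤ ngen K J
  · exact crit_n_ge_four h h4
  have hn : ngen K J = 3 := by omega
  by_cases hc : c ≤ 4
  · exact crit_n3_c_le_four h hn hc
  by_cases hc' : 9 ≤ c
  · exact crit_n3_c9 h hn hc'
  obtain rfl | rfl | rfl | rfl : c = 5 ∨ c = 6 ∨ c = 7 ∨ c = 8 := by omega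
  · exact crit_n3_c5 h hn
  · exact crit_n3_c6 h hn
  · exact crit_n3_c7 h hn
  · exact crit_n3_c8 h hn

end cases

/-- MAIN THEOREM: nilpotent Jordan algebras of dimension at most 11 are special. -/
theorem special_of_dim_le_eleven (F : Type u) [Field F] (J : Type u)
    [NonUnitalNonAssocCommRing J] [Module F J] [IsScalarTower F J J] [SMulCommClass F J J]
    [Module.Finite F J] (h2 : (2 : F) ≠ 0) (hJ : IsJordan J) (hn : IsNilpotentAlg F J)
    (hd : Module.finrank F J ≤ 11) : IsSpecial.{u, u, u} F J := by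
  refine special_of_algClosed ?_ F J h2 hJ hn hd
  intro K _ _ J' _ _ _ _ _ h2' hJ' hn' hd'
  by_contra hs
  obtain ⟨J'', i1, i2, i3, i4, c, e, -, hcr⟩ := exists_crit K J' h2' hJ' hn' hd' hs
  exact crit_false hcr

end JD
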