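import Pool.Agent.H9.JH.PenN

set_option autoImplicit false
set_option linter.unusedSectionVars false
set_option linter.unusedSimpArgs false

/-!
# JH N1: common factor, three generators: `dim D 3 = 2` implies `dim D 4 ≤ 1` (any class `c ≥ 5`)

`N1`. `x, y, z ∈ V` dual to `l, m1, m2`, `finrank (D 1) = 3`, so `x, y, z` is a basis of `V`. `PS.polar`: `x² = 0`, `xy = 1/2 s1`, `xz = 1/2 s2`, `y² = z² = yz = 0`. `PS.comp1/2`
(`m2(z) = 1`, `m1(y) = 1`, other values 0):
 `x(xs1) = 0`, `x(xs2) = 0`, `x(ys1) = 1/2 s1²`, `x(ys2) = 1/2 s1s2`, `x(zs1) = 1/2 s1s2`, `x(zs2) = 1/2 s2²`,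
 `y(xs1) = 1/2 s1²`, `y(xs2) = 1/2 s1s2 + Δx`, `y(ys1) = 0`, `y(ys2) = Δy`, `y(zs1) = 0`, `y(zs2) = Δz`,
 `z(xs1) = 1/2 s1s2 - Δx`, `z(xs2) = 1/2 s2²`, `z(ys1) = -Δy`, `z(ys2) = 0`, `z(zs1) = -Δz`, `z(zs2) = 0`.
`D 3` is spanned by the six `v s_i`, `D 4 = V D 3 + D 2 D 2` is spanned by `s1², s1s2, s2², Δx, Δy, Δz`. Suppose `finrank (D 3) = 2`, `finrank (D 4) ≥ 2`. `X` = span of `xs1, xs2`.
CASE 2: `X = D 3`. Then `x D 3 = 0`, so `s1² = s1s2 = s2² = 0`; `D 4 = V X = F Δx` (`y(xs1) = 0, y(xs2) = Δx, z(xs1) = -Δx, z(xs2) = 0`). Contradiction.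
CASE 0: `xs1 = xs2 = 0`: `s1² = s1s2 = s2² = 0`, `Δx = 0`, `D 4 = <Δy, Δz>`, so `Δy, Δz` are independent. A relation `b1ys1 + b2ys2 + c1zs1 + c2zs2 = 0` gives (multiply by `y`, `z`)
`b2Δy + c2Δz = 0`, `b1Δy + c1Δz = 0`: all zero. So `finrank (D 3) ≥ 4`, contradiction.
CASE 1: `X` one-dimensional: there is `(a1,a2) ≠ 0` with `x(a1s1 + a2s2) = 0`. Change of basis: we may assume `xs1 = 0`. [If `a1 ≠ 0`: new `s1' = s1 + (a2/a1)s2`, `s2' = s2`, `m1' = m1`, `m2' = m2 - (a2/a1)m1`, `Δ' = Δ`,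
`x' = x`, `y' = y + (a2/a1)z`, `z' = z`: again `PS`; if `a1 = 0` exchange the indices 1, 2 first: `s1' = s2, s2' = s1, m1' = m2, m2' = m1, Δ' = -Δ, y' = z, z' = y`. Alternatively avoid the
change of basis by working with the general formulas.] So `xs1 = 0`, `xs2 ≠ 0`: `s1² = 0`, `s1s2 = 2Δx`. The table becomes
 `xs2: x ↦ 0, y ↦ 2Δx, z ↦ 1/2 s2²`; `ys1: x ↦ 0, y ↦ 0, z ↦ -Δy`; `ys2: x ↦ Δx, y ↦ Δy, z ↦ 0`; `zs1: x ↦ Δx, y ↦ 0, z ↦ -Δz`; `zs2: x ↦ 1/2 s2², y ↦ Δz, z ↦ 0`; `t := ys2 - zs1: x ↦ 0, y ↦ Δy, z ↦ Δz`.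
 `D 4 = <Δx, s2², Δy, Δz>`.
 (1a) `ys1 ∉ F xs2`: `D 3 = <xs2, ys1>`, `x D 3 = 0`, so `Δx = 0`, `s2² = 0`; `D 2 D 2 = 0`; `y D 3 = 0`, `z D 3 = <Δy>`: `finrank (D 4) ≤ 1`.
 (1b) `ys1 = αxs2`: `z`: `-Δy = 1/2 α s2²`; `y`: `0 = 2αΔx`. If `t ∉ F xs2`: `D 3 = <xs2, t>`, `x D 3 = 0`: `Δx = 0`, `s2² = 0`, `Δy = 0`: `D 4 = <Δz>`. If `t = τxs2`: `Δy = 2τΔx`, `Δz = 1/2 τ s2²`:
 `D 4 = <Δx, s2²>`, independent by assumption; so `α = 0` (from `2αΔx = 0`), `Δy = 0`, `τ = 0`, `Δz = 0`. Now `xs2: (0, 2Δx, 1/2 s2²)`, `zs1: (Δx, 0, 0)`, `zs2: (1/2 s2², 0, 0)` are independent: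
 `finrank (D 3) ≥ 3`. Contradiction.
-/

namespace JD

universe u

variable {F : Type u} [Field F] {A : Type u} [NonUnitalNonAssocCommRing A] [Module F A]
  [IsScalarTower F A A] [SMulCommClass F A A] {c : ℕ}
  {D : ℕ → Submodule F A} {s1 s2 : A} {l m1 m2 : A →ₗ[F] F} {Δ : A →ₗ[F] A}

private theorem N1_ind3 [Module.Finite F A] {T : Submodule F A} {n : ℕ}
    (hT : Module.finrank F T = n) {p q r : A} (hp : p ∈ T) (hq : q ∈ T) (hr : r ∈ T)
    (hi : ∀ a b e : F, a • p + b • q + e • r = 0 → a = 0 ∧ b = 0 ∧ e = 0) :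
    3 ≤ n ∧ (n = 3 → ∀ h ∈ T, ∃ a b e : F, h = a • p + b • q + e • r) := by
  have hli : LinearIndependent F ![p, q, r] := by
    rw [Fintype.linearIndependent_iff]
    intro g hg
    rw [Fin.sum_univ_three] at hg
    obtain ⟨h0, h1, h2⟩ := hi (g 0) (g 1) (g 2) (by simpa using hg)
    intro i
    fin_cases i <;> assumption
  have hle : Submodule.span F (Set.range ![p, q, r]) ≤ T := by
    rw [Submodule.span_le]
    rintro _ ⟨i, rfl⟩
    fin_cases i <;> assumption
  have hf := finrank_span_eq_card hli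
  rw [Fintype.card_fin] at hf
  refine ⟨?_, ?_⟩
  · have h3 := Submodule.finrank_mono hle
    rw [hf, hT] at h3
    exact h3
  · intro hn h hh
    have he := Submodule.eq_of_le_of_finrank_eq hle (by rw [hf, hT, hn])
    rw [← he, Submodule.mem_span_range_iff_exists_fun] at hh
    obtain ⟨g, hg⟩ := hh
    rw [Fin.sum_univ_three] at hg
    exact ⟨g 0, g 1, g 2, by simpa using hg.symm⟩

private theorem N1_ind2 [Module.Finite F A] {T : Submodule F A}
    (hT : Module.finrank F T = 2) {p q : A} (hp : p ∈ T) (hq : q ∈ T)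
    (hi : ∀ a b : F, a • p + b • q = 0 → a = 0 ∧ b = 0) :
    ∀ h ∈ T, ∃ a b : F, h = a • p + b • q := by
  have hli : LinearIndependent F ![p, q] := by
    rw [LinearIndependent.pair_iff]
    exact hi
  have hle : Submodule.span F (Set.range ![p, q]) ≤ T := by
    rw [Submodule.span_le]
    rintro _ ⟨i, rfl⟩
    fin_cases i <;> assumption
  have hf := finrank_span_eq_card hli
  rw [Fintype.card_fin] at hf
  intro h hh
  have he := Submodule.eq_of_le_of_finrank_eq hle (by rw [hf, hT])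
  rw [← he, Submodule.mem_span_range_iff_exists_fun] at hh
  obtain ⟨g, hg⟩ := hh
  rw [Fin.sum_univ_two] at hg
  exact ⟨g 0, g 1, by simpa using hg.symm⟩

private theorem N1_dep3 [Module.Finite F A] {T : Submodule F A}
    (hT : Module.finrank F T = 2) {p q r : A} (hp : p ∈ T) (hq : q ∈ T) (hr : r ∈ T) :
    ∃ a b e : F, (a ≠ 0 ∨ b ≠ 0 ∨ e ≠ 0) ∧ a • p + b • q + e • r = 0 := by
  by_contra hcon
  push Not at hcon
  have := (N1_ind3 hT hp hq hr fun a b e h => by
    by_contra h'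
    refine hcon a b e ?_ h
    by_contra h''
    push Not at h''
    exact h' h'').1
  omega

private theorem N1_one [Module.Finite F A] {T : Submodule F A} (g : A)
    (h : T ≤ Submodule.span F {g}) : Module.finrank F T ≤ 1 :=
  (Submodule.finrank_mono h).trans ((finrank_span_le_card _).trans (by simp))

/-- change of the basis `s1, s2` by a matrix of determinant one -/
private theorem N1_sl2 (hP : PS D s1 s2 l m1 m2 Δ) (α β γ δ : F) (hdet : α * δ - β * γ = 1) :
    PS D (α • s1 + β • s2) (γ • s1 + δ • s2) l (δ • m1 - γ • m2) (α • m2 - β • m1) Δ where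
  s1_mem := (D 2).add_mem ((D 2).smul_mem _ hP.s1_mem) ((D 2).smul_mem _ hP.s2_mem)
  s2_mem := (D 2).add_mem ((D 2).smul_mem _ hP.s1_mem) ((D 2).smul_mem _ hP.s2_mem)
  span := by
    intro q hq
    obtain ⟨a, b, rfl⟩ := hP.span q hq
    refine ⟨δ * a - γ * b, α * b - β * a, ?_⟩
    have e1 : a = (δ * a - γ * b) * α + (α * b - β * a) * γ := by
      linear_combination (-a) * hdet
    have e2 : b = (δ * a - γ * b) * β + (α * b - β * a) * δ := by
      linear_combination (-b) * hdet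
    rw [smul_add, smul_add, smul_smul, smul_smul, smul_smul, smul_smul]
    nth_rewrite 1 [e1]
    nth_rewrite 3 [e2]
    module
  li := by
    intro a b h
    obtain ⟨h1, h2⟩ := hP.li (a * α + b * γ) (a * β + b * δ) (by rw [← h]; module)
    constructor
    · linear_combination (-a) * hdet + δ * h1 - γ * h2
    · linear_combination (-b) * hdet + α * h2 - β * h1
  sq := by
    intro v hv
    rw [hP.sq v hv]
    congr 1
    simp only [LinearMap.sub_apply, LinearMap.smul_apply, smul_eq_mul]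
    have e1 : m1 v = (δ * m1 v - γ * m2 v) * α + (α * m2 v - β * m1 v) * γ := by
      linear_combination (-(m1 v)) * hdet
    have e2 : m2 v = (δ * m1 v - γ * m2 v) * β + (α * m2 v - β * m1 v) * δ := by
      linear_combination (-(m2 v)) * hdet
    have e3 : (δ * m1 v - γ * m2 v) • (α • s1 + β • s2) + (α * m2 v - β * m1 v) • (γ • s1 + δ • s2)
      = ((δ * m1 v - γ * m2 v) * α + (α * m2 v - β * m1 v) * γ) • s1 +
        ((δ * m1 v - γ * m2 v) * β + (α * m2 v - β * m1 v) * δ) • s2 := by module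
    rw [e3, ← e1, ← e2]
  dual := by
    obtain ⟨v1, hv1, v2, hv2, h1, h2, h3, h4⟩ := hP.dual
    refine ⟨α • v1 + β • v2, (D 1).add_mem ((D 1).smul_mem _ hv1) ((D 1).smul_mem _ hv2),
      γ • v1 + δ • v2, (D 1).add_mem ((D 1).smul_mem _ hv1) ((D 1).smul_mem _ hv2), ?_, ?_, ?_, ?_⟩ <;>
    simp only [LinearMap.sub_apply, LinearMap.smul_apply, smul_eq_mul, map_add, map_smul, h1, h2, h3,
      h4] <;> first | linear_combination hdet | ring
  l_ne := hP.l_ne
  d1 := by
    intro v hv h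
    have h1 := hP.d1 v hv h
    have h2 := hP.d2 v hv h
    simp only [LinearMap.sub_apply, LinearMap.smul_apply, smul_eq_mul]
    rw [add_mul, add_mul, mul_add, smul_mul_assoc, smul_mul_assoc, smul_mul_assoc, smul_mul_assoc,
      mul_smul_comm, mul_smul_comm]
    have : α • (s1 * (v * h)) + β • (s2 * (v * h)) - (α • (v * (s1 * h)) + β • (v * (s2 * h))) =
      α • (s1 * (v * h) - v * (s1 * h)) + β • (s2 * (v * h) - v * (s2 * h)) := by module
    rw [this, h1, h2]
    module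
  d2 := by
    intro v hv h
    have h1 := hP.d1 v hv h
    have h2 := hP.d2 v hv h
    simp only [LinearMap.sub_apply, LinearMap.smul_apply, smul_eq_mul]
    rw [add_mul, add_mul, mul_add, smul_mul_assoc, smul_mul_assoc, smul_mul_assoc, smul_mul_assoc,
      mul_smul_comm, mul_smul_comm]
    have : γ • (s1 * (v * h)) + δ • (s2 * (v * h)) - (γ • (v * (s1 * h)) + δ • (v * (s2 * h))) =
      γ • (s1 * (v * h) - v * (s1 * h)) + δ • (s2 * (v * h) - v * (s2 * h)) := by module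
    rw [this, h1, h2]
    module
  der := hP.der
  deg := hP.deg
  ne := hP.ne

/-- the multiplication table -/
private structure N1_tab (D : ℕ → Submodule F A) (s1 s2 : A) (Δ : A →ₗ[F] A) (x y z : A) :
    Prop where
  hx : x ∈ D 1
  hy : y ∈ D 1
  hz : z ∈ D 1
  hs1 : s1 ∈ D 2
  hs2 : s2 ∈ D 2
  V : ∀ v ∈ D 1, ∃ a b e : F, v = a • x + b • y + e • z
  S : ∀ q ∈ D 2, ∃ a b : F, q = a • s1 + b • s2
  xa1 : x * (x * s1) = 0
  xa2 : x * (x * s2) = 0
  xb1 : x * (y * s1) = (2 : F)⁻¹ • (s1 * s1)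
  xb2 : x * (y * s2) = (2 : F)⁻¹ • (s1 * s2)
  xc1 : x * (z * s1) = (2 : F)⁻¹ • (s1 * s2)
  xc2 : x * (z * s2) = (2 : F)⁻¹ • (s2 * s2)
  ya1 : y * (x * s1) = (2 : F)⁻¹ • (s1 * s1)
  ya2 : y * (x * s2) = (2 : F)⁻¹ • (s1 * s2) + Δ x
  yb1 : y * (y * s1) = 0
  yb2 : y * (y * s2) = Δ y
  yc1 : y * (z * s1) = 0
  yc2 : y * (z * s2) = Δ z
  za1 : z * (x * s1) = (2 : F)⁻¹ • (s1 * s2) - Δ x
  za2 : z * (x * s2) = (2 : F)⁻¹ • (s2 * s2)
  zb1 : z * (y * s1) = - Δ y
  zb2 : z * (y * s2) = 0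
  zc1 : z * (z * s1) = - Δ z
  zc2 : z * (z * s2) = 0

private theorem N1_mk (hG : GJ F A c D) (hP : PS D s1 s2 l m1 m2 Δ)
    (h1 : Module.finrank F (D 1) = 3) {x y z : A} (hx : x ∈ D 1) (hy : y ∈ D 1) (hz : z ∈ D 1)
    (e1 : l x = 1) (e2 : l y = 0) (e3 : l z = 0) (e4 : m1 x = 0) (e5 : m1 y = 1) (e6 : m1 z = 0)
    (e7 : m2 x = 0) (e8 : m2 y = 0) (e9 : m2 z = 1) : N1_tab D s1 s2 Δ x y z := by
  have hfin := hG.fin
  have h2 := hG.two
  have half : ∀ a b : A, (2 : F) • a = b → a = (2 : F)⁻¹ • b := by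
    intro a b h
    rw [← h, smul_smul, inv_mul_cancel₀ h2, one_smul]
  have pxx : x * x = 0 := by
    have := half _ _ (hP.polar h2 x hx x hx)
    rw [this]; simp [e1, e4, e7]
  have pyy : y * y = 0 := by
    have := half _ _ (hP.polar h2 y hy y hy)
    rw [this]; simp [e2, e5, e8]
  have pzz : z * z = 0 := by
    have := half _ _ (hP.polar h2 z hz z hz)
    rw [this]; simp [e3, e6, e9]
  have pyz : y * z = 0 := by
    have := half _ _ (hP.polar h2 y hy z hz)
    rw [this]; simp [e2, e3, e5, e6, e8, e9]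
  have pxy : x * y = (2 : F)⁻¹ • s1 := by
    have := half _ _ (hP.polar h2 x hx y hy)
    rw [this]; simp [e1, e2, e4, e5, e7, e8]
  have pxz : x * z = (2 : F)⁻¹ • s2 := by
    have := half _ _ (hP.polar h2 x hx z hz)
    rw [this]; simp [e1, e3, e4, e6, e7, e9]
  have pyx : y * x = (2 : F)⁻¹ • s1 := by rw [mul_comm, pxy]
  have pzx : z * x = (2 : F)⁻¹ • s2 := by rw [mul_comm, pxz]
  have pzy : z * y = 0 := by rw [mul_comm, pyz]
  have s21 : s2 * s1 = s1 * s2 := mul_comm _ _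
  refine ⟨hx, hy, hz, hP.s1_mem, hP.s2_mem, ?_, hP.span, ?_, ?_, ?_, ?_, ?_, ?_, ?_, ?_, ?_, ?_, ?_,
    ?_, ?_, ?_, ?_, ?_, ?_, ?_⟩
  · refine (N1_ind3 h1 hx hy hz ?_).2 rfl
    intro a b e h
    refine ⟨?_, ?_, ?_⟩
    · simpa [e1, e2, e3] using congrArg l h
    · simpa [e4, e5, e6] using congrArg m1 h
    · simpa [e7, e8, e9] using congrArg m2 h
  · rw [hP.comp1 x hx, pxx, e7]; simp [mul_smul_comm]
  · rw [hP.comp2 x hx, pxx, e4]; simp [mul_smul_comm]
  · rw [hP.comp1 x hx, pyx, e7]; simp [mul_smul_comm]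
  · rw [hP.comp2 x hx, pyx, e4]; simp [mul_smul_comm, s21]
  · rw [hP.comp1 x hx, pzx, e7]; simp [mul_smul_comm]
  · rw [hP.comp2 x hx, pzx, e4]; simp [mul_smul_comm]
  · rw [hP.comp1 y hy, pxy, e8]; simp [mul_smul_comm]
  · rw [hP.comp2 y hy, pxy, e5]; simp [mul_smul_comm, s21]
  · rw [hP.comp1 y hy, pyy, e8]; simp [mul_smul_comm]
  · rw [hP.comp2 y hy, pyy, e5]; simp [mul_smul_comm]
  · rw [hP.comp1 y hy, pzy, e8]; simp [mul_smul_comm]
  · rw [hP.comp2 y hy, pzy, e5]; simp [mul_smul_comm]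
  · rw [hP.comp1 z hz, pxz, e9]; simp [mul_smul_comm]
  · rw [hP.comp2 z hz, pxz, e6]; simp [mul_smul_comm]
  · rw [hP.comp1 z hz, pyz, e9]; simp [mul_smul_comm]
  · rw [hP.comp2 z hz, pyz, e6]; simp [mul_smul_comm]
  · rw [hP.comp1 z hz, pzz, e9]; simp [mul_smul_comm]
  · rw [hP.comp2 z hz, pzz, e6]; simp [mul_smul_comm]

private theorem N1_gen3 (hG : GJ F A c D) {x y z : A} (hT : N1_tab D s1 s2 Δ x y z)
    (T : Submodule F A) (h1 : x * s1 ∈ T) (h2 : x * s2 ∈ T) (h3 : y * s1 ∈ T) (h4 : y * s2 ∈ T)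
    (h5 : z * s1 ∈ T) (h6 : z * s2 ∈ T) : D 3 ≤ T := by
  have key : ∀ v ∈ D 1, ∀ q ∈ D 2, v * q ∈ T := by
    intro v hv q hq
    obtain ⟨a, b, e, rfl⟩ := hT.V v hv
    obtain ⟨a', b', rfl⟩ := hT.S q hq
    have : (a • x + b • y + e • z) * (a' • s1 + b' • s2) =
        (a * a') • (x * s1) + (a * b') • (x * s2) + (b * a') • (y * s1) + (b * b') • (y * s2) +
        (e * a') • (z * s1) + (e * b') • (z * s2) := by
      simp only [add_mul, mul_add, smul_mul_smul_comm]
      abel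
    rw [this]
    refine T.add_mem (T.add_mem (T.add_mem (T.add_mem (T.add_mem ?_ ?_) ?_) ?_) ?_) ?_ <;>
      apply T.smul_mem <;> assumption
  refine hG.gen 3 le_rfl T ?_ ?_
  · intro v hv h hh
    exact key v hv h hh
  · intro q hq h hh
    rw [mul_comm]
    exact key h hh q hq

private theorem N1_gen4 (hG : GJ F A c D) {x y z : A} (hT : N1_tab D s1 s2 Δ x y z)
    (T : Submodule F A) (h1 : s1 * s1 ∈ T) (h2 : s1 * s2 ∈ T) (h3 : s2 * s2 ∈ T) (h4 : Δ x ∈ T)
    (h5 : Δ y ∈ T) (h6 : Δ z ∈ T) : D 4 ≤ T := by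
  let Mx : A →ₗ[F] A := LinearMap.mulLeft F x
  let My : A →ₗ[F] A := LinearMap.mulLeft F y
  let Mz : A →ₗ[F] A := LinearMap.mulLeft F z
  have hle : D 3 ≤ T.comap Mx ⊓ T.comap My ⊓ T.comap Mz := by
    refine N1_gen3 hG hT _ ?_ ?_ ?_ ?_ ?_ ?_ <;>
    refine Submodule.mem_inf.mpr ⟨Submodule.mem_inf.mpr ⟨?_, ?_⟩, ?_⟩ <;>
    simp only [Submodule.mem_comap, Mx, My, Mz, LinearMap.mulLeft_apply, hT.xa1, hT.xa2, hT.xb1,
      hT.xb2, hT.xc1, hT.xc2, hT.ya1, hT.ya2, hT.yb1, hT.yb2, hT.yc1, hT.yc2, hT.za1, hT.za2,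
      hT.zb1, hT.zb2, hT.zc1, hT.zc2] <;>
    first
      | exact T.zero_mem
      | exact T.smul_mem _ ‹_›
      | exact T.add_mem (T.smul_mem _ ‹_›) ‹_›
      | exact T.sub_mem (T.smul_mem _ ‹_›) ‹_›
      | exact T.neg_mem ‹_›
      | assumption
  refine hG.gen 4 (by norm_num) T ?_ ?_
  · intro v hv h hh
    obtain ⟨⟨hx, hy⟩, hz⟩ := hle hh
    obtain ⟨a, b, e, rfl⟩ := hT.V v hv
    rw [add_mul, add_mul, smul_mul_assoc, smul_mul_assoc, smul_mul_assoc]
    exact T.add_mem (T.add_mem (T.smul_mem _ hx) (T.smul_mem _ hy)) (T.smul_mem _ hz)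
  · intro q hq h hh
    obtain ⟨a, b, rfl⟩ := hT.S q hq
    obtain ⟨a', b', rfl⟩ := hT.S h hh
    have : (a • s1 + b • s2) * (a' • s1 + b' • s2) =
        (a * a') • (s1 * s1) + (a * b' + b * a') • (s1 * s2) + (b * b') • (s2 * s2) := by
      simp only [add_mul, mul_add, smul_mul_smul_comm, mul_comm s2 s1]
      module
    rw [this]
    exact T.add_mem (T.add_mem (T.smul_mem _ h1) (T.smul_mem _ h2)) (T.smul_mem _ h3)

/-- the case `x s1 = 0` -/
private theorem N1_core (hG : GJ F A c D) {x y z : A} (hT : N1_tab D s1 s2 Δ x y z)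
    (h3 : Module.finrank F (D 3) = 2) (hx1 : x * s1 = 0) : Module.finrank F (D 4) ≤ 1 := by
  have hfin := hG.fin
  have h2 := hG.two
  have h2' : (2 : F)⁻¹ ≠ 0 := inv_ne_zero h2
  have m3 : ∀ v ∈ D 1, ∀ q ∈ D 2, v * q ∈ D 3 := fun v hv q hq => hG.mul_mem 1 2 le_rfl (by norm_num) v hv q hq
  have ma2 := m3 x hT.hx s2 hT.hs2
  have mb1 := m3 y hT.hy s1 hT.hs1
  have mb2 := m3 y hT.hy s2 hT.hs2
  have mc1 := m3 z hT.hz s1 hT.hs1
  have mc2 := m3 z hT.hz s2 hT.hs2
  -- `s1² = 0`, `s1 s2 = 2 Δ x`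
  have S11 : s1 * s1 = 0 := by
    have := hT.ya1
    rw [hx1, mul_zero] at this
    exact (smul_eq_zero.mp this.symm).resolve_left h2'
  have S12 : (2 : F)⁻¹ • (s1 * s2) = Δ x := by
    have := hT.za1
    rw [hx1, mul_zero] at this
    exact (sub_eq_zero.mp this.symm)
  have S12' : s1 * s2 = (2 : F) • Δ x := by
    rw [← S12, smul_smul, mul_inv_cancel₀ h2, one_smul]
  have fin1 : ∀ g : A, Δ x ∈ Submodule.span F {g} → s2 * s2 ∈ Submodule.span F {g} →
      Δ y ∈ Submodule.span F {g} → Δ z ∈ Submodule.span F {g} → Module.finrank F (D 4) ≤ 1 := by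
    intro g hgx hg22 hgy hgz
    refine N1_one g (N1_gen4 hG hT _ ?_ ?_ hg22 hgx hgy hgz)
    · rw [S11]; exact Submodule.zero_mem _
    · rw [S12']; exact Submodule.smul_mem _ _ hgx
  have self : ∀ g : A, g ∈ Submodule.span F {g} := fun g => Submodule.mem_span_singleton_self g
  have S22 : (2 : F)⁻¹ • (s2 * s2) = 0 → s2 * s2 = 0 := fun h =>
    (smul_eq_zero.mp h).resolve_left h2'
  by_cases ha2 : x * s2 = 0
  · -- `Δ x = 0`, `s2² = 0`
    have z22 : s2 * s2 = 0 := by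
      apply S22
      rw [← hT.za2, ha2, mul_zero]
    have zx : Δ x = 0 := by
      have := hT.ya2
      rw [ha2, mul_zero, S12] at this
      have : (2 : F) • Δ x = 0 := by rw [two_smul]; exact this.symm
      exact (smul_eq_zero.mp this).resolve_left h2
    by_cases hy0 : Δ y = 0
    · refine fin1 (Δ z) ?_ ?_ ?_ (self _)
      · rw [zx]; exact Submodule.zero_mem _
      · rw [z22]; exact Submodule.zero_mem _
      · rw [hy0]; exact Submodule.zero_mem _
    · obtain ⟨p, q, r, hne, hrel⟩ := N1_dep3 h3 mb1 mb2 mc1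
      have r1 : q • Δ y = 0 := by
        have := congrArg (fun h => y * h) hrel
        simpa only [mul_add, mul_smul_comm, hT.yb1, hT.yb2, hT.yc1, smul_zero, zero_add, add_zero,
          mul_zero] using this
      have r2 : p • Δ y + r • Δ z = 0 := by
        have := congrArg (fun h => z * h) hrel
        simp only [mul_add, mul_smul_comm, hT.zb1, hT.zb2, hT.zc1, smul_zero, add_zero,
          mul_zero, smul_neg] at this
        rw [← neg_add, neg_eq_zero] at this
        exact this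
      have hq : q = 0 := (smul_eq_zero.mp r1).resolve_right hy0
      have hr : r ≠ 0 := by
        intro hr
        rw [hr, zero_smul, add_zero] at r2
        have hp : p = 0 := (smul_eq_zero.mp r2).resolve_right hy0
        rcases hne with h | h | h
        · exact h hp
        · exact h hq
        · exact h hr
      refine fin1 (Δ y) ?_ ?_ (self _) ?_
      · rw [zx]; exact Submodule.zero_mem _
      · rw [z22]; exact Submodule.zero_mem _
      · rw [Submodule.mem_span_singleton]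
        refine ⟨-(r⁻¹ * p), ?_⟩
        have : r⁻¹ • (p • Δ y + r • Δ z) = 0 := by rw [r2, smul_zero]
        rw [smul_add, smul_smul, smul_smul, inv_mul_cancel₀ hr, one_smul] at this
        rw [neg_smul]
        exact (neg_eq_of_add_eq_zero_right this)
  · -- `a2 ≠ 0`
    have ya2 : y * (x * s2) = (2 : F) • Δ x := by rw [hT.ya2, S12, two_smul]
    have xb2 : x * (y * s2) = Δ x := by rw [hT.xb2, S12]
    have xc1 : x * (z * s1) = Δ x := by rw [hT.xc1, S12]
    have xb1 : x * (y * s1) = 0 := by rw [hT.xb1, S11, smul_zero]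
    -- independence of `a2` and an element which is not a multiple of it
    have indep : ∀ h : A, (∀ a : F, h ≠ a • (x * s2)) →
        ∀ a b : F, a • (x * s2) + b • h = 0 → a = 0 ∧ b = 0 := by
      intro h hh a b hab
      have hb : b = 0 := by
        by_contra hb
        apply hh (-(b⁻¹ * a))
        have : b⁻¹ • (a • (x * s2) + b • h) = 0 := by rw [hab, smul_zero]
        rw [smul_add, smul_smul, smul_smul, inv_mul_cancel₀ hb, one_smul] at this
        rw [neg_smul]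
        exact (neg_eq_of_add_eq_zero_right this).symm
      refine ⟨?_, hb⟩
      rw [hb, zero_smul, add_zero] at hab
      exact (smul_eq_zero.mp hab).resolve_right ha2
    by_cases hb1 : ∃ α : F, y * s1 = α • (x * s2)
    · obtain ⟨α, hα⟩ := hb1
      have Dy : Δ y = -(α • ((2 : F)⁻¹ • (s2 * s2))) := by
        have := hT.zb1
        rw [hα, mul_smul_comm, hT.za2] at this
        rw [this, neg_neg]
      by_cases ht : ∃ τ : F, y * s2 - z * s1 = τ • (x * s2)
      · obtain ⟨τ, hτ⟩ := ht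
        have Dy2 : Δ y = (τ * 2) • Δ x := by
          have := congrArg (fun h => y * h) hτ
          simp only [mul_sub, mul_smul_comm, hT.yb2, hT.yc1, sub_zero, ya2, smul_smul] at this
          exact this
        have Dz2 : Δ z = τ • ((2 : F)⁻¹ • (s2 * s2)) := by
          have := congrArg (fun h => z * h) hτ
          simp only [mul_sub, mul_smul_comm, hT.zb2, hT.zc1, hT.za2, sub_neg_eq_add, zero_add] at this
          exact this
        obtain ⟨p, q, r, hne, hrel⟩ := N1_dep3 h3 ma2 mc1 mc2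
        have r1 : q • Δ x + r • ((2 : F)⁻¹ • (s2 * s2)) = 0 := by
          have := congrArg (fun h => x * h) hrel
          simpa only [mul_add, mul_smul_comm, hT.xa2, xc1, hT.xc2, smul_zero, zero_add,
            mul_zero] using this
        by_cases hq : q = 0
        · by_cases hr : r = 0
          · exfalso
            rw [hq, hr, zero_smul, zero_smul, add_zero, add_zero] at hrel
            have hp : p = 0 := (smul_eq_zero.mp hrel).resolve_right ha2
            rcases hne with h | h | h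
            · exact h hp
            · exact h hq
            · exact h hr
          · rw [hq, zero_smul, zero_add] at r1
            have z22 : s2 * s2 = 0 := S22 ((smul_eq_zero.mp r1).resolve_left hr)
            refine fin1 (Δ x) (self _) ?_ ?_ ?_
            · rw [z22]; exact Submodule.zero_mem _
            · rw [Dy2]; exact Submodule.smul_mem _ _ (self _)
            · rw [Dz2, z22, smul_zero, smul_zero]; exact Submodule.zero_mem _
        · have hx : Δ x ∈ Submodule.span F {s2 * s2} := by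
            rw [Submodule.mem_span_singleton]
            refine ⟨-(q⁻¹ * r * 2⁻¹), ?_⟩
            have : q⁻¹ • (q • Δ x + r • ((2 : F)⁻¹ • (s2 * s2))) = 0 := by rw [r1, smul_zero]
            rw [smul_add, smul_smul, inv_mul_cancel₀ hq, one_smul, smul_smul, smul_smul] at this
            rw [neg_smul]
            exact (neg_eq_of_add_eq_zero_left this)
          refine fin1 (s2 * s2) hx (self _) ?_ ?_
          · rw [Dy2]; exact Submodule.smul_mem _ _ hx
          · rw [Dz2]; exact Submodule.smul_mem _ _ (Submodule.smul_mem _ _ (self _))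
      · push Not at ht
        -- `D 3 = <a2, t>`, `x D 3 = 0`
        have sp := N1_ind2 h3 ma2 ((D 3).sub_mem mb2 mc1) (indep _ ht)
        have xD3 : ∀ h ∈ D 3, x * h = 0 := by
          intro h hh
          obtain ⟨a, b, rfl⟩ := sp h hh
          rw [mul_add, mul_smul_comm, mul_smul_comm, mul_sub, hT.xa2, xb2, xc1, sub_self, smul_zero,
            smul_zero, add_zero]
        have zx : Δ x = 0 := by rw [← xb2]; exact xD3 _ mb2
        have z22 : s2 * s2 = 0 := by
          apply S22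
          rw [← hT.xc2]; exact xD3 _ mc2
        refine fin1 (Δ z) ?_ ?_ ?_ (self _)
        · rw [zx]; exact Submodule.zero_mem _
        · rw [z22]; exact Submodule.zero_mem _
        · rw [Dy, z22, smul_zero, smul_zero, neg_zero]; exact Submodule.zero_mem _
    · push Not at hb1
      have sp := N1_ind2 h3 ma2 mb1 (indep _ hb1)
      have xD3 : ∀ h ∈ D 3, x * h = 0 := by
        intro h hh
        obtain ⟨a, b, rfl⟩ := sp h hh
        rw [mul_add, mul_smul_comm, mul_smul_comm, hT.xa2, xb1, smul_zero, smul_zero, add_zero]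
      have zx : Δ x = 0 := by rw [← xb2]; exact xD3 _ mb2
      have z22 : s2 * s2 = 0 := by
        apply S22
        rw [← hT.xc2]; exact xD3 _ mc2
      have yD3 : ∀ h ∈ D 3, y * h = 0 := by
        intro h hh
        obtain ⟨a, b, rfl⟩ := sp h hh
        rw [mul_add, mul_smul_comm, mul_smul_comm, ya2, hT.yb1, zx, smul_zero, smul_zero, smul_zero,
          add_zero]
      refine fin1 0 ?_ ?_ ?_ ?_
      · rw [zx]; exact Submodule.zero_mem _
      · rw [z22]; exact Submodule.zero_mem _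
      · rw [← hT.yb2, yD3 _ mb2]; exact Submodule.zero_mem _
      · rw [← hT.yc2, yD3 _ mc2]; exact Submodule.zero_mem _

theorem N1 (hG : GJ F A c D) (hc : 5 ≤ c) (hP : PS D s1 s2 l m1 m2 Δ)
    (h1 : Module.finrank F (D 1) = 3)
    (hd : ∃ x ∈ D 1, ∃ y ∈ D 1, ∃ z ∈ D 1, l x = 1 ∧ l y = 0 ∧ l z = 0 ∧ m1 x = 0 ∧ m1 y = 1 ∧
      m1 z = 0 ∧ m2 x = 0 ∧ m2 y = 0 ∧ m2 z = 1)
    (h3 : Module.finrank F (D 3) = 2) : Module.finrank F (D 4) ≤ 1 := by
  obtain ⟨x, hx, y, hy, z, hz, e1, e2, e3, e4, e5, e6, e7, e8, e9⟩ := hd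
  have hfin := hG.fin
  have hT := N1_mk hG hP h1 hx hy hz e1 e2 e3 e4 e5 e6 e7 e8 e9
  have h2 := hG.two
  have h2' : (2 : F)⁻¹ ≠ 0 := inv_ne_zero h2
  have m3 : ∀ v ∈ D 1, ∀ q ∈ D 2, v * q ∈ D 3 := fun v hv q hq => hG.mul_mem 1 2 le_rfl (by norm_num) v hv q hq
  by_cases hi : ∀ a b : F, a • (x * s1) + b • (x * s2) = 0 → a = 0 ∧ b = 0
  · -- `D 3 = <x s1, x s2>`
    have sp := N1_ind2 h3 (m3 x hx s1 hT.hs1) (m3 x hx s2 hT.hs2) hi
    have xD3 : ∀ h ∈ D 3, x * h = 0 := by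
      intro h hh
      obtain ⟨a, b, rfl⟩ := sp h hh
      rw [mul_add, mul_smul_comm, mul_smul_comm, hT.xa1, hT.xa2, smul_zero, smul_zero, add_zero]
    have S11 : s1 * s1 = 0 := by
      refine (smul_eq_zero.mp ?_).resolve_left h2'
      rw [← hT.xb1]; exact xD3 _ (m3 y hy s1 hT.hs1)
    have S12 : s1 * s2 = 0 := by
      refine (smul_eq_zero.mp ?_).resolve_left h2'
      rw [← hT.xb2]; exact xD3 _ (m3 y hy s2 hT.hs2)
    have S22 : s2 * s2 = 0 := by
      refine (smul_eq_zero.mp ?_).resolve_left h2'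
      rw [← hT.xc2]; exact xD3 _ (m3 z hz s2 hT.hs2)
    have yD3 : ∀ h ∈ D 3, y * h ∈ Submodule.span F {Δ x} := by
      intro h hh
      obtain ⟨a, b, rfl⟩ := sp h hh
      rw [mul_add, mul_smul_comm, mul_smul_comm, hT.ya1, hT.ya2, S11, S12, smul_zero, smul_zero,
        zero_add, zero_add]
      exact Submodule.smul_mem _ _ (Submodule.mem_span_singleton_self _)
    refine N1_one (Δ x) (N1_gen4 hG hT _ ?_ ?_ ?_ (Submodule.mem_span_singleton_self _) ?_ ?_)
    · rw [S11]; exact Submodule.zero_mem _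
    · rw [S12]; exact Submodule.zero_mem _
    · rw [S22]; exact Submodule.zero_mem _
    · rw [← hT.yb2]; exact yD3 _ (m3 y hy s2 hT.hs2)
    · rw [← hT.yc2]; exact yD3 _ (m3 z hz s2 hT.hs2)
  · push Not at hi
    obtain ⟨α, β, hrel, hne⟩ := hi
    obtain ⟨γ, δ, hdet⟩ : ∃ γ δ : F, α * δ - β * γ = 1 := by
      by_cases hα : α = 0
      · have hβ := hne hα
        exact ⟨-β⁻¹, 0, by field_simp; simp⟩
      · exact ⟨0, α⁻¹, by field_simp; simp⟩
    have hP' := N1_sl2 hP α β γ δ hdet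
    have hy' : α • y + β • z ∈ D 1 := (D 1).add_mem ((D 1).smul_mem _ hy) ((D 1).smul_mem _ hz)
    have hz' : γ • y + δ • z ∈ D 1 := (D 1).add_mem ((D 1).smul_mem _ hy) ((D 1).smul_mem _ hz)
    have hT' : N1_tab D (α • s1 + β • s2) (γ • s1 + δ • s2) Δ x (α • y + β • z) (γ • y + δ • z) := by
      refine N1_mk hG hP' h1 hx hy' hz' e1 ?_ ?_ ?_ ?_ ?_ ?_ ?_ ?_ <;>
      simp only [LinearMap.sub_apply, LinearMap.smul_apply, smul_eq_mul, map_add, map_smul, e1, e2,
        e3, e4, e5, e6, e7, e8, e9] <;> first | linear_combination hdet | ring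
    refine N1_core hG hT' h3 ?_
    rw [mul_add, mul_smul_comm, mul_smul_comm]
    exact hrel

end JD
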