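import Pool.Agent.H9.JH.Defs

set_option autoImplicit false

/-!
# JH Pen: `dim D 2 = 2`: commuting multiplications, or a common factor (any class `c ≥ 2`)

`PS` is the common factor structure: `v² = l(v)(m1(v) s1 + m2(v) s2)` for `v ∈ V`, `s1, s2` a basis of `D 2`, `m1, m2` linearly independent on `V`
(dual vectors `v1, v2`), `l ≠ 0` on `V`, and a derivation `Δ` of degree 3 (`Δ = [L_s1, L_v2]`) with
`[L_s1, L_v] = m2(v) Δ`, `[L_s2, L_v] = -m1(v) Δ` for `v ∈ V`; `Δ V ≠ 0`.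

`pencil`. PROOF. `s1, s2, φ1, φ2` from `exists_coord2`. For `v ∈ V`, `h ∈ A` let `D1(v)h = s1(vh) - v(s1h)`, `D2(v)h = s2(vh) - v(s2h)`,
`b_i(v) = φ_i(v²)`. `gJ1 v h`: `b1(v)D1(v)h + b2(v)D2(v)h = 0`.
CASE A: `D1(v)h = D2(v)h = 0` for all `v ∈ V, h ∈ A`: first alternative. CASE B: `D1(v')h' ≠ 0` or `D2(v')h' ≠ 0` for some `v' ∈ V, h' ∈ A`: choose
a functional `τ : A → F` with `δ_i(v) := τ(D_i(v)h')`, `(δ1, δ2) ≠ (0,0)` on `V`, linear in `v`. `b1(v)δ1(v) + b2(v)δ2(v) = 0` for `v ∈ V`.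
* `δ1 ≠ 0` on `V`: otherwise `b2(v)δ2(v) = 0`, so (density: `x + tk`, `pvan`) `b2(v) = 0` for all `v`, but `D 2` is spanned by squares, so `D 2 ⊆ F s1`, contradiction. Same for `δ2`.
* `δ1, δ2` are linearly independent on `V`: if `δ2 = kδ1`, then `δ1(v)(b1 + kb2)(v) = 0`, `b1 + kb2 = 0` on squares, so `φ1 + kφ2 = 0` on `D 2`, contradiction.
* So there is `v2' ∈ V` with `δ2(v2') = 0, δ1(v2') ≠ 0`. For `v ∈ V ∩ ker δ2`: `b1(v)δ1(v) = 0`, so `b1(v) = 0` for all `v ∈ V ∩ ker δ2` (density along `v2'`). Choose `k0 ∈ V`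
 with `δ2(k0) = 1`, `δ1(k0) = 0` (possible by independence). `b1(v) = δ2(v) l(v)` for `v ∈ V`, with
 `l(v) := 2 b1(k0,v) - b1(k0,k0)δ2(v)`, `b1(x,y) = φ1(xy)` [write `v = δ2(v)k0 + k`, `k ∈ ker δ2`, `b1(k,k) = 0`]. Then `δ2(v)(l(v)δ1(v) + b2(v)) = 0`, so
 `b2(v) = -δ1(v)l(v)` (density). So with `m1 = δ2`, `m2 = -δ1`: `v² = l(v)(m1(v)s1 + m2(v)s2)`. `l ≠ 0` on `V` as `b1 ≠ 0`. Choose `v1, v2 ∈ V` with `m_i(v_j) = δ_ij`.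
* `gJ1`: `l(v)(m1(v)D1(v) + m2(v)D2(v)) = 0`, so by density `m1(v)D1(v)h + m2(v)D2(v)h = 0` for all `v ∈ V`, `h ∈ A`. `Δ h := D1(v2)h = s1(v2h) - v2(s1h)`. For `m1(v) = 0`: `m2(v)D2(v) = 0`, so
 `D2(v) = 0` if `m1(v) = 0` (density along `v2` in `ker m1`); so `D2(v) = m1(v)D2(v1)`. Same: `D1(v) = m2(v)D1(v2)`. At `v = v1 + v2`: `D1(v2) + D2(v1) = 0`. So `D1(v) = m2(v)Δ`, `D2(v) = -m1(v)Δ`.
* `der`: `gder`. `deg`: `mul_mem`.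
* If `Δ v = 0` for all `v ∈ V` then `Δ = 0` on all `D i`, `i ≥ 1` (`D 2`: `Δ(vw) = 0`; `D n`, `n ≥ 3`, by `gen`, strong induction), so `L_s1, L_s2` commute with `L_v` on `D i`: first alternative. Otherwise second.
-/

namespace JD

universe u

variable {F : Type u} [Field F] {A : Type u} [NonUnitalNonAssocCommRing A] [Module F A]
  [IsScalarTower F A A] [SMulCommClass F A A]

/-- common factor structure -/
structure PS (D : ℕ → Submodule F A) (s1 s2 : A) (l m1 m2 : A →ₗ[F] F) (Δ : A →ₗ[F] A) : Prop where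
  s1_mem : s1 ∈ D 2
  s2_mem : s2 ∈ D 2
  span : ∀ q ∈ D 2, ∃ a b : F, q = a • s1 + b • s2
  li : ∀ a b : F, a • s1 + b • s2 = 0 → a = 0 ∧ b = 0
  sq : ∀ v ∈ D 1, v * v = l v • (m1 v • s1 + m2 v • s2)
  dual : ∃ v1 ∈ D 1, ∃ v2 ∈ D 1, m1 v1 = 1 ∧ m2 v1 = 0 ∧ m1 v2 = 0 ∧ m2 v2 = 1
  l_ne : ∃ v ∈ D 1, l v ≠ 0
  d1 : ∀ v ∈ D 1, ∀ h : A, s1 * (v * h) - v * (s1 * h) = m2 v • Δ h
  d2 : ∀ v ∈ D 1, ∀ h : A, s2 * (v * h) - v * (s2 * h) = -(m1 v • Δ h)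
  der : ∀ p q : A, Δ (p * q) = Δ p * q + p * Δ q
  deg : ∀ i, 1 ≤ i → ∀ h ∈ D i, Δ h ∈ D (i + 3)
  ne : ∃ v ∈ D 1, Δ v ≠ 0

end JD
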