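import Pool.Agent.H9.JH.Defs

set_option autoImplicit false

/-!
# JH Rad: the radical of the top functional, and generation of the powers by `J` and `J^2`

`rad F J c i` = the elements `a` of `J^i` such that every product `b_1 (b_2 (... (b_k a)))` with
`b_j ∈ J^(n_j)`, `n_j ≥ 1`, `∑ n_j = c - i` vanishes.

PROOFS.
* `rad_mul`: for `b ∈ J^n`, `a ∈ rad i`: a word `l` applied to `b a` is the word `l ++ [(n, b)]`
  applied to `a` (`List.foldr_append`).
* `jpow_le_rad`: `l.foldr (..) a ∈ J^(i + 1 + sum)` (induction on `l`) `= J^(c+1) = 0`.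
* `rad_top`: the empty word.
* KEY (used for `rad_nd` and `jpow_gen`): strong induction on `n ≥ 3`: every `b ∈ J^n` is a sum of
  products `(r s) p` with `r ∈ J^α`, `s ∈ J^β`, `p ∈ J^γ`, `α, β, γ ≥ 1`, `α + β + γ = n`
  (`jpow_le_of` twice: `J^n` is spanned by `J^i J^j`, one of `i, j` is `≥ 2`), and by `gJ4`
  `((r s) p) h = (r s)(p h) + (r p)(s h) + (s p)(r h) - r (p (s h)) - s (p (r h))`,
  where all factors have degree `< n`.
* `rad_nd`: let `x a ∈ rad (i+1)` for all `x ∈ J` and `q a ∈ rad (i+2)` for all `q ∈ J^2`. CLAIM `b a ∈ rad (i + n)`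
  for all `b ∈ J^n`, `n ≥ 1`: `n = 1, 2` is the hypothesis, `n ≥ 3` by KEY: each term is `X (Y a)` or
  `X (Y (Z a))` with `Y a` (`Z a`) in the radical by induction, then use `rad_mul`. Now let `l` be a word with sum `c - i > 0`,
  so `l = l' ++ [(n, b)]`, and `l` applied to `a` is `l'` applied to `b a ∈ rad (i + n)`, hence `0`.
* `jpow_gen`: CLAIM: for `m, k ≥ 1`, `m + k = n ≥ 3`, `b ∈ J^m`, `h ∈ J^k`: `b h ∈ T`. Strong induction on `m`: `m = 1, 2`
  hypothesis; `m ≥ 3` by KEY: the outermost factor of each term has degree `< m` and is applied to an element of `J^(n - degree)`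
  (`mul_mem_jpow`).
-/

namespace JD

universe u

variable {F : Type u} [Field F] {J : Type u} [NonUnitalNonAssocCommRing J] [Module F J]
  [IsScalarTower F J J] [SMulCommClass F J J]

/-- the radical -/
def rad (F : Type u) [Field F] (J : Type u) [NonUnitalNonAssocCommRing J] [Module F J]
    [IsScalarTower F J J] [SMulCommClass F J J] (c i : ℕ) : Submodule F J where
  carrier := {a | a ∈ jpow F J i ∧ ∀ l : List (ℕ × J), (∀ p ∈ l, 1 ≤ p.1 ∧ p.2 ∈ jpow F J p.1) →
    (l.map Prod.fst).sum + i = c → l.foldr (fun p b => p.2 * b) a = 0}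
  zero_mem' := by
    refine ⟨Submodule.zero_mem _, fun l _ _ => ?_⟩
    induction l with
    | nil => rfl
    | cons p l ih => 
      have h : ∀ l : List (ℕ × J), l.foldr (fun p b => p.2 * b) (0 : J) = 0 := by
        intro l
        induction l with
        | nil => rfl
        | cons p l ih => simp [ih]
      exact h _
  add_mem' := by
    rintro a b ⟨ha, ha'⟩ ⟨hb, hb'⟩
    refine ⟨Submodule.add_mem _ ha hb, fun l h1 h2 => ?_⟩
    have h : ∀ l : List (ℕ × J), l.foldr (fun p b => p.2 * b) (a + b) =
        l.foldr (fun p b => p.2 * b) a + l.foldr (fun p b => p.2 * b) b := by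
      intro l
      induction l with
      | nil => rfl
      | cons p l ih => simp only [List.foldr_cons, ih, mul_add]
    rw [h, ha' l h1 h2, hb' l h1 h2, add_zero]
  smul_mem' := by
    rintro r a ⟨ha, ha'⟩
    refine ⟨Submodule.smul_mem _ r ha, fun l h1 h2 => ?_⟩
    have h : ∀ l : List (ℕ × J), l.foldr (fun p b => p.2 * b) (r • a) =
        r • l.foldr (fun p b => p.2 * b) a := by
      intro l
      induction l with
      | nil => rfl
      | cons p l ih => simp only [List.foldr_cons, ih, mul_smul_comm]
    rw [h, ha' l h1 h2, smul_zero]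

theorem rad_le (c i : ℕ) : rad F J c i ≤ jpow F J i := fun _ h => h.1

theorem rad_mul {c i n : ℕ} (hn : 1 ≤ n) {a b : J} (hb : b ∈ jpow F J n) (ha : a ∈ rad F J c i) :
    b * a ∈ rad F J c (i + n) := by
  refine ⟨?_, fun l h1 h2 => ?_⟩
  · have := mul_mem_jpow hb ha.1
    rwa [Nat.add_comm] at this
  · have h3 := ha.2 (l ++ [(n, b)]) (fun p hp => ?_) ?_
    · rw [List.foldr_append] at h3
      exact h3
    · rcases List.mem_append.mp hp with hp | hp
      · exact h1 p hp
      · rw [List.mem_singleton] at hp
        subst hp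
        exact ⟨hn, hb⟩
    · rw [List.map_append, List.sum_append]
      simp only [List.map_cons, List.map_nil, List.sum_cons, List.sum_nil]
      omega

theorem jpow_le_rad {c i : ℕ} (hbot : jpow F J (c + 1) = ⊥) :
    jpow F J (i + 1) ≤ rad F J c i := by
  intro a ha
  refine ⟨jpow_succ_le i ha, fun l h1 h2 => ?_⟩
  have key : ∀ l : List (ℕ × J), (∀ p ∈ l, 1 ≤ p.1 ∧ p.2 ∈ jpow F J p.1) →
      l.foldr (fun p b => p.2 * b) a ∈ jpow F J ((l.map Prod.fst).sum + (i + 1)) := by
    intro l
    induction l with
    | nil =>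
      intro _
      simpa using ha
    | cons p l ih =>
      intro h
      have h3 := ih fun q hq => h q (List.mem_cons_of_mem p hq)
      have h4 := mul_mem_jpow (h p List.mem_cons_self).2 h3
      rw [List.foldr_cons, List.map_cons, List.sum_cons, Nat.add_assoc]
      exact h4
  have h3 := key l h1
  rw [show (l.map Prod.fst).sum + (i + 1) = c + 1 by omega, hbot] at h3
  exact (Submodule.mem_bot F).mp h3

theorem rad_top (c : ℕ) : rad F J c c = ⊥ := by
  rw [eq_bot_iff]
  intro a ha
  exact (Submodule.mem_bot F).mpr (ha.2 [] (fun p hp => absurd hp List.not_mem_nil) (by simp))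

private theorem Rad_key {n : ℕ} (hn : 3 ≤ n) (T : Submodule F J)
    (hT : ∀ α β γ : ℕ, 1 ≤ α → 1 ≤ β → 1 ≤ γ → α + β + γ = n → ∀ r ∈ jpow F J α,
      ∀ s ∈ jpow F J β, ∀ p ∈ jpow F J γ, (r * s) * p ∈ T) : jpow F J n ≤ T := by
  have aux : ∀ i j : ℕ, 2 ≤ i → 1 ≤ j → i + j = n → ∀ a ∈ jpow F J i, ∀ b ∈ jpow F J j,
      a * b ∈ T := by
    intro i j hi hj hij a ha b hb
    have h1 : jpow F J i ≤ T.comap ((LinearMap.mul F J).flip b) := by
      refine jpow_le_of hi _ fun α β hα hβ hαβ r hr s hs => ?_
      rw [Submodule.mem_comap]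
      show (r * s) * b ∈ T
      exact hT α β j hα hβ hj (by omega) r hr s hs b hb
    exact h1 ha
  refine jpow_le_of (by omega) T fun i j hi hj hij a ha b hb => ?_
  rcases Nat.lt_or_ge i 2 with h2 | h2
  · rw [mul_comm]
    exact aux j i (by omega) hi (by omega) b hb a ha
  · exact aux i j h2 hj hij a ha b hb

theorem rad_nd (h2 : (2 : F) ≠ 0) (hJ : IsJordan J) {c i : ℕ} (hi : i < c) {a : J}
    (ha : a ∈ jpow F J i) (h : ∀ x : J, x * a ∈ rad F J c (i + 1))
    (h' : ∀ q ∈ jpow F J 2, q * a ∈ rad F J c (i + 2)) : a ∈ rad F J c i := by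
  have key : ∀ n, 1 ≤ n → ∀ b ∈ jpow F J n, b * a ∈ rad F J c (i + n) := by
    intro n
    induction n using Nat.strong_induction_on with
    | _ n ih =>
      intro hn b hb
      rcases Nat.lt_or_ge n 3 with h3 | h3
      · have : n = 1 ∨ n = 2 := by omega
        rcases this with rfl | rfl
        · exact h b
        · exact h' b hb
      · have h4 : jpow F J n ≤ (rad F J c (i + n)).comap ((LinearMap.mul F J).flip a) := by
          refine Rad_key h3 _ fun α β γ hα hβ hγ hs r hr s hs' p hp => ?_
          rw [Submodule.mem_comap]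
          show ((r * s) * p) * a ∈ rad F J c (i + n)
          rw [gJ4 F h2 hJ r s p a]
          have m1 : (r * s) * (p * a) ∈ rad F J c (i + n) := by
            have := rad_mul (by omega) (mul_mem_jpow hr hs') (ih γ (by omega) hγ p hp)
            rwa [show i + γ + (α + β) = i + n by omega] at this
          have m2 : (r * p) * (s * a) ∈ rad F J c (i + n) := by
            have := rad_mul (by omega) (mul_mem_jpow hr hp) (ih β (by omega) hβ s hs')
            rwa [show i + β + (α + γ) = i + n by omega] at this
          have m3 : (s * p) * (r * a) ∈ rad F J c (i + n) := by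
            have := rad_mul (by omega) (mul_mem_jpow hs' hp) (ih α (by omega) hα r hr)
            rwa [show i + α + (β + γ) = i + n by omega] at this
          have m4 : r * (p * (s * a)) ∈ rad F J c (i + n) := by
            have := rad_mul hα hr (rad_mul hγ hp (ih β (by omega) hβ s hs'))
            rwa [show i + β + γ + α = i + n by omega] at this
          have m5 : s * (p * (r * a)) ∈ rad F J c (i + n) := by
            have := rad_mul hβ hs' (rad_mul hγ hp (ih α (by omega) hα r hr))
            rwa [show i + α + γ + β = i + n by omega] at this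
          exact Submodule.sub_mem _ (Submodule.sub_mem _ (Submodule.add_mem _
            (Submodule.add_mem _ m1 m2) m3) m4) m5
        exact h4 hb
  refine ⟨ha, fun l h1 hsum => ?_⟩
  rcases List.eq_nil_or_concat l with rfl | ⟨l', ⟨n, b⟩, rfl⟩
  · simp only [List.map_nil, List.sum_nil] at hsum
    omega
  · rw [List.concat_eq_append] at h1 hsum ⊢
    have hp := h1 (n, b) (by simp)
    rw [List.foldr_append]
    simp only [List.foldr_cons, List.foldr_nil]
    refine (key n hp.1 b hp.2).2 l' (fun p hp => h1 p (List.mem_append_left _ hp)) ?_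
    rw [List.map_append, List.sum_append] at hsum
    simp only [List.map_cons, List.map_nil, List.sum_cons, List.sum_nil] at hsum
    omega

theorem jpow_gen (h2 : (2 : F) ≠ 0) (hJ : IsJordan J) {n : ℕ} (hn : 3 ≤ n) (T : Submodule F J)
    (h : ∀ x : J, ∀ b ∈ jpow F J (n - 1), x * b ∈ T)
    (h' : ∀ q ∈ jpow F J 2, ∀ b ∈ jpow F J (n - 2), q * b ∈ T) : jpow F J n ≤ T := by
  have key : ∀ m, 1 ≤ m → ∀ k, 1 ≤ k → m + k = n → ∀ b ∈ jpow F J m, ∀ g ∈ jpow F J k,
      b * g ∈ T := by
    intro m
    induction m using Nat.strong_induction_on with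
    | _ m ih =>
      intro hm k hk hmk b hb g hg
      rcases Nat.lt_or_ge m 3 with h3 | h3
      · have : m = 1 ∨ m = 2 := by omega
        rcases this with rfl | rfl
        · exact h b g (by rwa [show n - 1 = k by omega])
        · exact h' b hb g (by rwa [show n - 2 = k by omega])
      · have h4 : jpow F J m ≤ T.comap ((LinearMap.mul F J).flip g) := by
          refine Rad_key h3 _ fun α β γ hα hβ hγ hs r hr s hs' p hp => ?_
          rw [Submodule.mem_comap]
          show ((r * s) * p) * g ∈ T
          rw [gJ4 F h2 hJ r s p g]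
          have m1 : (r * s) * (p * g) ∈ T :=
            ih (α + β) (by omega) (by omega) (γ + k) (by omega) (by omega) _
              (mul_mem_jpow hr hs') _ (mul_mem_jpow hp hg)
          have m2 : (r * p) * (s * g) ∈ T :=
            ih (α + γ) (by omega) (by omega) (β + k) (by omega) (by omega) _
              (mul_mem_jpow hr hp) _ (mul_mem_jpow hs' hg)
          have m3 : (s * p) * (r * g) ∈ T :=
            ih (β + γ) (by omega) (by omega) (α + k) (by omega) (by omega) _
              (mul_mem_jpow hs' hp) _ (mul_mem_jpow hr hg)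
          have m4 : r * (p * (s * g)) ∈ T :=
            ih α (by omega) hα (γ + (β + k)) (by omega) (by omega) _ hr _
              (mul_mem_jpow hp (mul_mem_jpow hs' hg))
          have m5 : s * (p * (r * g)) ∈ T :=
            ih β (by omega) hβ (γ + (α + k)) (by omega) (by omega) _ hs' _
              (mul_mem_jpow hp (mul_mem_jpow hr hg))
          exact Submodule.sub_mem _ (Submodule.sub_mem _ (Submodule.add_mem _
            (Submodule.add_mem _ m1 m2) m3) m4) m5
        exact h4 hb
  refine jpow_le_of (by omega) T fun i j hi hj hij a ha b hb => ?_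
  exact key i hi j hj hij a ha b hb

end JD
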