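import Pool.Agent.H9.JH.Defs

set_option autoImplicit false

/-!
# JH T0: `D 4 ≠ 0`, and the set-up for `dim D 4 = dim D 5 = 1` (class 6)

`D4_ne`. PROOF. Suppose `D 4 = 0`. `gJ1 x q`: `x²(xq) = x(x²q) = 0` (`x²q ∈ D 4`). Linearise (`x + t w`, coefficient of `t`, or `gJ2`):
`x²(wq) + 2(xw)(xq) = 0`. `gJ3 x x q` on `w`: `(xx)(qw) + 2(xq)(xw) = q((xx)w) + 2x((xq)w) = q((xx)w)` (`(xq)w ∈ D 4`). So
`q(x²w) = 0` for all `q ∈ D 2`; `D 3` is spanned by the `x²w` (`gen 3`, `GJ.sq`), so `D 2 D 3 = 0`, so `D 5 = V D 4 + D 2 D 3 = 0`,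
`D 6 = V D 5 + D 2 D 4 = 0`, contradiction.

`TS` collects the notation for `dim D 4 = dim D 5 = dim D 6 = 1`: generators `g, f, u`, coordinates `k4, k5, k6`:
  `α(v,a) = k4(v a)`, `γ(q,q') = k4(q q')`, `ψ(v) = k5(v g)`, `π(q,a) = k5(q a)`, `ζ(v) = k6(v f)`, `β(q) = k6(q g)`,
  `ρ(a,a') = k6(a a')`.
`hζ`: `ζ ≠ 0` on `V`: otherwise `V f = 0`, `D 2 f = 0` (degree 7), `f = 0`.
`TS` moreover contains a linear form `ε` with
  (B) `β(x²) = ζ(x) ε(x)`,  (P) `π(x²,a) = α(x,a) ε(x)`   for all `x ∈ V`, `a ∈ D 3`.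

`TS_exists`: `finrank (D 4) = finrank (D 5) = 1` implies `finrank (D 3) ≤ 1` or a `TS`.
PROOF. Choose `g, f, u, k4, k5, k6` by `exists_coord`. `gJ1 x a`: `x²(xa) = x(x²a)`: (T1) `α(x,a) β(x²) = π(x²,a) ζ(x)`.
INJECTIVITY (I): if `a ∈ D 3` and `α(v,a) = 0` for all `v ∈ V` then `a = 0`: by (T1) `π(x²,a) = 0` if `ζ(x) ≠ 0`, so for all `x` (`x + t k`,
`ζ(k) ≠ 0`, `pvan'`), so `D 2 a = 0` (`GJ.sq`) and `V a = 0`.
(1) If for every `a ∈ D 3` the form `α(·,a)` vanishes on `K = V ∩ ker ζ`: then `a ↦ α(k,a)` (`k ∈ V`, `ζ(k) = 1`) is injective on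
`D 3`: `finrank (D 3) ≤ 1`. (2) Otherwise there are `a0 ∈ D 3`, `x0 ∈ K` with `α(x0,a0) ≠ 0`. For `x ∈ K`: (T1) `α(x,a0)β(x²) = 0`; so for
`x ∈ K`, `β(x²) = 0` (consider `x + t x0`: `(α(x,a0) + tα(x0,a0)) β((x+tx0)²) = 0`, so `β((x + tx0)²) = 0` for all but one `t`,
`pvan'`). Fix `k ∈ V`, `ζ(k) = 1`; `x = ζ(x)k + k'`, `k' ∈ K`: `β(x²) = ζ(x)²β(kk) + 2ζ(x)β(kk') = ζ(x)ε(x)` with
`ε(x) := 2β(kx) - β(kk)ζ(x)`. As a map on `A`: `ε = 2 k6(k x g) - ...` i.e. `ε(x) = 2 k6((k*x)*g) - k6((k*k)*g) * k6(x*f)`. Then (T1):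
`ζ(x)(π(x²,a) - α(x,a)ε(x)) = 0`, so (P) for `ζ(x) ≠ 0`, so for all `x` (`x + tk`, `pvan'`).

CONSEQUENCES of `TS` (all `x,v,w,z ∈ V`, `q ∈ D 2`, `a ∈ D 3`):
`TS.inj`: (I) as above: `α(·,a) = 0` implies `π(x²,a) = 0` by (P), so `a = 0`.
`TS.t0`: `γ(x²,xw) = α(x,x²w)`: `gJ1 x w`.
`TS.t2`: `α(v,vq) ε(v) = γ(v²,q) ψ(v)`: `gJ1 v q`: `v²(vq) = v(v²q)`; left `π(v²,vq) = α(v,vq)ε(v)`, right `γ(v²,q)ψ(v)`.
`TS.t3`: `ρ(zx²,a) = -2α(x,a)ψ(z)ζ(x) + ζ(x)ε(x)α(z,a) + (ζ(x)ε(z) + ζ(z)ε(x))α(x,a)`: `gJ4 x x z` on `a`: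
`((xx)z)a = (xx)(za) + 2(xz)(xa) - 2x(z(xa))`, and `β(xz) = 1/2(ζ(x)ε(z) + ζ(z)ε(x))` (polarise (B)).
`TS.beta`: `2 β(xz) = ζ(x)ε(z) + ζ(z)ε(x)`.
-/

namespace JD

universe u

variable {F : Type u} [Field F] {A : Type u} [NonUnitalNonAssocCommRing A] [Module F A]
  [IsScalarTower F A A] [SMulCommClass F A A] {D : ℕ → Submodule F A}


section T0tools

variable [hinf : Infinite F]

private theorem T0_van2 (S : Finset F) (c0 c1 c2 : F)
    (h : ∀ t : F, t ∉ S → c0 + t * c1 + t ^ 2 * c2 = 0) : c0 = 0 := by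
  let c : ℕ → F := fun i => if i = 0 then c0 else if i = 1 then c1 else c2
  have h1 := pvan' (F := F) (W := F) S 3 c (fun t ht => by
    rw [Finset.sum_range_succ, Finset.sum_range_succ, Finset.sum_range_one]
    simp only [c, pow_zero, pow_one, smul_eq_mul, one_mul, if_true, one_ne_zero, if_false,
      OfNat.ofNat_ne_zero, OfNat.ofNat_ne_one]
    exact h t ht) 0 (by norm_num)
  simpa [c] using h1

end T0tools

private theorem T0_mem {c : ℕ} (hG : GJ F A c D) {i j k : ℕ} (hi : 1 ≤ i) (hj : 1 ≤ j)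
    (hk : i + j = k) {a b : A} (ha : a ∈ D i) (hb : b ∈ D j) : a * b ∈ D k := by
  rw [← hk]
  exact hG.mul_mem i j hi hj a ha b hb

private theorem T0_sq (x k : A) (t : F) :
    (x + t • k) * (x + t • k) = x * x + (2 * t) • (k * x) + (t ^ 2) • (k * k) := by
  rw [add_mul, mul_add, mul_add, smul_mul_smul_comm, mul_smul_comm, smul_mul_assoc, mul_comm x k,
    mul_smul]
  module

private theorem T0_qd [Infinite F] (φ : A →ₗ[F] F) (ζ : A →ₗ[F] F) (k : A) (hk : ζ k = 1)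
    (hk1 : k ∈ D 1) (x : A) (hx : x ∈ D 1)
    (h : ∀ v ∈ D 1, ζ v ≠ 0 → φ (v * v) = 0) : φ (x * x) = 0 := by
  refine T0_van2 {-(ζ x)} (φ (x * x)) (2 * φ (k * x)) (φ (k * k)) fun t ht => ?_
  have h1 : ζ (x + t • k) ≠ 0 := by
    rw [map_add, map_smul, hk, smul_eq_mul, mul_one]
    intro h2
    apply ht
    rw [Finset.mem_singleton]
    linear_combination h2
  have h2 := h _ ((D 1).add_mem hx ((D 1).smul_mem t hk1)) h1
  rw [T0_sq, map_add, map_add, map_smul, map_smul, smul_eq_mul, smul_eq_mul] at h2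
  linear_combination h2

theorem D4_ne (hG : GJ F A 6 D) : D 4 ≠ ⊥ := by
  intro h4
  have z4 : ∀ a ∈ D 4, a = 0 := by
    intro a ha
    rw [h4] at ha
    exact (Submodule.mem_bot F).1 ha
  have key : ∀ x ∈ D 1, ∀ w ∈ D 1, ∀ q ∈ D 2, q * ((x * x) * w) = 0 := by
    intro x hx w hw q hq
    have e1 := gJ2 F hG.two hG.jordan x w q
    have e2 := gJ3 F hG.two hG.jordan x x q w
    have hxx : x * x ∈ D 2 := T0_mem hG le_rfl le_rfl rfl hx hx
    have hxw : x * w ∈ D 2 := T0_mem hG le_rfl le_rfl rfl hx hw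
    have hxq : x * q ∈ D 3 := T0_mem hG le_rfl (by norm_num) rfl hx hq
    have m1 : (x * x) * q = 0 := z4 _ (T0_mem hG (by norm_num) (by norm_num) rfl hxx hq)
    have m2 : (x * w) * q = 0 := z4 _ (T0_mem hG (by norm_num) (by norm_num) rfl hxw hq)
    have m3 : (x * q) * w = 0 := z4 _ (T0_mem hG (by norm_num) le_rfl rfl hxq hw)
    rw [m1, m2, mul_zero, mul_zero, smul_zero, add_zero, two_smul] at e1
    rw [mul_comm q x, m3, mul_zero, add_zero, add_zero, mul_comm q w, mul_comm (x * q) (x * w)] at e2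
    rw [← e2]
    linear_combination (norm := abel) e1
  let T : Submodule F A :=
    { carrier := {a | ∀ q ∈ D 2, q * a = 0}
      zero_mem' := fun q _ => mul_zero q
      add_mem' := fun {a b} ha hb q hq => by rw [mul_add, ha q hq, hb q hq, add_zero]
      smul_mem' := fun r a ha q hq => by rw [mul_smul_comm, ha q hq, smul_zero] }
  have hsq : ∀ v ∈ D 1, ∀ q ∈ D 2, v * q ∈ T := by
    intro v hv q hq
    have h1 : D 2 ≤ T.comap (LinearMap.mulLeft F v) := by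
      refine hG.sq _ fun x hx => ?_
      rw [Submodule.mem_comap, LinearMap.mulLeft_apply]
      intro q' hq'
      rw [mul_comm v (x * x)]
      exact key x hx v hv q' hq'
    have h2 := h1 hq
    rw [Submodule.mem_comap, LinearMap.mulLeft_apply] at h2
    exact h2
  have h3 : D 3 ≤ T := by
    refine hG.gen 3 le_rfl T (fun v hv h hh => hsq v hv h hh) fun q hq h hh => ?_
    rw [mul_comm]
    exact hsq h hh q hq
  have h5 : D 5 ≤ ⊥ := by
    refine hG.gen 5 (by norm_num) ⊥ (fun v _ h hh => ?_) fun q hq h hh => ?_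
    · rw [z4 h hh, mul_zero]
      exact Submodule.zero_mem _
    · rw [h3 hh q hq]
      exact Submodule.zero_mem _
  have h6 : D 6 ≤ ⊥ := by
    refine hG.gen 6 (by norm_num) ⊥ (fun v _ h hh => ?_) fun q _ h hh => ?_
    · have h1 : h = 0 := (Submodule.mem_bot F).1 (h5 hh)
      rw [h1, mul_zero]
      exact Submodule.zero_mem _
    · rw [z4 h hh, mul_zero]
      exact Submodule.zero_mem _
  have ht := hG.top
  rw [eq_bot_iff.2 h6, finrank_bot] at ht
  exact zero_ne_one ht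

/-- the set-up for one-dimensional layers 4, 5, 6 -/
structure TS (D : ℕ → Submodule F A) (g f u : A) (k4 k5 k6 ε : A →ₗ[F] F) : Prop where
  gj : GJ F A 6 D
  g_mem : g ∈ D 4
  g_one : k4 g = 1
  g_all : ∀ h ∈ D 4, h = k4 h • g
  f_mem : f ∈ D 5
  f_one : k5 f = 1
  f_all : ∀ h ∈ D 5, h = k5 h • f
  u_mem : u ∈ D 6
  u_one : k6 u = 1
  u_all : ∀ h ∈ D 6, h = k6 h • u
  hζ : ∃ x ∈ D 1, k6 (x * f) ≠ 0
  B : ∀ x ∈ D 1, k6 ((x * x) * g) = k6 (x * f) * ε x
  P : ∀ x ∈ D 1, ∀ a ∈ D 3, k5 ((x * x) * a) = k4 (x * a) * ε x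

theorem TS_exists (hG : GJ F A 6 D) (h4 : Module.finrank F (D 4) = 1)
    (h5 : Module.finrank F (D 5) = 1) :
    Module.finrank F (D 3) ≤ 1 ∨ ∃ (g f u : A) (k4 k5 k6 ε : A →ₗ[F] F),
      TS D g f u k4 k5 k6 ε := by
  classical
  have := hG.inf
  have := hG.fin
  obtain ⟨g, hg, -, k4, hk4, a4⟩ := exists_coord (F := F) h4
  obtain ⟨f, hf, hf0, k5, hk5, a5⟩ := exists_coord (F := F) h5
  obtain ⟨u, hu, -, k6, hk6, a6⟩ := exists_coord (F := F) hG.top
  have m13 : ∀ v ∈ D 1, ∀ a ∈ D 3, v * a = k4 (v * a) • g := fun v hv a ha =>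
    a4 _ (T0_mem hG le_rfl (by norm_num) rfl hv ha)
  have m23 : ∀ q ∈ D 2, ∀ a ∈ D 3, q * a = k5 (q * a) • f := fun q hq a ha =>
    a5 _ (T0_mem hG (by norm_num) (by norm_num) rfl hq ha)
  have hxx : ∀ x ∈ D 1, x * x ∈ D 2 := fun x hx => T0_mem hG le_rfl le_rfl rfl hx hx
  have T1 : ∀ x ∈ D 1, ∀ a ∈ D 3,
      k4 (x * a) * k6 ((x * x) * g) = k5 ((x * x) * a) * k6 (x * f) := by
    intro x hx a ha
    have e := congrArg k6 (gJ1 hG.jordan x a)
    rw [m13 x hx a ha, m23 _ (hxx x hx) a ha, mul_smul_comm, mul_smul_comm, map_smul, map_smul,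
      smul_eq_mul, smul_eq_mul] at e
    exact e
  have hζ : ∃ x ∈ D 1, k6 (x * f) ≠ 0 := by
    by_contra hcon
    push Not at hcon
    apply hf0
    refine hG.nd 5 (by norm_num) (by norm_num) f hf (fun v hv => ?_) fun q hq => ?_
    · rw [a6 _ (T0_mem hG le_rfl (by norm_num) rfl hv hf), hcon v hv, zero_smul]
    · exact hG.above 7 (by norm_num) _ (T0_mem hG (by norm_num) (by norm_num) rfl hq hf)
  obtain ⟨x1, hx1, hx1z⟩ := hζ
  let ζ : A →ₗ[F] F := k6 ∘ₗ LinearMap.mulRight F f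
  have ζa : ∀ x, ζ x = k6 (x * f) := fun x => rfl
  obtain ⟨k, hk1, hkz⟩ : ∃ k ∈ D 1, ζ k = 1 := by
    refine ⟨(ζ x1)⁻¹ • x1, (D 1).smul_mem _ hx1, ?_⟩
    rw [map_smul, smul_eq_mul]
    exact inv_mul_cancel₀ hx1z
  have inj : ∀ a ∈ D 3, (∀ v ∈ D 1, k4 (v * a) = 0) → a = 0 := by
    intro a ha hva
    have e1 : ∀ x ∈ D 1, k5 ((x * x) * a) = 0 := by
      intro x hx
      refine T0_qd (D := D) (k5 ∘ₗ LinearMap.mulRight F a) ζ k hkz hk1 x hx fun v hv hvz => ?_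
      have h1 := T1 v hv a ha
      rw [hva v hv, zero_mul] at h1
      exact (mul_eq_zero.1 h1.symm).resolve_right hvz
    have e2 : D 2 ≤ LinearMap.ker (k5 ∘ₗ LinearMap.mulRight F a) :=
      hG.sq _ fun v hv => by
        rw [LinearMap.mem_ker]
        exact e1 v hv
    refine hG.nd 3 (by norm_num) (by norm_num) a ha (fun v hv => ?_) fun q hq => ?_
    · rw [m13 v hv a ha, hva v hv, zero_smul]
    · have h3 : k5 (q * a) = 0 := by
        have := e2 hq
        rw [LinearMap.mem_ker] at this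
        exact this
      rw [m23 q hq a ha, h3, zero_smul]
  by_cases hcase : ∀ a ∈ D 3, ∀ x ∈ D 1, ζ x = 0 → k4 (x * a) = 0
  · left
    let φ : D 3 →ₗ[F] F := (k4 ∘ₗ LinearMap.mulLeft F k) ∘ₗ (D 3).subtype
    have hφ : Function.Injective φ := by
      rw [← LinearMap.ker_eq_bot, LinearMap.ker_eq_bot']
      rintro ⟨a, ha⟩ h0
      have h1 : k4 (k * a) = 0 := h0
      have h2 : a = 0 := by
        refine inj a ha fun v hv => ?_
        have h3 : ζ (v - ζ v • k) = 0 := by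
          rw [map_sub, map_smul, hkz, smul_eq_mul, mul_one, sub_self]
        have h4 := hcase a ha _ ((D 1).sub_mem hv ((D 1).smul_mem _ hk1)) h3
        rw [sub_mul, smul_mul_assoc, map_sub, map_smul, h1, smul_zero, sub_zero] at h4
        exact h4
      ext
      exact h2
    have h3 := LinearMap.finrank_le_finrank_of_injective hφ
    rwa [Module.finrank_self] at h3
  · right
    push Not at hcase
    obtain ⟨a0, ha0, x0, hx0, hx0z, hα0⟩ := hcase
    have hK : ∀ x ∈ D 1, ζ x = 0 → k6 ((x * x) * g) = 0 := by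
      intro x hx hxz
      refine T0_van2 {-(k4 (x * a0)) / k4 (x0 * a0)} (k6 ((x * x) * g)) (2 * k6 ((x0 * x) * g))
        (k6 ((x0 * x0) * g)) fun t ht => ?_
      have h1 := T1 (x + t • x0) ((D 1).add_mem hx ((D 1).smul_mem t hx0)) a0 ha0
      have h2 : k6 ((x + t • x0) * f) = 0 := by
        rw [← ζa, map_add, map_smul, hxz, hx0z, smul_zero, add_zero]
      rw [h2, mul_zero] at h1
      have h3 : k4 ((x + t • x0) * a0) ≠ 0 := by
        rw [add_mul, smul_mul_assoc, map_add, map_smul, smul_eq_mul]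
        intro h4
        apply ht
        rw [Finset.mem_singleton, eq_div_iff hα0]
        linear_combination h4
      have h5 := (mul_eq_zero.1 h1).resolve_left h3
      rw [T0_sq, add_mul, add_mul, smul_mul_assoc, smul_mul_assoc, map_add, map_add, map_smul,
        map_smul, smul_eq_mul, smul_eq_mul] at h5
      linear_combination h5
    let ε : A →ₗ[F] F := (2 : F) • (k6 ∘ₗ LinearMap.mulRight F g ∘ₗ LinearMap.mulLeft F k) -
      (k6 ((k * k) * g)) • ζ
    have εa : ∀ x, ε x = 2 * k6 ((k * x) * g) - k6 ((k * k) * g) * ζ x := fun x => rfl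
    have hB : ∀ x ∈ D 1, k6 ((x * x) * g) = k6 (x * f) * ε x := by
      intro x hx
      have h3 : ζ (x + (-ζ x) • k) = 0 := by
        rw [map_add, map_smul, hkz, smul_eq_mul, mul_one, add_neg_cancel]
      have h4 := hK _ ((D 1).add_mem hx ((D 1).smul_mem _ hk1)) h3
      rw [T0_sq, add_mul, add_mul, smul_mul_assoc, smul_mul_assoc, map_add, map_add, map_smul,
        map_smul, smul_eq_mul, smul_eq_mul] at h4
      rw [εa, ← ζa]
      linear_combination h4
    refine ⟨g, f, u, k4, k5, k6, ε, hG, hg, hk4, a4, hf, hk5, a5, hu, hk6, a6, ⟨x1, hx1, hx1z⟩,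
      hB, ?_⟩
    intro x hx a ha
    have hne : ∀ v ∈ D 1, ζ v ≠ 0 → k5 ((v * v) * a) - k4 (v * a) * ε v = 0 := by
      intro v hv hvz
      have h1 := T1 v hv a ha
      rw [hB v hv] at h1
      have h2 : k6 (v * f) * (k5 ((v * v) * a) - k4 (v * a) * ε v) = 0 := by
        linear_combination -h1
      exact (mul_eq_zero.1 h2).resolve_left hvz
    have h0 : k5 ((x * x) * a) - k4 (x * a) * ε x = 0 := by
      refine T0_van2 {-(ζ x)} (k5 ((x * x) * a) - k4 (x * a) * ε x)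
        (2 * k5 ((k * x) * a) - (k4 (x * a) * ε k + k4 (k * a) * ε x))
        (k5 ((k * k) * a) - k4 (k * a) * ε k) fun t ht => ?_
      have h1 : ζ (x + t • k) ≠ 0 := by
        rw [map_add, map_smul, hkz, smul_eq_mul, mul_one]
        intro h2
        apply ht
        rw [Finset.mem_singleton]
        linear_combination h2
      have h2 := hne _ ((D 1).add_mem hx ((D 1).smul_mem t hk1)) h1
      rw [T0_sq, add_mul, add_mul, add_mul, smul_mul_assoc, smul_mul_assoc, smul_mul_assoc, map_add,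
        map_add, map_add, map_add, map_smul, map_smul, map_smul, map_smul, smul_eq_mul,
        smul_eq_mul, smul_eq_mul, smul_eq_mul] at h2
      linear_combination h2
    linear_combination h0

variable {g f u : A} {k4 k5 k6 ε : A →ₗ[F] F}

theorem TS.inj (hT : TS D g f u k4 k5 k6 ε) (a : A) (ha : a ∈ D 3)
    (h : ∀ v ∈ D 1, k4 (v * a) = 0) : a = 0 := by
  have hG := hT.gj
  have e2 : D 2 ≤ LinearMap.ker (k5 ∘ₗ LinearMap.mulRight F a) :=
    hG.sq _ fun v hv => by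
      rw [LinearMap.mem_ker]
      change k5 ((v * v) * a) = 0
      rw [hT.P v hv a ha, h v hv, zero_mul]
  refine hG.nd 3 (by norm_num) (by norm_num) a ha (fun v hv => ?_) fun q hq => ?_
  · rw [hT.g_all _ (T0_mem hG le_rfl (by norm_num) rfl hv ha), h v hv, zero_smul]
  · have h3 : k5 (q * a) = 0 := by
      have := e2 hq
      rw [LinearMap.mem_ker] at this
      exact this
    rw [hT.f_all _ (T0_mem hG (by norm_num) (by norm_num) rfl hq ha), h3, zero_smul]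

theorem TS.t0 (hT : TS D g f u k4 k5 k6 ε) (x w : A) :
    k4 ((x * x) * (x * w)) = k4 (x * ((x * x) * w)) :=
  congrArg k4 (gJ1 hT.gj.jordan x w)

theorem TS.t2 (hT : TS D g f u k4 k5 k6 ε) (v : A) (hv : v ∈ D 1) (q : A) (hq : q ∈ D 2) :
    k4 (v * (v * q)) * ε v = k4 ((v * v) * q) * k5 (v * g) := by
  have hG := hT.gj
  have hvv : v * v ∈ D 2 := T0_mem hG le_rfl le_rfl rfl hv hv
  have e := congrArg k5 (gJ1 hG.jordan v q)
  rw [hT.P v hv _ (T0_mem hG le_rfl (by norm_num) rfl hv hq),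
    hT.g_all _ (T0_mem hG (by norm_num) (by norm_num) rfl hvv hq), mul_smul_comm, map_smul,
    smul_eq_mul] at e
  exact e

theorem TS.beta (hT : TS D g f u k4 k5 k6 ε) (x : A) (hx : x ∈ D 1) (z : A) (hz : z ∈ D 1) :
    2 * k6 ((x * z) * g) = k6 (x * f) * ε z + k6 (z * f) * ε x := by
  have h1 := hT.B x hx
  have h2 := hT.B z hz
  have h3 := hT.B (x + z) ((D 1).add_mem hx hz)
  have e : (x + z) * (x + z) = x * x + (2 : F) • (x * z) + z * z := by
    rw [add_mul, mul_add, mul_add, mul_comm z x, two_smul]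
    abel
  rw [e, add_mul, add_mul, add_mul, smul_mul_assoc, map_add, map_add, map_add, map_add, map_smul,
    smul_eq_mul] at h3
  linear_combination h3 - h1 - h2

theorem TS.t3 (hT : TS D g f u k4 k5 k6 ε) (x : A) (hx : x ∈ D 1) (z : A) (hz : z ∈ D 1)
    (a : A) (ha : a ∈ D 3) :
    k6 ((z * (x * x)) * a) = -2 * k4 (x * a) * k5 (z * g) * k6 (x * f)
      + k6 (x * f) * ε x * k4 (z * a)
      + (k6 (x * f) * ε z + k6 (z * f) * ε x) * k4 (x * a) := by
  have hG := hT.gj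
  have e := congrArg k6 (gJ4 F hG.two hG.jordan x x z a)
  have m1 : z * a = k4 (z * a) • g := hT.g_all _ (T0_mem hG le_rfl (by norm_num) rfl hz ha)
  have m2 : x * a = k4 (x * a) • g := hT.g_all _ (T0_mem hG le_rfl (by norm_num) rfl hx ha)
  have m3 : z * g = k5 (z * g) • f :=
    hT.f_all _ (T0_mem hG le_rfl (by norm_num) rfl hz hT.g_mem)
  have c1 : k6 ((x * x) * (z * a)) = k4 (z * a) * (k6 (x * f) * ε x) := by
    rw [m1, mul_smul_comm, map_smul, hT.B x hx, smul_eq_mul, ← m1]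
  have c2 : k6 ((x * z) * (x * a)) = k4 (x * a) * k6 ((x * z) * g) := by
    rw [m2, mul_smul_comm, map_smul, smul_eq_mul, ← m2]
  have c3 : k6 (x * (z * (x * a))) = k4 (x * a) * (k5 (z * g) * k6 (x * f)) := by
    rw [m2, mul_smul_comm, mul_smul_comm, map_smul, m3, mul_smul_comm, map_smul, smul_eq_mul,
      smul_eq_mul, ← m2, ← m3]
  rw [map_sub, map_sub, map_add, map_add, c1, c2, c3, mul_comm (x * x) z] at e
  have hb := hT.beta x hx z hz
  linear_combination e + k4 (x * a) * hb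

end JD
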