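import Pool.Agent.H9.JH.T0

set_option autoImplicit false

/-!
# JH T1A: `dim D 4 = dim D 5 = 1`, the case `ε = 0`

Notation of `T0`: `α(v,a) = k4(v a)`, `γ(q,q') = k4(q q')`, `ψ(v) = k5(v g)`, `ζ(v) = k6(v f)`, `β(q) = k6(q g)`,
`ρ(a,a') = k6(a a')` (symmetric), and (T0) `γ(x²,xw) = α(x,x²w)`, (T2) `α(v,vq)ε(v) = γ(v²,q)ψ(v)`, (T3) the formula for `ρ(zx²,a)`,
(I) injectivity. `D 3` is spanned by the `z x²` (`gen 3`, `GJ.sq`), `D 2` by the squares. DENSITY: an identity in `x ∈ V` which is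
polynomial on lines and holds whenever some nonzero products of linear forms are nonzero at `x` holds for all `x` (consider `x + t k` with `k ∈ V`
where these forms do not vanish, `pvan`/`pvan'`; for two nonzero linear forms on `V` there is a common `k`).

`T1_eps` (`ε = 0` on `V`, `ψ ≠ 0` on `V`): CONCLUSION `D 3 = 0`. (If `ε = 0` then `β = 0`, so `ψ ≠ 0` as `g ≠ 0`.) PROOF. (T2): `γ(v²,q) = 0` if `ψ(v) ≠ 0`, so
always: `γ = 0` on `D 2`. (T0): `α(x,x²w) = 0`. (T3): `ρ(zx²,a) = -2α(x,a)ψ(z)ζ(x)`. Symmetry of `ρ`: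
  (1) `α(x,z'x'²)ψ(z)ζ(x) = α(x',zx²)ψ(z')ζ(x')`.
If `ψ(z') = 0`: take `z` with `ψ(z) = 1`: `α(x,z'x'²) = 0` for `ζ(x) ≠ 0`, so for all `x`: `z'x'² = 0` by (I). If `ζ(x') = 0`: in the same way
`z'x'² = 0` for all `z'`. Fix `z0, k0 ∈ V` with `ψ(z0) = 1`, `ζ(k0) = 1`, `K = V ∩ ker ζ`. So `D 3 = z0 D 2`, and it is spanned by `z0(k0k0)` and `z0(k0k)`,
`k ∈ K` (`z0(kk') = 0` by polarisation). Put `m(x;q) = α(x,z0q)`. (1) with `z = z' = z0`: `m(x;x'²)ζ(x) = m(x';x²)ζ(x')`. (T0) `m(x;x²) = 0`.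
Polarise, with `k, k' ∈ K`: `x' = k0`, `x = k0 + s k` (coefficient of `s`): `m(k;k0²) = 2 m(k0;k0k)`; `m(x;x²) = 0` at `k0 + sk`:
`s^0`: `m(k0;k0²) = 0`; `s^1`: `m(k;k0²) + 2m(k0;k0k) = 0`, so both vanish; `s²`: `2m(k;k0k) = 0` (`kk` contributes 0), and its polarisation
`m(k;k0k') + m(k';k0k) = 0`; (1) at `x = k0 + sk`, `x' = k0 + s'k'`, coefficient of `s s'`: `2m(k;k0k') = 2m(k';k0k)`; so `m(k;k0k') = 0`.
So `m = 0`, so `α = 0` on `D 3`, so `D 3 = 0`.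
-/

namespace JD

universe u

variable {F : Type u} [Field F] {A : Type u} [NonUnitalNonAssocCommRing A] [Module F A]
  [IsScalarTower F A A] [SMulCommClass F A A] {D : ℕ → Submodule F A}
  {g f u : A} {k4 k5 k6 ε : A →ₗ[F] F}

private theorem T1A_gamma (hT : TS D g f u k4 k5 k6 ε) (hε : ∀ x ∈ D 1, ε x = 0)
    (z0 : A) (hz0 : z0 ∈ D 1) (hψ : k5 (z0 * g) ≠ 0) (v : A) (hv : v ∈ D 1) (q : A)
    (hq : q ∈ D 2) : k4 ((v * v) * q) = 0 := by
  have h2 : (2 : F) ≠ 0 := hT.gj.two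
  have key : ∀ w ∈ D 1, k5 (w * g) ≠ 0 → k4 ((w * w) * q) = 0 := by
    intro w hw hw0
    have h := hT.t2 w hw q hq
    rw [hε w hw, mul_zero] at h
    exact (mul_eq_zero.mp h.symm).resolve_right hw0
  by_cases hv0 : k5 (v * g) = 0
  · have h1 := key (v + z0) ((D 1).add_mem hv hz0) (by
      rw [add_mul, map_add, hv0, zero_add]; exact hψ)
    have h3 := key (v - z0) ((D 1).sub_mem hv hz0) (by
      rw [sub_mul, map_sub, hv0, zero_sub]; exact neg_ne_zero.mpr hψ)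
    have h4 := key z0 hz0 hψ
    have e1 : k4 (((v + z0) * (v + z0)) * q) + k4 (((v - z0) * (v - z0)) * q) =
        2 * k4 ((v * v) * q) + 2 * k4 ((z0 * z0) * q) := by
      simp only [add_mul, mul_add, sub_mul, mul_sub, map_add, map_sub]
      ring
    rw [h1, h3, h4, mul_zero, add_zero, add_zero] at e1
    exact (mul_eq_zero.mp e1.symm).resolve_left h2
  · exact key v hv hv0

private theorem T1A_gamma2 (hT : TS D g f u k4 k5 k6 ε) (hε : ∀ x ∈ D 1, ε x = 0)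
    (z0 : A) (hz0 : z0 ∈ D 1) (hψ : k5 (z0 * g) ≠ 0) (x : A) (hx : x ∈ D 1) (w : A)
    (hw : w ∈ D 1) : k4 (x * (w * (x * x))) = 0 := by
  have h := hT.t0 x w
  rw [T1A_gamma hT hε z0 hz0 hψ x hx (x * w) (hT.gj.mul_mem 1 1 le_rfl le_rfl x hx w hw)] at h
  rw [mul_comm w (x * x)]
  exact h.symm

private theorem T1A_mem3 (hT : TS D g f u k4 k5 k6 ε) (z : A) (hz : z ∈ D 1) (x : A)
    (hx : x ∈ D 1) : z * (x * x) ∈ D 3 :=
  hT.gj.mul_mem 1 2 le_rfl (by norm_num) z hz _ (hT.gj.mul_mem 1 1 le_rfl le_rfl x hx x hx)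

/-- (1) -/
private theorem T1A_one (hT : TS D g f u k4 k5 k6 ε) (hε : ∀ x ∈ D 1, ε x = 0)
    (x : A) (hx : x ∈ D 1) (z : A) (hz : z ∈ D 1) (x' : A) (hx' : x' ∈ D 1) (z' : A)
    (hz' : z' ∈ D 1) :
    k4 (x * (z' * (x' * x'))) * k5 (z * g) * k6 (x * f) =
      k4 (x' * (z * (x * x))) * k5 (z' * g) * k6 (x' * f) := by
  have h2 : (2 : F) ≠ 0 := hT.gj.two
  have h1 := hT.t3 x hx z hz _ (T1A_mem3 hT z' hz' x' hx')
  have h3 := hT.t3 x' hx' z' hz' _ (T1A_mem3 hT z hz x hx)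
  rw [mul_comm (z' * (x' * x'))] at h3
  rw [hε x hx, hε z hz] at h1
  rw [hε x' hx', hε z' hz'] at h3
  rw [h1] at h3
  have h4 : (2 : F) * (k4 (x * (z' * (x' * x'))) * k5 (z * g) * k6 (x * f)) =
      2 * (k4 (x' * (z * (x * x))) * k5 (z' * g) * k6 (x' * f)) := by
    linear_combination -h3
  exact mul_left_cancel₀ h2 h4

/-- a functional `α(·, a)` that vanishes off the kernel of `ζ` vanishes -/
private theorem T1A_inj (hT : TS D g f u k4 k5 k6 ε) (k0 : A) (hk0 : k0 ∈ D 1)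
    (hζ : k6 (k0 * f) = 1) (a : A) (ha : a ∈ D 3)
    (h : ∀ x ∈ D 1, k6 (x * f) ≠ 0 → k4 (x * a) = 0) : a = 0 := by
  refine hT.inj a ha fun v hv => ?_
  by_cases hv0 : k6 (v * f) = 0
  · have h1 := h (v + k0) ((D 1).add_mem hv hk0) (by
      rw [add_mul, map_add, hv0, zero_add, hζ]; exact one_ne_zero)
    have h3 := h k0 hk0 (by rw [hζ]; exact one_ne_zero)
    rw [add_mul, map_add, h3, add_zero] at h1
    exact h1
  · exact h v hv hv0

theorem T1_eps (hT : TS D g f u k4 k5 k6 ε) (hε : ∀ x ∈ D 1, ε x = 0)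
    (hψ : ∃ x ∈ D 1, k5 (x * g) ≠ 0) : D 3 = ⊥ := by
  have h2 : (2 : F) ≠ 0 := hT.gj.two
  obtain ⟨z1, hz1, hz1'⟩ := hψ
  obtain ⟨k1, hk1, hk1'⟩ := hT.hζ
  -- normalise
  obtain ⟨z0, hz0, hψ0⟩ : ∃ z0 ∈ D 1, k5 (z0 * g) = 1 :=
    ⟨(k5 (z1 * g))⁻¹ • z1, (D 1).smul_mem _ hz1, by
      rw [smul_mul_assoc, map_smul, smul_eq_mul, inv_mul_cancel₀ hz1']⟩
  obtain ⟨k0, hk0, hζ0⟩ : ∃ k0 ∈ D 1, k6 (k0 * f) = 1 :=
    ⟨(k6 (k1 * f))⁻¹ • k1, (D 1).smul_mem _ hk1, by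
      rw [smul_mul_assoc, map_smul, smul_eq_mul, inv_mul_cancel₀ hk1']⟩
  have hψ0' : k5 (z0 * g) ≠ 0 := by rw [hψ0]; exact one_ne_zero
  -- z' x'^2 = 0 if ψ z' = 0
  have hE : ∀ z' ∈ D 1, k5 (z' * g) = 0 → ∀ x' ∈ D 1, z' * (x' * x') = 0 := by
    intro z' hz' h0 x' hx'
    refine T1A_inj hT k0 hk0 hζ0 _ (T1A_mem3 hT z' hz' x' hx') fun x hx hx0 => ?_
    have h := T1A_one hT hε x hx z0 hz0 x' hx' z' hz'
    rw [hψ0, h0, mul_one, mul_zero, zero_mul] at h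
    exact (mul_eq_zero.mp h).resolve_right hx0
  have hF : ∀ z' ∈ D 1, ∀ x' ∈ D 1, k6 (x' * f) = 0 → z' * (x' * x') = 0 := by
    intro z' hz' x' hx' h0
    refine T1A_inj hT k0 hk0 hζ0 _ (T1A_mem3 hT z' hz' x' hx') fun x hx hx0 => ?_
    have h := T1A_one hT hε x hx z0 hz0 x' hx' z' hz'
    rw [hψ0, h0, mul_one, mul_zero] at h
    exact (mul_eq_zero.mp h).resolve_right hx0
  -- the form H
  let H : A → A → F := fun x y =>
    2 * k4 (x * (z0 * (k0 * y))) - k6 (y * f) * k4 (x * (z0 * (k0 * k0)))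
  have hHl : ∀ x x' y, H (x + x') y = H x y + H x' y := by
    intro x x' y
    simp only [H, add_mul, map_add]
    ring
  have hHr : ∀ x y y', H x (y + y') = H x y + H x y' := by
    intro x y y'
    simp only [H, add_mul, mul_add, map_add]
    ring
  have hHnr : ∀ x y, H x (-y) = - H x y := by
    intro x y
    simp only [H, neg_mul, mul_neg, map_neg]
    ring
  have hHnl : ∀ x y, H (-x) y = - H x y := by
    intro x y
    simp only [H, neg_mul, mul_neg, map_neg]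
    ring
  have c1 : ∀ x ∈ D 1, ∀ y ∈ D 1, k4 (x * (z0 * (y * y))) = k6 (y * f) * H x y := by
    intro x hx y hy
    have hk : y - k6 (y * f) • k0 ∈ D 1 := (D 1).sub_mem hy ((D 1).smul_mem _ hk0)
    have h := hF z0 hz0 _ hk (by
      rw [sub_mul, smul_mul_assoc, map_sub, map_smul, hζ0, smul_eq_mul, mul_one, sub_self])
    have h3 := congrArg (fun a => k4 (x * a)) h
    simp only [sub_mul, mul_sub, smul_mul_assoc, mul_smul_comm, map_sub, map_smul,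
      smul_eq_mul, mul_zero, map_zero] at h3
    rw [mul_comm y k0] at h3
    simp only [H]
    linear_combination h3
  have c2 : ∀ x ∈ D 1, ∀ y ∈ D 1, k6 (x * f) ≠ 0 → k6 (y * f) ≠ 0 → H x y = H y x := by
    intro x hx y hy hx0 hy0
    have h := T1A_one hT hε x hx z0 hz0 y hy z0 hz0
    rw [hψ0, mul_one, mul_one, c1 x hx y hy, c1 y hy x hx] at h
    have h3 : (k6 (x * f) * k6 (y * f)) * H x y = (k6 (x * f) * k6 (y * f)) * H y x := by
      linear_combination h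
    exact mul_left_cancel₀ (mul_ne_zero hx0 hy0) h3
  have c3 : ∀ x ∈ D 1, k6 (x * f) ≠ 0 → H x x = 0 := by
    intro x hx hx0
    have h := T1A_gamma2 hT hε z0 hz0 hψ0' x hx z0 hz0
    rw [c1 x hx x hx] at h
    exact (mul_eq_zero.mp h).resolve_left hx0
  have hk0' : k6 (k0 * f) ≠ 0 := by rw [hζ0]; exact one_ne_zero
  have c4 : ∀ x ∈ D 1, H x x = 0 := by
    intro x hx
    by_cases hx0 : k6 (x * f) = 0
    · have h1 := c3 (x + k0) ((D 1).add_mem hx hk0) (by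
        rw [add_mul, map_add, hx0, zero_add, hζ0]; exact one_ne_zero)
      have h3 := c3 (x + -k0) ((D 1).add_mem hx ((D 1).neg_mem hk0)) (by
        rw [add_mul, neg_mul, map_add, map_neg, hx0, zero_add, hζ0]
        exact neg_ne_zero.mpr one_ne_zero)
      have h4 := c3 k0 hk0 hk0'
      rw [hHl, hHr, hHr, h4] at h1
      rw [hHl, hHr, hHr, hHnr, hHnl, hHnl, hHnr, h4] at h3
      have h5 : (2 : F) * H x x = 0 := by linear_combination h1 + h3
      exact (mul_eq_zero.mp h5).resolve_left h2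
    · exact c3 x hx hx0
  have c5 : ∀ x ∈ D 1, ∀ y ∈ D 1, H x y + H y x = 0 := by
    intro x hx y hy
    have h := c4 (x + y) ((D 1).add_mem hx hy)
    rw [hHl, hHr, hHr, c4 x hx, c4 y hy] at h
    linear_combination h
  have c6 : ∀ x ∈ D 1, ∀ y ∈ D 1, k6 (x * f) ≠ 0 → k6 (y * f) ≠ 0 → H x y = 0 := by
    intro x hx y hy hx0 hy0
    have h1 := c2 x hx y hy hx0 hy0
    have h3 := c5 x hx y hy
    rw [← h1, ← two_mul] at h3
    exact (mul_eq_zero.mp h3).resolve_left h2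
  have c7 : ∀ x ∈ D 1, ∀ y ∈ D 1, k6 (y * f) ≠ 0 → H x y = 0 := by
    intro x hx y hy hy0
    by_cases hx0 : k6 (x * f) = 0
    · have h1 := c6 (x + k0) ((D 1).add_mem hx hk0) y hy (by
        rw [add_mul, map_add, hx0, zero_add, hζ0]; exact one_ne_zero) hy0
      rw [hHl, c6 k0 hk0 y hy hk0' hy0, add_zero] at h1
      exact h1
    · exact c6 x hx y hy hx0 hy0
  have c8 : ∀ y ∈ D 1, z0 * (y * y) = 0 := by
    intro y hy
    refine hT.inj _ (T1A_mem3 hT z0 hz0 y hy) fun x hx => ?_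
    rw [c1 x hx y hy]
    by_cases hy0 : k6 (y * f) = 0
    · rw [hy0, zero_mul]
    · rw [c7 x hx y hy hy0, mul_zero]
  have c9 : ∀ z ∈ D 1, ∀ y ∈ D 1, z * (y * y) = 0 := by
    intro z hz y hy
    have h := hE (z - k5 (z * g) • z0) ((D 1).sub_mem hz ((D 1).smul_mem _ hz0)) (by
      rw [sub_mul, smul_mul_assoc, map_sub, map_smul, hψ0, smul_eq_mul, mul_one, sub_self]) y hy
    rw [sub_mul, smul_mul_assoc, c8 y hy, smul_zero, sub_zero] at h
    exact h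
  have c10 : ∀ z ∈ D 1, ∀ q ∈ D 2, z * q = 0 := by
    intro z hz q hq
    have h : D 2 ≤ LinearMap.ker (LinearMap.mulLeft F z) := by
      refine hT.gj.sq _ fun v hv => ?_
      rw [LinearMap.mem_ker, LinearMap.mulLeft_apply]
      exact c9 z hz v hv
    have h3 := h hq
    rwa [LinearMap.mem_ker, LinearMap.mulLeft_apply] at h3
  rw [eq_bot_iff]
  refine hT.gj.gen 3 le_rfl ⊥ ?_ ?_
  · intro v hv h hh
    rw [Submodule.mem_bot]
    exact c10 v hv h hh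
  · intro q hq h hh
    rw [Submodule.mem_bot, mul_comm]
    exact c10 h hh q hq

end JD
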