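import Pool.Agent.H9.JH.T0

set_option autoImplicit false

/-!
# JH T1B: `dim D 4 = dim D 5 = 1`, the cases `ψ = 0` and `ψ, ε` independent

Notation of `T0`: `α(v,a) = k4(v a)`, `γ(q,q') = k4(q q')`, `ψ(v) = k5(v g)`, `ζ(v) = k6(v f)`, `β(q) = k6(q g)`,
`ρ(a,a') = k6(a a')` (symmetric), and (T0) `γ(x²,xw) = α(x,x²w)`, (T2) `α(v,vq)ε(v) = γ(v²,q)ψ(v)`, (T3) the formula for `ρ(zx²,a)`,
(I) injectivity. `D 3` is spanned by the `z x²` (`gen 3`, `GJ.sq`), `D 2` by the squares. DENSITY: an identity in `x ∈ V` which is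
polynomial on lines and holds whenever some nonzero products of linear forms are nonzero at `x` holds for all `x` (consider `x + t k` with `k ∈ V`
where these forms do not vanish, `pvan`/`pvan'`; for two nonzero linear forms on `V` there is a common `k`).

`T1_vq`: IF `α(v,vq) = 0` for all `v ∈ V`, `q ∈ D 2`, AND `α(x,wx²) = 0` for all `x,w ∈ V`, and `ε ≠ 0` on `V`, THEN `D 3 = 0`. PROOF. (T3) with
`a = w'x²`: `ρ(wx²,w'x²) = ζ(x)ε(x)α(w,w'x²)` (the other terms contain `α(x,w'x²) = 0`); `ρ` is symmetric: `α(w,w'x²) = α(w',wx²)` if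
`ζ(x)ε(x) ≠ 0`, so for all `x`. But `α(w,w'q) + α(w',wq) = 0` (polarise `α(v,vq) = 0`). So `2α(w,w'x²) = 0`: `α = 0` on `D 3`: `D 3 = 0`.

`T1_psi` (`ψ = 0` on `V`, `ε ≠ 0`): CONCLUSION `D 3 = 0`. PROOF. (T2): `α(v,vq) = 0` for `ε(v) ≠ 0`, so always. Polarise: `α(w,xx²) = -α(x,wx²)`,
`α(x,xx²) = 0`. (T3) (`ψ = 0`): `ρ(xx²,wx²) = 3ζ(x)ε(x)α(x,wx²)`, and
`ρ(wx²,xx²) = ζ(x)ε(x)α(w,xx²) + (..)α(x,xx²) = -ζ(x)ε(x)α(x,wx²)`. So `4ζ(x)ε(x)α(x,wx²) = 0`, `α(x,wx²) = 0`. Use `T1_vq`.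

`T1_indep` (there are `x1, x2 ∈ V` with `ψ(x1) ≠ 0, ε(x1) = 0`, and `ψ(x2) = 0`, `ε(x2) ≠ 0`; i.e. `ψ, ε` independent): CONCLUSION `D 3 = 0`. PROOF. (T0) with
`w = x` and (T2) with `q = v²`: `γ(v²,v²)ε(v) = α(v,vv²)ε(v) = γ(v²,v²)ψ(v)`, so `γ(v²,v²) = 0` for `ε(v) ≠ ψ(v)`, so always. Polarise: `γ(v²,vw) = 0` and
`γ(v²,yw) + 2γ(vy,vw) = 0`. For `v ∈ ker ε`: (T2) `γ(v²,q)ψ(v) = 0`, so `γ(v²,q) = 0` for all `v ∈ K' = V ∩ ker ε` (density in `K'`, `x1`); so
`γ(kk',q) = 0` for `k,k' ∈ K'`. `V = F x2 + K'`: `γ(x2²,x2²) = 0`, `γ(x2²,x2k) = 0`, `2γ(x2k,x2k') = -γ(x2²,kk') = 0`. So `γ = 0` on `D 2`. (T2): `α(v,vq) = 0`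
(for `ε(v) ≠ 0`, so always); (T0): `α(x,x²w) = 0`. Use `T1_vq`.
-/

namespace JD

universe u

/-! ### polynomial curves -/

section curves

variable {F : Type u} [Field F]

/-- polynomial curves in a vector space -/
private def T1B_PC {W : Type u} [AddCommGroup W] [Module F W] (f : F → W) : Prop :=
  ∃ (n : ℕ) (c : ℕ → W), ∀ t, f t = ∑ i ∈ Finset.range n, t ^ i • c i

section
variable {W : Type u} [AddCommGroup W] [Module F W]

private theorem T1B_const (a : W) : T1B_PC (F := F) (fun _ => a) :=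
  ⟨1, fun _ => a, fun t => by simp⟩

private theorem T1B_pad {f : F → W} {n : ℕ} {c : ℕ → W}
    (h : ∀ t, f t = ∑ i ∈ Finset.range n, t ^ i • c i) (N : ℕ) (hN : n ≤ N) :
    ∀ t, f t = ∑ i ∈ Finset.range N, t ^ i • (if i < n then c i else 0) := by
  intro t
  rw [h t]
  rw [← Finset.sum_subset (Finset.range_subset_range.2 hN)]
  · refine Finset.sum_congr rfl fun i hi => ?_
    rw [if_pos (Finset.mem_range.1 hi)]
  · intro i _ hi
    rw [if_neg (fun h => hi (Finset.mem_range.2 h)), smul_zero]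

private theorem T1B_add {f g : F → W} (hf : T1B_PC f) (hg : T1B_PC g) :
    T1B_PC (fun t => f t + g t) := by
  obtain ⟨n, c, hc⟩ := hf
  obtain ⟨m, d, hd⟩ := hg
  refine ⟨max n m, fun i => (if i < n then c i else 0) + (if i < m then d i else 0), fun t => ?_⟩
  beta_reduce
  rw [T1B_pad hc (max n m) (le_max_left _ _) t, T1B_pad hd (max n m) (le_max_right _ _) t,
    ← Finset.sum_add_distrib]
  exact Finset.sum_congr rfl fun i _ => (smul_add _ _ _).symm

private theorem T1B_map {W' : Type u} [AddCommGroup W'] [Module F W'] (L : W →ₗ[F] W')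
    {f : F → W} (hf : T1B_PC f) : T1B_PC (fun t => L (f t)) := by
  obtain ⟨n, c, hc⟩ := hf
  refine ⟨n, fun i => L (c i), fun t => ?_⟩
  beta_reduce
  rw [hc t, map_sum]
  exact Finset.sum_congr rfl fun i _ => map_smul _ _ _

private theorem T1B_neg {f : F → W} (hf : T1B_PC f) : T1B_PC (fun t => - f t) :=
  T1B_map (-LinearMap.id) hf

private theorem T1B_sub {f g : F → W} (hf : T1B_PC f) (hg : T1B_PC g) :
    T1B_PC (fun t => f t - g t) := by
  simpa only [sub_eq_add_neg] using T1B_add hf (T1B_neg hg)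

private theorem T1B_shift {f : F → W} (hf : T1B_PC f) : T1B_PC (fun t => t • f t) := by
  obtain ⟨n, c, hc⟩ := hf
  refine ⟨n + 1, fun i => Nat.casesOn i 0 c, fun t => ?_⟩
  beta_reduce
  rw [Finset.sum_range_succ', hc t, Finset.smul_sum]
  have e : t ^ 0 • (Nat.casesOn 0 0 c : W) = 0 := smul_zero _
  rw [e, add_zero]
  refine Finset.sum_congr rfl fun i _ => ?_
  rw [smul_smul, pow_succ']

private theorem T1B_line (a b : W) : T1B_PC (F := F) (fun t => a + t • b) :=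
  T1B_add (T1B_const a) (T1B_shift (T1B_const b))

private theorem T1B_pow {f : F → W} (hf : T1B_PC f) (i : ℕ) :
    T1B_PC (fun t => t ^ i • f t) := by
  induction i with
  | zero => simpa using hf
  | succ i ih =>
    have := T1B_shift ih
    simpa only [smul_smul, ← pow_succ'] using this

private theorem T1B_sum {ι : Type} (s : Finset ι) (f : ι → F → W)
    (hf : ∀ i ∈ s, T1B_PC (f i)) : T1B_PC (fun t => ∑ i ∈ s, f i t) := by
  classical
  induction s using Finset.induction_on with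
  | empty => simpa using T1B_const (F := F) (0 : W)
  | insert i s hi ih =>
    simp only [Finset.sum_insert hi]
    exact T1B_add (hf i (Finset.mem_insert_self i s))
      (ih fun j hj => hf j (Finset.mem_insert_of_mem hj))

private theorem T1B_zero [Infinite F] {f : F → W} (hf : T1B_PC f) (P : Polynomial F) (hP : P ≠ 0)
    (h : ∀ t, P.eval t ≠ 0 → f t = 0) (t : F) : f t = 0 := by
  obtain ⟨n, c, hc⟩ := hf
  have h1 := pvan P hP n c fun t ht => by rw [← hc t]; exact h t ht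
  rw [hc t]
  exact Finset.sum_eq_zero fun i hi => by rw [h1 i (Finset.mem_range.1 hi), smul_zero]

end

private theorem T1B_mul {A : Type u} [NonUnitalNonAssocCommRing A] [Module F A]
    [IsScalarTower F A A] [SMulCommClass F A A] {f g : F → A} (hf : T1B_PC f) (hg : T1B_PC g) :
    T1B_PC (fun t => f t * g t) := by
  obtain ⟨n, c, hc⟩ := hf
  have h : ∀ t, f t * g t = ∑ i ∈ Finset.range n, t ^ i • (c i * g t) := by
    intro t
    rw [hc t, Finset.sum_mul]
    exact Finset.sum_congr rfl fun i _ => smul_mul_assoc _ _ _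
  simp only [h]
  exact T1B_sum _ _ fun i _ => T1B_pow (T1B_map (LinearMap.mulLeft F (c i)) hg) i

end curves

/-- the linear coefficient -/
private theorem T1B_lin {F : Type u} [Field F] [Infinite F] {W : Type u} [AddCommGroup W]
    [Module F W] {r : F → W} (hr : T1B_PC r) (a b : W)
    (h : ∀ t : F, a + t • (b + t • r t) = 0) : b = 0 := by
  have ha : a = 0 := by simpa using h 0
  subst ha
  have h1 := T1B_zero (T1B_add (T1B_const b) (T1B_shift hr)) Polynomial.X Polynomial.X_ne_zero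
    (fun t ht => by
      rw [Polynomial.eval_X] at ht
      have := h t
      rw [zero_add] at this
      exact (smul_eq_zero.1 this).resolve_left ht) 0
  simpa using h1

variable {F : Type u} [Field F] {A : Type u} [NonUnitalNonAssocCommRing A] [Module F A]
  [IsScalarTower F A A] [SMulCommClass F A A] {D : ℕ → Submodule F A}
  {g f u : A} {k4 k5 k6 ε : A →ₗ[F] F}

private theorem T1B_sq (v w : A) (t : F) :
    (v + t • w) * (v + t • w) = v * v + (2 * t) • (v * w) + (t * t) • (w * w) := by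
  rw [add_mul, mul_add, mul_add, smul_mul_smul_comm, mul_smul_comm, smul_mul_assoc, mul_comm w v,
    two_mul, add_smul]
  abel

private theorem T1B_sq_sq (φ : A →ₗ[F] F) (p q r : A) (a b : F) :
    φ ((p + a • q + b • r) * (p + a • q + b • r)) =
      φ (p * p) + 2 * a * φ (p * q) + 2 * b * φ (p * r) + a * a * φ (q * q) +
        2 * a * b * φ (q * r) + b * b * φ (r * r) := by
  simp only [add_mul, mul_add, smul_mul_assoc, mul_smul_comm, map_add, map_smul, smul_eq_mul]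
  rw [mul_comm q p, mul_comm r p, mul_comm r q]
  ring

private theorem T1B_line_ne (φ : A →ₗ[F] F) (x k : A) (hk : φ k ≠ 0) :
    (Polynomial.C (φ x) + Polynomial.C (φ k) * Polynomial.X) ≠ 0 := by
  intro h
  have := congrArg (fun R => Polynomial.coeff R 1) h
  simp at this
  exact hk this

private theorem T1B_line_eval (φ : A →ₗ[F] F) (x k : A) (t : F) :
    (Polynomial.C (φ x) + Polynomial.C (φ k) * Polynomial.X).eval t = φ (x + t • k) := by
  simp
  ring

/-- density for one linear form -/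
private theorem T1B_dens1 [Infinite F] {W : Type u} [AddCommGroup W] [Module F W]
    (φ : A →ₗ[F] F) (Φ : A → W) (x k : A) (hk : φ k ≠ 0)
    (hPC : T1B_PC (fun t : F => Φ (x + t • k)))
    (h : ∀ t : F, φ (x + t • k) ≠ 0 → Φ (x + t • k) = 0) : Φ x = 0 := by
  have := T1B_zero hPC _ (T1B_line_ne φ x k hk) (fun t ht => by
    rw [T1B_line_eval] at ht
    exact h t ht) 0
  simpa using this

/-- density for two linear forms -/
private theorem T1B_dens2 [Infinite F] {W : Type u} [AddCommGroup W] [Module F W]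
    (φ φ' : A →ₗ[F] F) (Φ : A → W) (x k : A) (hk : φ k ≠ 0) (hk' : φ' k ≠ 0)
    (hPC : T1B_PC (fun t : F => Φ (x + t • k)))
    (h : ∀ t : F, φ (x + t • k) ≠ 0 → φ' (x + t • k) ≠ 0 → Φ (x + t • k) = 0) : Φ x = 0 := by
  have := T1B_zero hPC _ (mul_ne_zero (T1B_line_ne φ x k hk) (T1B_line_ne φ' x k hk'))
    (fun t ht => by
      rw [Polynomial.eval_mul, T1B_line_eval, T1B_line_eval] at ht
      exact h t (left_ne_zero_of_mul ht) (right_ne_zero_of_mul ht)) 0
  simpa using this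

private theorem T1B_common (T : Submodule F A) (φ φ' : A →ₗ[F] F) (h : ∃ x ∈ T, φ x ≠ 0)
    (h' : ∃ x ∈ T, φ' x ≠ 0) : ∃ x ∈ T, φ x ≠ 0 ∧ φ' x ≠ 0 := by
  obtain ⟨x, hx, hx1⟩ := h
  obtain ⟨y, hy, hy1⟩ := h'
  by_cases h1 : φ' x = 0
  · by_cases h2 : φ y = 0
    · refine ⟨x + y, T.add_mem hx hy, ?_, ?_⟩
      · rw [map_add, h2, add_zero]; exact hx1
      · rw [map_add, h1, zero_add]; exact hy1
    · exact ⟨y, hy, h2, hy1⟩
  · exact ⟨x, hx, hx1, h1⟩

/-- the linear form `x ↦ φ (x h)` -/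
private def T1B_form (φ : A →ₗ[F] F) (h : A) : A →ₗ[F] F := φ ∘ₗ LinearMap.mulRight F h

private theorem T1B_form_apply (φ : A →ₗ[F] F) (h x : A) : T1B_form φ h x = φ (x * h) := rfl

private theorem T1B_two (hT : TS D g f u k4 k5 k6 ε) : (2 : F) ≠ 0 := hT.gj.two

private theorem T1B_m2 (hT : TS D g f u k4 k5 k6 ε) {x y : A} (hx : x ∈ D 1) (hy : y ∈ D 1) :
    x * y ∈ D 2 := hT.gj.mul_mem 1 1 le_rfl le_rfl x hx y hy

private theorem T1B_m3 (hT : TS D g f u k4 k5 k6 ε) {x q : A} (hx : x ∈ D 1) (hq : q ∈ D 2) :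
    x * q ∈ D 3 := hT.gj.mul_mem 1 2 le_rfl one_le_two x hx q hq

/-- `D 3 = 0` if all `w x² = 0` -/
private theorem T1B_D3 (hT : TS D g f u k4 k5 k6 ε)
    (h : ∀ x ∈ D 1, ∀ w ∈ D 1, w * (x * x) = 0) : D 3 = ⊥ := by
  have h1 : ∀ w ∈ D 1, ∀ q ∈ D 2, w * q = 0 := by
    intro w hw q hq
    exact hT.gj.sq (LinearMap.ker (LinearMap.mulLeft F w)) (fun v hv => h v hv w hw) hq
  rw [eq_bot_iff]
  refine hT.gj.gen 3 le_rfl ⊥ (fun v hv q hq => ?_) (fun q hq v hv => ?_)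
  · exact h1 v hv q hq
  · rw [mul_comm]
    exact h1 v hv q hq

/-- polarisation of `α(v,vq) = 0` -/
private theorem T1B_pol (h1 : ∀ v ∈ D 1, ∀ q ∈ D 2, k4 (v * (v * q)) = 0) (w : A) (hw : w ∈ D 1)
    (w' : A) (hw' : w' ∈ D 1) (q : A) (hq : q ∈ D 2) :
    k4 (w * (w' * q)) + k4 (w' * (w * q)) = 0 := by
  have a := h1 (w + w') ((D 1).add_mem hw hw') q hq
  have b := h1 w hw q hq
  have c := h1 w' hw' q hq
  rw [add_mul, add_mul, mul_add, mul_add, map_add, map_add, map_add, b, c] at a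
  simpa using a

theorem T1_vq (hT : TS D g f u k4 k5 k6 ε) (hε : ∃ x ∈ D 1, ε x ≠ 0)
    (h1 : ∀ v ∈ D 1, ∀ q ∈ D 2, k4 (v * (v * q)) = 0)
    (h2 : ∀ x ∈ D 1, ∀ w ∈ D 1, k4 (x * (w * (x * x))) = 0) : D 3 = ⊥ := by
  have hinf := hT.gj.inf
  have h2' := T1B_two hT
  obtain ⟨k, hk, hk1, hk2⟩ := T1B_common (D 1) (T1B_form k6 f) ε hT.hζ hε
  -- symmetry
  have hsym : ∀ w ∈ D 1, ∀ w' ∈ D 1, ∀ x ∈ D 1,
      k4 (w * (w' * (x * x))) - k4 (w' * (w * (x * x))) = 0 := by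
    intro w hw w' hw' x hx
    have hL : ∀ y : F → A, T1B_PC y → ∀ a b : A, T1B_PC (fun t => k4 (a * (b * (y t * y t)))) := by
      intro y hy a b
      exact T1B_map k4 (T1B_map (LinearMap.mulLeft F a) (T1B_map (LinearMap.mulLeft F b)
        (T1B_mul hy hy)))
    refine T1B_dens2 (T1B_form k6 f) ε
      (fun x => k4 (w * (w' * (x * x))) - k4 (w' * (w * (x * x)))) x k hk1 hk2
      (T1B_sub (hL _ (T1B_line x k) w w') (hL _ (T1B_line x k) w' w)) ?_
    intro t ht1 ht2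
    have hy : x + t • k ∈ D 1 := (D 1).add_mem hx ((D 1).smul_mem t hk)
    set y := x + t • k with hyd
    have e1 := hT.t3 y hy w hw (w' * (y * y)) (T1B_m3 hT hw' (T1B_m2 hT hy hy))
    have e2 := hT.t3 y hy w' hw' (w * (y * y)) (T1B_m3 hT hw (T1B_m2 hT hy hy))
    rw [h2 y hy w' hw'] at e1
    rw [h2 y hy w hw] at e2
    rw [mul_comm (w' * (y * y)) (w * (y * y)), e1] at e2
    have e3 : k6 (y * f) * ε y * (k4 (w * (w' * (y * y))) - k4 (w' * (w * (y * y)))) = 0 := by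
      linear_combination e2
    exact (mul_eq_zero.1 e3).resolve_left (mul_ne_zero ht1 ht2)
  refine T1B_D3 hT fun x hx w' hw' => ?_
  refine hT.inj _ (T1B_m3 hT hw' (T1B_m2 hT hx hx)) fun w hw => ?_
  have e1 := hsym w hw w' hw' x hx
  have e2 := T1B_pol h1 w hw w' hw' (x * x) (T1B_m2 hT hx hx)
  have e3 : (2 : F) * k4 (w * (w' * (x * x))) = 0 := by linear_combination e1 + e2
  exact (mul_eq_zero.1 e3).resolve_left h2'

/-- `α(v,vq) = 0` from `γ(v²,q)ψ(v) = 0` -/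
private theorem T1B_avq (hT : TS D g f u k4 k5 k6 ε) (hε : ∃ x ∈ D 1, ε x ≠ 0)
    (h : ∀ v ∈ D 1, ∀ q ∈ D 2, k4 ((v * v) * q) * k5 (v * g) = 0) :
    ∀ v ∈ D 1, ∀ q ∈ D 2, k4 (v * (v * q)) = 0 := by
  have hinf := hT.gj.inf
  obtain ⟨k, hk, hk1⟩ := hε
  intro v hv q hq
  refine T1B_dens1 ε (fun v => k4 (v * (v * q))) v k hk1 ?_ ?_
  · exact T1B_map k4 (T1B_mul (T1B_line v k)
      (T1B_map (LinearMap.mulRight F q) (T1B_line v k)))
  · intro t ht
    have hy : v + t • k ∈ D 1 := (D 1).add_mem hv ((D 1).smul_mem t hk)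
    have e := hT.t2 _ hy q hq
    rw [h _ hy q hq] at e
    exact (mul_eq_zero.1 e).resolve_right ht

theorem T1_psi (hT : TS D g f u k4 k5 k6 ε) (hε : ∃ x ∈ D 1, ε x ≠ 0)
    (hψ : ∀ x ∈ D 1, k5 (x * g) = 0) : D 3 = ⊥ := by
  have hinf := hT.gj.inf
  have h2' := T1B_two hT
  have h1 := T1B_avq hT hε fun v hv q hq => by rw [hψ v hv, mul_zero]
  refine T1_vq hT hε h1 ?_
  obtain ⟨k, hk, hk1, hk2⟩ := T1B_common (D 1) (T1B_form k6 f) ε hT.hζ hε
  intro x hx w hw
  refine T1B_dens2 (T1B_form k6 f) ε (fun x => k4 (x * (w * (x * x)))) x k hk1 hk2 ?_ ?_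
  · exact T1B_map k4 (T1B_mul (T1B_line x k)
      (T1B_map (LinearMap.mulLeft F w) (T1B_mul (T1B_line x k) (T1B_line x k))))
  · intro t ht1 ht2
    have hy : x + t • k ∈ D 1 := (D 1).add_mem hx ((D 1).smul_mem t hk)
    set y := x + t • k with hyd
    have hq := T1B_m2 hT hy hy
    have e1 := hT.t3 y hy y hy (w * (y * y)) (T1B_m3 hT hw hq)
    have e2 := hT.t3 y hy w hw (y * (y * y)) (T1B_m3 hT hy hq)
    have e3 := h1 y hy (y * y) hq
    have e4 := T1B_pol h1 w hw y hy (y * y) hq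
    rw [hψ y hy] at e1
    rw [hψ w hw, e3] at e2
    rw [mul_comm (w * (y * y)) (y * (y * y)), e1] at e2
    have e5 : (2 : F) * 2 * (k6 (y * f) * ε y) * k4 (y * (w * (y * y))) = 0 := by
      linear_combination e2 + (k6 (y * f) * ε y) * e4
    exact (mul_eq_zero.1 e5).resolve_left
      (mul_ne_zero (mul_ne_zero h2' h2') (mul_ne_zero ht1 ht2))

theorem T1_indep (hT : TS D g f u k4 k5 k6 ε)
    (h1 : ∃ x ∈ D 1, k5 (x * g) ≠ 0 ∧ ε x = 0) (h2 : ∃ x ∈ D 1, k5 (x * g) = 0 ∧ ε x ≠ 0) :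
    D 3 = ⊥ := by
  have hinf := hT.gj.inf
  have h2' := T1B_two hT
  obtain ⟨x1, hx1, hx11, hx12⟩ := h1
  obtain ⟨x2, hx2, hx21, hx22⟩ := h2
  -- (G)
  have hG : ∀ v ∈ D 1, k4 ((v * v) * (v * v)) = 0 := by
    intro v hv
    refine T1B_dens1 (ε - T1B_form k5 g) (fun v => k4 ((v * v) * (v * v))) v x1 ?_ ?_ ?_
    · rw [LinearMap.sub_apply, hx12, zero_sub, T1B_form_apply]
      exact neg_ne_zero.2 hx11
    · exact T1B_map k4 (T1B_mul (T1B_mul (T1B_line v x1) (T1B_line v x1))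
        (T1B_mul (T1B_line v x1) (T1B_line v x1)))
    · intro t ht
      have hy : v + t • x1 ∈ D 1 := (D 1).add_mem hv ((D 1).smul_mem t hx1)
      set y := v + t • x1 with hyd
      have e1 := hT.t0 y y
      have e2 := hT.t2 y hy (y * y) (T1B_m2 hT hy hy)
      rw [mul_comm (y * y) y] at e1
      rw [← e1] at e2
      rw [LinearMap.sub_apply, T1B_form_apply] at ht
      have e3 : k4 ((y * y) * (y * y)) * (ε y - k5 (y * g)) = 0 := by linear_combination e2
      exact (mul_eq_zero.1 e3).resolve_right ht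
  -- (G1)
  have hP1 : ∀ v ∈ D 1, ∀ w ∈ D 1, k4 ((v * v) * (v * w)) = 0 := by
    intro v hv w hw
    have e : (4 : F) * k4 ((v * v) * (v * w)) = 0 := by
      refine T1B_lin (r := fun t : F => (2 * k4 ((v * v) * (w * w)) +
        4 * k4 ((v * w) * (v * w))) + t • ((4 * k4 ((v * w) * (w * w))) +
          t • k4 ((w * w) * (w * w)))) ?_ (k4 ((v * v) * (v * v))) _ ?_
      · exact T1B_add (T1B_const _) (T1B_shift (T1B_line _ _))
      · intro t
        have h := hG _ ((D 1).add_mem hv ((D 1).smul_mem t hw))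
        rw [T1B_sq, T1B_sq_sq] at h
        simp only [smul_eq_mul]
        linear_combination h
    have h4 : (4 : F) = 2 * 2 := by norm_num
    rw [h4] at e
    exact (mul_eq_zero.1 e).resolve_left (mul_ne_zero h2' h2')
  -- (G2)
  have hP2 : ∀ v ∈ D 1, ∀ y ∈ D 1, ∀ w ∈ D 1,
      k4 ((v * v) * (y * w)) + 2 * k4 ((v * y) * (v * w)) = 0 := by
    intro v hv y hy w hw
    have e1 := hP1 (v + (1 : F) • y) ((D 1).add_mem hv ((D 1).smul_mem _ hy)) w hw
    have e2 := hP1 (v + (-1 : F) • y) ((D 1).add_mem hv ((D 1).smul_mem _ hy)) w hw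
    have e3 := hP1 y hy w hw
    rw [T1B_sq] at e1 e2
    simp only [add_mul, mul_add, smul_mul_assoc, mul_smul_comm, map_add, map_smul,
      smul_eq_mul] at e1 e2
    have e4 : (2 : F) * (k4 ((v * v) * (y * w)) + 2 * k4 ((v * y) * (v * w))) = 0 := by
      linear_combination e1 - e2 - 2 * e3
    exact (mul_eq_zero.1 e4).resolve_left h2'
  -- (K)
  have hK : ∀ v ∈ D 1, ε v = 0 → ∀ q ∈ D 2, k4 ((v * v) * q) = 0 := by
    intro v hv hv0 q hq
    refine T1B_dens1 (T1B_form k5 g) (fun v => k4 ((v * v) * q)) v x1 hx11 ?_ ?_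
    · exact T1B_map k4 (T1B_map (LinearMap.mulRight F q)
        (T1B_mul (T1B_line v x1) (T1B_line v x1)))
    · intro t ht
      have hy : v + t • x1 ∈ D 1 := (D 1).add_mem hv ((D 1).smul_mem t hx1)
      have hy0 : ε (v + t • x1) = 0 := by rw [map_add, map_smul, hv0, hx12, smul_zero, add_zero]
      have e := hT.t2 _ hy q hq
      rw [hy0, mul_zero] at e
      exact (mul_eq_zero.1 e.symm).resolve_right ht
  have hK' : ∀ v ∈ D 1, ε v = 0 → ∀ w ∈ D 1, ε w = 0 → ∀ q ∈ D 2, k4 ((v * w) * q) = 0 := by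
    intro v hv hv0 w hw hw0 q hq
    have e1 := hK (v + (1 : F) • w) ((D 1).add_mem hv ((D 1).smul_mem _ hw))
      (by rw [map_add, map_smul, hv0, hw0, smul_zero, add_zero]) q hq
    have e2 := hK v hv hv0 q hq
    have e3 := hK w hw hw0 q hq
    rw [T1B_sq] at e1
    simp only [add_mul, smul_mul_assoc, map_add, map_smul, smul_eq_mul] at e1
    have e4 : (2 : F) * k4 ((v * w) * q) = 0 := by
      linear_combination e1 - e2 - e3
    exact (mul_eq_zero.1 e4).resolve_left h2'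
  -- decomposition
  have hdec : ∀ v ∈ D 1, ∃ (s : F) (k : A), k ∈ D 1 ∧ ε k = 0 ∧ v = k + s • x2 := by
    intro v hv
    refine ⟨ε v / ε x2, v - (ε v / ε x2) • x2, (D 1).sub_mem hv ((D 1).smul_mem _ hx2), ?_, ?_⟩
    · rw [map_sub, map_smul, smul_eq_mul]
      field_simp
      ring
    · abel
  have hsq : ∀ v ∈ D 1, ∀ w ∈ D 1, k4 ((v * v) * (w * w)) = 0 := by
    intro v hv w hw
    obtain ⟨s, k, hk, hk0, rfl⟩ := hdec v hv
    obtain ⟨s', k', hk', hk0', rfl⟩ := hdec w hw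
    have hx22 := T1B_m2 hT hx2 hx2
    have hkx := T1B_m2 hT hk hx2
    have hkx' := T1B_m2 hT hk' hx2
    have hkk' := T1B_m2 hT hk' hk'
    have a1 := hK k hk hk0 _ hkk'
    have a2 := hK k hk hk0 _ hkx'
    have a3 := hK k hk hk0 _ hx22
    have b1 := hK k' hk' hk0' _ hkx
    have b3 := hK k' hk' hk0' _ hx22
    have c1 := hP1 x2 hx2 k' hk'
    have c2 := hP1 x2 hx2 k hk
    have c3 := hG x2 hx2
    have d1 := hP2 x2 hx2 k hk k' hk'
    have d2 := hK' k hk hk0 k' hk' hk0' _ hx22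
    rw [mul_comm (k' * k') (k * x2)] at b1
    rw [mul_comm (k' * k') (x2 * x2)] at b3
    rw [mul_comm x2 k'] at c1
    rw [mul_comm x2 k, mul_comm (x2 * x2) (k * x2)] at c2
    rw [mul_comm (k * k') (x2 * x2)] at d2
    rw [d2, zero_add, mul_comm x2 k, mul_comm x2 k'] at d1
    have d3 := (mul_eq_zero.1 d1).resolve_left h2'
    rw [T1B_sq, T1B_sq]
    simp only [add_mul, mul_add, smul_mul_assoc, mul_smul_comm, map_add, map_smul, smul_eq_mul]
    rw [a1, a2, a3, b1, b3, c1, c2, c3, d3]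
    ring
  have hγ : ∀ q ∈ D 2, ∀ q' ∈ D 2, k4 (q * q') = 0 := by
    have h3 : ∀ v ∈ D 1, ∀ q ∈ D 2, k4 ((v * v) * q) = 0 := fun v hv q hq =>
      hT.gj.sq (LinearMap.ker (k4 ∘ₗ LinearMap.mulLeft F (v * v)))
        (fun w hw => hsq v hv w hw) hq
    intro q hq q' hq'
    exact hT.gj.sq (LinearMap.ker (k4 ∘ₗ LinearMap.mulRight F q'))
        (fun w hw => h3 w hw q' hq') hq
  refine T1_vq hT ⟨x2, hx2, hx22⟩ (T1B_avq hT ⟨x2, hx2, hx22⟩ fun v hv q hq => ?_) ?_
  · rw [hγ _ (T1B_m2 hT hv hv) q hq, zero_mul]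
  · intro x hx w hw
    have e := hT.t0 x w
    rw [hγ _ (T1B_m2 hT hx hx) _ (T1B_m2 hT hx hw), mul_comm (x * x) w] at e
    exact e.symm

end JD
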